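import Mathlib

open Finset

namespace Pool.Agent.Lib.MP_5cebc8_co

/-- a rooted tree with a proper two-colouring, given by its parent map -/
structure RT (V : Type) where
  root : V
  par : V → V
  dep : V → ℕ
  sd : V → Bool
  par_root : par root = root
  dep_root : dep root = 0
  dep_par : ∀ v, v ≠ root → dep v = dep (par v) + 1
  sd_par : ∀ v, v ≠ root → sd (par v) ≠ sd v

namespace RT

variable {V : Type} (T : RT V)

/-- labels are distinct on each side and the edge sums are distinct -/
def Good {G : Type} [Add G] (ψ : V → G) : Prop :=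
  (∀ u v, T.sd u = T.sd v → ψ u = ψ v → u = v) ∧
  (∀ u v, u ≠ T.root → v ≠ T.root → ψ u + ψ (T.par u) = ψ v + ψ (T.par v) → u = v)

/-- the same on a finite set of vertices -/
def PG {G : Type} [Add G] (X : Finset V) (ψ : V → G) : Prop :=
  (∀ u ∈ X, ∀ v ∈ X, T.sd u = T.sd v → ψ u = ψ v → u = v) ∧
  (∀ u ∈ X, ∀ v ∈ X, u ≠ T.root → v ≠ T.root → T.par u ∈ X → T.par v ∈ X →
    ψ u + ψ (T.par u) = ψ v + ψ (T.par v) → u = v)

lemma par_ne {v : V} (h : v ≠ T.root) : T.par v ≠ v := by
  intro e
  have := T.dep_par v h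
  rw [e] at this; omega

lemma eq_root_of_dep {v : V} (h : T.dep v = 0) : v = T.root := by
  by_contra hv
  have := T.dep_par v hv
  omega

lemma dep_par_le (v : V) : T.dep (T.par v) ≤ T.dep v := by
  by_cases h : v = T.root
  · rw [h, T.par_root]
  · have := T.dep_par v h; omega

lemma sd_par_par {v : V} (h : v ≠ T.root) (h' : T.par v ≠ T.root) :
    T.sd (T.par (T.par v)) = T.sd v := by
  have h1 := T.sd_par v h
  have h2 := T.sd_par _ h'
  revert h1 h2
  cases T.sd v <;> cases T.sd (T.par v) <;> cases T.sd (T.par (T.par v)) <;> simp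

lemma sd_par_eq {v : V} (h : v ≠ T.root) : T.sd (T.par v) = !T.sd v := by
  have h1 := T.sd_par v h
  revert h1
  cases T.sd v <;> cases T.sd (T.par v) <;> simp

end RT

/-- a tree can be rooted at any vertex -/
theorem exists_RT {V : Type} [Fintype V] (T : SimpleGraph V) (hT : T.IsTree) (c : V → Bool)
    (hc : ∀ u v, T.Adj u v → c u ≠ c v) (r : V) :
    ∃ R : RT V, R.root = r ∧ R.sd = c ∧
      ∀ u v, T.Adj u v ↔ (u ≠ r ∧ R.par u = v) ∨ (v ≠ r ∧ R.par v = u) := by
  classical
  have hconn := hT.connected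
  have hp : ∀ v, ∃ p, (v = r → p = r) ∧ (v ≠ r → T.Adj v p ∧ T.dist v r = T.dist p r + 1) := by
    intro v
    by_cases hv : v = r
    · exact ⟨r, fun _ => rfl, fun h => absurd hv h⟩
    · obtain ⟨w, hw⟩ := hconn.exists_walk_length_eq_dist v r
      cases w with
      | nil => exact absurd rfl hv
      | cons h w' =>
        rename_i p
        refine ⟨p, fun h' => absurd h' hv, fun _ => ⟨h, ?_⟩⟩
        have h1 : T.dist p r ≤ w'.length := SimpleGraph.dist_le w'
        have h2 : T.dist v r ≤ T.dist v p + T.dist p r := hconn.dist_triangle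
        have h3 : T.dist v p = 1 := SimpleGraph.dist_eq_one_iff_adj.2 h
        simp only [SimpleGraph.Walk.length_cons] at hw
        omega
  choose par hpr hpa using hp
  let R : RT V :=
    { root := r, par := par, dep := fun v => T.dist v r, sd := c
      par_root := hpr r rfl
      dep_root := SimpleGraph.dist_self
      dep_par := fun v hv => (hpa v hv).2
      sd_par := fun v hv => (hc _ _ (hpa v hv).1).symm }
  refine ⟨R, rfl, rfl, fun u v => ⟨fun h => ?_, fun h => ?_⟩⟩
  · have hcard := hT.card_edgeFinset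
    have hsub : (univ.erase r).image (fun x => s(x, par x)) ⊆ T.edgeFinset := by
      intro e he
      obtain ⟨x, hx, rfl⟩ := mem_image.1 he
      exact SimpleGraph.mem_edgeFinset.2 (hpa x (ne_of_mem_erase hx)).1
    have hinj : Set.InjOn (fun x => s(x, par x)) (univ.erase r : Finset V) := by
      intro x hx y hy hxy
      have hx' := ne_of_mem_erase (mem_coe.1 hx)
      have hy' := ne_of_mem_erase (mem_coe.1 hy)
      rcases Sym2.eq_iff.1 hxy with h1 | h1
      · exact h1.1
      · have a1 := (hpa x hx').2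
        have a2 := (hpa y hy').2
        rw [h1.2] at a1
        rw [← h1.1] at a2
        omega
    have hc2 : ((univ.erase r).image (fun x => s(x, par x))).card = Fintype.card V - 1 := by
      rw [card_image_of_injOn hinj, card_erase_of_mem (mem_univ _), card_univ]
    have heq := eq_of_subset_of_card_le hsub (by omega)
    have hm : s(u, v) ∈ T.edgeFinset := SimpleGraph.mem_edgeFinset.2 h
    rw [← heq] at hm
    obtain ⟨x, hx, hxe⟩ := mem_image.1 hm
    have hx' := ne_of_mem_erase hx
    rcases Sym2.eq_iff.1 hxe with h1 | h1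
    · left; rw [← h1.1]; exact ⟨hx', h1.2⟩
    · right; rw [← h1.1]; exact ⟨hx', h1.2⟩
  · rcases h with ⟨h1, h2⟩ | ⟨h1, h2⟩
    · rw [← h2]; exact (hpa u h1).1
    · rw [← h2]; exact (hpa v h1).1.symm

/-- a good labelling gives a cyclic decomposition -/
theorem decomp_of_good {V : Type} [Fintype V] (T : SimpleGraph V) (R : RT V)
    (hadj : ∀ u v, T.Adj u v ↔ (u ≠ R.root ∧ R.par u = v) ∨ (v ≠ R.root ∧ R.par v = u))
    (m : ℕ) [NeZero m] (hV : Fintype.card V = m + 1) (ψ : V → ZMod m) (hψ : R.Good ψ) :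
    ∃ f : Fin m → V → (Fin m ⊕ Fin m),
      (∀ i, Function.Injective (f i)) ∧
      (∀ i u v, T.Adj u v → (completeBipartiteGraph (Fin m) (Fin m)).Adj (f i u) (f i v)) ∧
      (∀ a b : Fin m, ∃! i : Fin m,
        ∃ u v, T.Adj u v ∧ f i u = Sum.inl a ∧ f i v = Sum.inr b) := by
  classical
  let e : ZMod m ≃ Fin m := Fintype.equivFinOfCardEq (ZMod.card m)
  let f : Fin m → V → (Fin m ⊕ Fin m) := fun i v =>
    if R.sd v = true then Sum.inl (e (ψ v + e.symm i)) else Sum.inr (e (ψ v - e.symm i))
  have hsd : ∀ u v, T.Adj u v → R.sd u ≠ R.sd v := by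
    intro u v h
    rcases (hadj u v).1 h with ⟨h1, h2⟩ | ⟨h1, h2⟩
    · rw [← h2]; exact (R.sd_par u h1).symm
    · rw [← h2]; exact R.sd_par v h1
  have hl : ∀ i u a, f i u = Sum.inl a → R.sd u = true ∧ ψ u + e.symm i = e.symm a := by
    intro i u a h
    by_cases hu : R.sd u = true
    · simp only [f, hu, if_true, Sum.inl.injEq] at h
      exact ⟨hu, by rw [← h]; simp⟩
    · simp [f, hu] at h
  have hr : ∀ i u a, f i u = Sum.inr a → R.sd u = false ∧ ψ u - e.symm i = e.symm a := by
    intro i u a h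
    by_cases hu : R.sd u = true
    · simp [f, hu] at h
    · simp only [f, hu, Bool.false_eq_true, if_false, Sum.inr.injEq] at h
      exact ⟨by simpa using hu, by rw [← h]; simp⟩
  -- the edge sums are a bijection
  have hsurj : ∀ g : ZMod m, ∃ x, x ≠ R.root ∧ ψ x + ψ (R.par x) = g := by
    have hinj : Set.InjOn (fun x => ψ x + ψ (R.par x)) (univ.erase R.root : Finset V) := by
      intro x hx y hy hxy
      exact hψ.2 x y (ne_of_mem_erase (mem_coe.1 hx)) (ne_of_mem_erase (mem_coe.1 hy)) hxy
    have hc2 : ((univ.erase R.root).image (fun x => ψ x + ψ (R.par x))).card = m := by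
      rw [card_image_of_injOn hinj, card_erase_of_mem (mem_univ _), card_univ, hV]; simp
    have heq : (univ.erase R.root).image (fun x => ψ x + ψ (R.par x)) = univ :=
      eq_univ_of_card _ (by rw [hc2, ZMod.card])
    intro g
    have hg : g ∈ (univ.erase R.root).image (fun x => ψ x + ψ (R.par x)) := by
      rw [heq]; exact mem_univ _
    obtain ⟨x, hx, hxe⟩ := mem_image.1 hg
    exact ⟨x, ne_of_mem_erase hx, hxe⟩
  -- two oriented edges with the same sum agree
  have huniq : ∀ u v u' v', T.Adj u v → T.Adj u' v' → R.sd u = true → R.sd u' = true →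
      ψ u + ψ v = ψ u' + ψ v' → u = u' := by
    intro u v u' v' h h' hu hu' he
    have s1 := hsd u v h
    have s2 := hsd u' v' h'
    rcases (hadj u v).1 h with ⟨h1, h2⟩ | ⟨h1, h2⟩ <;>
      rcases (hadj u' v').1 h' with ⟨h3, h4⟩ | ⟨h3, h4⟩
    · exact hψ.2 u u' h1 h3 (by rw [h2, h4, he])
    · have := hψ.2 u v' h1 h3 (by rw [h2, h4, he, add_comm])
      rw [← this, hu, hu'] at s2; exact absurd rfl s2
    · have := hψ.2 v u' h1 h3 (by rw [h2, h4, ← he, add_comm])
      rw [this, hu, hu'] at s1; exact absurd rfl s1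
    · have := hψ.2 v v' h1 h3 (by rw [h2, h4, add_comm, he, add_comm])
      rw [← h2, ← h4, this]
  refine ⟨f, fun i u v h => ?_, fun i u v h => ?_, fun a b => ?_⟩
  · by_cases hu : R.sd u = true
    · have h1 : f i u = Sum.inl (e (ψ u + e.symm i)) := by simp [f, hu]
      obtain ⟨hv, h2⟩ := hl i v _ (h ▸ h1)
      refine hψ.1 u v (by rw [hu, hv]) ?_
      simpa using h2.symm
    · have h1 : f i u = Sum.inr (e (ψ u - e.symm i)) := by simp [f, hu]
      obtain ⟨hv, h2⟩ := hr i v _ (h ▸ h1)
      refine hψ.1 u v (by rw [hv]; simpa using hu) ?_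
      simpa using h2.symm
  · have := hsd u v h
    by_cases hu : R.sd u = true
    · have hv : ¬ R.sd v = true := fun hv => this (by rw [hu, hv])
      simp [f, hu, hv]
    · have hv : R.sd v = true := by
        revert this hu; cases R.sd u <;> cases R.sd v <;> simp
      simp [f, hu, hv]
  · obtain ⟨x, hx, hxe⟩ := hsurj (e.symm a + e.symm b)
    have hax : T.Adj x (R.par x) := (hadj _ _).2 (Or.inl ⟨hx, rfl⟩)
    obtain ⟨u, v, huv, hu, hs⟩ : ∃ u v, T.Adj u v ∧ R.sd u = true ∧
        ψ u + ψ v = e.symm a + e.symm b := by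
      by_cases hu : R.sd x = true
      · exact ⟨x, _, hax, hu, hxe⟩
      · refine ⟨_, x, hax.symm, ?_, by rw [add_comm, hxe]⟩
        rw [R.sd_par_eq hx]; simpa using hu
    have hv : ¬ R.sd v = true := fun hv => hsd u v huv (by rw [hu, hv])
    refine ⟨e (e.symm a - ψ u), ⟨u, v, huv, ?_, ?_⟩, ?_⟩
    · simp [f, hu]
    · simp only [f, hv, Bool.false_eq_true, if_false, Equiv.symm_apply_apply, Sum.inr.injEq]
      have : ψ v - (e.symm a - ψ u) = e.symm b := by linear_combination hs
      rw [this]; simp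
    · rintro i ⟨u', v', h', h1, h2⟩
      obtain ⟨a1, a2⟩ := hl i u' a h1
      obtain ⟨b1, b2⟩ := hr i v' b h2
      have : u = u' := huniq u v u' v' huv h' hu a1 (by rw [hs]; linear_combination -a2 - b2)
      subst this
      have : e.symm i = e.symm a - ψ u := by linear_combination a2
      rw [← this]; simp

end Pool.Agent.Lib.MP_5cebc8_co
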