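import Mathlib

open Finset

namespace Pool.Agent.Lib.MP_5cebc8_co

namespace Fin

lemma hit_card {α β : Type} [DecidableEq β] (C : Finset α) (g : α → β) (hg : Set.InjOn g C)
    (F : Finset β) : (C.filter (fun x => g x ∈ F)).card ≤ F.card := by
  apply Finset.card_le_card_of_injOn g
  · intro x hx
    exact (Finset.mem_filter.1 (Finset.mem_coe.1 hx)).2
  · intro x hx y hy h
    exact hg (Finset.mem_filter.1 (Finset.mem_coe.1 hx)).1
      (Finset.mem_filter.1 (Finset.mem_coe.1 hy)).1 h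

lemma cut_card {α β : Type} [DecidableEq β] (C : Finset α) (g : α → β) (hg : Set.InjOn g C)
    (F : Finset β) : C.card ≤ (C.filter (fun x => g x ∉ F)).card + F.card := by
  have h1 := hit_card C g hg F
  have h2 := Finset.card_filter_add_card_filter_not (s := C) (fun x => g x ∈ F)
  omega

lemma avoid {G : Type} [DecidableEq G] (L : List ((G → G) × Finset G)) :
    ∀ C : Finset G, (∀ e ∈ L, Function.Injective e.1) →
      (L.map (fun e => e.2.card)).sum < C.card → ∃ x ∈ C, ∀ e ∈ L, e.1 x ∉ e.2 := by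
  induction L with
  | nil =>
    intro C _ h
    obtain ⟨x, hx⟩ := Finset.card_pos.1 (lt_of_le_of_lt (Nat.zero_le _) h)
    exact ⟨x, hx, by simp⟩
  | cons e L ih =>
    intro C hinj h
    have h1 := cut_card C e.1 (hinj e (by simp)).injOn e.2
    simp only [List.map_cons, List.sum_cons] at h
    obtain ⟨x, hx, hx2⟩ := ih (C.filter (fun x => e.1 x ∉ e.2))
      (fun e' he' => hinj e' (List.mem_cons_of_mem _ he')) (by omega)
    refine ⟨x, (Finset.mem_filter.1 hx).1, ?_⟩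
    intro e' he'
    rcases List.mem_cons.1 he' with rfl | he'
    · exact (Finset.mem_filter.1 hx).2
    · exact hx2 e' he'

lemma injOn_three {α β : Type} [DecidableEq α] (S : Finset α) (f g : α → β) (a b c : α)
    (hS : Set.InjOn f S) (agree : ∀ p, p ≠ a → p ≠ b → p ≠ c → g p = f p)
    (hab : g a ≠ g b) (hac : g a ≠ g c) (hbc : g b ≠ g c)
    (hn : ∀ p ∈ S, p ≠ a → p ≠ b → p ≠ c → f p ≠ g a ∧ f p ≠ g b ∧ f p ≠ g c) :
    Set.InjOn g (insert a S : Finset α) := by
  have key : ∀ p ∈ insert a S, p = a ∨ p = b ∨ p = c ∨ (p ∈ S ∧ p ≠ a ∧ p ≠ b ∧ p ≠ c) := by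
    intro p hp
    by_cases h1 : p = a
    · exact Or.inl h1
    by_cases h2 : p = b
    · exact Or.inr (Or.inl h2)
    by_cases h3 : p = c
    · exact Or.inr (Or.inr (Or.inl h3))
    rcases Finset.mem_insert.1 hp with h | h
    · exact absurd h h1
    · exact Or.inr (Or.inr (Or.inr ⟨h, h1, h2, h3⟩))
  intro p hp q hq h
  rcases key p (Finset.mem_coe.1 hp) with rfl | rfl | rfl | ⟨p1, p2, p3, p4⟩ <;>
  rcases key q (Finset.mem_coe.1 hq) with rfl | rfl | rfl | ⟨q1, q2, q3, q4⟩ <;>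
  first
    | rfl
    | exact absurd h hab
    | exact absurd h hac
    | exact absurd h hbc
    | exact absurd h.symm hab
    | exact absurd h.symm hac
    | exact absurd h.symm hbc
    | exact hS p1 q1 ((agree p p2 p3 p4).symm.trans (h.trans (agree q q2 q3 q4)))
    | exact absurd ((agree q q2 q3 q4).symm.trans h.symm) (hn q q1 q2 q3 q4).1
    | exact absurd ((agree q q2 q3 q4).symm.trans h.symm) (hn q q1 q2 q3 q4).2.1
    | exact absurd ((agree q q2 q3 q4).symm.trans h.symm) (hn q q1 q2 q3 q4).2.2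
    | exact absurd ((agree p p2 p3 p4).symm.trans h) (hn p p1 p2 p3 p4).1
    | exact absurd ((agree p p2 p3 p4).symm.trans h) (hn p p1 p2 p3 p4).2.1
    | exact absurd ((agree p p2 p3 p4).symm.trans h) (hn p p1 p2 p3 p4).2.2

/-- the alternating path -/
lemma find_path {G P : Type} [AddCommGroup G] [Fintype G] [DecidableEq G] [Fintype P]
    [DecidableEq P] (pos : P → G) (hpos : Function.Injective pos) (D W : Finset G)
    (hD : D.card = Fintype.card P) (t a : ℕ)
    (deg1 : ∀ p, a + 4 * t ≤ (D.filter (fun d => d - pos p ∈ W)).card)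
    (deg2 : ∀ d ∈ D, a + 4 * t ≤ (univ.filter (fun p => d - pos p ∈ W)).card)
    (mix : ∀ X Y : Finset G, a ≤ X.card → a ≤ Y.card →
      (3 * t + 3) * Fintype.card G < ((X ×ˢ Y).filter (fun z => z.2 - z.1 ∈ W)).card)
    (S : Finset P) (φ : P → G) (hSD : ∀ p ∈ S, φ p ∈ D) (hinj : Set.InjOn φ S)
    (hc : Fintype.card P ≤ S.card + t) (Z : Finset G) (hZ : Z.card ≤ 3 * t) (u0 : P) (d0 : G)
    (hd0 : d0 ∈ D) :
    ∃ u1 ∈ S, ∃ u2 ∈ S, (φ u1 - pos u0 ∈ W ∧ φ u1 - pos u0 ∉ Z) ∧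
      (φ u2 - pos u1 ∈ W ∧ φ u2 - pos u1 ∉ Z) ∧ (d0 - pos u2 ∈ W ∧ d0 - pos u2 ∉ Z) ∧
      φ u1 - pos u0 ≠ φ u2 - pos u1 ∧ φ u1 - pos u0 ≠ d0 - pos u2 ∧
      φ u2 - pos u1 ≠ d0 - pos u2 := by
  have hPG : Fintype.card P ≤ Fintype.card G := Fintype.card_le_of_injective pos hpos
  set X1 := S.filter (fun p => φ p - pos u0 ∈ W ∧ φ p - pos u0 ∉ Z) with hX1
  set X2 := S.filter (fun p => d0 - pos p ∈ W ∧ d0 - pos p ∉ Z) with hX2
  have him : (S.image φ).card = S.card := Finset.card_image_of_injOn hinj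
  have hsub : S.image φ ⊆ D := by
    intro d hd
    obtain ⟨p, hp, rfl⟩ := Finset.mem_image.1 hd
    exact hSD p hp
  have hX1c : a ≤ X1.card := by
    have h1 := cut_card (D.filter (fun d => d - pos u0 ∈ W)) id Function.injective_id.injOn
      (D \ S.image φ)
    have h2 := cut_card ((D.filter (fun d => d - pos u0 ∈ W)).filter
      (fun x => id x ∉ D \ S.image φ)) (fun d => d - pos u0) sub_left_injective.injOn Z
    have h3 : (D \ S.image φ).card = D.card - (S.image φ).card := Finset.card_sdiff_of_subset hsub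
    have h4 : (((D.filter (fun d => d - pos u0 ∈ W)).filter
      (fun x => id x ∉ D \ S.image φ)).filter (fun d => d - pos u0 ∉ Z)) ⊆ X1.image φ := by
      intro d hd
      simp only [Finset.mem_filter, id, Finset.mem_sdiff, not_and, not_not] at hd
      obtain ⟨p, hp, rfl⟩ := Finset.mem_image.1 (hd.1.2 hd.1.1.1)
      exact Finset.mem_image.2 ⟨p, Finset.mem_filter.2 ⟨hp, hd.1.1.2, hd.2⟩, rfl⟩
    have h5 := Finset.card_le_card h4
    have h6 : (X1.image φ).card ≤ X1.card := Finset.card_image_le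
    have h7 := deg1 u0
    omega
  have hX2c : a ≤ X2.card := by
    have h1 := cut_card (univ.filter (fun p => d0 - pos p ∈ W)) id Function.injective_id.injOn
      (univ \ S)
    have h2 := cut_card ((univ.filter (fun p => d0 - pos p ∈ W)).filter
      (fun x => id x ∉ univ \ S)) (fun p => d0 - pos p)
      (sub_right_injective.comp hpos).injOn Z
    have h3 : ((univ : Finset P) \ S).card = Fintype.card P - S.card := by
      rw [Finset.card_sdiff_of_subset (Finset.subset_univ _), Finset.card_univ]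
    have h4 : (((univ.filter (fun p => d0 - pos p ∈ W)).filter
      (fun x => id x ∉ univ \ S)).filter (fun p => d0 - pos p ∉ Z)) ⊆ X2 := by
      intro p hp
      simp only [Finset.mem_filter, id, Finset.mem_sdiff, Finset.mem_univ, true_and,
        not_not] at hp
      exact Finset.mem_filter.2 ⟨hp.1.2, hp.1.1, hp.2⟩
    have h5 := Finset.card_le_card h4
    have h7 := deg2 d0 hd0
    omega
  have hS1 : ∀ p ∈ X1, p ∈ S := fun p hp => (Finset.mem_filter.1 hp).1
  have hS2 : ∀ p ∈ X2, p ∈ S := fun p hp => (Finset.mem_filter.1 hp).1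
  have hA : (X1.image pos).card = X1.card := Finset.card_image_of_injective _ hpos
  have hB : (X2.image φ).card = X2.card :=
    Finset.card_image_of_injOn (fun p hp q hq h => hinj (hS2 p hp) (hS2 q hq) h)
  have hm := mix (X1.image pos) (X2.image φ) (by omega) (by omega)
  set E := (X1 ×ˢ X2).filter (fun z => φ z.2 - pos z.1 ∈ W) with hE
  have hE1 : ((X1.image pos ×ˢ X2.image φ).filter (fun z => z.2 - z.1 ∈ W)).card ≤ E.card := by
    refine le_trans (Finset.card_le_card ?_)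
      (Finset.card_image_le (s := E) (f := fun z => (pos z.1, φ z.2)))
    intro z hz
    obtain ⟨hz1, hz2⟩ := Finset.mem_filter.1 hz
    obtain ⟨hz3, hz4⟩ := Finset.mem_product.1 hz1
    obtain ⟨p, hp, hp2⟩ := Finset.mem_image.1 hz3
    obtain ⟨q, hq, hq2⟩ := Finset.mem_image.1 hz4
    refine Finset.mem_image.2 ⟨(p, q), Finset.mem_filter.2 ⟨Finset.mem_product.2 ⟨hp, hq⟩, ?_⟩, ?_⟩
    · simpa [hp2, hq2] using hz2
    · simp [hp2, hq2]
  have hEm : ∀ z ∈ E, z.1 ∈ X1 ∧ z.2 ∈ X2 ∧ φ z.2 - pos z.1 ∈ W := by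
    intro z hz
    obtain ⟨hz1, hz2⟩ := Finset.mem_filter.1 hz
    exact ⟨(Finset.mem_product.1 hz1).1, (Finset.mem_product.1 hz1).2, hz2⟩
  have hB1 : (E.filter (fun z => φ z.2 - pos z.1 ∈ Z)).card ≤ Fintype.card P * Z.card := by
    rw [← Finset.card_univ, ← Finset.card_product]
    apply Finset.card_le_card_of_injOn (fun z => (z.2, φ z.2 - pos z.1))
    · intro z hz
      exact Finset.mem_coe.2 (Finset.mem_product.2
        ⟨Finset.mem_univ _, (Finset.mem_filter.1 (Finset.mem_coe.1 hz)).2⟩)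
    · intro z _ w _ h
      obtain ⟨h1, h2⟩ := Prod.mk.inj h
      rw [h1] at h2
      exact Prod.ext (hpos (sub_right_injective h2)) h1
  have hB2 : (E.filter (fun z => φ z.1 - pos u0 = φ z.2 - pos z.1)).card ≤ Fintype.card P := by
    rw [← Finset.card_univ]
    apply Finset.card_le_card_of_injOn (fun z => z.1)
    · intro z _
      exact Finset.mem_coe.2 (Finset.mem_univ _)
    · intro z hz w hw h
      obtain ⟨hz1, hz2⟩ := Finset.mem_filter.1 (Finset.mem_coe.1 hz)
      obtain ⟨hw1, hw2⟩ := Finset.mem_filter.1 (Finset.mem_coe.1 hw)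
      have h' : z.1 = w.1 := h
      rw [h', hw2] at hz2
      exact Prod.ext h' (hinj (hS2 _ (hEm z hz1).2.1) (hS2 _ (hEm w hw1).2.1)
        (sub_left_injective hz2).symm)
  have hB3 : (E.filter (fun z => φ z.1 - pos u0 = d0 - pos z.2)).card ≤ Fintype.card P := by
    rw [← Finset.card_univ]
    apply Finset.card_le_card_of_injOn (fun z => z.1)
    · intro z _
      exact Finset.mem_coe.2 (Finset.mem_univ _)
    · intro z hz w hw h
      obtain ⟨_, hz2⟩ := Finset.mem_filter.1 (Finset.mem_coe.1 hz)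
      obtain ⟨_, hw2⟩ := Finset.mem_filter.1 (Finset.mem_coe.1 hw)
      have h' : z.1 = w.1 := h
      rw [h', hw2] at hz2
      exact Prod.ext h' (hpos (sub_right_injective hz2).symm)
  have hB4 : (E.filter (fun z => φ z.2 - pos z.1 = d0 - pos z.2)).card ≤ Fintype.card P := by
    rw [← Finset.card_univ]
    apply Finset.card_le_card_of_injOn (fun z => z.2)
    · intro z _
      exact Finset.mem_coe.2 (Finset.mem_univ _)
    · intro z hz w hw h
      obtain ⟨_, hz2⟩ := Finset.mem_filter.1 (Finset.mem_coe.1 hz)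
      obtain ⟨_, hw2⟩ := Finset.mem_filter.1 (Finset.mem_coe.1 hw)
      have h' : z.2 = w.2 := h
      rw [h', ← hw2] at hz2
      exact Prod.ext (hpos (sub_right_injective hz2)) h'
  by_contra hcon
  have hcov : E ⊆ E.filter (fun z => φ z.2 - pos z.1 ∈ Z) ∪
      (E.filter (fun z => φ z.1 - pos u0 = φ z.2 - pos z.1) ∪
      (E.filter (fun z => φ z.1 - pos u0 = d0 - pos z.2) ∪
      E.filter (fun z => φ z.2 - pos z.1 = d0 - pos z.2))) := by
    intro z hz
    simp only [Finset.mem_union, Finset.mem_filter (s := E), hz, true_and]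
    by_contra hn
    simp only [not_or] at hn
    obtain ⟨e1, e2, e3⟩ := hEm z hz
    exact hcon ⟨z.1, hS1 _ e1, z.2, hS2 _ e2, (Finset.mem_filter.1 e1).2, ⟨e3, hn.1⟩,
      (Finset.mem_filter.1 e2).2, hn.2.1, hn.2.2.1, hn.2.2.2⟩
  have c1 := Finset.card_le_card hcov
  have c2 := Finset.card_union_le (E.filter (fun z => φ z.2 - pos z.1 ∈ Z))
      (E.filter (fun z => φ z.1 - pos u0 = φ z.2 - pos z.1) ∪
      (E.filter (fun z => φ z.1 - pos u0 = d0 - pos z.2) ∪
      E.filter (fun z => φ z.2 - pos z.1 = d0 - pos z.2)))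
  have c3 := Finset.card_union_le (E.filter (fun z => φ z.1 - pos u0 = φ z.2 - pos z.1))
      (E.filter (fun z => φ z.1 - pos u0 = d0 - pos z.2) ∪
      E.filter (fun z => φ z.2 - pos z.1 = d0 - pos z.2))
  have c4 := Finset.card_union_le (E.filter (fun z => φ z.1 - pos u0 = d0 - pos z.2))
      (E.filter (fun z => φ z.2 - pos z.1 = d0 - pos z.2))
  have c5 : Fintype.card P * Z.card ≤ Fintype.card G * (3 * t) := Nat.mul_le_mul hPG hZ
  have c6 : (3 * t + 3) * Fintype.card G = Fintype.card G * (3 * t) + 3 * Fintype.card G := by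
    ring
  omega

/-- one exchange step -/
lemma ex_step {G P : Type} [AddCommGroup G] [Fintype G] [DecidableEq G] [Fintype P]
    [DecidableEq P] (pos : P → G) (hpos : Function.Injective pos) (D W : Finset G)
    (hD : D.card = Fintype.card P) (t a : ℕ)
    (deg1 : ∀ p, a + 4 * t ≤ (D.filter (fun d => d - pos p ∈ W)).card)
    (deg2 : ∀ d ∈ D, a + 4 * t ≤ (univ.filter (fun p => d - pos p ∈ W)).card)
    (mix : ∀ X Y : Finset G, a ≤ X.card → a ≤ Y.card →
      (3 * t + 3) * Fintype.card G < ((X ×ˢ Y).filter (fun z => z.2 - z.1 ∈ W)).card)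
    (S : Finset P) (φ : P → G) (hSD : ∀ p ∈ S, φ p ∈ D) (hinj : Set.InjOn φ S)
    (hland : Set.InjOn (fun p => φ p - pos p) S)
    (hc : Fintype.card P ≤ S.card + t)
    (hZ : (S.filter (fun p => φ p - pos p ∈ W)).card ≤ 3 * t) (u0 : P) (hu0 : u0 ∉ S) :
    ∃ (ψ : P → G) (u1 u2 : P), (∀ p ∈ insert u0 S, ψ p ∈ D) ∧
      Set.InjOn ψ (insert u0 S : Finset P) ∧
      Set.InjOn (fun p => ψ p - pos p) (insert u0 S : Finset P) ∧
      (∀ p, p = u0 ∨ p = u1 ∨ p = u2 → ψ p - pos p ∈ W) ∧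
      (∀ p, p ≠ u0 → p ≠ u1 → p ≠ u2 → ψ p = φ p) := by
  have hlt : (S.image φ).card < D.card := by
    have h1 : (S.image φ).card ≤ S.card := Finset.card_image_le
    have h2 : (insert u0 S).card ≤ Fintype.card P := Finset.card_le_univ _
    rw [Finset.card_insert_of_notMem hu0] at h2
    omega
  obtain ⟨d0, hd0, hd0'⟩ := Finset.exists_mem_notMem_of_card_lt_card hlt
  have hd1 : ∀ p ∈ S, φ p ≠ d0 := fun p hp h => hd0' (Finset.mem_image.2 ⟨p, hp, h⟩)
  set Z := (S.filter (fun p => φ p - pos p ∈ W)).image (fun p => φ p - pos p) with hZdef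
  have hZ2 : ∀ p ∈ S, φ p - pos p ∈ W → φ p - pos p ∈ Z := fun p hp h =>
    Finset.mem_image.2 ⟨p, Finset.mem_filter.2 ⟨hp, h⟩, rfl⟩
  obtain ⟨u1, hu1, u2, hu2, ⟨a1, a2⟩, ⟨b1, b2⟩, ⟨c1, c2⟩, e1, e2, e3⟩ :=
    find_path pos hpos D W hD t a deg1 deg2 mix S φ hSD hinj hc Z
      (le_trans Finset.card_image_le hZ) u0 d0 hd0
  have n10 : u1 ≠ u0 := fun h => hu0 (h ▸ hu1)
  have n20 : u2 ≠ u0 := fun h => hu0 (h ▸ hu2)
  have n21 : u2 ≠ u1 := by
    intro h
    rw [h] at b1 b2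
    exact b2 (hZ2 u1 hu1 b1)
  obtain ⟨ψ, q0, q1, q2, q3⟩ : ∃ ψ : P → G, ψ u0 = φ u1 ∧ ψ u1 = φ u2 ∧ ψ u2 = d0 ∧
      ∀ p, p ≠ u0 → p ≠ u1 → p ≠ u2 → ψ p = φ p := by
    refine ⟨fun p => if p = u0 then φ u1 else if p = u1 then φ u2 else if p = u2 then d0 else φ p,
      ?_, ?_, ?_, ?_⟩
    · simp
    · simp [n10]
    · simp [n20, n21]
    · intro p h1 h2 h3
      simp [h1, h2, h3]
  have fresh : ∀ p ∈ S, ∀ l, l ∈ W → l ∉ Z → φ p - pos p ≠ l := by
    intro p hp l h1 h2 h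
    rw [← h] at h1 h2
    exact h2 (hZ2 p hp h1)
  refine ⟨ψ, u1, u2, ?_, ?_, ?_, ?_, q3⟩
  · intro p hp
    by_cases h1 : p = u0
    · rw [h1, q0]; exact hSD _ hu1
    by_cases h2 : p = u1
    · rw [h2, q1]; exact hSD _ hu2
    by_cases h3 : p = u2
    · rw [h3, q2]; exact hd0
    rw [q3 p h1 h2 h3]
    rcases Finset.mem_insert.1 hp with h | h
    · exact absurd h h1
    · exact hSD p h
  · apply injOn_three S φ ψ u0 u1 u2 hinj q3
    · rw [q0, q1]; exact fun h => n21 (hinj hu1 hu2 h).symm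
    · rw [q0, q2]; exact hd1 _ hu1
    · rw [q1, q2]; exact hd1 _ hu2
    · intro p hp _ h2 h3
      rw [q0, q1, q2]
      exact ⟨fun h => h2 (hinj hp hu1 h), fun h => h3 (hinj hp hu2 h), hd1 p hp⟩
  · apply injOn_three S (fun p => φ p - pos p) (fun p => ψ p - pos p) u0 u1 u2 hland
    · intro p h1 h2 h3
      simp only [q3 p h1 h2 h3]
    · simp only [q0, q1]; exact e1
    · simp only [q0, q2]; exact e2
    · simp only [q1, q2]; exact e3
    · intro p hp _ _ _
      simp only [q0, q1, q2]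
      exact ⟨fresh p hp _ a1 a2, fresh p hp _ b1 b2, fresh p hp _ c1 c2⟩
  · rintro p (h | h | h)
    · rw [h, q0]; exact a1
    · rw [h, q1]; exact b1
    · rw [h, q2]; exact c1

end Fin

/-- completing an almost perfect matching by alternating paths of length five -/
theorem exchange {G P : Type} [AddCommGroup G] [Fintype G] [DecidableEq G] [Fintype P]
    [DecidableEq P] (pos : P → G) (hpos : Function.Injective pos) (D W : Finset G)
    (hD : D.card = Fintype.card P) (P0 : Finset P) (φ0 : P → G) (h0D : ∀ p ∈ P0, φ0 p ∈ D)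
    (h0inj : ∀ p ∈ P0, ∀ q ∈ P0, φ0 p = φ0 q → p = q)
    (h0W : ∀ p ∈ P0, φ0 p - pos p ∉ W)
    (h0land : ∀ p ∈ P0, ∀ q ∈ P0, φ0 p - pos p = φ0 q - pos q → p = q)
    (t a : ℕ) (ht : Fintype.card P ≤ P0.card + t)
    (deg1 : ∀ p, a + 4 * t ≤ (D.filter (fun d => d - pos p ∈ W)).card)
    (deg2 : ∀ d ∈ D, a + 4 * t ≤ (univ.filter (fun p => d - pos p ∈ W)).card)
    (mix : ∀ X Y : Finset G, a ≤ X.card → a ≤ Y.card →
      (3 * t + 3) * Fintype.card G < ((X ×ˢ Y).filter (fun z => z.2 - z.1 ∈ W)).card) :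
    ∃ φ : P → G, (∀ p, φ p ∈ D) ∧ Function.Injective φ ∧
      Function.Injective (fun p => φ p - pos p) ∧
      ∀ p, φ p - pos p ∈ W ∨ (p ∈ P0 ∧ φ p = φ0 p) := by
  have main : ∀ j, P0.card + j ≤ Fintype.card P → ∃ (S : Finset P) (φ : P → G),
      S.card = P0.card + j ∧ (∀ p ∈ S, φ p ∈ D) ∧ Set.InjOn φ S ∧
      Set.InjOn (fun p => φ p - pos p) S ∧
      (∀ p ∈ S, φ p - pos p ∈ W ∨ (p ∈ P0 ∧ φ p = φ0 p)) ∧
      (S.filter (fun p => φ p - pos p ∈ W)).card ≤ 3 * j := by
    intro j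
    induction j with
    | zero =>
      intro _
      refine ⟨P0, φ0, rfl, h0D, fun p hp q hq h => h0inj p hp q hq h,
        fun p hp q hq h => h0land p hp q hq h, fun p hp => Or.inr ⟨hp, rfl⟩, ?_⟩
      rw [Finset.filter_eq_empty_iff.2 h0W]
      simp
    | succ j ih =>
      intro hj
      obtain ⟨S, φ, s1, s2, s3, s4, s5, s6⟩ := ih (by omega)
      obtain ⟨u0, -, hu0⟩ := Finset.exists_mem_notMem_of_card_lt_card
        (s := S) (t := (univ : Finset P)) (by rw [Finset.card_univ]; omega)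
      obtain ⟨ψ, u1, u2, r1, r2, r3, r4, r5⟩ := Fin.ex_step pos hpos D W hD t a deg1 deg2 mix S φ
        s2 s3 s4 (by omega) (by omega) u0 hu0
      refine ⟨insert u0 S, ψ, by rw [Finset.card_insert_of_notMem hu0]; omega, r1, r2, r3, ?_, ?_⟩
      · intro p hp
        by_cases h : p = u0 ∨ p = u1 ∨ p = u2
        · exact Or.inl (r4 p h)
        · simp only [not_or] at h
          rw [r5 p h.1 h.2.1 h.2.2]
          rcases Finset.mem_insert.1 hp with h' | h'
          · exact absurd h' h.1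
          · exact s5 p h'
      · have hsub : (insert u0 S).filter (fun p => ψ p - pos p ∈ W) ⊆
            insert u0 (insert u1 (insert u2 (S.filter (fun p => φ p - pos p ∈ W)))) := by
          intro p hp
          obtain ⟨hp1, hp2⟩ := Finset.mem_filter.1 hp
          simp only [Finset.mem_insert, Finset.mem_filter]
          by_cases h : p = u0 ∨ p = u1 ∨ p = u2
          · tauto
          · simp only [not_or] at h
            rw [r5 p h.1 h.2.1 h.2.2] at hp2
            rcases Finset.mem_insert.1 hp1 with h' | h'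
            · exact absurd h' h.1
            · exact Or.inr (Or.inr (Or.inr ⟨h', hp2⟩))
        have c1 := Finset.card_le_card hsub
        have c2 := Finset.card_insert_le u0
          (insert u1 (insert u2 (S.filter (fun p => φ p - pos p ∈ W))))
        have c3 := Finset.card_insert_le u1 (insert u2 (S.filter (fun p => φ p - pos p ∈ W)))
        have c4 := Finset.card_insert_le u2 (S.filter (fun p => φ p - pos p ∈ W))
        omega
  have hle : P0.card ≤ Fintype.card P := Finset.card_le_univ _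
  obtain ⟨S, φ, s1, s2, s3, s4, s5, -⟩ := main (Fintype.card P - P0.card) (by omega)
  have hS : S = univ := Finset.eq_univ_of_card S (by omega)
  subst hS
  exact ⟨φ, fun p => s2 p (Finset.mem_univ _),
    fun p q h => s3 (Finset.mem_coe.2 (Finset.mem_univ _)) (Finset.mem_coe.2 (Finset.mem_univ _)) h,
    fun p q h => s4 (Finset.mem_coe.2 (Finset.mem_univ _)) (Finset.mem_coe.2 (Finset.mem_univ _)) h,
    fun p => s5 p (Finset.mem_univ _)⟩

namespace Fin

/-- greedy choice of pairwise compatible candidates -/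
lemma greedy {T Y : Type} [Fintype T] [DecidableEq T] [Nonempty Y] (ok : T → Y → Prop)
    (cp : T → Y → T → Y → Prop) (hsym : ∀ i y j z, cp i y j z → cp j z i y)
    (h : ∀ (i : T) (c : T → Y), ∃ y, ok i y ∧ ∀ j, cp i y j (c j)) :
    ∃ c : T → Y, (∀ i, ok i (c i)) ∧ ∀ i j, i ≠ j → cp i (c i) j (c j) := by
  have main : ∀ S : Finset T, ∃ c : T → Y, (∀ i, ok i (c i)) ∧
      ∀ i ∈ S, ∀ j ∈ S, i ≠ j → cp i (c i) j (c j) := by
    intro S
    induction S using Finset.induction_on with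
    | empty =>
      choose c hc using fun i => h i (fun _ => Classical.arbitrary Y)
      exact ⟨c, fun i => (hc i).1, by simp⟩
    | insert i0 S _ ih =>
      obtain ⟨c, hc1, hc2⟩ := ih
      obtain ⟨y, hy1, hy2⟩ := h i0 c
      refine ⟨Function.update c i0 y, ?_, ?_⟩
      · intro i
        by_cases e : i = i0
        · rw [e, Function.update_self]; exact hy1
        · rw [Function.update_of_ne e]; exact hc1 i
      · intro i hi j hj hij
        by_cases e : i = i0
        · have e2 : j ≠ i0 := fun e2 => hij (e.trans e2.symm)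
          rw [e, Function.update_self, Function.update_of_ne e2]
          exact hy2 j
        · by_cases e2 : j = i0
          · rw [e2, Function.update_self, Function.update_of_ne e]
            exact hsym _ _ _ _ (hy2 i)
          · rw [Function.update_of_ne e, Function.update_of_ne e2]
            exact hc2 i ((Finset.mem_insert.1 hi).resolve_left e) j
              ((Finset.mem_insert.1 hj).resolve_left e2) hij
  obtain ⟨c, h1, h2⟩ := main univ
  exact ⟨c, h1, fun i j hij => h2 i (Finset.mem_univ _) j (Finset.mem_univ _) hij⟩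

lemma joint_inj {T J G : Type} (F : T → J → G) (h1 : ∀ i, Function.Injective (F i))
    (h2 : ∀ i i', i ≠ i' → ∀ j j', F i j ≠ F i' j') :
    Function.Injective (fun z : T × J => F z.1 z.2) := by
  rintro ⟨i, j⟩ ⟨i', j'⟩ h
  by_cases e : i = i'
  · subst e
    exact Prod.ext rfl (h1 i h)
  · exact absurd h (h2 i i' e j j')

lemma inj2 {G : Type} (a b : G) (h : a ≠ b) : Function.Injective ![a, b] := by
  intro i j e
  fin_cases i <;> fin_cases j <;> simp_all [eq_comm]

lemma inj3 {G : Type} (a b c : G) (h1 : a ≠ b) (h2 : a ≠ c) (h3 : b ≠ c) :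
    Function.Injective ![a, b, c] := by
  intro i j e
  fin_cases i <;> fin_cases j <;> simp_all [eq_comm]

lemma card_img {T J G : Type} [Fintype T] [Fintype J] [DecidableEq G] (F : T × J → G) :
    (univ.image F).card ≤ Fintype.card T * Fintype.card J := by
  refine le_trans Finset.card_image_le ?_
  rw [Finset.card_univ, Fintype.card_prod]

/-- first stage: the elements `b` -/
lemma stage1 {G : Type} [CommRing G] [DecidableEq G] (hh : G) (h2 : 2 * hh = 1)
    (Dg X : Finset G) (r : ℕ) (hr : r + 8 * X.card < Dg.card) (a : Fin r × Fin 2 → G) :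
    ∃ b : Fin r → G, Function.Injective b ∧ (∀ k, b k ∈ Dg) ∧
      ∃ s : Fin r × Fin 2 → G, ∀ i, 2 * s i = a i - (b i.1 + ((i.2 : ℕ) : G)) + 3 ∧
        s i ∉ X ∧ s i - 1 ∉ X ∧ s i - 3 ∉ X ∧ 2 * s i - 3 ∉ X := by
  have inj : ∀ c k : G, Function.Injective (fun b : G => (c - b) * hh - k) := by
    intro c k x y e
    have e' : (c - x) * hh - k = (c - y) * hh - k := e
    linear_combination (-2) * e' - (x - y) * h2
  have inj' : ∀ c : G, Function.Injective (fun b : G => 2 * ((c - b) * hh) - 3) := by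
    intro c x y e
    have e' : 2 * ((c - x) * hh) - 3 = 2 * ((c - y) * hh) - 3 := e
    linear_combination (-1) * e' - (x - y) * h2
  obtain ⟨b, hb1, hb2⟩ := greedy (T := Fin r) (Y := G)
    (fun k y => y ∈ Dg ∧ ∀ e : Fin 2, (a (k, e) - ((e : ℕ) : G) + 3 - y) * hh - 0 ∉ X ∧
      (a (k, e) - ((e : ℕ) : G) + 3 - y) * hh - 1 ∉ X ∧
      (a (k, e) - ((e : ℕ) : G) + 3 - y) * hh - 3 ∉ X ∧
      2 * ((a (k, e) - ((e : ℕ) : G) + 3 - y) * hh) - 3 ∉ X)
    (fun _ y _ z => y ≠ z) (fun _ _ _ _ h => h.symm) (by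
      intro k c
      have hc : (univ.image c).card ≤ r := le_trans Finset.card_image_le (by simp)
      obtain ⟨y, hy, hy2⟩ := avoid
        [(id, univ.image c),
         (fun y => (a (k, 0) - (((0 : Fin 2) : ℕ) : G) + 3 - y) * hh - 0, X),
         (fun y => (a (k, 0) - (((0 : Fin 2) : ℕ) : G) + 3 - y) * hh - 1, X),
         (fun y => (a (k, 0) - (((0 : Fin 2) : ℕ) : G) + 3 - y) * hh - 3, X),
         (fun y => 2 * ((a (k, 0) - (((0 : Fin 2) : ℕ) : G) + 3 - y) * hh) - 3, X),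
         (fun y => (a (k, 1) - (((1 : Fin 2) : ℕ) : G) + 3 - y) * hh - 0, X),
         (fun y => (a (k, 1) - (((1 : Fin 2) : ℕ) : G) + 3 - y) * hh - 1, X),
         (fun y => (a (k, 1) - (((1 : Fin 2) : ℕ) : G) + 3 - y) * hh - 3, X),
         (fun y => 2 * ((a (k, 1) - (((1 : Fin 2) : ℕ) : G) + 3 - y) * hh) - 3, X)] Dg
        (by
          simp only [List.forall_mem_cons]
          exact ⟨Function.injective_id, inj _ _, inj _ _, inj _ _, inj' _, inj _ _, inj _ _,
            inj _ _, inj' _, by simp⟩)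
        (by simp only [List.map_cons, List.sum_cons, List.map_nil, List.sum_nil]; omega)
      simp only [List.forall_mem_cons] at hy2
      obtain ⟨g0, g1, g2, g3, g4, g5, g6, g7, g8, -⟩ := hy2
      refine ⟨y, ⟨hy, Fin.forall_fin_two.2 ⟨⟨g1, g2, g3, g4⟩, ⟨g5, g6, g7, g8⟩⟩⟩, ?_⟩
      intro j e
      exact g0 (Finset.mem_image.2 ⟨j, Finset.mem_univ _, e.symm⟩))
  refine ⟨b, fun i j e => by_contra fun n => hb2 i j n e, fun k => (hb1 k).1,
    fun i => (a i - ((i.2 : ℕ) : G) + 3 - b i.1) * hh, fun i => ?_⟩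
  obtain ⟨g1, g2, g3, g4⟩ := (hb1 i.1).2 i.2
  rw [sub_zero] at g1
  exact ⟨by linear_combination (a i - ((i.2 : ℕ) : G) + 3 - b i.1) * h2, g1, g2, g3, g4⟩

/-- one task of the cover stage -/
lemma task {G P : Type} [CommRing G] [DecidableEq G] [Fintype P] (u : P → G)
    (D Dg U W0 W1 X : Finset G) (hXs : ∀ h ∈ X, -h ∈ X) (t ρ : ℕ)
    (hDg : (D \ Dg).card ≤ 2 * t) (hUfull : (U \ univ.image u).card ≤ t)
    (hρ : 40 * t + 8 * X.card + 40 ≤ ρ)
    (HU : ∀ c s1 s2 : G, s1 ∉ X → s2 ∉ X → s1 - s2 ∉ X →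
      ρ ≤ (U.filter (fun x => x + s1 ∈ W0 ∧ x + s2 ∈ W0 ∧ c - x ∈ W1)).card)
    (HD : ∀ s1 s2 s3 : G, s1 ∉ X → s2 ∉ X → s3 ∉ X → s1 - s2 ∉ X → s1 - s3 ∉ X → s2 - s3 ∉ X →
      ρ ≤ (D.filter (fun d => d + s1 ∈ D ∧ d + s2 ∈ W1 ∧ d + s3 ∈ W1)).card)
    (a s : G) (hs0 : s ∉ X) (hs1 : s - 1 ∉ X) (hs3 : s - 3 ∉ X) (hs4 : 2 * s - 3 ∉ X)
    (ZP ZX ZY ZD ZB : Finset G) (zP : ZP.card ≤ 2 * t) (zX : ZX.card ≤ 4 * t)
    (zY : ZY.card ≤ 6 * t) (zD : ZD.card ≤ 4 * t) (zB : ZB.card ≤ t) :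
    ∃ (p : P) (d : G), u p ∉ ZP ∧
      (∀ j, ![u p + (3 - 2 * s), u p + (3 - s)] j ∈ W0 ∧
        ![u p + (3 - 2 * s), u p + (3 - s)] j ∉ ZX) ∧
      (∀ j, ![a - u p, d + (2 * s - 3 - u p), d + (s - 2 - u p)] j ∈ W1 ∧
        ![a - u p, d + (2 * s - 3 - u p), d + (s - 2 - u p)] j ∉ ZY) ∧
      (∀ j, ![d, d + s] j ∈ Dg ∧ ![d, d + s] j ∉ ZD ∧ ![d, d + s] j ∉ ZB) ∧
      a - u p ≠ d + (2 * s - 3 - u p) ∧ a - u p ≠ d + (s - 2 - u p) := by
  have neg : ∀ v w : G, v ∉ X → w = -v → w ∉ X := by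
    intro v w hv e hw
    apply hv
    have := hXs w hw
    rwa [e, neg_neg] at this
  have i1 : ∀ c : G, Function.Injective (fun x : G => x + c) := fun c => add_left_injective c
  have i2 : ∀ c : G, Function.Injective (fun x : G => c - x) := fun c => sub_right_injective
  have hU := HU a (3 - 2 * s) (3 - s) (neg _ _ hs4 (by ring)) (neg _ _ hs3 (by ring))
    (neg _ _ hs0 (by ring))
  obtain ⟨x, hx, hx2⟩ := avoid
    [(id, U \ univ.image u), (id, ZP), (fun x => x + (3 - 2 * s), ZX), (fun x => x + (3 - s), ZX),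
      (fun x => a - x, ZY), (fun x => 2 * s - 3 - x, X), (fun x => s - 2 - x, X),
      (fun x => s - 3 - x, X), (fun x => -2 - x, X)]
    (U.filter (fun x => x + (3 - 2 * s) ∈ W0 ∧ x + (3 - s) ∈ W0 ∧ a - x ∈ W1))
    (by
      simp only [List.forall_mem_cons]
      exact ⟨Function.injective_id, Function.injective_id, i1 _, i1 _, i2 _, i2 _, i2 _, i2 _,
        i2 _, by simp⟩)
    (by simp only [List.map_cons, List.sum_cons, List.map_nil, List.sum_nil]; omega)
  simp only [List.forall_mem_cons] at hx2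
  obtain ⟨g0, g1, g2, g3, g4, g5, g6, g7, g8, -⟩ := hx2
  obtain ⟨hxU, f1, f2, f3⟩ := Finset.mem_filter.1 hx
  obtain ⟨p, -, rfl⟩ : ∃ p ∈ (univ : Finset P), u p = x := by
    by_contra n
    exact g0 (Finset.mem_sdiff.2 ⟨hxU, fun m => n (Finset.mem_image.1 m)⟩)
  have hD := HD s (2 * s - 3 - u p) (s - 2 - u p) hs0 g5 g6 (neg _ _ g7 (by ring))
    (neg _ _ g8 (by ring)) (by rw [show 2 * s - 3 - u p - (s - 2 - u p) = s - 1 by ring]; exact hs1)
  have one : ({a - u p} : Finset G).card = 1 := Finset.card_singleton _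
  obtain ⟨d, hd, hd2⟩ := avoid
    [(id, D \ Dg), (fun d => d + s, D \ Dg), (id, ZD), (fun d => d + s, ZD), (id, ZB),
      (fun d => d + s, ZB), (fun d => d + (2 * s - 3 - u p), ZY),
      (fun d => d + (s - 2 - u p), ZY), (fun d => d + (2 * s - 3 - u p), {a - u p}),
      (fun d => d + (s - 2 - u p), {a - u p})]
    (D.filter (fun d => d + s ∈ D ∧ d + (2 * s - 3 - u p) ∈ W1 ∧ d + (s - 2 - u p) ∈ W1))
    (by
      simp only [List.forall_mem_cons]
      exact ⟨Function.injective_id, i1 _, Function.injective_id, i1 _, Function.injective_id,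
        i1 _, i1 _, i1 _, i1 _, i1 _, by simp⟩)
    (by simp only [List.map_cons, List.sum_cons, List.map_nil, List.sum_nil]; omega)
  simp only [List.forall_mem_cons] at hd2
  obtain ⟨k0, k1, k2, k3, k4, k5, k6, k7, k8, k9, -⟩ := hd2
  obtain ⟨hdD, l1, l2, l3⟩ := Finset.mem_filter.1 hd
  have m0 : d ∈ Dg := by
    by_contra n
    exact k0 (Finset.mem_sdiff.2 ⟨hdD, n⟩)
  have m1 : d + s ∈ Dg := by
    by_contra n
    exact k1 (Finset.mem_sdiff.2 ⟨l1, n⟩)
  refine ⟨p, d, g1, Fin.forall_fin_two.2 ⟨⟨f1, g2⟩, ⟨f2, g3⟩⟩, ?_,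
    Fin.forall_fin_two.2 ⟨⟨m0, k2, k4⟩, ⟨m1, k3, k5⟩⟩,
    fun e => k8 (Finset.mem_singleton.2 e.symm), fun e => k9 (Finset.mem_singleton.2 e.symm)⟩
  intro j
  fin_cases j
  · exact ⟨f3, g4⟩
  · exact ⟨l2, k6⟩
  · exact ⟨l3, k7⟩

/-- the cover stage -/
lemma cover {G P : Type} [CommRing G] [DecidableEq G] [Fintype P] [Nonempty P] (hh : G)
    (h2 : 2 * hh = 1) (u : P → G)
    (D Dg U W0 W1 X : Finset G) (hX0 : (0 : G) ∈ X) (hXs : ∀ h ∈ X, -h ∈ X) (t ρ : ℕ)
    (hDg : (D \ Dg).card ≤ 2 * t) (hUfull : (U \ univ.image u).card ≤ t)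
    (hρ : 40 * t + 8 * X.card + 40 ≤ ρ) (hρD : ρ ≤ D.card)
    (HU : ∀ c s1 s2 : G, s1 ∉ X → s2 ∉ X → s1 - s2 ∉ X →
      ρ ≤ (U.filter (fun x => x + s1 ∈ W0 ∧ x + s2 ∈ W0 ∧ c - x ∈ W1)).card)
    (HD : ∀ s1 s2 s3 : G, s1 ∉ X → s2 ∉ X → s3 ∉ X → s1 - s2 ∉ X → s1 - s3 ∉ X → s2 - s3 ∉ X →
      ρ ≤ (D.filter (fun d => d + s1 ∈ D ∧ d + s2 ∈ W1 ∧ d + s3 ∈ W1)).card)
    (r : ℕ) (hr : r ≤ t) (a : Fin r × Fin 2 → G) :
    ∃ (b : Fin r → G) (p : Fin r × Fin 2 → P) (x : (Fin r × Fin 2) × Fin 2 → G)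
      (y : (Fin r × Fin 2) × Fin 3 → G) (w : (Fin r × Fin 2) × Fin 2 → G),
      Function.Injective b ∧ (∀ k, b k ∈ Dg) ∧ Function.Injective p ∧
      Function.Injective x ∧ (∀ z, x z ∈ W0) ∧ Function.Injective y ∧ (∀ z, y z ∈ W1) ∧
      Function.Injective w ∧ (∀ z, w z ∈ Dg) ∧ (∀ z k, w z ≠ b k) ∧
      ∀ i, y (i, 0) + u (p i) = a i ∧ y (i, 0) + x (i, 0) = b i.1 + ((i.2 : ℕ) : G) ∧
        y (i, 1) + x (i, 0) = w (i, 0) ∧ y (i, 1) + x (i, 1) = w (i, 1) ∧
        y (i, 2) + x (i, 1) = w (i, 0) + 1 ∧ y (i, 2) + (u (p i) + 3) = w (i, 1) + 1 := by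
  have hDc : D.card ≤ Dg.card + (D \ Dg).card := by
    have := Finset.le_card_sdiff Dg D
    omega
  obtain ⟨b, hb1, hb2, s, hs⟩ := stage1 hh h2 Dg X r (by omega) a
  have s0 : ∀ i, s i ≠ 0 := fun i e => (hs i).2.1 (e ▸ hX0)
  have s1 : ∀ i, s i - 1 ≠ 0 := fun i e => (hs i).2.2.1 (e ▸ hX0)
  obtain ⟨xx, hxx⟩ : ∃ xx : Fin r × Fin 2 → P × G → Fin 2 → G, xx = fun i c =>
    ![u c.1 + (3 - 2 * s i), u c.1 + (3 - s i)] := ⟨_, rfl⟩
  obtain ⟨yy, hyy⟩ : ∃ yy : Fin r × Fin 2 → P × G → Fin 3 → G, yy = fun i c =>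
    ![a i - u c.1, c.2 + (2 * s i - 3 - u c.1), c.2 + (s i - 2 - u c.1)] := ⟨_, rfl⟩
  obtain ⟨ww, hww⟩ : ∃ ww : Fin r × Fin 2 → P × G → Fin 2 → G, ww = fun i c =>
    ![c.2, c.2 + s i] := ⟨_, rfl⟩
  have hT : Fintype.card (Fin r × Fin 2) = 2 * r := by simp [mul_comm]
  obtain ⟨c, hc1, hc2⟩ := greedy (T := Fin r × Fin 2) (Y := P × G)
    (fun i c => (∀ j, xx i c j ∈ W0) ∧ (∀ j, yy i c j ∈ W1) ∧ (∀ j, ww i c j ∈ Dg) ∧
      (∀ j k, ww i c j ≠ b k) ∧ Function.Injective (yy i c))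
    (fun i c i' c' => u c.1 ≠ u c'.1 ∧ (∀ j j', xx i c j ≠ xx i' c' j') ∧
      (∀ j j', yy i c j ≠ yy i' c' j') ∧ ∀ j j', ww i c j ≠ ww i' c' j')
    (fun _ _ _ _ h => ⟨h.1.symm, fun j j' => (h.2.1 j' j).symm, fun j j' => (h.2.2.1 j' j).symm,
      fun j j' => (h.2.2.2 j' j).symm⟩) (by
      intro i c
      have zP : (univ.image (fun i' => u (c i').1)).card ≤ 2 * t :=
        le_trans Finset.card_image_le (by rw [Finset.card_univ, hT]; omega)
      have zX := card_img (fun z : (Fin r × Fin 2) × Fin 2 => xx z.1 (c z.1) z.2)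
      have zY := card_img (fun z : (Fin r × Fin 2) × Fin 3 => yy z.1 (c z.1) z.2)
      have zD := card_img (fun z : (Fin r × Fin 2) × Fin 2 => ww z.1 (c z.1) z.2)
      have zB : (univ.image b).card ≤ t := le_trans Finset.card_image_le (by simpa using hr)
      rw [hT, Fintype.card_fin] at zX zY zD
      obtain ⟨p, d, m1, m2, m3, m4, m5, m6⟩ := task u D Dg U W0 W1 X hXs t ρ hDg hUfull hρ HU HD
        (a i) (s i) (hs i).2.1 (hs i).2.2.1 (hs i).2.2.2.1 (hs i).2.2.2.2 _ _ _ _ _ zP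
        (le_trans zX (by omega)) (le_trans zY (by omega)) (le_trans zD (by omega)) zB
      have e1 : xx i (p, d) = ![u p + (3 - 2 * s i), u p + (3 - s i)] := by rw [hxx]
      have e2 : yy i (p, d) = ![a i - u p, d + (2 * s i - 3 - u p), d + (s i - 2 - u p)] := by
        rw [hyy]
      have e3 : ww i (p, d) = ![d, d + s i] := by rw [hww]
      refine ⟨(p, d), ?_, fun i' => ⟨?_, ?_, ?_, ?_⟩⟩
      · rw [e1, e2, e3]
        refine ⟨fun j => (m2 j).1, fun j => (m3 j).1, fun j => (m4 j).1, fun j k e => (m4 j).2.2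
          (Finset.mem_image.2 ⟨k, Finset.mem_univ _, e.symm⟩), inj3 _ _ _ m5 m6 ?_⟩
        intro e
        exact s1 i (by linear_combination e)
      · exact fun e => m1 (Finset.mem_image.2 ⟨i', Finset.mem_univ _, e.symm⟩)
      · rw [e1]
        exact fun j j' e => (m2 j).2 (Finset.mem_image.2 ⟨(i', j'), Finset.mem_univ _, e.symm⟩)
      · rw [e2]
        exact fun j j' e => (m3 j).2 (Finset.mem_image.2 ⟨(i', j'), Finset.mem_univ _, e.symm⟩)
      · rw [e3]
        exact fun j j' e => (m4 j).2.1 (Finset.mem_image.2 ⟨(i', j'), Finset.mem_univ _, e.symm⟩))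
  refine ⟨b, fun i => (c i).1, fun z => xx z.1 (c z.1) z.2, fun z => yy z.1 (c z.1) z.2,
    fun z => ww z.1 (c z.1) z.2, hb1, hb2, ?_, ?_, fun z => (hc1 z.1).1 z.2, ?_,
    fun z => (hc1 z.1).2.1 z.2, ?_, fun z => (hc1 z.1).2.2.1 z.2,
    fun z => (hc1 z.1).2.2.2.1 z.2, ?_⟩
  · intro i j e
    by_contra n
    exact (hc2 i j n).1 (congrArg u e)
  · refine joint_inj (fun i => xx i (c i)) (fun i => ?_) (fun i i' n => (hc2 i i' n).2.1)
    rw [hxx]
    exact inj2 _ _ (fun e => s0 i (by linear_combination (-1) * e))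
  · exact joint_inj (fun i => yy i (c i)) (fun i => (hc1 i).2.2.2.2)
      (fun i i' n => (hc2 i i' n).2.2.1)
  · refine joint_inj (fun i => ww i (c i)) (fun i => ?_) (fun i i' n => (hc2 i i' n).2.2.2)
    rw [hww]
    exact inj2 _ _ (fun e => s0 i (by linear_combination (-1) * e))
  · intro i
    have e := (hs i).1
    simp only [hxx, hyy, hww, Matrix.cons_val_zero, Matrix.cons_val_one, Matrix.cons_val]
    refine ⟨by ring, by linear_combination (-1) * e, by ring, by ring, by ring, by ring⟩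

end Fin

namespace Fin

/-- the exchange stage -/
lemma rest {G P : Type} [CommRing G] [Fintype G] [DecidableEq G] [Fintype P] [DecidableEq P]
    (u : P → G) (pos : P × Fin 3 → G) (hpos : Function.Injective pos)
    (hpos0 : ∀ p, pos (p, 0) = u p) (D D2 U W1 Wu : Finset G) (Pu : Finset P)
    (d0 : P × Fin 3 → G) (hd0i : Function.Injective d0)
    (hy0 : Function.Injective (fun q => d0 q - pos q)) (hy0W : ∀ q, d0 q - pos q ∉ W1)
    (t a : ℕ) (hbad : (univ.filter (fun q => d0 q ∉ D2)).card ≤ 6 * t)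
    (hD2 : (D \ D2).card ≤ 7 * t) (hc : D2.card + 3 * Pu.card = 3 * Fintype.card P)
    (hPu : Pu.card ≤ 2 * t) (hWu : Wu.card ≤ 6 * t) (hUfull : (U \ univ.image u).card ≤ t)
    (deg1 : ∀ q, a + 40 * t ≤ (D.filter (fun d => d - pos q ∈ W1)).card)
    (deg2 : ∀ d : G, a + 40 * t ≤ (U.filter (fun x => d - x ∈ W1)).card)
    (mix : ∀ A B : Finset G, a ≤ A.card → a ≤ B.card →
      (40 * t + 3) * Fintype.card G < ((A ×ˢ B).filter (fun z => z.2 - z.1 ∈ W1)).card) :
    ∃ φ : P × Fin 3 → G, (∀ d ∈ D2, ∃ q, q.1 ∉ Pu ∧ φ q = d) ∧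
      (∀ q q', q.1 ∉ Pu → q'.1 ∉ Pu → φ q - pos q = φ q' - pos q' → q = q') ∧
      ∀ q, q.1 ∉ Pu → (φ q - pos q ∈ W1 ∧ φ q - pos q ∉ Wu) ∨ φ q = d0 q := by
  have hcard : Fintype.card {q : P × Fin 3 // q.1 ∉ Pu} = D2.card := by
    rw [Fintype.card_subtype]
    have e : (univ.filter (fun q : P × Fin 3 => q.1 ∉ Pu)) = (univ \ Pu) ×ˢ univ := by
      ext q
      simp
    rw [e, Finset.card_product, Finset.card_sdiff_of_subset (Finset.subset_univ _)]
    simp only [Finset.card_univ, Fintype.card_fin]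
    omega
  obtain ⟨φ, f1, f2, f3, f4⟩ := exchange (P := {q : P × Fin 3 // q.1 ∉ Pu}) (fun q => pos q.1)
    (hpos.comp Subtype.val_injective) D2 (W1 \ Wu) hcard.symm
    (univ.filter (fun q => d0 q.1 ∈ D2)) (fun q => d0 q.1)
    (fun q hq => (Finset.mem_filter.1 hq).2)
    (fun p _ q _ h => Subtype.val_injective (hd0i h))
    (fun p _ h => hy0W p.1 (Finset.mem_sdiff.1 h).1)
    (fun p _ q _ h => Subtype.val_injective (hy0 h)) (6 * t) a
    (by
      have h1 := Finset.card_filter_add_card_filter_not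
        (s := (univ : Finset {q : P × Fin 3 // q.1 ∉ Pu})) (fun q => d0 q.1 ∈ D2)
      have h2 : (univ.filter (fun q : {q : P × Fin 3 // q.1 ∉ Pu} => d0 q.1 ∉ D2)).card ≤
          (univ.filter (fun q => d0 q ∉ D2)).card := by
        apply Finset.card_le_card_of_injOn Subtype.val
        · intro q hq
          exact Finset.mem_coe.2 (Finset.mem_filter.2
            ⟨Finset.mem_univ _, (Finset.mem_filter.1 (Finset.mem_coe.1 hq)).2⟩)
        · exact Subtype.val_injective.injOn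
      rw [Finset.card_univ] at h1
      omega)
    (by
      intro q
      have h1 := cut_card (D.filter (fun d => d - pos q.1 ∈ W1)) id Function.injective_id.injOn
        (D \ D2)
      have h2 := cut_card ((D.filter (fun d => d - pos q.1 ∈ W1)).filter
        (fun x => id x ∉ D \ D2)) (fun d => d - pos q.1) sub_left_injective.injOn Wu
      have h4 : (((D.filter (fun d => d - pos q.1 ∈ W1)).filter
          (fun x => id x ∉ D \ D2)).filter (fun d => d - pos q.1 ∉ Wu)) ⊆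
          D2.filter (fun d => d - pos q.1 ∈ W1 \ Wu) := by
        intro d hd
        simp only [Finset.mem_filter, id, Finset.mem_sdiff, not_and, not_not] at hd ⊢
        exact ⟨hd.1.2 hd.1.1.1, hd.1.1.2, hd.2⟩
      have h5 := Finset.card_le_card h4
      have h6 := deg1 q.1
      omega)
    (by
      intro d _
      have h1 := cut_card (U.filter (fun x => d - x ∈ W1)) id Function.injective_id.injOn
        (U \ univ.image u)
      have h2 := cut_card ((U.filter (fun x => d - x ∈ W1)).filter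
        (fun x => id x ∉ U \ univ.image u)) id Function.injective_id.injOn (Pu.image u)
      have h3 := cut_card (((U.filter (fun x => d - x ∈ W1)).filter
        (fun x => id x ∉ U \ univ.image u)).filter (fun x => id x ∉ Pu.image u))
        (fun x => d - x) sub_right_injective.injOn Wu
      have h4 : ((((U.filter (fun x => d - x ∈ W1)).filter
          (fun x => id x ∉ U \ univ.image u)).filter (fun x => id x ∉ Pu.image u)).filter
          (fun x => d - x ∉ Wu)) ⊆ (univ.filter (fun q : {q : P × Fin 3 // q.1 ∉ Pu} =>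
            d - pos q.1 ∈ W1 \ Wu)).image (fun q => pos q.1) := by
        intro x hx
        simp only [Finset.mem_filter, id, Finset.mem_sdiff, not_and, not_not] at hx
        obtain ⟨p, -, rfl⟩ := Finset.mem_image.1 (hx.1.1.2 hx.1.1.1.1)
        have hp : p ∉ Pu := fun m => hx.1.2 (Finset.mem_image.2 ⟨p, m, rfl⟩)
        refine Finset.mem_image.2 ⟨⟨(p, 0), hp⟩, Finset.mem_filter.2 ⟨Finset.mem_univ _, ?_⟩,
          hpos0 p⟩
        rw [hpos0 p]
        exact Finset.mem_sdiff.2 ⟨hx.1.1.1.2, hx.2⟩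
      have h5 := le_trans (Finset.card_le_card h4) Finset.card_image_le
      have h6 := deg2 d
      have h7 : (Pu.image u).card ≤ Pu.card := Finset.card_image_le
      omega)
    (by
      intro A B hA hB
      have h1 := mix A B hA hB
      have h2 := cut_card ((A ×ˢ B).filter (fun z => z.2 - z.1 ∈ W1))
        (fun z => (z.1, z.2 - z.1)) (by
          intro z _ w _ h
          obtain ⟨e1, e2⟩ := Prod.mk.inj h
          rw [e1] at e2
          exact Prod.ext e1 (sub_left_injective e2)) (univ ×ˢ Wu)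
      have h3 : ((A ×ˢ B).filter (fun z => z.2 - z.1 ∈ W1)).filter
          (fun z => (z.1, z.2 - z.1) ∉ univ ×ˢ Wu) ⊆
          (A ×ˢ B).filter (fun z => z.2 - z.1 ∈ W1 \ Wu) := by
        intro z hz
        simp only [Finset.mem_filter, Finset.mem_sdiff, Finset.mem_product, Finset.mem_univ,
          true_and] at hz ⊢
        exact ⟨hz.1.1, hz.1.2, hz.2⟩
      have h4 := Finset.card_le_card h3
      rw [Finset.card_product, Finset.card_univ] at h2
      have h5 : Fintype.card G * Wu.card ≤ Fintype.card G * (6 * t) := Nat.mul_le_mul_left _ hWu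
      have h6 : (40 * t + 3) * Fintype.card G = (3 * (6 * t) + 3) * Fintype.card G +
        Fintype.card G * (6 * t) + 16 * t * Fintype.card G := by ring
      omega)
  have him : univ.image φ = D2 := by
    apply Finset.eq_of_subset_of_card_le
    · intro d hd
      obtain ⟨q, -, rfl⟩ := Finset.mem_image.1 hd
      exact f1 q
    · rw [Finset.card_image_of_injective _ f2, Finset.card_univ, hcard]
  refine ⟨fun q => if h : q.1 ∉ Pu then φ ⟨q, h⟩ else 0, ?_, ?_, ?_⟩
  · intro d hd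
    rw [← him] at hd
    obtain ⟨q, -, rfl⟩ := Finset.mem_image.1 hd
    exact ⟨q.1, q.2, by simp only [dif_pos q.2]⟩
  · intro q q' h h' e
    simp only [dif_pos h, dif_pos h'] at e
    exact congrArg Subtype.val (f3 (a₁ := ⟨q, h⟩) (a₂ := ⟨q', h'⟩) e)
  · intro q h
    simp only [dif_pos h]
    rcases f4 ⟨q, h⟩ with m | m
    · exact Or.inl (Finset.mem_sdiff.1 m)
    · exact Or.inr m.2

lemma glue {T P J G : Type} (p : T → P) (hp : Function.Injective p) (f : T × J → G)
    (g : P × J → G) : ∃ F : P × J → G, (∀ i j, F (p i, j) = f (i, j)) ∧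
      ∀ q, (∀ i, p i ≠ q.1) → F q = g q := by
  refine ⟨fun q => Function.extend p (fun i j => f (i, j)) (fun p' j => g (p', j)) q.1 q.2,
    fun i j => ?_, fun q hq => ?_⟩
  · simp only [hp.extend_apply]
  · simp only [Function.extend_apply' _ _ q.1 (fun h => h.elim hq)]

lemma glue_inj {T P J G : Type} (p : T → P) (f : T × J → G) (g F : P × J → G)
    (h1 : ∀ i j, F (p i, j) = f (i, j)) (h2 : ∀ q, (∀ i, p i ≠ q.1) → F q = g q)
    (hf : Function.Injective f)
    (hg : ∀ q q', (∀ i, p i ≠ q.1) → (∀ i, p i ≠ q'.1) → g q = g q' → q = q')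
    (hfg : ∀ z q, (∀ i, p i ≠ q.1) → f z ≠ g q) : Function.Injective F := by
  have key : ∀ q : P × J, (∃ i, q = (p i, q.2)) ∨ ∀ i, p i ≠ q.1 := by
    intro q
    by_cases h : ∃ i, p i = q.1
    · obtain ⟨i, hi⟩ := h
      exact Or.inl ⟨i, Prod.ext hi.symm rfl⟩
    · exact Or.inr (fun i e => h ⟨i, e⟩)
  intro q q' e
  rcases key q with ⟨i, hi⟩ | hi <;> rcases key q' with ⟨i', hi'⟩ | hi'
  · rw [hi, hi', h1, h1] at e
    obtain ⟨e1, e2⟩ := Prod.mk.inj (hf e)
    rw [hi, hi', e1, e2]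
  · rw [hi, h1, h2 q' hi'] at e
    exact absurd e (hfg _ _ hi')
  · rw [hi', h1, h2 q hi] at e
    exact absurd e.symm (hfg _ _ hi)
  · rw [h2 q hi, h2 q' hi'] at e
    exact hg q q' hi hi' e

end Fin

/-- the four even vertices of a path with six edges from `u` to `u + 3` -/
def zz {G : Type} [CommRing G] (u x0 x1 : G) (k : ℕ) : G :=
  if k = 0 then u else if k = 1 then x0 else if k = 2 then x1 else u + 3

/-- completing paths with six edges: all free colours are used exactly once -/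
theorem finalB {G P : Type} [CommRing G] [Fintype G] [DecidableEq G] [Fintype P] [DecidableEq P]
    (hh : G) (h2 : 2 * hh = 1) (u : P → G)
    (hu : Function.Injective (fun q : P × Fin 4 => u q.1 + ((q.2 : ℕ) : G)))
    (Φ D U W0 W1 X : Finset G) (hX0 : (0 : G) ∈ X) (hXs : ∀ h ∈ X, -h ∈ X)
    (hΦ : Φ.card = 6 * Fintype.card P) (hD1 : ∀ d ∈ D, d + 1 ∉ D)
    (d0 : P × Fin 3 → G) (hd0 : ∀ q, d0 q ∈ D) (hd0i : Function.Injective d0)
    (hy0 : Function.Injective (fun q : P × Fin 3 => d0 q - (u q.1 + ((q.2 : ℕ) : G))))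
    (hy0W : ∀ q : P × Fin 3, d0 q - (u q.1 + ((q.2 : ℕ) : G)) ∉ W1)
    (hW0 : ∀ (p : P) (i : Fin 4), u p + ((i : ℕ) : G) ∉ W0)
    (t a ρ : ℕ)
    (hgood : (univ.filter (fun q => ¬ (d0 q ∈ Φ ∧ d0 q + 1 ∈ Φ))).card ≤ t)
    (hDfull : D.card ≤ 3 * Fintype.card P + t)
    (hUfull : (U \ univ.image u).card ≤ t)
    (hρ : 40 * t + 8 * X.card + 40 ≤ ρ) (hρD : ρ ≤ D.card)
    (HU : ∀ c s1 s2 : G, s1 ∉ X → s2 ∉ X → s1 - s2 ∉ X →
      ρ ≤ (U.filter (fun x => x + s1 ∈ W0 ∧ x + s2 ∈ W0 ∧ c - x ∈ W1)).card)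
    (HD : ∀ s1 s2 s3 : G, s1 ∉ X → s2 ∉ X → s3 ∉ X → s1 - s2 ∉ X → s1 - s3 ∉ X → s2 - s3 ∉ X →
      ρ ≤ (D.filter (fun d => d + s1 ∈ D ∧ d + s2 ∈ W1 ∧ d + s3 ∈ W1)).card)
    (deg1 : ∀ (p : P) (i : Fin 3),
      a + 40 * t ≤ (D.filter (fun d => d - (u p + ((i : ℕ) : G)) ∈ W1)).card)
    (deg2 : ∀ d : G, a + 40 * t ≤ (U.filter (fun x => d - x ∈ W1)).card)
    (mix : ∀ A B : Finset G, a ≤ A.card → a ≤ B.card →
      (40 * t + 3) * Fintype.card G < ((A ×ˢ B).filter (fun z => z.2 - z.1 ∈ W1)).card) :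
    ∃ (y : P × Fin 3 → G) (x : P × Fin 2 → G),
      Function.Injective y ∧
      (∀ q, y q ∈ W1 ∨ y q = d0 q - (u q.1 + ((q.2 : ℕ) : G))) ∧
      Function.Injective x ∧
      (∀ q, x q ∈ W0 ∨ x q = u q.1 + ((q.2 : ℕ) : G) + 1) ∧
      Function.Injective (fun r : P × Fin 3 × Fin 2 =>
        y (r.1, r.2.1) + zz (u r.1) (x (r.1, 0)) (x (r.1, 1)) ((r.2.1 : ℕ) + (r.2.2 : ℕ))) ∧
      ∀ r : P × Fin 3 × Fin 2,
        y (r.1, r.2.1) + zz (u r.1) (x (r.1, 0)) (x (r.1, 1)) ((r.2.1 : ℕ) + (r.2.2 : ℕ)) ∈ Φ := by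
  set Dg := D.filter (fun d => d ∈ Φ ∧ d + 1 ∈ Φ) with hDg
  have hDgD : Dg ⊆ D := Finset.filter_subset _ _
  have c1 : 3 * Fintype.card P ≤ Dg.card + t := by
    have h1 := Finset.card_filter_add_card_filter_not (s := (univ : Finset (P × Fin 3)))
      (fun q => d0 q ∈ Φ ∧ d0 q + 1 ∈ Φ)
    have h3 : (univ.filter (fun q => d0 q ∈ Φ ∧ d0 q + 1 ∈ Φ)).card ≤ Dg.card := by
      apply Finset.card_le_card_of_injOn d0
      · intro q hq
        exact Finset.mem_coe.2 (Finset.mem_filter.2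
          ⟨hd0 q, (Finset.mem_filter.1 (Finset.mem_coe.1 hq)).2⟩)
      · exact hd0i.injOn
    rw [Finset.card_univ, Fintype.card_prod, Fintype.card_fin] at h1
    omega
  have c2 : (D \ Dg).card ≤ 2 * t := by
    rw [Finset.card_sdiff_of_subset hDgD]
    omega
  have c3 : (Dg ∪ Dg.image (fun d => d + 1)).card = 2 * Dg.card := by
    rw [Finset.card_union_of_disjoint, Finset.card_image_of_injective _ (add_left_injective 1)]
    · ring
    · rw [Finset.disjoint_left]
      intro f hf hf'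
      obtain ⟨d, hd, rfl⟩ := Finset.mem_image.1 hf'
      exact hD1 d (hDgD hd) (hDgD hf)
  have c4 : Dg ∪ Dg.image (fun d => d + 1) ⊆ Φ := by
    intro f hf
    rcases Finset.mem_union.1 hf with h | h
    · exact (Finset.mem_filter.1 h).2.1
    · obtain ⟨d, hd, rfl⟩ := Finset.mem_image.1 h
      exact (Finset.mem_filter.1 hd).2.2
  have c5 := Finset.card_le_card c4
  obtain ⟨r, hr⟩ : ∃ r, Dg.card + r = 3 * Fintype.card P := ⟨3 * Fintype.card P - Dg.card, by omega⟩
  have c6 : (Φ \ (Dg ∪ Dg.image (fun d => d + 1))).card = Fintype.card (Fin r × Fin 2) := by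
    rw [Finset.card_sdiff_of_subset c4, Fintype.card_prod, Fintype.card_fin, Fintype.card_fin]
    omega
  obtain ⟨sg, hsg⟩ : ∃ sg : Fin r × Fin 2 → G,
      ∀ f ∈ Φ \ (Dg ∪ Dg.image (fun d => d + 1)), ∃ i, sg i = f := by
    have e := Fintype.equivOfCardEq ((Fintype.card_coe _).trans c6)
    exact ⟨fun i => (e.symm i).1, fun f hf => ⟨e ⟨f, hf⟩, by simp⟩⟩
  have : Nonempty P := Fintype.card_pos_iff.1 (by omega)
  obtain ⟨b, p, x1, y1, w, b1, b2, p1, x2, x3, y2, y3, w1, w2, w3, col⟩ :=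
    Fin.cover hh h2 u D Dg U W0 W1 X hX0 hXs t ρ c2 hUfull hρ hρD HU HD r (by omega) sg
  have hT : Fintype.card (Fin r × Fin 2) = 2 * r := by simp [mul_comm]
  have c7 : (univ.image b ∪ univ.image w).card = 5 * r := by
    rw [Finset.card_union_of_disjoint, Finset.card_image_of_injective _ b1,
      Finset.card_image_of_injective _ w1, Finset.card_univ, Finset.card_univ, Fintype.card_prod,
      hT, Fintype.card_fin, Fintype.card_fin]
    · ring
    · rw [Finset.disjoint_left]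
      intro f hf hf'
      obtain ⟨k, -, rfl⟩ := Finset.mem_image.1 hf
      obtain ⟨z, -, e⟩ := Finset.mem_image.1 hf'
      exact w3 z k e
  have c8 : univ.image b ∪ univ.image w ⊆ Dg := by
    intro f hf
    rcases Finset.mem_union.1 hf with h | h
    · obtain ⟨k, -, rfl⟩ := Finset.mem_image.1 h
      exact b2 k
    · obtain ⟨z, -, rfl⟩ := Finset.mem_image.1 h
      exact w2 z
  have c9 := Finset.card_le_card c8
  have c10 := Finset.card_sdiff_of_subset c8
  have c11 : (univ.image p).card = 2 * r := by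
    rw [Finset.card_image_of_injective _ p1, Finset.card_univ, hT]
  have c12 := Fin.card_img y1
  rw [hT, Fintype.card_fin] at c12
  have hpos : Function.Injective (fun q : P × Fin 3 => u q.1 + ((q.2 : ℕ) : G)) := by
    intro q q' e
    have := @hu (q.1, q.2.castSucc) (q'.1, q'.2.castSucc) e
    exact Prod.ext (Prod.mk.inj this).1 (Fin.castSucc_injective _ (Prod.mk.inj this).2)
  obtain ⟨ph, r1, r2, r3⟩ := Fin.rest u (fun q : P × Fin 3 => u q.1 + ((q.2 : ℕ) : G)) hpos
    (by intro q; simp) D (Dg \ (univ.image b ∪ univ.image w)) U W1 (univ.image y1) (univ.image p)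
    d0 hd0i hy0 hy0W t a
    (by
      have h1 := Fin.hit_card univ d0 hd0i.injOn (univ.image b ∪ univ.image w)
      have h3 : univ.filter (fun q => d0 q ∉ Dg \ (univ.image b ∪ univ.image w)) ⊆
          univ.filter (fun q => ¬ (d0 q ∈ Φ ∧ d0 q + 1 ∈ Φ)) ∪
          univ.filter (fun q => d0 q ∈ univ.image b ∪ univ.image w) := by
        intro q hq
        rw [Finset.mem_union, Finset.mem_filter, Finset.mem_filter]
        by_cases m : d0 q ∈ Φ ∧ d0 q + 1 ∈ Φ
        · refine Or.inr ⟨Finset.mem_univ _, by_contra fun n => (Finset.mem_filter.1 hq).2 ?_⟩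
          exact Finset.mem_sdiff.2 ⟨Finset.mem_filter.2 ⟨hd0 q, m⟩, n⟩
        · exact Or.inl ⟨Finset.mem_univ _, m⟩
      have h4 := le_trans (Finset.card_le_card h3) (Finset.card_union_le _ _)
      omega)
    (by
      rw [Finset.card_sdiff_of_subset (Finset.sdiff_subset.trans hDgD)]
      omega)
    (by omega) (by omega) (by omega) hUfull (fun q => deg1 q.1 q.2) deg2 mix
  have free : ∀ q : P, (∀ i, p i ≠ q) ↔ q ∉ univ.image p := by
    intro q
    simp
  obtain ⟨y, Y1, Y2⟩ := Fin.glue p p1 y1 (fun q => ph q - (u q.1 + ((q.2 : ℕ) : G)))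
  obtain ⟨x, X1, X2⟩ := Fin.glue p p1 x1 (fun q => u q.1 + ((q.2 : ℕ) : G) + 1)
  have sh : ∀ q : P × Fin 2, u q.1 + ((q.2 : ℕ) : G) + 1 =
      u q.1 + (((q.2.succ.castSucc : Fin 4) : ℕ) : G) := by
    intro q
    simp [add_assoc]
  have key : ∀ q : P, (∃ i, p i = q) ∨ ∀ i, p i ≠ q := fun q =>
    (em _).imp id (fun h i e => h ⟨i, e⟩)
  have surj : Φ ⊆ univ.image (fun r : P × Fin 3 × Fin 2 =>
      y (r.1, r.2.1) + zz (u r.1) (x (r.1, 0)) (x (r.1, 1)) ((r.2.1 : ℕ) + (r.2.2 : ℕ))) := by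
    have pair : ∀ d ∈ Dg, ∀ e : Fin 2, ∃ r : P × Fin 3 × Fin 2,
        y (r.1, r.2.1) + zz (u r.1) (x (r.1, 0)) (x (r.1, 1)) ((r.2.1 : ℕ) + (r.2.2 : ℕ)) =
          d + ((e : ℕ) : G) := by
      intro d hd e
      by_cases m : d ∈ univ.image b ∪ univ.image w
      · rcases Finset.mem_union.1 m with h | h
        · obtain ⟨k, -, rfl⟩ := Finset.mem_image.1 h
          exact ⟨(p (k, e), 0, 1), by simpa [zz, Y1, X1] using (col (k, e)).2.1⟩
        · obtain ⟨⟨i, j⟩, -, rfl⟩ := Finset.mem_image.1 h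
          fin_cases j <;> fin_cases e
          · exact ⟨(p i, 1, 0), by simpa [zz, Y1, X1] using (col i).2.2.1⟩
          · exact ⟨(p i, 2, 0), by simpa [zz, Y1, X1] using (col i).2.2.2.2.1⟩
          · exact ⟨(p i, 1, 1), by simpa [zz, Y1, X1] using (col i).2.2.2.1⟩
          · exact ⟨(p i, 2, 1), by simpa [zz, Y1, X1] using (col i).2.2.2.2.2⟩
      · obtain ⟨⟨q, j⟩, hq, rfl⟩ := r1 d (Finset.mem_sdiff.2 ⟨hd, m⟩)
        have hq' := (free q).2 hq
        refine ⟨(q, j, e), ?_⟩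
        simp only [Y2 (q, j) hq', X2 (q, 0) hq', X2 (q, 1) hq']
        fin_cases j <;> fin_cases e <;> simp [zz] <;> ring
    intro f hf
    rw [Finset.mem_image]
    by_cases m : f ∈ Dg ∪ Dg.image (fun d => d + 1)
    · rcases Finset.mem_union.1 m with h | h
      · obtain ⟨z, hz⟩ := pair f h 0
        exact ⟨z, Finset.mem_univ _, by simpa using hz⟩
      · obtain ⟨d, hd, rfl⟩ := Finset.mem_image.1 h
        obtain ⟨z, hz⟩ := pair d hd 1
        exact ⟨z, Finset.mem_univ _, by simpa using hz⟩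
    · obtain ⟨i, rfl⟩ := hsg f (Finset.mem_sdiff.2 ⟨hf, m⟩)
      exact ⟨(p i, 0, 0), Finset.mem_univ _, by simpa [zz, Y1] using (col i).1⟩
  have hc6 : (univ : Finset (P × Fin 3 × Fin 2)).card = Φ.card := by
    rw [hΦ, Finset.card_univ, Fintype.card_prod, Fintype.card_prod, Fintype.card_fin,
      Fintype.card_fin]
    ring
  have heq := Finset.eq_of_subset_of_card_le surj (le_trans Finset.card_image_le hc6.le)
  refine ⟨y, x, ?_, ?_, ?_, ?_, ?_, ?_⟩
  · refine Fin.glue_inj p y1 _ y Y1 Y2 y2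
      (fun q q' h h' => r2 q q' ((free _).1 h) ((free _).1 h')) ?_
    intro z q hq e
    rcases r3 q ((free _).1 hq) with m | m
    · exact m.2 (Finset.mem_image.2 ⟨z, Finset.mem_univ _, e⟩)
    · rw [m] at e
      exact hy0W q (e ▸ y3 z)
  · rintro ⟨q, j⟩
    rcases key q with ⟨i, rfl⟩ | hq
    · rw [Y1]
      exact Or.inl (y3 _)
    · rw [Y2 (q, j) hq]
      rcases r3 (q, j) ((free _).1 hq) with m | m
      · exact Or.inl m.1
      · rw [m]
        exact Or.inr rfl
  · refine Fin.glue_inj p x1 _ x X1 X2 x2 (fun q q' _ _ e => ?_) ?_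
    · rw [sh, sh] at e
      have := @hu (q.1, q.2.succ.castSucc) (q'.1, q'.2.succ.castSucc) e
      exact Prod.ext (Prod.mk.inj this).1
        (Fin.succ_injective _ (Fin.castSucc_injective _ (Prod.mk.inj this).2))
    · intro z q _ e
      rw [sh] at e
      exact hW0 _ _ (e ▸ x3 z)
  · rintro ⟨q, j⟩
    rcases key q with ⟨i, rfl⟩ | hq
    · rw [X1]
      exact Or.inl (x3 _)
    · exact Or.inr (X2 (q, j) hq)
  · intro z z' e
    exact Finset.card_image_iff.1 (by rw [← heq, hc6]) (Finset.mem_coe.2 (Finset.mem_univ z))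
      (Finset.mem_coe.2 (Finset.mem_univ z')) e
  · intro z
    rw [heq]
    exact Finset.mem_image.2 ⟨z, Finset.mem_univ _, rfl⟩

end Pool.Agent.Lib.MP_5cebc8_co
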