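import Pool.Agent.Lib.MP_5cebc8_co.Defs
import Pool.Agent.Lib.MP_5cebc8_co.Final

open Finset

namespace Pool.Agent.Lib.MP_5cebc8_co

set_option linter.unusedSectionVars false

variable {V : Type} [Fintype V] [DecidableEq V]

namespace Cs

open Classical in
/-- the colours that are not used by the visible edges -/
noncomputable def free (T : RT V) {m : ℕ} [NeZero m] (H : V → Prop) (ψ : V → ZMod m) :
    Finset (ZMod m) :=
  univ \ (univ.filter (fun v => v ≠ T.root ∧ ¬ H v)).image (fun v => ψ v + ψ (T.par v))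

lemma mem_free (T : RT V) {m : ℕ} [NeZero m] (H : V → Prop) (ψ : V → ZMod m) (d : ZMod m) :
    d ∈ free T H ψ ↔ ∀ v, v ≠ T.root → ¬ H v → ψ v + ψ (T.par v) ≠ d := by
  simp [free]

lemma card_free (T : RT V) {m : ℕ} [NeZero m] (H : V → Prop) (ψ : V → ZMod m)
    (hV : Fintype.card V = m + 1)
    (col : ∀ u v, u ≠ T.root → v ≠ T.root → ¬ H u → ¬ H v →
      ψ u + ψ (T.par u) = ψ v + ψ (T.par v) → u = v)
    {I : Type} [Fintype I] (e : I → V) (he : Function.Injective e)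
    (hr : ∀ i, e i ≠ T.root) (hH : ∀ v, H v ↔ ∃ i, e i = v) :
    (free T H ψ).card = Fintype.card I := by
  classical
  have h1 : ((univ.filter (fun v => v ≠ T.root ∧ ¬ H v)).image
      (fun v => ψ v + ψ (T.par v))).card = (univ.filter (fun v => v ≠ T.root ∧ ¬ H v)).card := by
    apply card_image_of_injOn
    intro u hu v hv huv
    have hu' := (mem_filter.1 (mem_coe.1 hu)).2
    have hv' := (mem_filter.1 (mem_coe.1 hv)).2
    exact col u v hu'.1 hv'.1 hu'.2 hv'.2 huv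
  have h2 : univ.filter (fun v => v ≠ T.root ∧ ¬ H v) = (univ.erase T.root) \ univ.image e := by
    ext v
    simp [hH]
  have h3 : univ.image e ⊆ univ.erase T.root := by
    intro v hv
    obtain ⟨i, -, rfl⟩ := mem_image.1 hv
    exact mem_erase.2 ⟨hr i, mem_univ _⟩
  have h4 : (univ.image e).card = Fintype.card I := by
    rw [card_image_of_injective _ he, card_univ]
  have h5 : (univ.erase T.root).card = m := by
    rw [card_erase_of_mem (mem_univ _), card_univ, hV]; simp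
  have h6 := card_le_card h3
  have h7 : (free T H ψ).card = m - (m - Fintype.card I) := by
    unfold free
    rw [card_sdiff_of_subset (subset_univ _), card_univ, ZMod.card]
    congr 1
    convert h1.trans (by rw [h2, card_sdiff_of_subset h3, h4, h5])
  omega

omit [Fintype V] [DecidableEq V] in
/-- a new labelling is injective on each side -/
lemma sides (T : RT V) {G : Type} (ψ ψ' : V → G) (W : Bool → Finset G)
    (lab : ∀ u v, T.sd u = T.sd v → ψ u = ψ v → u = v) (hfree : ∀ v, ψ v ∉ W (T.sd v))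
    (S : V → Prop) (hout : ∀ v, ¬ S v → ψ' v = ψ v)
    (hin : ∀ v, S v → ψ' v ∈ W (T.sd v) ∨ ψ' v = ψ v)
    (hinj : ∀ u v, S u → S v → T.sd u = T.sd v → ψ' u = ψ' v → u = v) :
    ∀ u v, T.sd u = T.sd v → ψ' u = ψ' v → u = v := by
  have key : ∀ u v, S u → ¬ S v → T.sd u = T.sd v → ψ' u = ψ' v → u = v := by
    intro u v hu hv hs he
    rcases hin u hu with h | h
    · rw [he, hout v hv, hs] at h
      exact absurd h (hfree v)
    · exact lab u v hs (by rw [← h, he, hout v hv])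
  intro u v hs he
  by_cases hu : S u <;> by_cases hv : S v
  · exact hinj u v hu hv hs he
  · exact key u v hu hv hs he
  · exact (key v u hv hu hs.symm he.symm).symm
  · exact lab u v hs (by rw [← hout u hu, he, hout v hv])

/-- the colours of a new labelling are distinct -/
lemma colours (T : RT V) {m : ℕ} [NeZero m] (H : V → Prop) (ψ ψ' : V → ZMod m)
    (col : ∀ u v, u ≠ T.root → v ≠ T.root → ¬ H u → ¬ H v →
      ψ u + ψ (T.par u) = ψ v + ψ (T.par v) → u = v)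
    (hvis : ∀ v, v ≠ T.root → ¬ H v → ψ' v + ψ' (T.par v) = ψ v + ψ (T.par v))
    (hΦ : ∀ v, H v → ψ' v + ψ' (T.par v) ∈ free T H ψ)
    (hinj : ∀ u v, H u → H v → ψ' u + ψ' (T.par u) = ψ' v + ψ' (T.par v) → u = v) :
    ∀ u v, u ≠ T.root → v ≠ T.root → ψ' u + ψ' (T.par u) = ψ' v + ψ' (T.par v) → u = v := by
  intro u v hu hv he
  by_cases h1 : H u <;> by_cases h2 : H v
  · exact hinj u v h1 h2 he
  · exact absurd (by rw [he, hvis v hv h2]) ((mem_free T H ψ _).1 (hΦ u h1) v hv h2)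
  · exact absurd (by rw [← he, hvis u hu h1]) ((mem_free T H ψ _).1 (hΦ v h2) u hu h1)
  · exact col u v hu hv h1 h2 (by rw [← hvis u hu h1, he, hvis v hv h2])

open Classical in
/-- colours of `D` that are not free together with their successor -/
lemma not_free (T : RT V) {m : ℕ} [NeZero m] (H : V → Prop) (ψ : V → ZMod m)
    (D : Finset (ZMod m)) (d : ZMod m) (hd : d ∈ D)
    (h : ¬ (d ∈ free T H ψ ∧ d + 1 ∈ free T H ψ)) :
    d ∈ D.filter (fun d => ∃ v, v ≠ T.root ∧ ¬ H v ∧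
      (ψ v + ψ (T.par v) = d ∨ ψ v + ψ (T.par v) = d + 1)) := by
  refine mem_filter.2 ⟨hd, ?_⟩
  by_contra hn
  apply h
  constructor
  · exact (mem_free T H ψ _).2 fun v h1 h2 h3 => hn ⟨v, h1, h2, Or.inl h3⟩
  · exact (mem_free T H ψ _).2 fun v h1 h2 h3 => hn ⟨v, h1, h2, Or.inr h3⟩

/-- the numerical mixing bound -/
lemma mix_num (m : ℕ) [NeZero m] (κ θ : ℝ) (hκ : 0 < κ) (hθ : θ ≤ κ ^ 2 / 10 ^ 10)
    (A B N c : ℕ) (hA : ⌈κ * m / 200⌉₊ ≤ A) (hB : ⌈κ * m / 200⌉₊ ≤ B)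
    (hN : (A : ℝ) * B / 25 - θ * (m : ℝ) ^ 2 ≤ N) (hc : (c : ℝ) ≤ 203 * (θ * m)) :
    c * m < N := by
  have hm : (0 : ℝ) < m := Nat.cast_pos.2 (Nat.pos_of_ne_zero (NeZero.ne m))
  have hA' : κ * m / 200 ≤ A := Nat.ceil_le.1 hA
  have hB' : κ * m / 200 ≤ B := Nat.ceil_le.1 hB
  have h0 : 0 < κ * m / 200 := by positivity
  have hAB : (κ * m / 200) * (κ * m / 200) ≤ (A : ℝ) * B :=
    mul_le_mul hA' hB' h0.le (h0.le.trans hA')
  have h1 : (c : ℝ) * m ≤ 203 * (θ * m) * m := mul_le_mul_of_nonneg_right hc hm.le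
  have h2 : θ * (m : ℝ) ^ 2 ≤ κ ^ 2 / 10 ^ 10 * (m : ℝ) ^ 2 :=
    mul_le_mul_of_nonneg_right hθ (by positivity)
  have h3 : 0 < κ ^ 2 * (m : ℝ) ^ 2 := by positivity
  have : ((c * m : ℕ) : ℝ) < N := by
    push_cast
    nlinarith
  exact_mod_cast this

lemma theta_le (m : ℕ) (κ θ : ℝ) (hκ : 0 < κ) (hκ1 : κ ≤ 1 / 1000)
    (hθ : θ ≤ κ ^ 2 / 10 ^ 10) : θ * m ≤ κ * m / 10 ^ 13 ∧ θ * m ≤ κ ^ 2 * m / 10 ^ 10 := by
  have hm : (0 : ℝ) ≤ m := Nat.cast_nonneg m
  have h1 : θ ≤ κ / 10 ^ 13 := by nlinarith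
  have h2 := mul_le_mul_of_nonneg_right h1 hm
  have h3 := mul_le_mul_of_nonneg_right hθ hm
  constructor
  · linarith [show κ / 10 ^ 13 * m = κ * m / 10 ^ 13 by ring]
  · linarith [show κ ^ 2 / 10 ^ 10 * m = κ ^ 2 * m / 10 ^ 10 by ring]

section path

variable {T : RT V} {R Sp : Finset V} {q : V → ℕ → V} {s0 : Bool}

omit [Fintype V] [DecidableEq V] in
lemma sd_even (h : PathB T R Sp q s0) {p : V} (hp : p ∈ Sp) :
    ∀ j, j ≤ 3 → T.sd (q p (2 * j)) = s0 ∧ T.sd (q p (2 * j + 1)) = !s0 := by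
  have step : ∀ i, i < 7 → T.sd (q p (i + 1)) = !T.sd (q p i) := by
    intro i hi
    have h1 := T.sd_par_eq (h.qpar p hp i hi).1
    rw [(h.qpar p hp i hi).2] at h1
    rw [h1]; simp
  intro j
  induction j with
  | zero =>
    intro _
    have h0 : T.sd (q p 0) = s0 := by rw [(h.q0 p hp).1]; exact (h.q0 p hp).2.1
    exact ⟨h0, by rw [step _ (by norm_num), h0]⟩
  | succ j ih =>
    intro hj
    have h1 := (ih (by omega)).2
    have h2 : T.sd (q p (2 * (j + 1))) = s0 := by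
      rw [show 2 * (j + 1) = 2 * j + 1 + 1 by ring, step _ (by omega), h1]; simp
    exact ⟨h2, by rw [step _ (by omega), h2]⟩

omit [Fintype V] [DecidableEq V] in
lemma cp_dep (h : PathB T R Sp q s0) {cp : V → V}
    (hcp : ∀ v, v ∉ R → T.par v ∉ R → cp (T.par v) = cp v) {p : V} (hp : p ∈ Sp) :
    ∀ i, i ≤ 7 → cp p = cp (q p i) ∧ T.dep p ≤ T.dep (q p i) := by
  intro i
  induction i with
  | zero => intro _; rw [(h.q0 p hp).1]; exact ⟨rfl, le_rfl⟩
  | succ i ih =>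
    intro hi
    obtain ⟨h1, h2⟩ := ih (by omega)
    obtain ⟨h3, h4⟩ := h.qpar p hp i (by omega)
    have h5 := hcp _ (h.qR p hp (i + 1) hi) (by rw [h4]; exact h.qR p hp i (by omega))
    have h6 := T.dep_par_le (q p (i + 1))
    rw [h4] at h5 h6
    exact ⟨h1.trans h5, h2.trans h6⟩

omit [Fintype V] [DecidableEq V] in
lemma cov_iff (h : PathB T R Sp q s0) {Cov : Finset V}
    (hc : ∀ v, v ∉ R → T.par v ∉ R → (v ∈ Cov ↔ T.par v ∈ Cov)) {p : V} (hp : p ∈ Sp) :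
    ∀ i, i ≤ 7 → (q p i ∈ Cov ↔ p ∈ Cov) := by
  intro i
  induction i with
  | zero => intro _; rw [(h.q0 p hp).1]
  | succ i ih =>
    intro hi
    obtain ⟨h3, h4⟩ := h.qpar p hp i (by omega)
    have h5 := hc _ (h.qR p hp (i + 1) hi) (by rw [h4]; exact h.qR p hp i (by omega))
    rw [h4] at h5
    exact h5.trans (ih (by omega))

/-- the odd vertices of the paths -/
def vt (Sp : Finset V) (q : V → ℕ → V) : Finset V :=
  (Sp ×ˢ range 3).image (fun z => q z.1 (2 * z.2 + 1))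

/-- the tied vertices of the paths -/
def ev (Sp : Finset V) (q : V → ℕ → V) (z : {p // p ∈ Sp} × Fin 3) : V := q z.1.1 (2 * z.2.1 + 2)

/-- the vertex to which a vertex is tied -/
noncomputable def pi (Sp : Finset V) (q : V → ℕ → V) : V → V :=
  Function.extend (ev Sp q) (fun z => z.1.1) id

/-- the offsets -/
noncomputable def off (Sp : Finset V) (q : V → ℕ → V) : V → ℕ :=
  Function.extend (ev Sp q) (fun z => z.2.1 + 1) (fun _ => 0)

omit [Fintype V] in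
lemma mem_vt {v : V} : v ∈ vt Sp q ↔ ∃ p ∈ Sp, ∃ i, i < 3 ∧ q p (2 * i + 1) = v := by
  simp only [vt, mem_image, mem_product, mem_range, Prod.exists]
  constructor
  · rintro ⟨p, i, ⟨h1, h2⟩, h3⟩; exact ⟨p, h1, i, h2, h3⟩
  · rintro ⟨p, h1, i, h2, h3⟩; exact ⟨p, i, ⟨h1, h2⟩, h3⟩

omit [Fintype V] [DecidableEq V] in
lemma ev_inj (h : PathB T R Sp q s0) : Function.Injective (ev Sp q) := by
  rintro ⟨p, j⟩ ⟨p', j'⟩ e
  have := h.qinj p.1 p.2 p'.1 p'.2 _ _ (by have := j.2; omega) (by have := j'.2; omega) e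
  refine Prod.ext (Subtype.ext this.1) (Fin.ext ?_)
  have h2 := this.2
  simp only at h2 ⊢
  omega

omit [Fintype V] in
lemma pi_even (h : PathB T R Sp q s0) {p : V} (hp : p ∈ Sp) (j : ℕ) (hj : j < 3) :
    pi Sp q (q p (2 * j + 2)) = p ∧ off Sp q (q p (2 * j + 2)) = j + 1 :=
  ⟨(ev_inj h).extend_apply _ _ (⟨p, hp⟩, ⟨j, hj⟩), (ev_inj h).extend_apply _ _ (⟨p, hp⟩, ⟨j, hj⟩)⟩

omit [Fintype V] [DecidableEq V] in
lemma pi_cases (v : V) : (pi Sp q v = v ∧ off Sp q v = 0) ∨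
    ∃ p ∈ Sp, ∃ j, j < 3 ∧ q p (2 * j + 2) = v := by
  by_cases hv : ∃ z, ev Sp q z = v
  · obtain ⟨⟨p, j⟩, rfl⟩ := hv
    exact Or.inr ⟨p.1, p.2, j.1, j.2, rfl⟩
  · exact Or.inl ⟨Function.extend_apply' _ _ _ hv, Function.extend_apply' _ _ _ hv⟩

omit [Fintype V] in
lemma pi_fix (h : PathB T R Sp q s0) {p : V} (hp : p ∈ Sp) (i : ℕ) (hi : i ≤ 7)
    (hi' : i = 0 ∨ i % 2 = 1) : pi Sp q (q p i) = q p i ∧ off Sp q (q p i) = 0 := by
  rcases pi_cases (Sp := Sp) (q := q) (q p i) with h1 | ⟨p', hp', j, hj, e⟩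
  · exact h1
  · have := (h.qinj p' hp' p hp _ _ (by omega) hi e).2
    omega

omit [Fintype V] in
lemma pi_even' (h : PathB T R Sp q s0) {p : V} (hp : p ∈ Sp) (j : ℕ) (hj : j ≤ 3) :
    pi Sp q (q p (2 * j)) = p ∧ off Sp q (q p (2 * j)) = j := by
  rcases j with _ | j
  · have := pi_fix h hp 0 (by norm_num) (Or.inl rfl)
    exact ⟨this.1.trans (h.q0 p hp).1, this.2⟩
  · exact pi_even h hp j (by omega)

omit [Fintype V] [DecidableEq V] in
lemma ne_start (h : PathB T R Sp q s0) {p : V} (hp : p ∈ Sp) (i : ℕ) (hi : i < 7) :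
    p ≠ q p (i + 1) := by
  intro e
  have := (h.qinj p hp p hp 0 (i + 1) (by norm_num) (by omega) (by rw [(h.q0 p hp).1]; exact e)).2
  omega

omit [Fintype V] in
lemma tieB (h : PathB T R Sp q s0) {cp : V → V}
    (hcp : ∀ v, v ∉ R → T.par v ∉ R → cp (T.par v) = cp v) :
    Tie T R cp Sp (vt Sp q) (pi Sp q) (off Sp q) 2 s0 := by
  refine ⟨Or.inr rfl, ?_, ?_, ?_, ?_, ?_, ?_⟩
  · intro p hp
    have h0 := (h.q0 p hp).1
    refine ⟨by rw [← h0]; exact h.qR p hp 0 (by norm_num), (h.q0 p hp).2.1, ?_⟩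
    have := (pi_fix h hp 0 (by norm_num) (Or.inl rfl)).1
    rwa [h0] at this
  · intro v hv
    obtain ⟨p, hp, i, hi, rfl⟩ := mem_vt.1 hv
    have h1 := (h.qpar p hp (2 * i) (by omega)).2
    refine ⟨h.qR p hp _ (by omega), (pi_fix h hp _ (by omega) (Or.inr (by omega))).1, ?_, ?_⟩
    · rw [h1]; exact h.qR p hp _ (by omega)
    · rw [h1, (pi_even' h hp i (by omega)).1]; exact hp
  · intro v hv
    rcases pi_cases (Sp := Sp) (q := q) v with h1 | ⟨p, hp, j, hj, rfl⟩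
    · exact h1.2
    · rw [(pi_even h hp j hj).1] at hv
      exact absurd hv (ne_start h hp _ (by omega))
  · intro v hv
    rcases pi_cases (Sp := Sp) (q := q) v with h1 | ⟨p, hp, j, hj, rfl⟩
    · exact absurd h1.1 hv
    · obtain ⟨h1, h2⟩ := pi_even h hp j hj
      obtain ⟨h3, h4⟩ := cp_dep h hcp hp (2 * j + 2) (by omega)
      rw [h1, h2]
      refine ⟨rfl, hp, h.qR p hp _ (by omega), by omega, by omega,
        (sd_even h hp (j + 1) (by omega)).1, h3, h4, ?_, ?_⟩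
      · rw [(h.qpar p hp (2 * j + 1) (by omega)).2]
        exact mem_vt.2 ⟨p, hp, j, hj, rfl⟩
      · intro c hc hc' e
        rw [h.quniq p hp _ (by omega) c hc' e] at hc
        exact h.qR p hp _ (by omega) hc
  · intro u v e1 e2
    rcases pi_cases (Sp := Sp) (q := q) u with h1 | ⟨p, hp, j, hj, rfl⟩ <;>
      rcases pi_cases (Sp := Sp) (q := q) v with h2 | ⟨p', hp', j', hj', rfl⟩
    · rw [← h1.1, e1, h2.1]
    · rw [h1.2, (pi_even h hp' j' hj').2] at e2; omega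
    · rw [h2.2, (pi_even h hp j hj).2] at e2; omega
    · rw [(pi_even h hp j hj).1, (pi_even h hp' j' hj').1] at e1
      rw [(pi_even h hp j hj).2, (pi_even h hp' j' hj').2] at e2
      rw [e1, show j = j' by omega]
  · intro _
    refine ⟨fun p hp => (h.q0 p hp).2.2, fun v hv => ?_⟩
    obtain ⟨p, hp, i, hi, rfl⟩ := mem_vt.1 hv
    obtain ⟨h1, h2⟩ := h.qpar p hp (2 * i + 1) (by omega)
    refine ⟨_, h1, h2, ?_⟩
    rw [(pi_even h hp i hi).1]
    exact ne_start h hp _ (by omega)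

omit [Fintype V] in
lemma card_vt (h : PathB T R Sp q s0) : (vt Sp q).card = 3 * Sp.card := by
  unfold vt
  rw [card_image_of_injOn, card_product, card_range, mul_comm]
  rintro ⟨p, i⟩ hz ⟨p', i'⟩ hz' e
  obtain ⟨a1, a2⟩ := mem_product.1 (mem_coe.1 hz)
  obtain ⟨b1, b2⟩ := mem_product.1 (mem_coe.1 hz')
  have a3 := mem_range.1 a2
  have b3 := mem_range.1 b2
  simp only at a1 b1 a3 b3 e
  have := h.qinj p a1 p' b1 _ _ (by omega) (by omega) e
  exact Prod.ext this.1 (by have := this.2; simp only; omega)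

omit [Fintype V] in
lemma hid_iff (h : PathB T R Sp q s0) {Cov : Finset V}
    (hc : ∀ v, v ∉ R → T.par v ∉ R → (v ∈ Cov ↔ T.par v ∈ Cov)) (v : V) :
    Hid (vt Sp q) (pi Sp q) Cov v ↔
      ∃ p ∈ Sp, p ∈ Cov ∧ ∃ i, i < 6 ∧ q p (i + 1) = v := by
  constructor
  · rintro ⟨h1, h2 | h2⟩
    · obtain ⟨p, hp, i, hi, rfl⟩ := mem_vt.1 h2
      exact ⟨p, hp, (cov_iff h hc hp _ (by omega)).1 h1, 2 * i, by omega, rfl⟩
    · rcases pi_cases (Sp := Sp) (q := q) v with h3 | ⟨p, hp, j, hj, rfl⟩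
      · exact absurd h3.1 h2
      · exact ⟨p, hp, (cov_iff h hc hp _ (by omega)).1 h1, 2 * j + 1, by omega, rfl⟩
  · rintro ⟨p, hp, hp', i, hi, rfl⟩
    refine ⟨(cov_iff h hc hp _ (by omega)).2 hp', ?_⟩
    rcases Nat.even_or_odd' i with ⟨k, rfl | rfl⟩
    · exact Or.inl (mem_vt.2 ⟨p, hp, k, by omega, rfl⟩)
    · right
      rw [(pi_even h hp k (by omega)).1]
      exact ne_start h hp _ (by omega)

end path

end Cs

theorem caseA (T : RT V) (R Sp : Finset V) (cp l : V → V) (s0 : Bool) (h : LeafA T R Sp l s0) :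
    ∃ (Vt : Finset V) (π : V → V) (o : V → ℕ), Tie T R cp Sp Vt π o 1 s0 ∧ Vt.card = Sp.card ∧
      ∀ (m : ℕ) [NeZero m] (κ θ : ℝ) (X : Finset (ZMod m)) (ψ : V → ZMod m) (Cov : Finset V)
        (D : Finset (ZMod m)) (W : Bool → Finset (ZMod m)), Fintype.card V = m + 1 →
        0 < κ → κ ≤ 1 / 1000 → θ ≤ κ ^ 2 / 10 ^ 10 → 1 ≤ θ * m →
        Out T R Sp Vt π o 1 s0 κ θ X ψ Cov D W → ∃ ψ' : V → ZMod m, T.Good ψ' := by
  classical
  have hpar : ∀ p ∈ Sp, T.par (l p) = p := fun p hp => (h.sp p hp).2.2.2.2.1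
  have hroot : ∀ p ∈ Sp, l p ≠ T.root := fun p hp => (h.sp p hp).2.2.2.1
  have hlinj : ∀ p ∈ Sp, ∀ p' ∈ Sp, l p = l p' → p = p' := by
    intro p hp p' hp' e
    rw [← hpar p hp, e, hpar p' hp']
  have hsd : ∀ p ∈ Sp, T.sd (l p) = !s0 := by
    intro p hp
    have h1 := T.sd_par_eq (hroot p hp)
    rw [hpar p hp, (h.sp p hp).2.1] at h1
    rw [h1]; simp
  refine ⟨Sp.image l, id, fun _ => 0, ?_, ?_, ?_⟩
  · refine ⟨Or.inl rfl, fun p hp => ⟨(h.sp p hp).1, (h.sp p hp).2.1, rfl⟩, ?_, fun _ _ => rfl,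
      fun v hv => absurd rfl hv, fun u v e _ => e, fun e => absurd e (by norm_num)⟩
    intro v hv
    obtain ⟨p, hp, rfl⟩ := mem_image.1 hv
    refine ⟨(h.sp p hp).2.2.1, rfl, ?_, ?_⟩
    · rw [hpar p hp]; exact (h.sp p hp).1
    · show T.par (l p) ∈ Sp
      rw [hpar p hp]; exact hp
  · exact card_image_of_injOn fun p hp p' hp' e => hlinj p (mem_coe.1 hp) p' (mem_coe.1 hp') e
  intro m _ κ θ X ψ Cov D W hV hκ hκ1 hθ hθ1 O
  obtain ⟨n1, n2⟩ := Cs.theta_le m κ θ hκ hκ1 hθ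
  have hcov : ∀ p ∈ Sp, (l p ∈ Cov ↔ p ∈ Cov) := by
    intro p hp
    have := O.cov_par (l p) (h.sp p hp).2.2.1 (by rw [hpar p hp]; exact (h.sp p hp).1)
    rwa [hpar p hp] at this
  let P := {p // p ∈ Sp ∧ p ∈ Cov}
  let e : P → V := fun p => l p.1
  have he : Function.Injective e := fun p p' hh => Subtype.ext (hlinj _ p.2.1 _ p'.2.1 hh)
  set H : V → Prop := Hid (Sp.image l) id Cov with hHdef
  have hH : ∀ v, H v ↔ ∃ p, e p = v := by
    intro v
    constructor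
    · rintro ⟨h1, h2 | h2⟩
      · obtain ⟨p, hp, rfl⟩ := mem_image.1 h2
        exact ⟨⟨p, hp, (hcov p hp).1 h1⟩, rfl⟩
      · exact absurd rfl h2
    · rintro ⟨p, rfl⟩
      exact ⟨(hcov _ p.2.1).2 p.2.2, Or.inl (mem_image_of_mem _ p.2.1)⟩
  set Φ := Cs.free T H ψ with hΦdef
  have hΦ : Φ.card = Fintype.card P :=
    Cs.card_free T H ψ hV O.col e he (fun p => hroot _ p.2.1) hH
  let pos : P → ZMod m := fun p => ψ p.1
  have hpos : Function.Injective pos := by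
    intro p p' hh
    exact Subtype.ext (O.lab _ _ (by rw [(h.sp _ p.2.1).2.1, (h.sp _ p'.2.1).2.1]) hh)
  let φ0 : P → ZMod m := fun p => ψ (l p.1) + ψ p.1
  have hφ0 : ∀ p : P, φ0 p = ψ (l p.1) + ψ (T.par (l p.1)) := by
    intro p; rw [hpar _ p.2.1]
  have hφ0D : ∀ p, φ0 p ∈ D := by
    intro p
    rw [hφ0]
    exact O.colD _ (mem_image_of_mem _ p.2.1) ((hcov _ p.2.1).2 p.2.2)
  have hφ0i : Function.Injective φ0 := by
    intro p p' hh
    rw [hφ0, hφ0] at hh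
    exact he (O.colD_inj _ (mem_image_of_mem _ p.2.1) _ (mem_image_of_mem _ p'.2.1)
      ((hcov _ p.2.1).2 p.2.2) ((hcov _ p'.2.1).2 p'.2.2) hh)
  have hland : ∀ p, φ0 p - pos p = ψ (l p.1) := by
    intro p; simp [φ0, pos]
  set Bad := D.filter (fun d => ∃ v, v ≠ T.root ∧ ¬ H v ∧
      (ψ v + ψ (T.par v) = d ∨ ψ v + ψ (T.par v) = d + 1)) with hBad
  have hhit : (Bad.card : ℝ) ≤ θ * m := by
    have := O.hit
    convert this
  have hBadm : ∀ d ∈ D, d ∉ Φ → d ∈ Bad := by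
    intro d hd hn
    have := Cs.not_free T H ψ D d hd (fun hh => hn hh.1)
    convert this
  have ht : (⌈θ * m⌉₊ : ℝ) ≤ 2 * (θ * m) := by
    have := Nat.ceil_lt_add_one (show 0 ≤ θ * m by linarith)
    linarith
  have ha : (⌈κ * m / 200⌉₊ : ℝ) ≤ κ * m / 200 + θ * m := by
    have := Nat.ceil_lt_add_one (show 0 ≤ κ * m / 200 by positivity)
    linarith
  have hκm : 0 ≤ κ * m := by positivity
  obtain ⟨φ, f1, f2, f3, f4⟩ := exchange pos hpos Φ (W (!s0)) hΦ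
    (univ.filter (fun p => φ0 p ∈ Φ)) φ0 (fun p hp => (mem_filter.1 hp).2)
    (fun p _ p' _ hh => hφ0i hh)
    (by
      intro p _
      rw [hland, ← hsd _ p.2.1]
      exact O.free _)
    (by
      intro p _ p' _ hh
      rw [hland, hland] at hh
      exact he (O.lab _ _ (by rw [hsd _ p.2.1, hsd _ p'.2.1]) hh))
    ⌈θ * m⌉₊ ⌈κ * m / 200⌉₊
    (by
      have h1 := card_filter_add_card_filter_not (s := (univ : Finset P)) (fun p => φ0 p ∈ Φ)
      have h2 : (univ.filter (fun p => ¬ φ0 p ∈ Φ)).card ≤ Bad.card := by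
        apply card_le_card_of_injOn φ0
        · intro p hp
          exact mem_coe.2 (hBadm _ (hφ0D p) (mem_filter.1 (mem_coe.1 hp)).2)
        · exact hφ0i.injOn
      have h3 : Bad.card ≤ ⌈θ * m⌉₊ := by
        have := hhit.trans (Nat.le_ceil _)
        exact_mod_cast this
      rw [card_univ] at h1
      omega)
    (by
      intro p
      have h1 := O.deg1 p.1 p.2.1 p.2.2 0 (by norm_num)
      simp only [Nat.cast_zero, add_zero] at h1
      have h2 : D.filter (fun d => d - ψ p.1 ∈ W (!s0)) ⊆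
          Φ.filter (fun d => d - pos p ∈ W (!s0)) ∪ Bad := by
        intro d hd
        obtain ⟨hd1, hd2⟩ := mem_filter.1 hd
        by_cases hf : d ∈ Φ
        · exact mem_union_left _ (mem_filter.2 ⟨hf, hd2⟩)
        · exact mem_union_right _ (hBadm d hd1 hf)
      have h3 := (card_le_card h2).trans (card_union_le _ _)
      have h4 : ((D.filter (fun d => d - ψ p.1 ∈ W (!s0))).card : ℝ) ≤
          (Φ.filter (fun d => d - pos p ∈ W (!s0))).card + Bad.card := by exact_mod_cast h3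
      have h5 : ((⌈κ * m / 200⌉₊ + 4 * ⌈θ * m⌉₊ : ℕ) : ℝ) ≤
          (Φ.filter (fun d => d - pos p ∈ W (!s0))).card := by
        push_cast
        linarith
      exact_mod_cast h5)
    (by
      intro d _
      have h1 := O.deg2 d
      have h2 : (Sp.filter (fun p => p ∈ Cov ∧ d - ψ p ∈ W (!s0))).card ≤
          (univ.filter (fun p : P => d - pos p ∈ W (!s0))).card := by
        rw [← card_image_of_injective (univ.filter (fun p : P => d - pos p ∈ W (!s0)))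
          Subtype.val_injective]
        apply card_le_card
        intro p hp
        obtain ⟨a1, a2, a3⟩ := mem_filter.1 hp
        exact mem_image.2 ⟨⟨p, a1, a2⟩, mem_filter.2 ⟨mem_univ _, a3⟩, rfl⟩
      have h4 : ((Sp.filter (fun p => p ∈ Cov ∧ d - ψ p ∈ W (!s0))).card : ℝ) ≤
          (univ.filter (fun p : P => d - pos p ∈ W (!s0))).card := by exact_mod_cast h2
      have h5 : ((⌈κ * m / 200⌉₊ + 4 * ⌈θ * m⌉₊ : ℕ) : ℝ) ≤
          (univ.filter (fun p : P => d - pos p ∈ W (!s0))).card := by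
        push_cast
        linarith
      exact_mod_cast h5)
    (by
      intro A B hA hB
      rw [ZMod.card]
      refine Cs.mix_num m κ θ hκ hθ _ _ _ _ hA hB (O.mix A B) ?_
      push_cast
      linarith)
  let ψ' : V → ZMod m := Function.extend e (fun p => φ p - pos p) ψ
  have g1 : ∀ p, ψ' (e p) = φ p - pos p := fun p => he.extend_apply _ _ p
  have g2 : ∀ v, ¬ H v → ψ' v = ψ v := fun v hv =>
    Function.extend_apply' _ _ _ (fun hh => hv ((hH v).2 hh))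
  have g3 : ∀ v, v ≠ T.root → ¬ H (T.par v) := by
    intro v hv hh
    obtain ⟨p, hp⟩ := (hH _).1 hh
    exact (h.sp _ p.2.1).2.2.2.2.2 ⟨v, hv, hp.symm⟩
  have g4 : ∀ p, ψ' (e p) + ψ' (T.par (e p)) = φ p := by
    intro p
    rw [g1, g2 _ (g3 _ (hroot _ p.2.1))]
    show φ p - ψ p.1 + ψ (T.par (l p.1)) = φ p
    rw [hpar _ p.2.1]; ring
  refine ⟨ψ', Cs.sides T ψ ψ' W O.lab O.free H g2 ?_ ?_,
    Cs.colours T H ψ ψ' O.col ?_ ?_ ?_⟩
  · intro v hv
    obtain ⟨p, rfl⟩ := (hH v).1 hv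
    rw [g1]
    rcases f4 p with h1 | h1
    · left
      rw [show T.sd (e p) = !s0 from hsd _ p.2.1]; exact h1
    · right
      rw [h1.2, hland]
  · intro u v hu hv _ hh
    obtain ⟨p, rfl⟩ := (hH u).1 hu
    obtain ⟨p', rfl⟩ := (hH v).1 hv
    rw [g1, g1] at hh
    rw [f3 hh]
  · intro v hv hn
    rw [g2 v hn, g2 _ (g3 v hv)]
  · intro v hv
    obtain ⟨p, rfl⟩ := (hH v).1 hv
    rw [g4]; exact f1 p
  · intro u v hu hv hh
    obtain ⟨p, rfl⟩ := (hH u).1 hu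
    obtain ⟨p', rfl⟩ := (hH v).1 hv
    rw [g4, g4] at hh
    rw [f2 hh]

theorem caseB (T : RT V) (R Sp : Finset V) (cp : V → V) (q : V → ℕ → V) (s0 : Bool)
    (hcp : ∀ v, v ∉ R → T.par v ∉ R → cp (T.par v) = cp v) (h : PathB T R Sp q s0) :
    ∃ (Vt : Finset V) (π : V → V) (o : V → ℕ), Tie T R cp Sp Vt π o 2 s0 ∧ Vt.card = 3 * Sp.card ∧
      ∀ (m : ℕ) [NeZero m] (κ θ : ℝ) (X : Finset (ZMod m)) (ψ : V → ZMod m) (Cov : Finset V)
        (D : Finset (ZMod m)) (W : Bool → Finset (ZMod m)), Fintype.card V = m + 1 → Odd m →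
        0 < κ → κ ≤ 1 / 1000 → θ ≤ κ ^ 2 / 10 ^ 10 → 1 ≤ θ * m →
        Out T R Sp Vt π o 2 s0 κ θ X ψ Cov D W → ∃ ψ' : V → ZMod m, T.Good ψ' := by
  classical
  refine ⟨Cs.vt Sp q, Cs.pi Sp q, Cs.off Sp q, Cs.tieB h hcp, Cs.card_vt h, ?_⟩
  intro m _ κ θ X ψ Cov D W hV hodd hκ hκ1 hθ hθ1 O
  obtain ⟨n1, n2⟩ := Cs.theta_le m κ θ hκ hκ1 hθ
  have hcov := fun p (hp : p ∈ Sp) => Cs.cov_iff h O.cov_par hp
  let P := {p // p ∈ Sp ∧ p ∈ Cov}
  set H : V → Prop := Hid (Cs.vt Sp q) (Cs.pi Sp q) Cov with hHdef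
  have hH0 : ∀ v, H v ↔ ∃ p ∈ Sp, p ∈ Cov ∧ ∃ i, i < 6 ∧ q p (i + 1) = v :=
    Cs.hid_iff h O.cov_par
  have qi : ∀ (p p' : P) (i i' : ℕ), i ≤ 7 → i' ≤ 7 → q p.1 i = q p'.1 i' → p = p' ∧ i = i' := by
    intro p p' i i' hi hi' e
    have := h.qinj _ p.2.1 _ p'.2.1 i i' hi hi' e
    exact ⟨Subtype.ext this.1, this.2⟩
  let e : P × Fin 3 × Fin 2 → V := fun r => q r.1.1 (2 * r.2.1.1 + r.2.2.1 + 1)
  have he : Function.Injective e := by
    rintro ⟨p, i, k⟩ ⟨p', i', k'⟩ hh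
    have a1 := i.2
    have a2 := i'.2
    have a3 := k.2
    have a4 := k'.2
    obtain ⟨b1, b2⟩ := qi p p' _ _ (by simp only; omega) (by simp only; omega) hh
    simp only at b2
    exact Prod.ext b1 (Prod.ext (Fin.ext (by simp only; omega)) (Fin.ext (by simp only; omega)))
  have hH : ∀ v, H v ↔ ∃ r, e r = v := by
    intro v
    rw [hH0]
    constructor
    · rintro ⟨p, hp, hp', i, hi, rfl⟩
      refine ⟨(⟨p, hp, hp'⟩, ⟨i / 2, by omega⟩, ⟨i % 2, by omega⟩), ?_⟩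
      show q p (2 * (i / 2) + i % 2 + 1) = q p (i + 1)
      rw [Nat.div_add_mod]
    · rintro ⟨⟨p, i, k⟩, rfl⟩
      exact ⟨p.1, p.2.1, p.2.2, 2 * i.1 + k.1, by have := i.2; have := k.2; omega, rfl⟩
  set Φ := Cs.free T H ψ with hΦdef
  have hΦ : Φ.card = 6 * Fintype.card P := by
    rw [hΦdef, Cs.card_free T H ψ hV O.col e he ?_ hH]
    · simp [mul_comm]
    · rintro ⟨p, i, k⟩
      exact (h.qpar _ p.2.1 _ (by have := i.2; have := k.2; simp only; omega)).1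
  let u : P → ZMod m := fun p => ψ p.1
  have hev : ∀ (p : P) (j : ℕ), j ≤ 3 → ψ (q p.1 (2 * j)) = u p + (j : ZMod m) := by
    intro p j hj
    have h1 := O.tie _ ((hcov _ p.2.1 (2 * j) (by omega)).2 p.2.2)
    rw [(Cs.pi_even' h p.2.1 j hj).1, (Cs.pi_even' h p.2.1 j hj).2] at h1
    exact h1
  have hs0 : ∀ (p : P) (j : ℕ), j ≤ 3 → T.sd (q p.1 (2 * j)) = s0 :=
    fun p j hj => (Cs.sd_even h p.2.1 j hj).1
  have hs1 : ∀ (p : P) (j : ℕ), j ≤ 3 → T.sd (q p.1 (2 * j + 1)) = !s0 :=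
    fun p j hj => (Cs.sd_even h p.2.1 j hj).2
  let g1 : P × Fin 3 → V := fun z => q z.1.1 (2 * z.2.1 + 1)
  let g2 : P × Fin 2 → V := fun z => q z.1.1 (2 * (z.2.1 + 1))
  have hg1 : Function.Injective g1 := by
    rintro ⟨p, i⟩ ⟨p', i'⟩ hh
    have a1 := i.2
    have a2 := i'.2
    obtain ⟨b1, b2⟩ := qi p p' _ _ (by simp only; omega) (by simp only; omega) hh
    simp only at b2
    exact Prod.ext b1 (Fin.ext (by simp only; omega))
  have hg2 : Function.Injective g2 := by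
    rintro ⟨p, i⟩ ⟨p', i'⟩ hh
    have a1 := i.2
    have a2 := i'.2
    obtain ⟨b1, b2⟩ := qi p p' _ _ (by simp only; omega) (by simp only; omega) hh
    simp only at b2
    exact Prod.ext b1 (Fin.ext (by simp only; omega))
  have hg1s : ∀ z, T.sd (g1 z) = !s0 := fun z => hs1 z.1 _ (by have := z.2.2; omega)
  have hg2s : ∀ z, T.sd (g2 z) = s0 := fun z => hs0 z.1 _ (by have := z.2.2; omega)
  have hg1v : ∀ z, g1 z ∈ Cs.vt Sp q := fun z => Cs.mem_vt.2 ⟨_, z.1.2.1, _, z.2.2, rfl⟩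
  have hg1c : ∀ z, g1 z ∈ Cov :=
    fun z => (hcov _ z.1.2.1 _ (by have := z.2.2; omega)).2 z.1.2.2
  have hg1p : ∀ z, T.par (g1 z) = q z.1.1 (2 * z.2.1) :=
    fun z => (h.qpar _ z.1.2.1 _ (by have := z.2.2; omega)).2
  let d0 : P × Fin 3 → ZMod m := fun z => ψ (g1 z) + ψ (T.par (g1 z))
  have hd0 : ∀ z, d0 z ∈ D := fun z => O.colD _ (hg1v z) (hg1c z)
  have hd0i : Function.Injective d0 :=
    fun z z' hh => hg1 (O.colD_inj _ (hg1v z) _ (hg1v z') (hg1c z) (hg1c z') hh)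
  have hland : ∀ z, d0 z - (u z.1 + ((z.2 : ℕ) : ZMod m)) = ψ (g1 z) := by
    intro z
    show ψ (g1 z) + ψ (T.par (g1 z)) - _ = _
    rw [hg1p, hev z.1 _ (by have := z.2.2; omega)]
    ring
  have hui : Function.Injective u := by
    intro p p' hh
    exact Subtype.ext (O.lab _ _ (by rw [(h.q0 _ p.2.1).2.1, (h.q0 _ p'.2.1).2.1]) hh)
  set Bad := D.filter (fun d => ∃ v, v ≠ T.root ∧ ¬ H v ∧
      (ψ v + ψ (T.par v) = d ∨ ψ v + ψ (T.par v) = d + 1)) with hBad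
  have hhit : (Bad.card : ℝ) ≤ θ * m := by
    have := O.hit
    convert this
  have hBadm : ∀ d ∈ D, ¬ (d ∈ Φ ∧ d + 1 ∈ Φ) → d ∈ Bad := by
    intro d hd hn
    have := Cs.not_free T H ψ D d hd hn
    convert this
  have ht : (⌈4 * (θ * m)⌉₊ : ℝ) ≤ 5 * (θ * m) := by
    have := Nat.ceil_lt_add_one (show 0 ≤ 4 * (θ * m) by linarith)
    linarith
  have ht' : 4 * (θ * m) ≤ (⌈4 * (θ * m)⌉₊ : ℝ) := Nat.le_ceil _
  have ha : (⌈κ * m / 200⌉₊ : ℝ) ≤ κ * m / 200 + θ * m := by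
    have := Nat.ceil_lt_add_one (show 0 ≤ κ * m / 200 by positivity)
    linarith
  have hκm : 0 ≤ κ * m := by positivity
  have hκm2 : 0 ≤ κ ^ 2 * m := by positivity
  have hU : ∀ (Q : ZMod m → Prop) [DecidablePred Q],
      (Sp.filter (fun p => p ∈ Cov ∧ Q (ψ p))).card ≤ ((univ.image u).filter Q).card := by
    intro Q _
    apply card_le_card_of_injOn ψ
    · intro p hp
      obtain ⟨a1, a2, a3⟩ := mem_filter.1 (mem_coe.1 hp)
      exact mem_coe.2 (mem_filter.2 ⟨mem_image.2 ⟨⟨p, a1, a2⟩, mem_univ _, rfl⟩, a3⟩)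
    · intro p hp p' hp' hh
      have a1 := (mem_filter.1 (mem_coe.1 hp)).1
      have a2 := (mem_filter.1 (mem_coe.1 hp')).1
      exact O.lab _ _ (by rw [(h.q0 _ a1).2.1, (h.q0 _ a2).2.1]) hh
  obtain ⟨k, hk⟩ := hodd
  have h2 : (2 : ZMod m) * ((k + 1 : ℕ) : ZMod m) = 1 := by
    have : ((2 * k + 1 : ℕ) : ZMod m) = 0 := by rw [← hk]; exact ZMod.natCast_self m
    push_cast at this ⊢
    linear_combination this
  obtain ⟨y, x, f1, f2, f3, f4, f5, f6⟩ := finalB _ h2 u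
    (by
      rintro ⟨p, j⟩ ⟨p', j'⟩ hh
      have a1 := j.2
      have a2 := j'.2
      simp only at hh
      rw [← hev p j (by omega), ← hev p' j' (by omega)] at hh
      have h3 := O.lab _ _ (by rw [hs0 p j (by omega), hs0 p' j' (by omega)]) hh
      obtain ⟨b1, b2⟩ := qi p p' _ _ (by omega) (by omega) h3
      exact Prod.ext b1 (Fin.ext (by simp only; omega)))
    Φ D (univ.image u) (W s0) (W (!s0)) X O.X0 O.Xs hΦ (O.pair rfl) d0 hd0 hd0i
    (by
      intro z z' hh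
      simp only [hland] at hh
      exact hg1 (O.lab _ _ (by rw [hg1s, hg1s]) hh))
    (by
      intro z
      rw [hland, ← hg1s z]
      exact O.free _)
    (by
      intro p j
      have a1 := j.2
      rw [← hev p j (by omega), ← hs0 p j (by omega)]
      exact O.free _)
    ⌈4 * (θ * m)⌉₊ ⌈κ * m / 200⌉₊ ⌈κ ^ 2 / 10000 * m⌉₊
    (by
      have h3 : (univ.filter (fun z => ¬ (d0 z ∈ Φ ∧ d0 z + 1 ∈ Φ))).card ≤ Bad.card := by
        apply card_le_card_of_injOn d0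
        · intro p hp
          exact mem_coe.2 (hBadm _ (hd0 p) (mem_filter.1 (mem_coe.1 hp)).2)
        · exact hd0i.injOn
      have h4 : Bad.card ≤ ⌈4 * (θ * m)⌉₊ := by
        have : (Bad.card : ℝ) ≤ ⌈4 * (θ * m)⌉₊ := by linarith
        exact_mod_cast this
      omega)
    (by
      have h3 := O.cardD
      rw [Cs.card_vt h] at h3
      have h4 : Sp ⊆ (univ : Finset P).image Subtype.val ∪
          univ.filter (fun v => v ∉ R ∧ v ∉ Cov) := by
        intro p hp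
        by_cases hc : p ∈ Cov
        · exact mem_union_left _ (mem_image.2 ⟨⟨p, hp, hc⟩, mem_univ _, rfl⟩)
        · refine mem_union_right _ (mem_filter.2 ⟨mem_univ _, ?_, hc⟩)
          rw [← (h.q0 p hp).1]
          exact h.qR p hp 0 (by norm_num)
      have h5 := (card_le_card h4).trans (card_union_le _ _)
      rw [card_image_of_injective _ Subtype.val_injective, card_univ] at h5
      have h6 : (Sp.card : ℝ) ≤ Fintype.card P +
          ((univ.filter (fun v => v ∉ R ∧ v ∉ Cov)).card : ℝ) := by exact_mod_cast h5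
      have h7 := O.unc
      have h8 : (D.card : ℝ) ≤ ((3 * Fintype.card P + ⌈4 * (θ * m)⌉₊ : ℕ) : ℝ) := by
        push_cast at h3 ⊢
        linarith
      exact_mod_cast h8)
    (by simp)
    (by
      have h3 := O.cardX
      have h4 := Nat.le_ceil (κ ^ 2 / 10000 * m)
      have h5 : ((40 * ⌈4 * (θ * m)⌉₊ + 8 * X.card + 40 : ℕ) : ℝ) ≤ ⌈κ ^ 2 / 10000 * m⌉₊ := by
        push_cast
        linarith
      exact_mod_cast h5)
    (by
      refine Nat.ceil_le.2 (le_trans ?_ O.cardD')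
      exact mul_le_mul_of_nonneg_right (by nlinarith) (Nat.cast_nonneg m))
    (by
      intro c s1 s2 a1 a2 a3
      exact (Nat.ceil_le.2 (O.hu rfl c s1 s2 a1 a2 a3)).trans
        (hU (fun x => x + s1 ∈ W s0 ∧ x + s2 ∈ W s0 ∧ c - x ∈ W (!s0))))
    (fun s1 s2 s3 a1 a2 a3 a4 a5 a6 => Nat.ceil_le.2 (O.hd s1 s2 s3 a1 a2 a3 a4 a5 a6))
    (by
      intro p i
      have h3 := O.deg1 p.1 p.2.1 p.2.2 i (by have := i.2; omega)
      have h5 : ((⌈κ * m / 200⌉₊ + 40 * ⌈4 * (θ * m)⌉₊ : ℕ) : ℝ) ≤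
          (D.filter (fun d => d - (ψ p.1 + ((i : ℕ) : ZMod m)) ∈ W (!s0))).card := by
        push_cast
        linarith
      exact_mod_cast h5)
    (by
      intro d
      have h3 := O.deg2 d
      have h5 : ((⌈κ * m / 200⌉₊ + 40 * ⌈4 * (θ * m)⌉₊ : ℕ) : ℝ) ≤
          (Sp.filter (fun p => p ∈ Cov ∧ d - ψ p ∈ W (!s0))).card := by
        push_cast
        linarith
      have h6 : ⌈κ * m / 200⌉₊ + 40 * ⌈4 * (θ * m)⌉₊ ≤
          (Sp.filter (fun p => p ∈ Cov ∧ d - ψ p ∈ W (!s0))).card := by exact_mod_cast h5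
      exact h6.trans (hU (fun x => d - x ∈ W (!s0))))
    (by
      intro A B hA hB
      rw [ZMod.card]
      refine Cs.mix_num m κ θ hκ hθ _ _ _ _ hA hB (O.mix A B) ?_
      push_cast
      linarith)
  let ψ' : V → ZMod m := Function.extend g1 y (Function.extend g2 x ψ)
  have hne : ∀ z z', g1 z ≠ g2 z' := by
    intro z z' hh
    have h3 := hg1s z
    rw [hh, hg2s] at h3
    simp at h3
  have e1 : ∀ z, ψ' (g1 z) = y z := fun z => hg1.extend_apply _ _ z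
  have e2 : ∀ z, ψ' (g2 z) = x z := by
    intro z
    show Function.extend g1 y (Function.extend g2 x ψ) (g2 z) = x z
    rw [Function.extend_apply' _ _ _ (fun ⟨z', hz'⟩ => hne z' z hz')]
    exact hg2.extend_apply _ _ z
  let S : V → Prop := fun v => (∃ z, g1 z = v) ∨ ∃ z, g2 z = v
  have e3 : ∀ v, ¬ S v → ψ' v = ψ v := by
    intro v hv
    show Function.extend g1 y (Function.extend g2 x ψ) v = ψ v
    rw [Function.extend_apply' _ _ _ (fun hh => hv (Or.inl hh)),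
      Function.extend_apply' _ _ _ (fun hh => hv (Or.inr hh))]
  have hS : ∀ v, S v → ∃ (p : P) (i : ℕ), i < 5 ∧ q p.1 (i + 1) = v := by
    rintro v (⟨z, rfl⟩ | ⟨z, rfl⟩)
    · exact ⟨z.1, 2 * z.2.1, by have := z.2.2; omega, rfl⟩
    · exact ⟨z.1, 2 * z.2.1 + 1, by have := z.2.2; omega, rfl⟩
  have e4 : ∀ (p : P) (j : ℕ), j ≤ 3 →
      ψ' (q p.1 (2 * j)) = zz (u p) (x (p, 0)) (x (p, 1)) j := by
    intro p j hj
    have h03 : j = 0 ∨ j = 3 → ψ' (q p.1 (2 * j)) = u p + (j : ZMod m) := by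
      intro hj'
      rw [e3, hev p j hj]
      intro hh
      obtain ⟨p', i, hi, hh'⟩ := hS _ hh
      have := (qi p' p _ _ (by omega) (by omega) hh').2
      omega
    interval_cases j
    · rw [h03 (Or.inl rfl)]; simp [zz]
    · exact e2 (p, 0)
    · exact e2 (p, 1)
    · rw [h03 (Or.inr rfl)]; simp [zz]
  have e5 : ∀ r : P × Fin 3 × Fin 2, ψ' (e r) + ψ' (T.par (e r)) =
      y (r.1, r.2.1) + zz (u r.1) (x (r.1, 0)) (x (r.1, 1)) ((r.2.1 : ℕ) + (r.2.2 : ℕ)) := by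
    rintro ⟨p, i, k⟩
    have a1 := i.2
    have a2 := k.2
    have h3 : T.par (e (p, i, k)) = q p.1 (2 * i.1 + k.1) :=
      (h.qpar _ p.2.1 _ (by simp only; omega)).2
    rw [h3]
    show ψ' (q p.1 (2 * i.1 + k.1 + 1)) + _ = y (p, i) + zz _ _ _ (i.1 + k.1)
    rw [← e1 (p, i), ← e4 p _ (by omega)]
    rcases (show k.1 = 0 ∨ k.1 = 1 by omega) with hk0 | hk0
    · rw [hk0]; rfl
    · rw [hk0, add_comm]; rfl
  refine ⟨ψ', Cs.sides T ψ ψ' W O.lab O.free S e3 ?_ ?_,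
    Cs.colours T H ψ ψ' O.col ?_ ?_ ?_⟩
  · rintro v (⟨z, rfl⟩ | ⟨z, rfl⟩)
    · rw [e1, hg1s, ← hland]; exact f2 z
    · rw [e2, hg2s]
      refine (f4 z).imp id fun h3 => ?_
      rw [h3, hev z.1 _ (by have := z.2.2; omega)]
      push_cast; ring
  · rintro v w (⟨z, rfl⟩ | ⟨z, rfl⟩) (⟨z', rfl⟩ | ⟨z', rfl⟩) hs hh
    · rw [e1, e1] at hh; rw [f1 hh]
    · rw [hg1s, hg2s] at hs; simp at hs
    · rw [hg1s, hg2s] at hs; simp at hs
    · rw [e2, e2] at hh; rw [f3 hh]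
  · intro v hv hn
    rw [e3, e3]
    · intro hh
      obtain ⟨p, i, hi, hh'⟩ := hS _ hh
      have := h.quniq _ p.2.1 _ (by omega) v hv hh'.symm
      exact hn ((hH0 v).2 ⟨p.1, p.2.1, p.2.2, i + 1, by omega, this.symm⟩)
    · intro hh
      obtain ⟨p, i, hi, hh'⟩ := hS _ hh
      exact hn ((hH0 v).2 ⟨p.1, p.2.1, p.2.2, i, by omega, hh'⟩)
  · intro v hv
    obtain ⟨r, rfl⟩ := (hH v).1 hv
    rw [e5]; exact f6 r
  · intro v w hv hw hh
    obtain ⟨r, rfl⟩ := (hH v).1 hv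
    obtain ⟨r', rfl⟩ := (hH w).1 hw
    rw [e5, e5] at hh
    rw [f5 hh]

end Pool.Agent.Lib.MP_5cebc8_co
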