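import Pool.Agent.Lib.MP_5cebc8_co.Pattern

/-! Consequences of the pattern counts and the classes of labels and colours. -/

open Finset
open Pool.Agent.Lib.MP_ad359d_co

namespace Pool.Agent.Lib.MP_5cebc8_co

set_option linter.unusedSectionVars false

variable {m : ℕ} [NeZero m]

lemma mem_Xn {L : ℕ} {h : ZMod m} : h ∈ Xn m L ↔ ¬ far L h := by simp [Xn]

lemma far_neg {L : ℕ} (hL : 0 < L) {h : ZMod m} (hh : far L h) : far L (-h) := by
  have h0 : h ≠ 0 := fun h0 => by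
    have := hh.1; rw [h0, ZMod.val_zero] at this; omega
  have h1 := ZMod.val_lt h
  obtain ⟨h2, h3⟩ := hh
  rw [far, ZMod.neg_val, if_neg h0]
  omega

lemma Xn_neg {L : ℕ} (hL : 0 < L) : ∀ h ∈ Xn m L, -h ∈ Xn m L := fun h hh =>
  mem_Xn.2 fun h1 => mem_Xn.1 hh (by simpa using far_neg hL h1)

lemma Xn_zero {L : ℕ} (hL : 0 < L) : (0 : ZMod m) ∈ Xn m L :=
  mem_Xn.2 fun h => by have := h.1; rw [ZMod.val_zero] at this; omega

lemma Xn_card (L : ℕ) : (Xn m L).card ≤ 2 * L := by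
  have : (Xn m L).card ≤ (range L ∪ Ico (m - L) m).card :=
    card_le_card_of_injOn ZMod.val (fun h hh => by
      have h1 := mem_Xn.1 hh
      have h2 := ZMod.val_lt h
      simp only [far, not_and_or, not_le] at h1
      simp only [coe_union, coe_range, coe_Ico, Set.mem_union, Set.mem_Iio, Set.mem_Ico]
      omega) (ZMod.val_injective m).injOn
  refine this.trans ((card_union_le _ _).trans ?_)
  simp only [card_range, Nat.card_Ico]
  omega

namespace Cl

lemma card_ind {α : Type*} (s : Finset α) (q : α → Prop) [DecidablePred q] :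
    ((s.filter q).card : ℝ) = ∑ x ∈ s, ind (q x) := by rw [← cnt_eq, cnt_cast]

lemma card_ind' {α : Type} [Fintype α] (s : Finset α) (q : α → Prop) [DecidablePred q] :
    ((s.filter q).card : ℝ) = ∑ x, ind (x ∈ s ∧ q x) := by
  rw [card_ind, ← sum_ind_mem]; simp only [ind_and]

lemma ind01 (q : Prop) : 0 ≤ ind q ∧ ind q ≤ 1 := ⟨ind_nonneg q, ind_le_one q⟩

lemma ac_of {G : Type} [AddCommGroup G] [Fintype G] {F : Finset G} {q ε : ℝ} (h0 : 0 ≤ q)
    (h1 : q ≤ 1) (h : G) (k1 : |(F.card : ℝ) - q * Fintype.card G| ≤ ε)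
    (k2 : |∑ x, ind (x ∈ F ∧ x + h ∈ F) - q * q * Fintype.card G| ≤ ε) :
    |∑ x, (ind (x ∈ F) - q) * (ind (x + h ∈ F) - q)| ≤ 4 * ε := by
  have e1 : ∑ x, ind (x + h ∈ F) = F.card :=
    (Equiv.sum_comp (Equiv.addRight h) (fun x => ind (x ∈ F))).trans (sum_ind_mem' F)
  have e2 : ∑ x, (ind (x ∈ F) - q) * (ind (x + h ∈ F) - q) =
      (∑ x, ind (x ∈ F ∧ x + h ∈ F) - q * q * Fintype.card G) -
        2 * q * (F.card - q * Fintype.card G) := by
    have : ∀ x, (ind (x ∈ F) - q) * (ind (x + h ∈ F) - q) =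
        ind (x ∈ F ∧ x + h ∈ F) - q * ind (x ∈ F) - q * ind (x + h ∈ F) + q * q := fun x => by
      rw [ind_and]; ring
    simp only [this, sum_add_distrib, sum_sub_distrib, ← mul_sum, e1, sum_ind_mem', sum_const,
      card_univ, nsmul_eq_mul]
    ring
  rw [e2]
  have h2 : 0 ≤ ε := (abs_nonneg _).trans k1
  rw [abs_le] at k1 k2 ⊢
  constructor <;> nlinarith [k1.1, k1.2, k2.1, k2.2]

end Cl

open Cl

lemma Unif.shift {G : Type} [AddCommGroup G] [Fintype G] [DecidableEq G] {A : Finset G} {p lam : ℝ}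
    (h : Unif A p lam) (z : G) : Unif (univ.filter (fun x => x + z ∈ A)) p lam := by
  intro f g hf hg
  have := h (fun x => f (x - z)) g (fun x => hf _) hg
  rw [← Equiv.sum_comp (Equiv.addRight z)] at this
  simpa only [Equiv.coe_addRight, add_sub_cancel_right, mem_filter, mem_univ, true_and,
    add_right_comm _ z] using this

lemma Unif.mix {G : Type} [AddCommGroup G] [Fintype G] [DecidableEq G] {W : Finset G} {p lam : ℝ}
    (h : Unif W p lam) (X Y : Finset G) :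
    p * X.card * Y.card - lam * (Fintype.card G : ℝ) ^ 2 ≤
      (((X ×ˢ Y).filter (fun z => z.2 - z.1 ∈ W)).card : ℝ) := by
  have := h (fun x => ind (-x ∈ X)) (fun y => ind (y ∈ Y)) (fun _ => ind01 _) fun _ => ind01 _
  rw [← Equiv.sum_comp (Equiv.neg G)] at this
  simp only [Equiv.neg_apply, neg_neg, mul_assoc, ← mul_sum, sum_ind_mem, neg_add_eq_sub,
    sum_sub_distrib, sum_const, nsmul_eq_mul] at this
  rw [card_ind, sum_product]
  nlinarith [(abs_le.1 this).1]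

/-- upper bound for the number of pairs with sum in a test set -/
lemma Unif.conv {G : Type} [AddCommGroup G] [Fintype G] [DecidableEq G] {F : Finset G} {q lam : ℝ}
    (h : Unif F q lam) (F' B : Finset G) (s : G) :
    ∑ a ∈ F, ∑ b ∈ F', ind (a + b + s ∈ B) ≤
      q * F'.card * B.card + lam * (Fintype.card G : ℝ) ^ 2 := by
  have := h (fun x => ind (-x - s ∈ F')) (fun y => ind (y ∈ B)) (fun _ => ind01 _) fun _ => ind01 _
  rw [← Equiv.sum_comp ((Equiv.addRight s).trans (Equiv.neg G))] at this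
  simp only [Equiv.trans_apply, Equiv.coe_addRight, Equiv.neg_apply, neg_neg, add_sub_cancel_right,
    mul_assoc, ← mul_sum, sum_ind_mem, sum_sub_distrib, sum_const, nsmul_eq_mul] at this
  have e : ∑ a ∈ F, ∑ b ∈ F', ind (a + b + s ∈ B) = ∑ b ∈ F', ∑ y ∈ B, ind (-(b + s) + y ∈ F) := by
    rw [sum_comm]
    refine sum_congr rfl fun b _ => ?_
    rw [← sum_ind_mem, ← sum_ind_mem B, ← Equiv.sum_comp (Equiv.addLeft (b + s))
      (fun y => ind (y ∈ B) * ind (-(b + s) + y ∈ F))]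
    refine sum_congr rfl fun a _ => ?_
    simp only [Equiv.coe_addLeft, neg_add_cancel_left]
    rw [mul_comm, add_assoc, add_comm a]
  rw [e]
  nlinarith [(abs_le.1 this).2]

section use
variable {P : Type} {L : ℕ} {lam : ℝ} {A : P → Finset (ZMod m)} {p : P → ℝ}

lemma Pat.sum (h : Pat L lam A p) (r : ℕ) (hr : r ≤ 4) (ε : Fin r → Bool) (s : Fin r → ZMod m)
    (a : Fin r → P) (hf : ∀ i j, i ≠ j → ε i = ε j → far L (s i - s j)) :
    |∑ x : ZMod m, ind (∀ i, (if ε i = true then x + s i else s i - x) ∈ A (a i)) -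
      m * ∏ i, p (a i)| ≤ lam * m := by
  have := h r hr ε s a hf
  rwa [card_ind] at this

lemma Pat.size (h : Pat L lam A p) (a : P) : |((A a).card : ℝ) - p a * m| ≤ lam * m := by
  have := h.sum 1 (by norm_num) ![true] ![0] ![a] fun i j hij => absurd (Subsingleton.elim i j) hij
  simpa [sum_ind_mem', mul_comm] using this

lemma Pat.cross_add (h : Pat L lam A p) (hL : 0 < L) (a b : P) {z : ZMod m} (hz : far L z) :
    |(((A a).filter (fun x => x + z ∈ A b)).card : ℝ) - p a * p b * m| ≤ lam * m := by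
  have := h.sum 2 (by norm_num) ![true, true] ![0, z] ![a, b] fun i j hij _ => by
    fin_cases i <;> fin_cases j <;> simp_all [far_neg hL hz]
  rw [card_ind']
  simpa [mul_comm] using this

lemma Pat.cross_sub (h : Pat L lam A p) (a b : P) (d : ZMod m) :
    |(((A a).filter (fun x => d - x ∈ A b)).card : ℝ) - p a * p b * m| ≤ lam * m := by
  have := h.sum 2 (by norm_num) ![true, false] ![0, d] ![a, b] fun i j hij he => by
    fin_cases i <;> fin_cases j <;> simp_all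
  rw [card_ind']
  simpa [mul_comm] using this

lemma Pat.four (h : Pat L lam A p) (hL : 0 < L) (a b c d : P) (s1 s2 s3 : ZMod m) (h1 : far L s1)
    (h2 : far L s2) (h3 : far L s3) (h12 : far L (s1 - s2)) (h13 : far L (s1 - s3))
    (h23 : far L (s2 - s3)) :
    |∑ x, ind (x ∈ A a ∧ x + s1 ∈ A b ∧ x + s2 ∈ A c ∧ x + s3 ∈ A d) -
      p a * p b * p c * p d * m| ≤ lam * m := by
  have k1 := far_neg hL h1
  have k2 := far_neg hL h2
  have k3 := far_neg hL h3
  have k12 := far_neg hL h12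
  have k13 := far_neg hL h13
  have k23 := far_neg hL h23
  rw [neg_sub] at k12 k13 k23
  have := h.sum 4 le_rfl ![true, true, true, true] ![0, s1, s2, s3] ![a, b, c, d]
    fun i j hij _ => by
      fin_cases i <;> fin_cases j <;> simp [*] at hij ⊢
  simpa [Fin.forall_fin_succ, Fin.prod_univ_four, mul_comm] using this

lemma Pat.ac (h : Pat L lam A p) (hL : 0 < L) (hp : ∀ a, 0 ≤ p a ∧ p a ≤ 1) (a : P) :
    AC (A a) (p a) (4 * lam) (Xn m L) := fun z hz => by
  have h1 := h.cross_add hL a a (not_not.1 (mt mem_Xn.2 hz))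
  rw [card_ind'] at h1
  rw [mul_assoc, ZMod.card]
  exact ac_of (hp a).1 (hp a).2 z (by simpa using h.size a) (by simpa using h1)

lemma Pat.unif (h : Pat L lam A p) (hL : 0 < L) (hp : ∀ a, 0 ≤ p a ∧ p a ≤ 1) (hlam : 0 ≤ lam)
    {lam' : ℝ} (hl' : 0 ≤ lam') (hl : 4 * lam * m + 6 * L ≤ lam' ^ 2 * m) (a : P) :
    Unif (A a) (p a) lam' := by
  refine (h.ac hL hp a).unif (hp a).1 (hp a).2 (by positivity) hl' ?_
  have : ((Xn m L).card : ℝ) ≤ 2 * L := by exact_mod_cast Xn_card L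
  have h2 : (0:ℝ) ≤ L := by positivity
  rw [ZMod.card]; linarith

lemma Pat.unif2 (h : Pat L lam A p) (hL : 0 < L) (hp : ∀ a, 0 ≤ p a ∧ p a ≤ 1) (hlam : 0 ≤ lam)
    {lam' : ℝ} (hl' : 0 ≤ lam') (hl : 4 * lam * m + 6 * L ≤ lam' ^ 2 * m) (a b : P) {z : ZMod m}
    (hz : far L z) : Unif ((A a).filter (fun x => x + z ∈ A b)) (p a * p b) lam' := by
  have q0 := mul_nonneg (hp a).1 (hp b).1
  have q1 := mul_le_one₀ (hp a).2 (hp b).1 (hp b).2
  have ac : AC ((A a).filter (fun x => x + z ∈ A b)) (p a * p b) (4 * lam)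
      (Xn m L ∪ (Xn m L).image (· - z) ∪ (Xn m L).image (· + z)) := fun y hy => by
    simp only [mem_union, not_or, mem_image, not_exists, not_and] at hy
    have f1 : far L y := not_not.1 (mt mem_Xn.2 hy.1.1)
    have f2 : far L (y + z) := not_not.1 fun h => hy.1.2 _ (mem_Xn.2 h) (by ring)
    have f3 : far L (y - z) := not_not.1 fun h => hy.2 _ (mem_Xn.2 h) (by ring)
    have h1 := h.four hL a b a b z y (y + z) hz f1 f2 (by simpa using far_neg hL f3)
      (by simpa using far_neg hL f1) (by simpa using far_neg hL hz)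
    rw [mul_assoc, ZMod.card]
    refine ac_of q0 q1 y (by simpa using h.cross_add hL a b hz) ?_
    rw [ZMod.card, ← mul_assoc]
    simpa only [mem_filter, and_assoc, add_assoc] using h1
  refine ac.unif q0 q1 (by positivity) hl' ?_
  have h1 := Xn_card (m := m) L
  have : (Xn m L ∪ (Xn m L).image (· - z) ∪ (Xn m L).image (· + z)).card ≤ 6 * L := by
    have h2 := card_union_le (Xn m L ∪ (Xn m L).image (· - z)) ((Xn m L).image (· + z))
    have h3 := card_union_le (Xn m L) ((Xn m L).image (· - z))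
    have h4 := card_image_le (s := Xn m L) (f := (· - z))
    have h5 := card_image_le (s := Xn m L) (f := (· + z))
    omega
  have h6 : ((Xn m L ∪ (Xn m L).image (· - z) ∪ (Xn m L).image (· + z)).card : ℝ) ≤ 6 * L := by
    exact_mod_cast this
  rw [ZMod.card]; linarith

lemma Pat.hu (h : Pat L lam A p) (hL : 0 < L) (a b c : P) (d s1 s2 : ZMod m) (h1 : far L s1)
    (h2 : far L s2) (h3 : far L (s1 - s2)) :
    (p a * p b * p b * p c - lam) * m ≤
      (((A a).filter (fun x => x + s1 ∈ A b ∧ x + s2 ∈ A b ∧ d - x ∈ A c)).card : ℝ) := by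
  have k1 := far_neg hL h1
  have k2 := far_neg hL h2
  have k3 := far_neg hL h3
  rw [neg_sub] at k3
  have := h.sum 4 le_rfl ![true, true, true, false] ![0, s1, s2, d] ![a, b, b, c]
    fun i j hij he => by
      fin_cases i <;> fin_cases j <;> simp [*] at hij he ⊢
  have h4 : |∑ x, ind (x ∈ A a ∧ x + s1 ∈ A b ∧ x + s2 ∈ A b ∧ d - x ∈ A c) -
      p a * p b * p b * p c * m| ≤ lam * m := by
    simpa [Fin.forall_fin_succ, Fin.prod_univ_four, mul_comm] using this
  rw [card_ind']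
  linarith [(abs_le.1 h4).1]

lemma Pat.hd (h : Pat L lam A p) (hL : 0 < L) (a b : P) (s1 s2 s3 : ZMod m) (h1 : far L s1)
    (h2 : far L s2) (h3 : far L s3) (h12 : far L (s1 - s2)) (h13 : far L (s1 - s3))
    (h23 : far L (s2 - s3)) :
    (p a * p a * p b * p b - lam) * m ≤
      (((A a).filter (fun x => x + s1 ∈ A a ∧ x + s2 ∈ A b ∧ x + s3 ∈ A b)).card : ℝ) := by
  rw [card_ind']
  linarith [(abs_le.1 (h.four hL a a b b s1 s2 s3 h1 h2 h3 h12 h13 h23)).1]

end use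

namespace Cl

lemma intr_add {L L0 : ℕ} {x : ZMod m} (hx : Intr L L0 x) {i : ℕ} (hi : i ≤ 3) :
    (x + (i : ZMod m)).val / L = x.val / L ∧ (x + (i : ZMod m)).val % L = x.val % L + i ∧
      far L (x + (i : ZMod m)) := by
  obtain ⟨h1, h2, h3, h4⟩ := hx
  have e1 := Nat.div_add_mod x.val L
  have e2 : L * (x.val / L + 2) ≤ m := (Nat.mul_le_mul_left L h2).trans (Nat.mul_div_le m L)
  have e3 : L * 1 ≤ L * (x.val / L) := Nat.mul_le_mul_left L h1
  rw [mul_add] at e2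
  have e4 : (i : ZMod m).val = i := ZMod.val_cast_of_lt (by omega)
  have e5 : (x + (i : ZMod m)).val = x.val + i := by
    rw [ZMod.val_add_of_lt (by omega), e4]
  have e6 := (Nat.div_mod_unique (a := x.val + i) (b := L) (c := x.val % L + i) (d := x.val / L)
    (by omega)).2 ⟨by omega, by omega⟩
  rw [far, e5]
  exact ⟨e6.1, e6.2, by omega, by omega⟩

lemma intr_sub {L L0 : ℕ} {x : ZMod m} (hx : Intr L L0 x) {z : ZMod m} (hz : z.val ≤ L0) :
    (x - z).val / L = x.val / L ∧ far L (x - z) := by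
  obtain ⟨h1, h2, h3, h4⟩ := hx
  have e1 := Nat.div_add_mod x.val L
  have e2 : L * (x.val / L + 2) ≤ m := (Nat.mul_le_mul_left L h2).trans (Nat.mul_div_le m L)
  have e3 : L * 1 ≤ L * (x.val / L) := Nat.mul_le_mul_left L h1
  rw [mul_add] at e2
  have e5 : (x - z).val = x.val - z.val := ZMod.val_sub (by omega)
  have e6 := (Nat.div_mod_unique (a := x.val - z.val) (b := L) (c := x.val % L - z.val)
    (d := x.val / L) (by omega)).2 ⟨by omega, by omega⟩
  rw [far, e5]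
  exact ⟨e6.1, by omega, by omega⟩

/-- independent product -/
noncomputable def prd {Ω Ω' : Type} (μ : FP Ω) (ν : FP Ω') : FP (Ω × Ω') :=
  μ.bind fun a => ν.map fun b => (a, b)

lemma prd_P {Ω Ω' : Type} (μ : FP Ω) (ν : FP Ω') (s : Ω → Prop) (t : Ω' → Prop) :
    (prd μ ν).P (fun w => s w.1 ∧ t w.2) = μ.P s * ν.P t := by
  rw [prd, FP.bind_P]
  simp only [FP.P, FP.map_E, ind_and, FP.E_mul_left]
  exact μ.E_mul_right _ _

lemma prd_P3 {Ω Ω' Ω'' : Type} (μ : FP Ω) (ν : FP Ω') (ξ : FP Ω'') (s : Ω → Prop) (t : Ω' → Prop)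
    (u : Ω'' → Prop) : (prd μ (prd ν ξ)).P (fun w => s w.1 ∧ t w.2.1 ∧ u w.2.2) =
      μ.P s * (ν.P t * ξ.P u) := by
  rw [← prd_P ν ξ, ← prd_P]

lemma weights_P {Ω : Type} [Fintype Ω] (w : Ω → ℝ) (h0 : ∀ a ∈ univ, 0 ≤ w a)
    (h1 : ∑ a, w a = 1) (a : Ω) : (FP.ofWeights univ w h0 h1).P (fun b => b = a) = w a := by
  rw [FP.P, FP.ofWeights_E]
  simp only [mul_comm (w _), sum_ind_eq_mul]

/-- the state space -/
abbrev St (Own : Type) : Type := (Fin 4 ⊕ Own) × (Bool → Fin 3) × Fin 4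

variable {Own : Type}

/-- the label side is not owned -/
def free (ls : Own → Bool) (s : Bool) (κ : Fin 4 ⊕ Own) : Prop := ∀ o, κ = Sum.inr o → ls o ≠ s

/-- first part of the predicates -/
def p1 (ls : Own → Bool) : Cn Own → Fin 4 ⊕ Own → Prop
  | .lb s, κ => free ls s κ
  | .uu s, κ => free ls s κ
  | .ww s, κ => free ls s κ
  | .cc, κ => κ = Sum.inl 0
  | .dd, κ => κ = Sum.inl 1
  | .ar, κ => κ = Sum.inl 2
  | .ad, κ => κ = Sum.inl 1
  | .own o, κ => κ = Sum.inr o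

/-- second part of the predicates -/
def p2 : Cn Own → (Bool → Fin 3) → Prop
  | .lb s, α => α s = 0
  | .uu s, α => α s = 1
  | .ww s, α => α s = 2
  | .cc, _ => True
  | .dd, _ => True
  | .ar, α => ∀ s, α s = 2
  | .ad, α => ∀ s, α s = 2
  | .own _, _ => True

/-- third part of the predicates -/
def p3 (wd : ℕ) : Cn Own → Fin 4 → ℕ → Prop
  | .uu _, ρ, k => k % 4 = ρ.val
  | .dd, ρ, k => k % wd = ρ.val % wd
  | _, _, _ => True

/-- the predicates -/
def pr (ls : Own → Bool) (wd : ℕ) (a : Cn Own) (w : St Own) (k : ℕ) : Prop :=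
  p1 ls a w.1 ∧ p2 a w.2.1 ∧ p3 wd a w.2.2 k

/-- the label type of a state -/
def tlf (ls : Own → Bool) (s : Bool) (w : St Own) : Fin 3 ⊕ Own :=
  w.1.elim (fun _ => Sum.inl (w.2.1 s)) fun o => if ls o = s then Sum.inr o else Sum.inl (w.2.1 s)

lemma tlf_free {ls : Own → Bool} {s : Bool} {w : St Own} (h : free ls s w.1) :
    tlf ls s w = Sum.inl (w.2.1 s) := by
  obtain ⟨κ | o, α, ρ⟩ := w
  · rfl
  · exact if_neg (h o rfl)

lemma tlf_own {ls : Own → Bool} {o : Own} {w : St Own} (h : w.1 = Sum.inr o) :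
    tlf ls (ls o) w = Sum.inr o := by
  simp [tlf, h]

lemma mem_Aset {Ω : Type} {L L0 : ℕ} {ω : ℕ → Ω} {π : Ω → ℕ → Prop} {x : ZMod m} :
    x ∈ Aset m L L0 ω π ↔ Intr L L0 x ∧ π (ω (x.val / L)) (x.val % L) := by simp [Aset]

lemma struct (L L0 wd : ℕ) (ls : Own → Bool) (ω : ℕ → St Own) :
    Struct L L0 wd ls (fun a => Aset m L L0 ω (pr ls wd a))
      (fun s x => tlf ls s (ω (x.val / L))) (fun x => (ω (x.val / L)).1) := by
  constructor
  · exact fun a x hx i hi => (intr_add (mem_Aset.1 hx).1 hi).2.2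
  · exact fun a x hx z hz => (intr_sub (mem_Aset.1 hx).1 hz).2
  · intro s x hx
    obtain ⟨-, h1, h2, -⟩ := mem_Aset.1 hx
    rw [tlf_free h1, show (ω (x.val / L)).2.1 s = 0 from h2]
  · intro s x hx i hi
    obtain ⟨h0, h1, h2, -⟩ := mem_Aset.1 hx
    rw [(intr_add h0 hi).1, tlf_free h1, show (ω (x.val / L)).2.1 s = 1 from h2]
  · intro s x hx
    obtain ⟨-, h1, h2, -⟩ := mem_Aset.1 hx
    rw [tlf_free h1, show (ω (x.val / L)).2.1 s = 2 from h2]
  · intro o x hx z hz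
    obtain ⟨h0, h1, -⟩ := mem_Aset.1 hx
    rw [(intr_sub h0 hz).1, tlf_own h1]
  · intro s x hx y hy i j hi hj he
    obtain ⟨h0, -, -, h1⟩ := mem_Aset.1 hx
    obtain ⟨k0, -, -, k1⟩ := mem_Aset.1 hy
    obtain ⟨h2, h3, -⟩ := intr_add h0 hi
    obtain ⟨k2, k3, -⟩ := intr_add k0 hj
    rw [he] at h2 h3
    rw [← h2, k2] at h1
    simp only [p3] at h1 k1
    have : i = j := by omega
    subst this
    exact ⟨add_right_cancel he, rfl⟩
  · exact fun x hx => (mem_Aset.1 hx).2.1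
  · intro x hx
    obtain ⟨h0, h1, -⟩ := mem_Aset.1 hx
    have := (intr_add h0 (i := 1) (by norm_num)).1
    rw [Nat.cast_one] at this
    exact ⟨h1, by rw [this]; exact h1⟩
  · exact fun x hx => (mem_Aset.1 hx).2.1
  · exact fun x hx => (mem_Aset.1 hx).2.1
  · exact fun o x hx => (mem_Aset.1 hx).2.1
  · rintro rfl x hx hy
    obtain ⟨h0, -, -, h1⟩ := mem_Aset.1 hx
    obtain ⟨-, -, -, k1⟩ := mem_Aset.1 hy
    obtain ⟨h2, h3, -⟩ := intr_add h0 (i := 1) (by norm_num)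
    rw [Nat.cast_one] at h2 h3
    rw [h2, h3] at k1
    simp only [p3] at h1 k1
    omega
  · intro s x hx
    obtain ⟨h0, h1, h2, -⟩ := mem_Aset.1 hx
    exact mem_Aset.2 ⟨h0, fun o ho => by simp [show _ = _ from h1] at ho, h2 s, trivial⟩
  · intro s x hx
    obtain ⟨h0, h1, h2, -⟩ := mem_Aset.1 hx
    exact mem_Aset.2 ⟨h0, fun o ho => by simp [show _ = _ from h1] at ho, h2 s, trivial⟩

/-- numbering of the class names -/
def code : Cn Own → Fin 10 ⊕ Own
  | .lb true => Sum.inl 0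
  | .lb false => Sum.inl 1
  | .uu true => Sum.inl 2
  | .uu false => Sum.inl 3
  | .ww true => Sum.inl 4
  | .ww false => Sum.inl 5
  | .cc => Sum.inl 6
  | .dd => Sum.inl 7
  | .ar => Sum.inl 8
  | .ad => Sum.inl 9
  | .own o => Sum.inr o

lemma code_inj : Function.Injective (code (Own := Own)) := by
  rintro ((_ | _) | (_ | _) | (_ | _) | _ | _ | _ | _ | _)
    ((_ | _) | (_ | _) | (_ | _) | _ | _ | _ | _ | _) h <;> simp_all [code]

lemma Low.mono {A : Finset (ZMod m)} {q q' : ℝ} (h : Low A q) (hq : q' ≤ q) : Low A q' :=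
  fun s t => (mul_le_mul_of_nonneg_right hq (by positivity)).trans (h s t)

end Cl

/-- existence of the classes of labels and colours -/
theorem classes (L0 : ℕ) (lam : ℝ) (hlam : 0 < lam) : ∃ L : ℕ, 2 * L0 + 8 ≤ L ∧ ∃ m0 : ℕ,
    ∀ (m : ℕ) [NeZero m], m0 ≤ m → Odd m →
    ∀ (Own : Type) [Fintype Own] (ls : Own → Bool) (wd : ℕ) (po : Own → ℝ) (pU : Bool → ℝ)
      (pC pD pR : ℝ), Fintype.card Own + 10 ≤ m → (wd = 1 ∨ wd = 2) → (∀ o, 0 ≤ po o) →
      0 ≤ pC → 0 ≤ pD → 0 ≤ pR → (∀ s, 0 ≤ pU s ∧ pU s ≤ 1 / 100) →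
      ∑ o, po o + pC + wd * pD + pR ≤ 1 →
      (∀ s, ∑ o ∈ univ.filter (fun o => ls o = s), po o ≤ 3 / 5) →
      ∃ (A : Cn Own → Finset (ZMod m)) (p : Cn Own → ℝ) (tl : Bool → ZMod m → Fin 3 ⊕ Own)
        (tc : ZMod m → Fin 4 ⊕ Own), Struct L L0 wd ls A tl tc ∧ Pat L lam A p ∧
        (∀ a, 0 ≤ p a ∧ p a ≤ 1) ∧ p .cc = pC ∧ p .dd = pD ∧ (∀ o, p (.own o) = po o) ∧
        (∀ s, p (.uu s) = pU s) ∧
        (∀ s, 4 / 5 - ∑ o ∈ univ.filter (fun o => ls o = s), po o ≤ p (.lb s)) ∧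
        (∀ s, 1 / 25 ≤ p (.ww s)) ∧
        Low (A .ar) ((pR / 100) ^ 3 - lam) ∧ Low (A .ad) ((pD / 100) ^ 3 - lam) := by
  obtain ⟨L, hL, m0, H⟩ := patterns L0 lam hlam
  refine ⟨L, hL, m0, fun m _ hm ho Own _ ls wd po pU pC pD pR hc hwd h0 hC hD hR hU hs hos => ?_⟩
  set os : Bool → ℝ := fun s => ∑ o ∈ univ.filter (fun o => ls o = s), po o with hos'
  have os0 : ∀ s, 0 ≤ os s := fun s => sum_nonneg fun o _ => h0 o
  have os1 : ∀ s, os s ≤ 3 / 5 := hos
  have wd1 : (1:ℝ) ≤ wd := by rcases hwd with rfl | rfl <;> norm_num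
  let wκ : Fin 4 ⊕ Own → ℝ :=
    Sum.elim ![pC, wd * pD, pR, 1 - (∑ o, po o + pC + wd * pD + pR)] po
  have κ0 : ∀ a ∈ univ, 0 ≤ wκ a := by
    rintro (i | o) -
    · fin_cases i <;> simp [wκ] <;> first | assumption | positivity
    · exact h0 o
  have κ1 : ∑ a, wκ a = 1 := by
    simp [wκ, Fintype.sum_sum_type, Fin.sum_univ_four]; ring
  let aU : Bool → ℝ := fun s => 4 * pU s / (1 - os s)
  have aU0 : ∀ s, 0 ≤ aU s := fun s => div_nonneg (by linarith [(hU s).1]) (by linarith [os1 s])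
  have aU1 : ∀ s, aU s ≤ 1 / 10 := fun s => by
    simp only [aU]
    rw [div_le_iff₀ (by linarith [os1 s])]; linarith [os1 s, (hU s).2]
  have aU2 : ∀ s, (1 - os s) * aU s = 4 * pU s := fun s =>
    mul_div_cancel₀ _ (by linarith [os1 s])
  let wα : Bool → Fin 3 → ℝ := fun s => ![9 / 10 - aU s, aU s, 1 / 10]
  have α0 : ∀ s, ∀ a ∈ univ, 0 ≤ wα s a := fun s i _ => by
    fin_cases i <;> simp [wα] <;> linarith [aU0 s, aU1 s]
  have α1 : ∀ s, ∑ a, wα s a = 1 := fun s => by simp [wα, Fin.sum_univ_three]; ring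
  let μκ := FP.ofWeights univ wκ κ0 κ1
  let μα := FP.pi fun s => FP.ofWeights univ (wα s) (α0 s) (α1 s)
  let μρ : FP (Fin 4) := FP.unif univ univ_nonempty
  have Pκ : ∀ a, μκ.P (fun b => b = a) = wκ a := weights_P _ _ _
  have Pf : ∀ s, μκ.P (free ls s) = 1 - os s := fun s => by
    have : μκ.P (fun κ => ¬ free ls s κ) = os s := by
      rw [FP.P, FP.ofWeights_E, Fintype.sum_sum_type]
      simp only [free, hos', sum_filter]
      simp [ind_false, ind_eq_ite, wκ]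
    rw [FP.P_not] at this
    linarith
  have Pα : ∀ s i, μα.P (fun α => α s = i) = wα s i := fun s i =>
    (FP.pi_P_coord (fun s => FP.ofWeights univ (wα s) (α0 s) (α1 s)) s (fun a => a = i)).trans
      (weights_P _ _ _ _)
  have Pα2 : μα.P (fun α => ∀ s, α s = 2) = 1 / 100 := by
    rw [FP.pi_P_forall _ (fun _ a => a = 2)]
    simp only [weights_P]
    simp [wα]; norm_num
  have Pρ : ∀ k : ℕ, μρ.P (fun ρ => k % 4 = ρ.val) = 1 / 4 := fun k => by
    rw [FP.P, FP.unif_E, Fin.sum_univ_four]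
    have : k % 4 = 0 ∨ k % 4 = 1 ∨ k % 4 = 2 ∨ k % 4 = 3 := by omega
    rcases this with h | h | h | h <;> simp [h, ind_eq_ite]
  have Pρ' : ∀ k : ℕ, μρ.P (fun ρ => k % wd = ρ.val % wd) = 1 / wd := fun k => by
    rw [FP.P, FP.unif_E, Fin.sum_univ_four]
    rcases hwd with rfl | rfl
    · simp [Nat.mod_one, ind_eq_ite]; norm_num
    · rcases Nat.mod_two_eq_zero_or_one k with h | h <;> simp [h, ind_eq_ite] <;> norm_num
  let p : Cn Own → ℝ := fun a => match a with
    | .lb s => (1 - os s) * (9 / 10 - aU s)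
    | .uu s => pU s
    | .ww s => (1 - os s) / 10
    | .cc => pC
    | .dd => pD
    | .ar => pR / 100
    | .ad => wd * pD / 100
    | .own o => po o
  have T1 : ∀ {Ω : Type} (μ : FP Ω), μ.P (fun _ => True) = 1 := fun μ => μ.P_true fun _ => trivial
  have hp : ∀ a k, (prd μκ (prd μα μρ)).P (fun w => pr ls wd a w k) = p a := fun a k => by
    refine (prd_P3 μκ μα μρ (p1 ls a) (p2 a) (fun ρ => p3 wd a ρ k)).trans ?_
    rcases a with s | s | s | _ | _ | _ | _ | o
    · exact (congrArg₂ _ (Pf s) (congrArg₂ _ (Pα s 0) (T1 _))).trans (by simp [wα, p])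
    · exact (congrArg₂ _ (Pf s) (congrArg₂ _ (Pα s 1) (Pρ k))).trans
        (by simp only [wα, p]; simp; linarith [aU2 s])
    · exact (congrArg₂ _ (Pf s) (congrArg₂ _ (Pα s 2) (T1 _))).trans (by simp [wα, p]; ring)
    · exact (congrArg₂ _ (Pκ _) (congrArg₂ _ (T1 _) (T1 _))).trans (by simp [wκ, p])
    · exact (congrArg₂ _ (Pκ _) (congrArg₂ _ (T1 _) (Pρ' k))).trans
        (by simp [wκ, p]; field_simp)
    · exact (congrArg₂ _ (Pκ _) (congrArg₂ _ Pα2 (T1 _))).trans (by simp [wκ, p]; ring)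
    · exact (congrArg₂ _ (Pκ _) (congrArg₂ _ Pα2 (T1 _))).trans (by simp [wκ, p]; ring)
    · exact (congrArg₂ _ (Pκ _) (congrArg₂ _ (T1 _) (T1 _))).trans (by simp [wκ, p])
  haveI : Finite (Cn Own) := Finite.of_injective _ code_inj
  obtain ⟨ω, k1, k2⟩ := H m hm ho _ (prd μκ (prd μα μρ)) (Cn Own) (pr ls wd) p
    ((Nat.card_le_card_of_injective _ code_inj).trans (by simp; omega)) hp
  refine ⟨_, p, _, _, struct L L0 wd ls ω, k1,
    fun a => hp a 0 ▸ ⟨FP.P_nonneg _ _, FP.P_le_one _ _⟩, rfl, rfl, fun _ => rfl, fun _ => rfl,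
    fun s => ?_, fun s => ?_, k2 .ar fun w o o' h => ⟨h.1, h.2.1, trivial⟩,
    Low.mono (k2 .ad fun w o o' h => ⟨h.1, h.2.1, trivial⟩) ?_⟩
  · show 4 / 5 - os s ≤ (1 - os s) * (9 / 10 - aU s)
    rw [mul_sub, aU2]; linarith [os0 s, (hU s).2]
  · show _ ≤ (1 - os s) / 10
    linarith [os1 s]
  · show _ ≤ (wd * pD / 100) ^ 3 - lam
    gcongr
    nlinarith

end Pool.Agent.Lib.MP_5cebc8_co
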