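import Pool.Agent.Lib.MP_5cebc8_co.Unif

open Finset
open Pool.Agent.Lib.MP_ad359d_co

namespace Pool.Agent.Lib.MP_5cebc8_co

set_option linter.unusedSectionVars false

noncomputable section

/-- a system of small trees with label sets and slots -/
structure Sys (N J ι Λ G : Type) where
  F : N → Finset G
  cp : N → ι
  pr : N → N
  dep : N → ℕ
  own : J → N
  bn : J → Bool
  off : J → G
  cls : J → Λ
  Cl : Λ → Finset G
  p : Λ → ℝ

namespace Sys

variable {N J ι Λ G : Type} [Fintype N] [DecidableEq N] [Fintype J] [DecidableEq J]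
  [Fintype ι] [DecidableEq ι] [Fintype Λ] [DecidableEq Λ] [Fintype G] [DecidableEq G]
  [AddCommGroup G] (S : Sys N J ι Λ G)

/-- the value of a slot -/
def val (j : J) (x : N → G) : G :=
  if S.bn j = true then x (S.own j) + x (S.pr (S.own j)) + S.off j else x (S.own j) + S.off j

/-- the normalised probability that a slot falls into a test set -/
def mass (j : J) (A : Finset G) : ℝ :=
  if S.bn j = true then
    (∑ a ∈ S.F (S.own j), ∑ b ∈ S.F (S.pr (S.own j)), ind (a + b + S.off j ∈ A)) /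
      (((S.F (S.own j)).card : ℝ) * (S.F (S.pr (S.own j))).card) / S.p (S.cls j)
  else (∑ a ∈ S.F (S.own j), ind (a + S.off j ∈ A)) / ((S.F (S.own j)).card : ℝ)

/-- two unary slots of one vertex -/
def Tied (j j' : J) : Prop := S.own j = S.own j' ∧ S.bn j = false ∧ S.bn j' = false

/-- structural hypotheses -/
structure Ok (K : ℕ) (ρ1 ρ lam : ℝ) : Prop where
  hbn : ∀ j, S.bn j = true →
    S.dep (S.pr (S.own j)) < S.dep (S.own j) ∧ S.cp (S.pr (S.own j)) = S.cp (S.own j)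
  hbn1 : ∀ j j', S.bn j = true → S.bn j' = true → S.own j = S.own j' → j = j'
  hK : ∀ Q, (univ.filter (fun j => S.cp (S.own j) = Q)).card ≤ K
  hF : ∀ v, ρ * Fintype.card G ≤ (S.F v).card
  hU : ∀ j, S.bn j = true →
    Unif (S.Cl (S.cls j)) (S.p (S.cls j)) lam ∧ ρ1 ≤ S.p (S.cls j) ∧ S.p (S.cls j) ≤ 1
  hun : ∀ j, S.bn j = false → ∀ y ∈ S.F (S.own j), y + S.off j ∈ S.Cl (S.cls j)
  htie : ∀ j j', j ≠ j' → S.Tied j j' →
    S.cls j ≠ S.cls j' ∧ ρ1 * Fintype.card G ≤ (S.F (S.own j)).card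
  ρ1pos : 0 < ρ1
  ρ1le : ρ1 ≤ 1
  ρpos : 0 < ρ
  lampos : 0 ≤ lam

def Jq (Q : ι) : Finset J := univ.filter (fun j => S.cp (S.own j) = Q)
def Bq (Q : ι) : Finset J := univ.filter (fun j => S.bn j = true ∧ S.cp (S.own j) = Q)
def PI (Q : ι) (x : N → G) : ℝ :=
  ∏ j ∈ S.Bq Q, ind (x (S.own j) + x (S.pr (S.own j)) + S.off j ∈ S.Cl (S.cls j))
def PP (Q : ι) : ℝ := ∏ j ∈ S.Bq Q, S.p (S.cls j)
def ND (Q : ι) (x : N → G) : Prop :=
  ∀ j ∈ S.Jq Q, ∀ j' ∈ S.Jq Q, S.cls j = S.cls j' → S.val j x = S.val j' x → j = j'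

variable {S} {K : ℕ} {ρ1 ρ lam : ℝ}

lemma Ok.ne (h : S.Ok K ρ1 ρ lam) (v : N) : (S.F v).Nonempty := by
  have h1 := h.hF v
  have hm : (0 : ℝ) < Fintype.card G := by exact_mod_cast Fintype.card_pos
  have : (0 : ℝ) < (S.F v).card := lt_of_lt_of_le (mul_pos h.ρpos hm) h1
  exact card_pos.1 (by exact_mod_cast this)

lemma Ok.own_ne (h : S.Ok K ρ1 ρ lam) {j : J} (hj : S.bn j = true) : S.own j ≠ S.pr (S.own j) := by
  intro e
  have := (h.hbn j hj).1
  rw [← e] at this; omega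

lemma Bq_card (h : S.Ok K ρ1 ρ lam) (Q : ι) : (S.Bq Q).card ≤ K :=
  le_trans (card_le_card fun j hj => mem_filter.2 ⟨mem_univ _, (mem_filter.1 hj).2.2⟩) (h.hK Q)

lemma PI_nonneg (Q : ι) (x : N → G) : 0 ≤ S.PI Q x := prod_nonneg fun _ _ => ind_nonneg _
lemma PI_le_one (Q : ι) (x : N → G) : S.PI Q x ≤ 1 :=
  prod_le_one (fun _ _ => ind_nonneg _) fun _ _ => ind_le_one _

lemma prod_p_ge (h : S.Ok K ρ1 ρ lam) (B : Finset J) (hB : ∀ j ∈ B, S.bn j = true)
    (hc : B.card ≤ K) : ρ1 ^ K ≤ ∏ j ∈ B, S.p (S.cls j) := by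
  calc ρ1 ^ K ≤ ρ1 ^ B.card := pow_le_pow_of_le_one h.ρ1pos.le h.ρ1le hc
    _ = ∏ _j ∈ B, ρ1 := by simp
    _ ≤ _ := prod_le_prod (fun _ _ => h.ρ1pos.le) fun j hj => (h.hU j (hB j hj)).2.1

lemma PP_ge (h : S.Ok K ρ1 ρ lam) (Q : ι) : ρ1 ^ K ≤ S.PP Q :=
  prod_p_ge h _ (fun _ hj => (mem_filter.1 hj).2.1) (Bq_card h Q)

lemma PP_pos (h : S.Ok K ρ1 ρ lam) (Q : ι) : 0 < S.PP Q :=
  lt_of_lt_of_le (pow_pos h.ρ1pos _) (PP_ge h Q)

lemma spl_edge (h : S.Ok K ρ1 ρ lam) {i j : J} (hi : S.bn i = true) (hj : S.bn j = true)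
    (hij : i ≠ j) (A : Finset G) :
    Spl (S.own j) (S.pr (S.own j))
      (fun x : N → G => ind (x (S.own i) + x (S.pr (S.own i)) + S.off i ∈ A)) := by
  have h1 : S.own i ≠ S.own j := fun e => hij (h.hbn1 i j hi hj e)
  by_cases h2 : S.pr (S.own i) = S.own j
  · have a1 := (h.hbn i hi).1
    have a2 := (h.hbn j hj).1
    refine Spl.left (fun _ => ⟨ind_nonneg _, ind_le_one _⟩) fun x b => ?_
    rw [Function.update_of_ne, Function.update_of_ne]
    · intro e; rw [h2] at e; rw [← e] at a2; omega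
    · intro e; rw [← e] at a2; rw [h2] at a1; omega
  · refine Spl.right (h.own_ne hj) (fun _ => ⟨ind_nonneg _, ind_le_one _⟩) fun x b => ?_
    rw [Function.update_of_ne h1, Function.update_of_ne h2]

lemma spl_unary {v u : N} (hvu : v ≠ u) (w : N) (q : G → Prop) :
    Spl v u (fun x : N → G => ind (q (x w))) := by
  by_cases e : w = u
  · refine Spl.right hvu (fun _ => ⟨ind_nonneg _, ind_le_one _⟩) fun x b => ?_
    rw [Function.update_of_ne (e ▸ hvu.symm)]
  · refine Spl.left (fun _ => ⟨ind_nonneg _, ind_le_one _⟩) fun x b => ?_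
    rw [Function.update_of_ne e]

lemma cnt_sub (h : S.Ok K ρ1 ρ lam) (B : Finset J) (hB : ∀ j ∈ B, S.bn j = true)
    (hc : B.card ≤ K) {H : (N → G) → ℝ} (hH : ∀ j ∈ B, Spl (S.own j) (S.pr (S.own j)) H) :
    |(mu S.F h.ne).E (fun x =>
      (∏ j ∈ B, ind (x (S.own j) + x (S.pr (S.own j)) + S.off j ∈ S.Cl (S.cls j))) * H x) -
      (∏ j ∈ B, S.p (S.cls j)) * (mu S.F h.ne).E H| ≤ K * (lam / ρ ^ 2) := by
  refine (count_edges S.F h.ne S.own (fun j => S.pr (S.own j)) S.off (fun j => S.Cl (S.cls j))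
    (fun j => S.p (S.cls j)) h.ρpos h.lampos h.hF B (fun j hj => h.own_ne (hB j hj))
    (fun j hj => (h.hU j (hB j hj)).1)
    (fun j hj => ⟨h.ρ1pos.le.trans (h.hU j (hB j hj)).2.1, (h.hU j (hB j hj)).2.2⟩) hH
    (fun i hi j hj hij => spl_edge h (hB i hi) (hB j hj) hij _)).trans ?_
  have := h.lampos
  have := h.ρpos
  have : (B.card : ℝ) ≤ K := by exact_mod_cast hc
  gcongr

lemma div_bound {a b c e q r : ℝ} (hq : 0 < r) (hr : r ≤ q) (he : 0 ≤ e) (h : a ≤ b + e)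
    (hb : b / q ≤ c) : a / q ≤ c + e / r := by
  have hq' : 0 < q := lt_of_lt_of_le hq hr
  calc a / q ≤ (b + e) / q := by gcongr
    _ = b / q + e / q := by ring
    _ ≤ c + e / r := by gcongr

lemma total_le (h : S.Ok K ρ1 ρ lam) (Q : ι) :
    (mu S.F h.ne).E (S.PI Q) / S.PP Q ≤ 1 + K * (lam / ρ ^ 2) / ρ1 ^ K := by
  have := cnt_sub h (S.Bq Q) (fun _ hj => (mem_filter.1 hj).2.1) (Bq_card h Q) (H := fun _ => 1)
    (fun j _ => Spl.left (fun _ => by norm_num) fun _ _ => rfl)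
  simp only [mul_one, FP.E_const] at this
  have hl := h.lampos
  have hρ := h.ρpos
  refine div_bound (b := S.PP Q) (pow_pos h.ρ1pos _) (PP_ge h Q) (by positivity) ?_
    (by rw [div_self (PP_pos h Q).ne'])
  have := (abs_le.1 this).2
  unfold PP; unfold PI; linarith

lemma total_ge (h : S.Ok K ρ1 ρ lam) (Q : ι) :
    S.PP Q - K * (lam / ρ ^ 2) ≤ (mu S.F h.ne).E (S.PI Q) := by
  have := cnt_sub h (S.Bq Q) (fun _ hj => (mem_filter.1 hj).2.1) (Bq_card h Q) (H := fun _ => 1)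
    (fun j _ => Spl.left (fun _ => by norm_num) fun _ _ => rfl)
  simp only [mul_one, FP.E_const] at this
  have := (abs_le.1 this).1
  unfold PP; unfold PI; linarith

lemma slot_load (h : S.Ok K ρ1 ρ lam) (Q : ι) {j : J} (hj : j ∈ S.Jq Q) (A : Finset G) :
    (mu S.F h.ne).E (fun x => S.PI Q x * ind (S.val j x ∈ A)) / S.PP Q ≤
      S.mass j A + K * (lam / ρ ^ 2) / ρ1 ^ K := by
  have hl := h.lampos
  have hρ := h.ρpos
  by_cases hb : S.bn j = true
  · have hjB : j ∈ S.Bq Q := mem_filter.2 ⟨mem_univ _, hb, (mem_filter.1 hj).2⟩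
    have hB : ∀ i ∈ (S.Bq Q).erase j, S.bn i = true := fun i hi =>
      (mem_filter.1 (mem_of_mem_erase hi)).2.1
    have hc : ((S.Bq Q).erase j).card ≤ K := card_erase_le.trans (Bq_card h Q)
    have h1 := cnt_sub h ((S.Bq Q).erase j) hB hc
      (H := fun x => ind (x (S.own j) + x (S.pr (S.own j)) + S.off j ∈ A))
      (fun i hi => spl_edge h hb (hB i hi) (ne_of_mem_erase hi).symm A)
    have h2 := (abs_le.1 h1).2
    have h3 : (mu S.F h.ne).E (fun x => S.PI Q x * ind (S.val j x ∈ A)) ≤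
        (mu S.F h.ne).E (fun x => (∏ i ∈ (S.Bq Q).erase j,
          ind (x (S.own i) + x (S.pr (S.own i)) + S.off i ∈ S.Cl (S.cls i))) *
          ind (x (S.own j) + x (S.pr (S.own j)) + S.off j ∈ A)) := by
      refine FP.E_mono _ fun x => ?_
      simp only [val, hb, if_true, PI]
      rw [← mul_prod_erase _ _ hjB]
      refine mul_le_mul_of_nonneg_right ?_ (ind_nonneg _)
      exact mul_le_of_le_one_left (prod_nonneg fun _ _ => ind_nonneg _) (ind_le_one _)
    refine div_bound (b := (∏ i ∈ (S.Bq Q).erase j, S.p (S.cls i)) * (mu S.F h.ne).E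
      (fun x => ind (x (S.own j) + x (S.pr (S.own j)) + S.off j ∈ A)))
      (pow_pos h.ρ1pos _) (PP_ge h Q) (by positivity) (by linarith) ?_
    have hp : 0 < ∏ i ∈ (S.Bq Q).erase j, S.p (S.cls i) :=
      lt_of_lt_of_le (pow_pos h.ρ1pos _) (prod_p_ge h _ hB hc)
    have hp2 : 0 < S.p (S.cls j) := lt_of_lt_of_le h.ρ1pos (h.hU j hb).2.1
    rw [mu_coord2 S.F h.ne (h.own_ne hb) (fun a b => ind (a + b + S.off j ∈ A))]
    simp only [mass, hb, if_true, PP]
    rw [← mul_prod_erase _ _ hjB]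
    apply le_of_eq
    field_simp
  · have h1 := cnt_sub h (S.Bq Q) (fun _ hj => (mem_filter.1 hj).2.1) (Bq_card h Q)
      (H := fun x => ind (x (S.own j) + S.off j ∈ A))
      (fun i hi => spl_unary (h.own_ne (mem_filter.1 hi).2.1) _ (fun a => a + S.off j ∈ A))
    have h2 := (abs_le.1 h1).2
    refine div_bound (b := S.PP Q * (mu S.F h.ne).E (fun x => ind (x (S.own j) + S.off j ∈ A)))
      (pow_pos h.ρ1pos _) (PP_ge h Q) (by positivity) ?_ ?_
    · simp only [val, hb, PI, PP] at h2 ⊢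
      simp only [Bool.false_eq_true, if_false]
      linarith
    · rw [mu_coord S.F h.ne _ (fun a => ind (a + S.off j ∈ A)),
        mul_div_cancel_left₀ _ (PP_pos h Q).ne']
      simp [mass, hb]

/-- the slot does not depend on the coordinate -/
def Ind (S : Sys N J ι Λ G) (j : J) (u : N) : Prop :=
  ∀ x b, S.val j (Function.update x u b) = S.val j x
/-- the slot determines the coordinate -/
def Inj (S : Sys N J ι Λ G) (j : J) (u : N) : Prop :=
  ∀ x a b, S.val j (Function.update x u a) = S.val j (Function.update x u b) → a = b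

lemma inj_own (h : S.Ok K ρ1 ρ lam) (j : J) : S.Inj j (S.own j) := by
  intro x a b e
  by_cases hb : S.bn j = true
  · simpa [val, hb, Function.update_of_ne (h.own_ne hb).symm] using e
  · simpa [val, hb] using e

lemma inj_pr (h : S.Ok K ρ1 ρ lam) {j : J} (hb : S.bn j = true) : S.Inj j (S.pr (S.own j)) := by
  intro x a b e
  simpa [val, hb, Function.update_of_ne (h.own_ne hb)] using e

lemma ind_of {j : J} {u : N} (h1 : S.own j ≠ u) (h2 : S.bn j = true → S.pr (S.own j) ≠ u) :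
    S.Ind j u := by
  intro x b
  by_cases hb : S.bn j = true
  · simp [val, hb, Function.update_of_ne h1, Function.update_of_ne (h2 hb)]
  · simp [val, hb, Function.update_of_ne h1]

lemma piv (h : S.Ok K ρ1 ρ lam) {j j' : J} (hne : j ≠ j') (ht : ¬ S.Tied j j') :
    ∃ u, (S.Ind j u ∧ S.Inj j' u) ∨ (S.Ind j' u ∧ S.Inj j u) := by
  by_cases ho : S.own j = S.own j'
  · by_cases hb : S.bn j = true
    · have hb' : ¬ S.bn j' = true := fun hb' => hne (h.hbn1 j j' hb hb' ho)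
      exact ⟨_, Or.inr ⟨ind_of (ho ▸ h.own_ne hb) fun e => absurd e hb', inj_pr h hb⟩⟩
    · have hb' : S.bn j' = true := by
        by_contra hb'
        exact ht ⟨ho, by simpa using hb, by simpa using hb'⟩
      exact ⟨_, Or.inl ⟨ind_of (by rw [ho]; exact h.own_ne hb') fun e => absurd e hb, inj_pr h hb'⟩⟩
  · rcases le_total (S.dep (S.own j)) (S.dep (S.own j')) with hd | hd
    · refine ⟨_, Or.inl ⟨ind_of ho fun hb e => ?_, inj_own h j'⟩⟩
      have := (h.hbn j hb).1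
      rw [e] at this; omega
    · refine ⟨_, Or.inr ⟨ind_of (Ne.symm ho) fun hb e => ?_, inj_own h j⟩⟩
      have := (h.hbn j' hb).1
      rw [e] at this; omega

lemma one_div_F (h : S.Ok K ρ1 ρ lam) (u : N) {a : ℝ} (ha : 0 ≤ a) :
    a / ((S.F u).card : ℝ) ≤ a / (ρ * Fintype.card G) := by
  have hm : (0 : ℝ) < Fintype.card G := by exact_mod_cast Fintype.card_pos
  have := h.ρpos
  have := h.hF u
  gcongr

lemma P_val' (h : S.Ok K ρ1 ρ lam) (j : J) (y : G) :
    (mu S.F h.ne).E (fun x => ind (S.val j x = y)) ≤ 1 / ((S.F (S.own j)).card : ℝ) := by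
  have := pivot S.F h.ne (S.own j) (fun x => S.val j x = y) (fun _ => 1) (fun _ => by norm_num)
    (fun _ _ => rfl) (fun x a b ha hb => inj_own h j x a b (ha.trans hb.symm))
  simpa [FP.E_const] using this

lemma P_val (h : S.Ok K ρ1 ρ lam) (j : J) (y : G) :
    (mu S.F h.ne).E (fun x => ind (S.val j x = y)) ≤ 1 / (ρ * Fintype.card G) :=
  (P_val' h j y).trans (one_div_F h _ (by norm_num))

lemma P_val2_aux (h : S.Ok K ρ1 ρ lam) {j j' : J} {u : N} (h1 : S.Ind j u) (h2 : S.Inj j' u)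
    (y y' : G) : (mu S.F h.ne).E (fun x => ind (S.val j x = y ∧ S.val j' x = y')) ≤
      1 / (ρ * Fintype.card G) ^ 2 := by
  have := pivot S.F h.ne u (fun x => S.val j' x = y') (fun x => ind (S.val j x = y))
    (fun _ => ind_nonneg _) (fun x b => by rw [h1 x b])
    (fun x a b ha hb => h2 x a b (ha.trans hb.symm))
  simp only [ind_and]
  refine this.trans ((one_div_F h u (FP.pos _ _ fun _ => ind_nonneg _)).trans ?_)
  have hm : (0 : ℝ) < Fintype.card G := by exact_mod_cast Fintype.card_pos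
  have := h.ρpos
  rw [sq, ← div_div 1]
  exact div_le_div_of_nonneg_right (P_val h j y) (mul_pos this hm).le

lemma P_val2 (h : S.Ok K ρ1 ρ lam) {j j' : J} (hne : j ≠ j') (ht : ¬ S.Tied j j') (y y' : G) :
    (mu S.F h.ne).E (fun x => ind (S.val j x = y ∧ S.val j' x = y')) ≤
      1 / (ρ * Fintype.card G) ^ 2 := by
  obtain ⟨u, ⟨h1, h2⟩ | ⟨h1, h2⟩⟩ := piv h hne ht
  · exact P_val2_aux h h1 h2 y y'
  · simpa only [and_comm] using P_val2_aux h h1 h2 y' y

lemma P_eq_aux (h : S.Ok K ρ1 ρ lam) {j j' : J} {u : N} (h1 : S.Ind j u) (h2 : S.Inj j' u) :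
    (mu S.F h.ne).E (fun x => ind (S.val j x = S.val j' x)) ≤ 1 / (ρ * Fintype.card G) := by
  have := pivot S.F h.ne u (fun x => S.val j x = S.val j' x) (fun _ => 1) (fun _ => by norm_num)
    (fun _ _ => rfl) (fun x a b ha hb => h2 x a b (by rw [← ha, ← hb, h1, h1]))
  simp only [one_mul, FP.E_const] at this
  exact this.trans (one_div_F h _ (by norm_num))

lemma P_eq (h : S.Ok K ρ1 ρ lam) {j j' : J} (hne : j ≠ j') (ht : ¬ S.Tied j j') :
    (mu S.F h.ne).E (fun x => ind (S.val j x = S.val j' x)) ≤ 1 / (ρ * Fintype.card G) := by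
  obtain ⟨u, ⟨h1, h2⟩ | ⟨h1, h2⟩⟩ := piv h hne ht
  · exact P_eq_aux h h1 h2
  · simpa only [eq_comm] using P_eq_aux h h1 h2

lemma P_deg (h : S.Ok K ρ1 ρ lam) (Q : ι) :
    (mu S.F h.ne).E (fun x => ind (¬ S.ND Q x)) ≤ K ^ 2 * (1 / (ρ * Fintype.card G)) := by
  have hm : (0 : ℝ) < Fintype.card G := by exact_mod_cast Fintype.card_pos
  have hρ := h.ρpos
  calc _ ≤ (mu S.F h.ne).E (fun x => ∑ z ∈ (S.Jq Q ×ˢ S.Jq Q),
        ind (z.1 ≠ z.2 ∧ S.cls z.1 = S.cls z.2 ∧ S.val z.1 x = S.val z.2 x)) := by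
        refine FP.E_mono _ fun x => le_trans (ind_mono fun hn => ?_) (ind_exists_le _ _)
        unfold ND at hn
        push Not at hn
        obtain ⟨j, hj, j', hj', a, b, c⟩ := hn
        exact ⟨(j, j'), mem_product.2 ⟨hj, hj'⟩, c, a, b⟩
    _ ≤ ∑ _z ∈ (S.Jq Q ×ˢ S.Jq Q), 1 / (ρ * Fintype.card G) := by
        rw [FP.E_sum]
        refine sum_le_sum fun z _ => ?_
        by_cases hz : z.1 ≠ z.2 ∧ S.cls z.1 = S.cls z.2
        · refine le_trans (FP.E_mono _ fun x => ind_mono fun hh => hh.2.2)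
            (P_eq h hz.1 fun ht => (h.htie _ _ hz.1 ht).1 hz.2)
        · refine FP.E_le _ fun x => ?_
          rw [ind_false fun hh => hz ⟨hh.1, hh.2.1⟩]; positivity
    _ ≤ _ := by
        rw [sum_const, card_product, nsmul_eq_mul]
        have : ((S.Jq Q).card : ℝ) ≤ K := by exact_mod_cast h.hK Q
        push_cast
        rw [sq]
        gcongr

end Sys

end

end Pool.Agent.Lib.MP_5cebc8_co
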