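import Pool.Agent.Lib.MP_5cebc8_co.Defs
import Pool.Agent.Lib.MP_5cebc8_co.Classes
import Pool.Agent.Lib.MP_5cebc8_co.Embed0

open Finset
open Pool.Agent.Lib.MP_ad359d_co

namespace Pool.Agent.Lib.MP_5cebc8_co

set_option linter.unusedSectionVars false

noncomputable section

instance {Own : Type} : DecidableEq (Cn Own) := Classical.decEq _
instance {Own : Type} [Fintype Own] : Fintype (Cn Own) := Fintype.ofInjective Cl.code Cl.code_inj

/-- the combinatorial data on the tree -/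
structure Pre (V : Type) where
  T : RT V
  Hg : Finset V
  R : Finset V
  Sp : Finset V
  Vt : Finset V
  cp : V → V
  π : V → V
  o : V → ℕ
  wd : ℕ
  s0 : Bool
  K : ℕ

namespace Pre

variable {V : Type} [Fintype V] [DecidableEq V] (P : Pre V)

abbrev Own : Type := P.Hg × Bool

def ls (w : P.Own) : Bool := !P.T.sd w.1

/-- the vertices that receive a random label -/
def N0 : Finset V := univ.filter (fun v => v ∉ P.R ∧ P.π v = v)

/-- the vertex has a neighbour in `R` outside `Hg` -/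
def anch (v : V) : Prop :=
  (P.T.par v ∈ P.R ∧ P.T.par v ∉ P.Hg) ∨ ∃ c ∈ P.R, c ≠ P.T.root ∧ P.T.par c = v

open Classical in
/-- the neighbour in `R` -/
def an (v : V) : V :=
  if P.T.par v ∈ P.R then P.T.par v
  else if h : ∃ c ∈ P.R, c ≠ P.T.root ∧ P.T.par c = v then Classical.choose h else v

open Classical in
def N1 : Finset V := P.N0.filter P.anch

def N2 : Finset V := P.N0.filter (fun v => P.T.par v ∉ P.R)

/-- the label class of a vertex -/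
def tau (v : V) : Cn P.Own :=
  if h : P.T.par v ∈ P.Hg then .own (⟨P.T.par v, h⟩, decide (v ∈ P.Sp))
  else if v ∈ P.Sp then .uu (P.T.sd v) else .lb (P.T.sd v)

/-- the slots -/
abbrev J : Type := P.N0 ⊕ P.N1 ⊕ P.N2

def cls : P.J → Cn P.Own
  | .inl v => P.tau v
  | .inr (.inl _) => .cc
  | .inr (.inr v) => if (v : V) ∈ P.Vt then .dd else .cc

def own : P.J → V
  | .inl v => v
  | .inr (.inl v) => v
  | .inr (.inr v) => v

def bn : P.J → Bool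
  | .inl _ => false
  | .inr (.inl _) => false
  | .inr (.inr _) => true

/-- the number of slots of a class -/
def cc (τ : Cn P.Own) : ℕ := (univ.filter (fun j => P.cls j = τ)).card

def cp' (v : V) : V := if v ∈ P.R then v else P.cp v

variable {m : ℕ} [NeZero m] (A : Cn P.Own → Finset (ZMod m)) (p : Cn P.Own → ℝ) (z : V → ZMod m)

def off : P.J → ZMod m
  | .inl _ => 0
  | .inr (.inl v) => z (P.an v)
  | .inr (.inr v) => (P.o (P.T.par v) : ZMod m)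

def Cl : Cn P.Own → Finset (ZMod m)
  | .own w => univ.filter (fun x => x + z w.1 ∈ A (.own w))
  | a => A a

def F (v : V) : Finset (ZMod m) :=
  if v ∈ P.N1 then (P.Cl A z (P.tau v)).filter (fun x => x + z (P.an v) ∈ A .cc)
  else if v ∈ P.N0 then P.Cl A z (P.tau v) else univ

/-- the density of the label set -/
def q (v : V) : ℝ := if v ∈ P.N1 then p (P.tau v) * p .cc else p (P.tau v)

def sys : Sys V P.J V (Cn P.Own) (ZMod m) where
  F := P.F A z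
  cp := P.cp'
  pr := fun v => P.π (P.T.par v)
  dep := P.T.dep
  own := P.own
  bn := P.bn
  off := P.off z
  cls := P.cls
  Cl := P.Cl A z
  p := p

/-- the structural hypotheses on the tree data -/
structure Ok (dg : ℝ) : Prop where
  cut : Cut P.T P.Hg P.R P.cp P.K dg
  tie : Tie P.T P.R P.cp P.Sp P.Vt P.π P.o P.wd P.s0

/-- the labelling of `R` -/
structure Zok (L0 : ℕ) (Ar : Finset (ZMod m)) (z : V → ZMod m) : Prop where
  pg : P.T.PG P.R z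
  hg : ∀ v ∈ P.Hg, (z v).val < L0
  lab : ∀ v ∈ P.R, v ∉ P.Hg → z v ∈ Ar
  col : ∀ v ∈ P.R, v ≠ P.T.root → P.T.par v ∈ P.R →
    (v ∈ P.Hg ∧ P.T.par v ∈ P.Hg) ∨ z v + z (P.T.par v) ∈ Ar

/-- the result of the embedding lemma -/
structure Emb (Cv : Finset V) (x : V → ZMod m) : Prop where
  h1 : ∀ v, P.cp' v ∈ Cv → x v ∈ P.F A z v
  h2 : ∀ j, P.cp' (P.own j) ∈ Cv → (P.sys A p z).val j x ∈ P.Cl A z (P.cls j)
  h3 : ∀ j j', P.cp' (P.own j) ∈ Cv → P.cp' (P.own j') ∈ Cv → P.cls j = P.cls j' →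
    (P.sys A p z).val j x = (P.sys A p z).val j' x → j = j'

/-- the covered vertices -/
def Cov (Cv : Finset V) : Finset V := univ.filter (fun v => v ∉ P.R ∧ P.cp v ∈ Cv)

/-- the labelling of `R` and of the covered vertices -/
def psi (x : V → ZMod m) (v : V) : ZMod m :=
  if v ∈ P.R then z v else x (P.π v) + (P.o v : ZMod m)

/-- properties of the labelling after the embedding lemma -/
structure Mid (L : ℕ) (tc : ZMod m → Fin 4 ⊕ P.Own) (Cov : Finset V) (ψ : V → ZMod m) : Prop where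
  notR : ∀ v ∈ Cov, v ∉ P.R
  onR : ∀ v ∈ P.R, ψ v = z v
  cov_par : ∀ v, v ∉ P.R → P.T.par v ∉ P.R → (v ∈ Cov ↔ P.T.par v ∈ Cov)
  cov_pi : ∀ v ∈ Cov, P.π v ∈ Cov
  lab : ∀ u ∈ P.R ∪ Cov, ∀ v ∈ P.R ∪ Cov, P.T.sd u = P.T.sd v → ψ u = ψ v → u = v
  labW : ∀ v ∈ Cov, ψ v ∉ A (.ww (P.T.sd v))
  col : ∀ u ∈ P.R ∪ Cov, ∀ v ∈ P.R ∪ Cov, u ≠ P.T.root → v ≠ P.T.root → P.T.par u ∈ P.R ∪ Cov →
    P.T.par v ∈ P.R ∪ Cov → ¬ Hid P.Vt P.π Cov u → ¬ Hid P.Vt P.π Cov v →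
    ψ u + ψ (P.T.par u) = ψ v + ψ (P.T.par v) → u = v
  colT : ∀ v ∈ P.R ∪ Cov, v ≠ P.T.root → P.T.par v ∈ P.R ∪ Cov → ¬ Hid P.Vt P.π Cov v →
    tc (ψ v + ψ (P.T.par v)) ≠ Sum.inl 1 ∨ ¬ far L (ψ v + ψ (P.T.par v))
  colD : ∀ v ∈ P.Vt, v ∈ Cov → ψ v + ψ (P.T.par v) ∈ A .dd
  colD_inj : ∀ u ∈ P.Vt, ∀ v ∈ P.Vt, u ∈ Cov → v ∈ Cov →
    ψ u + ψ (P.T.par u) = ψ v + ψ (P.T.par v) → u = v
  tie : ∀ v ∈ Cov, ψ v = ψ (P.π v) + (P.o v : ZMod m)
  cls : ∀ v ∈ Cov, P.π v = v → ψ v ∈ P.Cl A z (P.tau v)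

variable {P} {dg : ℝ}

lemma mem_N0 {v : V} : v ∈ P.N0 ↔ v ∉ P.R ∧ P.π v = v := by simp [N0]
lemma mem_N1 {v : V} : v ∈ P.N1 ↔ v ∈ P.N0 ∧ P.anch v := by
  classical
  simp [N1]
lemma mem_N2 {v : V} : v ∈ P.N2 ↔ v ∈ P.N0 ∧ P.T.par v ∉ P.R := by simp [N2]

lemma Ok.ne_root (h : P.Ok dg) {v : V} (hv : v ∉ P.R) : v ≠ P.T.root :=
  fun e => hv (e ▸ h.cut.root_mem)

lemma Ok.pi_pi (h : P.Ok dg) (v : V) : P.π (P.π v) = P.π v := by
  by_cases e : P.π v = v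
  · rw [e, e]
  · exact (h.tie.sp _ (h.tie.tied v e).2.1).2.2

lemma Ok.pi_N0 (h : P.Ok dg) {v : V} (hv : v ∉ P.R) : P.π v ∈ P.N0 := by
  refine mem_N0.2 ⟨?_, h.pi_pi v⟩
  by_cases e : P.π v = v
  · rw [e]; exact hv
  · exact (h.tie.sp _ (h.tie.tied v e).2.1).1

lemma Ok.cp_pi (h : P.Ok dg) (v : V) : P.cp (P.π v) = P.cp v := by
  by_cases e : P.π v = v
  · rw [e]
  · exact (h.tie.tied v e).2.2.2.2.2.2.1

lemma Ok.sd_pi (h : P.Ok dg) (v : V) : P.T.sd (P.π v) = P.T.sd v := by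
  by_cases e : P.π v = v
  · rw [e]
  · rw [(h.tie.tied v e).2.2.2.2.2.1, (h.tie.sp _ (h.tie.tied v e).2.1).2.1]

lemma Ok.o_le (h : P.Ok dg) (v : V) : P.o v ≤ 3 := by
  by_cases e : P.π v = v
  · rw [h.tie.o_zero v e]; omega
  · exact (h.tie.tied v e).2.2.2.2.1

lemma Ok.an_spec (h : P.Ok dg) {v : V} (hv : v ∈ P.N1) : P.an v ∈ P.R ∧ P.an v ∉ P.Hg ∧
    P.T.par v ∉ P.Hg ∧ ((P.T.par v ∈ P.R ∧ P.an v = P.T.par v) ∨
      (P.T.par v ∉ P.R ∧ P.an v ≠ P.T.root ∧ P.T.par (P.an v) = v)) := by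
  obtain ⟨h0, ha⟩ := mem_N1.1 hv
  have hR := (mem_N0.1 h0).1
  by_cases hp : P.T.par v ∈ P.R
  · have e : P.an v = P.T.par v := by simp [an, hp]
    have : P.T.par v ∉ P.Hg := by
      rcases ha with ha | ⟨c, a, b, d⟩
      · exact ha.2
      · exact absurd d (h.cut.no_both v hR hp c a b)
    exact ⟨e ▸ hp, e ▸ this, this, Or.inl ⟨hp, e⟩⟩
  · have hc : ∃ c ∈ P.R, c ≠ P.T.root ∧ P.T.par c = v := ha.resolve_left fun a => hp a.1
    have e : P.an v = Classical.choose hc := by simp only [an, hp, if_false, dif_pos hc]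
    obtain ⟨a, b, d⟩ := Classical.choose_spec hc
    rw [← e] at a b d
    exact ⟨a, fun hh => hR (d ▸ h.cut.par_Hg _ hh), fun hh => hp (h.cut.sub hh), Or.inr ⟨hp, b, d⟩⟩

lemma Ok.an_up {v : V} (hv : v ∈ P.N0) (hp : P.T.par v ∈ P.R) (hH : P.T.par v ∉ P.Hg) :
    v ∈ P.N1 ∧ P.an v = P.T.par v :=
  ⟨mem_N1.2 ⟨hv, Or.inl ⟨hp, hH⟩⟩, by simp [an, hp]⟩

lemma Ok.an_down (h : P.Ok dg) {c : V} (hc : c ∈ P.R) (hr : c ≠ P.T.root) (hp : P.T.par c ∉ P.R) :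
    P.T.par c ∈ P.N1 ∧ P.an (P.T.par c) = c := by
  have h1 : P.T.par c ∈ P.N1 := by
    refine mem_N1.2 ⟨mem_N0.2 ⟨hp, ?_⟩, Or.inr ⟨c, hc, hr, rfl⟩⟩
    by_contra e
    exact (h.tie.tied _ e).2.2.2.2.2.2.2.2.2 c hc hr rfl
  refine ⟨h1, ?_⟩
  obtain ⟨a, _, _, ⟨b, _⟩ | ⟨_, b, d⟩⟩ := h.an_spec h1
  · exact absurd rfl (h.cut.no_both _ hp b c hc hr)
  · exact h.cut.one_child _ hp _ a c hc b hr d rfl

lemma tau_of_not {v : V} (hv : P.T.par v ∉ P.Hg) :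
    P.tau v = if v ∈ P.Sp then .uu (P.T.sd v) else .lb (P.T.sd v) := by simp [tau, hv]

lemma tau_of_mem {v : V} (hv : P.T.par v ∈ P.Hg) :
    P.tau v = .own (⟨P.T.par v, hv⟩, decide (v ∈ P.Sp)) := by simp [tau, hv]

lemma Cl_of_not {v : V} (hv : P.T.par v ∉ P.Hg) : P.Cl A z (P.tau v) = A (P.tau v) := by
  rw [tau_of_not hv]; split_ifs <;> rfl

lemma F_sub {v : V} (hv : v ∈ P.N0) : P.F A z v ⊆ P.Cl A z (P.tau v) := by
  unfold F
  split_ifs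
  · exact filter_subset _ _
  · exact subset_rfl

end Pre

end

end Pool.Agent.Lib.MP_5cebc8_co
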