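import Pool.Agent.Lib.MP_5cebc8_co.Tree

open Finset

namespace Pool.Agent.Lib.MP_5cebc8_co

variable {V : Type} [Fintype V] [DecidableEq V]

/-- `R` cuts the tree into small pieces, `Hg` contains the vertices with many children -/
structure Cut (T : RT V) (Hg R : Finset V) (cp : V → V) (K : ℕ) (dg : ℝ) : Prop where
  root_mem : T.root ∈ R
  sub : Hg ⊆ R
  par_Hg : ∀ v ∈ Hg, T.par v ∈ R
  cp_par : ∀ v, v ∉ R → T.par v ∉ R → cp (T.par v) = cp v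
  cp_card : ∀ t, (univ.filter (fun u => u ∉ R ∧ cp u = t)).card ≤ K
  one_child : ∀ v, v ∉ R → ∀ c ∈ R, ∀ c' ∈ R, c ≠ T.root → c' ≠ T.root → T.par c = v →
    T.par c' = v → c = c'
  no_both : ∀ v, v ∉ R → T.par v ∈ R → ∀ c ∈ R, c ≠ T.root → T.par c ≠ v
  one_child_Hg : ∀ v, v ∉ Hg → ∀ c ∈ Hg, ∀ c' ∈ Hg, c ≠ T.root → c' ≠ T.root → T.par c = v →
    T.par c' = v → c = c'
  deg : ∀ v, v ∉ Hg → ((univ.filter (fun c => c ≠ T.root ∧ T.par c = v)).card : ℝ) ≤ dg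

/-- special vertices `Sp`, virtual leaves `Vt`, and vertices `v` tied to `π v` with offset `o v` -/
structure Tie (T : RT V) (R : Finset V) (cp : V → V) (Sp Vt : Finset V) (π : V → V) (o : V → ℕ)
    (wd : ℕ) (s0 : Bool) : Prop where
  wd12 : wd = 1 ∨ wd = 2
  sp : ∀ p ∈ Sp, p ∉ R ∧ T.sd p = s0 ∧ π p = p
  vt : ∀ v ∈ Vt, v ∉ R ∧ π v = v ∧ T.par v ∉ R ∧ π (T.par v) ∈ Sp
  o_zero : ∀ v, π v = v → o v = 0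
  tied : ∀ v, π v ≠ v → wd = 2 ∧ π v ∈ Sp ∧ v ∉ R ∧ 1 ≤ o v ∧ o v ≤ 3 ∧ T.sd v = s0 ∧
    cp (π v) = cp v ∧ T.dep (π v) ≤ T.dep v ∧ T.par v ∈ Vt ∧ ∀ c ∈ R, c ≠ T.root → T.par c ≠ v
  inj : ∀ u v, π u = π v → o u = o v → u = v
  two : wd = 2 → (∀ p ∈ Sp, T.par p ∉ R) ∧ ∀ v ∈ Vt, ∃ c, c ≠ T.root ∧ T.par c = v ∧ π c ≠ c

/-- special parents with a leaf -/
structure LeafA (T : RT V) (R Sp : Finset V) (l : V → V) (s0 : Bool) : Prop where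
  sp : ∀ p ∈ Sp, p ∉ R ∧ T.sd p = s0 ∧ l p ∉ R ∧ l p ≠ T.root ∧ T.par (l p) = p ∧ ¬ T.Inner (l p)

/-- bare paths starting at the special vertices -/
structure PathB (T : RT V) (R Sp : Finset V) (q : V → ℕ → V) (s0 : Bool) : Prop where
  q0 : ∀ p ∈ Sp, q p 0 = p ∧ T.sd p = s0 ∧ T.par p ∉ R
  qpar : ∀ p ∈ Sp, ∀ i, i < 7 → q p (i + 1) ≠ T.root ∧ T.par (q p (i + 1)) = q p i
  quniq : ∀ p ∈ Sp, ∀ i, i < 7 → ∀ c, c ≠ T.root → T.par c = q p i → c = q p (i + 1)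
  qR : ∀ p ∈ Sp, ∀ i, i ≤ 7 → q p i ∉ R
  qinj : ∀ p ∈ Sp, ∀ p' ∈ Sp, ∀ i i', i ≤ 7 → i' ≤ 7 → q p i = q p' i' → p = p' ∧ i = i'

/-- the edge from `v` to its parent is hidden -/
def Hid (Vt : Finset V) (π : V → V) (Cov : Finset V) (v : V) : Prop :=
  v ∈ Cov ∧ (v ∈ Vt ∨ π v ≠ v)

open Classical in
/-- the result of the approximate stage -/
structure Out (T : RT V) (R Sp Vt : Finset V) (π : V → V) (o : V → ℕ) (wd : ℕ) (s0 : Bool)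
    (κ θ : ℝ) {m : ℕ} [NeZero m] (X : Finset (ZMod m)) (ψ : V → ZMod m) (Cov : Finset V)
    (D : Finset (ZMod m)) (W : Bool → Finset (ZMod m)) : Prop where
  cov_par : ∀ v, v ∉ R → T.par v ∉ R → (v ∈ Cov ↔ T.par v ∈ Cov)
  lab : ∀ u v, T.sd u = T.sd v → ψ u = ψ v → u = v
  col : ∀ u v, u ≠ T.root → v ≠ T.root → ¬ Hid Vt π Cov u → ¬ Hid Vt π Cov v →
    ψ u + ψ (T.par u) = ψ v + ψ (T.par v) → u = v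
  colD : ∀ v ∈ Vt, v ∈ Cov → ψ v + ψ (T.par v) ∈ D
  colD_inj : ∀ u ∈ Vt, ∀ v ∈ Vt, u ∈ Cov → v ∈ Cov →
    ψ u + ψ (T.par u) = ψ v + ψ (T.par v) → u = v
  pair : wd = 2 → ∀ d ∈ D, d + 1 ∉ D
  tie : ∀ v ∈ Cov, ψ v = ψ (π v) + (o v : ZMod m)
  hit : ((D.filter (fun d => ∃ v, v ≠ T.root ∧ ¬ Hid Vt π Cov v ∧
    (ψ v + ψ (T.par v) = d ∨ ψ v + ψ (T.par v) = d + 1))).card : ℝ) ≤ θ * m
  free : ∀ v, ψ v ∉ W (T.sd v)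
  unc : ((univ.filter (fun v => v ∉ R ∧ v ∉ Cov)).card : ℝ) ≤ θ * m
  cardD : (D.card : ℝ) ≤ Vt.card + θ * m
  cardD' : κ / 2 * m ≤ (D.card : ℝ)
  X0 : (0 : ZMod m) ∈ X
  Xs : ∀ h ∈ X, -h ∈ X
  cardX : (X.card : ℝ) ≤ θ * m
  deg1 : ∀ p ∈ Sp, p ∈ Cov → ∀ i : ℕ, i ≤ 2 →
    κ / 100 * m ≤ ((D.filter (fun d => d - (ψ p + (i : ZMod m)) ∈ W (!s0))).card : ℝ)
  deg2 : ∀ d : ZMod m,
    κ / 100 * m ≤ ((Sp.filter (fun p => p ∈ Cov ∧ d - ψ p ∈ W (!s0))).card : ℝ)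
  mix : ∀ A B : Finset (ZMod m), (A.card : ℝ) * B.card / 25 - θ * (m : ℝ) ^ 2 ≤
    (((A ×ˢ B).filter (fun z => z.2 - z.1 ∈ W (!s0))).card : ℝ)
  hu : wd = 2 → ∀ c s1 s2 : ZMod m, s1 ∉ X → s2 ∉ X → s1 - s2 ∉ X →
    κ ^ 2 / 10000 * m ≤ ((Sp.filter (fun p => p ∈ Cov ∧ ψ p + s1 ∈ W s0 ∧ ψ p + s2 ∈ W s0 ∧
      c - ψ p ∈ W (!s0))).card : ℝ)
  hd : ∀ s1 s2 s3 : ZMod m, s1 ∉ X → s2 ∉ X → s3 ∉ X → s1 - s2 ∉ X → s1 - s3 ∉ X → s2 - s3 ∉ X →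
    κ ^ 2 / 10000 * m ≤
      ((D.filter (fun d => d + s1 ∈ D ∧ d + s2 ∈ W (!s0) ∧ d + s3 ∈ W (!s0))).card : ℝ)

end Pool.Agent.Lib.MP_5cebc8_co
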