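import Mathlib
import Pool.Agent.Lib.MP_ad359d_co.Prob

/-! Fractional nibble: small codegrees give an almost perfect weighted matching. -/

open Finset

namespace Pool.Agent.Lib.MP_5cebc8_co

namespace Nib

open Pool.Agent.Lib.MP_ad359d_co

noncomputable section

lemma sum_filter_ind {I : Type} [Fintype I] (p : I → Prop) [DecidablePred p] (f : I → ℝ) :
    ∑ i ∈ univ.filter p, f i = ∑ i, ind (p i) * f i := by
  rw [sum_filter]
  exact sum_congr rfl fun i _ => by by_cases h : p i <;> simp [ind, h]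

lemma sum_mem_ind {U : Type} [Fintype U] (A : Finset U) (f : U → ℝ) :
    ∑ a ∈ A, f a = ∑ a, ind (a ∈ A) * f a := by
  classical
  rw [← sum_filter_ind (fun a => a ∈ A) f]
  congr 1
  ext a; simp

lemma one_sub_sum_le {α : Type} (s : Finset α) (x : α → ℝ) (h0 : ∀ a ∈ s, 0 ≤ x a)
    (h1 : ∀ a ∈ s, x a ≤ 1) : 1 - ∑ a ∈ s, x a ≤ ∏ a ∈ s, (1 - x a) := by
  classical
  induction s using Finset.induction_on with
  | empty => simp
  | insert a s ha ih =>
    rw [sum_insert ha, prod_insert ha]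
    have ih' := ih (fun b hb => h0 b (mem_insert_of_mem hb)) (fun b hb => h1 b (mem_insert_of_mem hb))
    have a0 := h0 a (mem_insert_self _ _)
    have a1 := h1 a (mem_insert_self _ _)
    have s0 : 0 ≤ ∑ b ∈ s, x b := sum_nonneg fun b hb => h0 b (mem_insert_of_mem hb)
    have := mul_le_mul_of_nonneg_left ih' (sub_nonneg.2 a1)
    nlinarith [mul_nonneg a0 s0]

lemma exists_ge_E {Ω : Type} [Finite Ω] (μ : FP Ω) (f : Ω → ℝ) : ∃ ω, μ.E f ≤ f ω := by
  have := μ.nonempty
  obtain ⟨ω, hω⟩ := Finite.exists_max f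
  exact ⟨ω, μ.E_le hω⟩

section Sys

variable {I U : Type} [Fintype I] [Fintype U] [DecidableEq I] [DecidableEq U]

/-- total weight at a vertex -/
def load (e : I → Finset U) (w : I → ℝ) (a : U) : ℝ := ∑ i, ind (a ∈ e i) * w i

/-- total overload -/
def exc (e : I → Finset U) (w : I → ℝ) : ℝ := ∑ a, max (load e w a - 1) 0

/-- all codegrees are at most `δ` -/
def Cod (e : I → Finset U) (w : I → ℝ) (δ : ℝ) : Prop :=
  ∀ a b, a ≠ b → ∑ i, ind (a ∈ e i ∧ b ∈ e i) * w i ≤ δ

omit [Fintype U] [DecidableEq I] [DecidableEq U] in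
lemma load_nonneg (e : I → Finset U) {w : I → ℝ} (hw : ∀ i, 0 ≤ w i) (a : U) : 0 ≤ load e w a :=
  sum_nonneg fun i _ => mul_nonneg (ind_nonneg _) (hw i)

omit [Fintype U] [DecidableEq I] [DecidableEq U] in
lemma load_mono (e : I → Finset U) {w w' : I → ℝ} (hw : ∀ i, w i ≤ w' i) (a : U) :
    load e w a ≤ load e w' a :=
  sum_le_sum fun i _ => mul_le_mul_of_nonneg_left (hw i) (ind_nonneg _)

omit [Fintype U] [DecidableEq I] [DecidableEq U] in
lemma Cod.mono {e : I → Finset U} {w w' : I → ℝ} {δ δ' c : ℝ} (h : Cod e w δ) (hc : 0 ≤ c)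
    (hw : ∀ i, w' i ≤ c * w i) (hδ : c * δ ≤ δ') : Cod e w' δ' := by
  intro a b hab
  calc ∑ i, ind (a ∈ e i ∧ b ∈ e i) * w' i ≤ ∑ i, c * (ind (a ∈ e i ∧ b ∈ e i) * w i) :=
        sum_le_sum fun i _ => by
          have := mul_le_mul_of_nonneg_left (hw i) (ind_nonneg (a ∈ e i ∧ b ∈ e i))
          linarith
    _ = c * ∑ i, ind (a ∈ e i ∧ b ∈ e i) * w i := by rw [mul_sum]
    _ ≤ c * δ := mul_le_mul_of_nonneg_left (h a b hab) hc
    _ ≤ δ' := hδ

omit [Fintype U] [DecidableEq I] [DecidableEq U] in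
lemma le_load (e : I → Finset U) {w : I → ℝ} (hw : ∀ i, 0 ≤ w i) {i : I} {a : U} (h : a ∈ e i) :
    w i ≤ load e w a := by
  calc w i = ind (a ∈ e i) * w i := by rw [ind_true h, one_mul]
    _ ≤ _ := single_le_sum (f := fun i => ind (a ∈ e i) * w i)
        (fun j _ => mul_nonneg (ind_nonneg _) (hw j)) (mem_univ i)

omit [Fintype U] [DecidableEq I] [DecidableEq U] in
lemma meet_le (e : I → Finset U) {f : I → ℝ} (hf : ∀ i, 0 ≤ f i) (A : Finset U) :
    ∑ i, ind (¬ Disjoint (e i) A) * f i ≤ ∑ v ∈ A, load e f v := by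
  unfold load
  rw [sum_comm]
  refine sum_le_sum fun i _ => ?_
  rw [← sum_mul]
  refine mul_le_mul_of_nonneg_right ?_ (hf i)
  refine le_trans (ind_mono ?_) (ind_exists_le A (fun v => v ∈ e i))
  intro h
  obtain ⟨a, ha, hb⟩ := not_disjoint_iff.1 h
  exact ⟨a, hb, ha⟩

omit [Fintype U] [DecidableEq I] in
lemma le_meet (e : I → Finset U) {f : I → ℝ} (hf : ∀ i, 0 ≤ f i) {δ : ℝ} (hδ : 0 ≤ δ)
    (hc : Cod e f δ) (A : Finset U) :
    ∑ v ∈ A, load e f v ≤ ∑ i, ind (¬ Disjoint (e i) A) * f i + (#A : ℝ) ^ 2 * δ := by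
  have key : ∀ i, ∑ v ∈ A, ind (v ∈ e i) ≤ ind (¬ Disjoint (e i) A)
      + ∑ a ∈ A, ∑ b ∈ A.erase a, ind (a ∈ e i ∧ b ∈ e i) := by
    intro i
    have hn : ∀ a ∈ A, 0 ≤ ∑ b ∈ A.erase a, ind (a ∈ e i ∧ b ∈ e i) :=
      fun a _ => sum_nonneg fun b _ => ind_nonneg _
    by_cases h : Disjoint (e i) A
    · rw [sum_eq_zero fun v hv => ind_false (disjoint_right.1 h hv)]
      exact add_nonneg (ind_nonneg _) (sum_nonneg hn)
    · obtain ⟨a, ha, hb⟩ := not_disjoint_iff.1 h
      rw [ind_true h, ← add_sum_erase A _ hb, ind_true ha]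
      have h1 := single_le_sum (f := fun a => ∑ b ∈ A.erase a, ind (a ∈ e i ∧ b ∈ e i)) hn hb
      have h2 : ∑ x ∈ A.erase a, ind (x ∈ e i) = ∑ b ∈ A.erase a, ind (a ∈ e i ∧ b ∈ e i) :=
        sum_congr rfl fun b _ => ind_congr (by simp [ha])
      linarith
  have h3 : ∑ i, (∑ a ∈ A, ∑ b ∈ A.erase a, ind (a ∈ e i ∧ b ∈ e i)) * f i ≤ (#A : ℝ) ^ 2 * δ := by
    simp only [sum_mul]
    rw [sum_comm]
    calc ∑ a ∈ A, ∑ i, ∑ b ∈ A.erase a, ind (a ∈ e i ∧ b ∈ e i) * f i
        ≤ ∑ _a ∈ A, (#A : ℝ) * δ := by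
          refine sum_le_sum fun a _ => ?_
          rw [sum_comm]
          calc _ ≤ ∑ _b ∈ A.erase a, δ := sum_le_sum fun b hb => hc a b (ne_of_mem_erase hb).symm
            _ = (#(A.erase a) : ℝ) * δ := by rw [sum_const, nsmul_eq_mul]
            _ ≤ _ := mul_le_mul_of_nonneg_right (by exact_mod_cast card_erase_le) hδ
      _ = _ := by rw [sum_const, nsmul_eq_mul]; ring
  unfold load
  rw [sum_comm]
  calc ∑ i, ∑ v ∈ A, ind (v ∈ e i) * f i
      ≤ ∑ i, (ind (¬ Disjoint (e i) A) * f i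
          + (∑ a ∈ A, ∑ b ∈ A.erase a, ind (a ∈ e i ∧ b ∈ e i)) * f i) := by
        refine sum_le_sum fun i _ => ?_
        rw [← sum_mul, ← add_mul]
        exact mul_le_mul_of_nonneg_right (key i) (hf i)
    _ ≤ _ := by rw [sum_add_distrib]; linarith

/-- the standing hypotheses on a weighted system -/
structure Hyp (K : ℕ) (e : I → Finset U) (w g : I → ℝ) (S : Finset U) (δ : ℝ) : Prop where
  w0 : ∀ i, 0 ≤ w i
  g0 : ∀ i, 0 ≤ g i
  g1 : ∀ i, g i ≤ 1
  ne : ∀ i, (e i).Nonempty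
  cd : ∀ i, (e i).card ≤ K
  sub : ∀ i, 0 < w i → e i ⊆ S
  cod : Cod e w δ

/-- a matching in the support of `w` with value at least `x` -/
def Mat (e : I → Finset U) (w g : I → ℝ) (x : ℝ) : Prop :=
  ∃ M : Finset I, (∀ i ∈ M, 0 < w i) ∧ (∀ i ∈ M, ∀ j ∈ M, i ≠ j → Disjoint (e i) (e j)) ∧
    x ≤ ∑ i ∈ M, g i

omit [DecidableEq I] [DecidableEq U] in
lemma trim {K : ℕ} {e : I → Finset U} {w g : I → ℝ} {S : Finset U} {δ : ℝ}
    (h : Hyp K e w g S δ) : ∃ w2 : I → ℝ, Hyp K e w2 g S δ ∧ (∀ i, w2 i ≤ w i) ∧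
      (∀ a, load e w2 a ≤ 1) ∧ ∑ i, (w i - w2 i) ≤ exc e w := by
  set r : U → ℝ := fun a => 1 / max 1 (load e w a) with hr
  have hm : ∀ a, 0 < max 1 (load e w a) := fun a => lt_max_of_lt_left one_pos
  have r0 : ∀ a, 0 ≤ r a := fun a => (one_div_pos.2 (hm a)).le
  have r1 : ∀ a, r a ≤ 1 := fun a => (div_le_one (hm a)).2 (le_max_left _ _)
  have hle : ∀ i, w i * ∏ a ∈ e i, r a ≤ w i := fun i =>
    mul_le_of_le_one_right (h.w0 i) (prod_le_one (fun a _ => r0 a) fun a _ => r1 a)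
  refine ⟨fun i => w i * ∏ a ∈ e i, r a, ⟨fun i => mul_nonneg (h.w0 i) (prod_nonneg fun a _ => r0 a),
    h.g0, h.g1, h.ne, h.cd, fun i hi => h.sub i (lt_of_lt_of_le hi (hle i)),
    h.cod.mono zero_le_one (fun i => by simpa using hle i) (by simp)⟩, hle, ?_, ?_⟩
  · intro a
    classical
    calc load e (fun i => w i * ∏ a ∈ e i, r a) a ≤ ∑ i, ind (a ∈ e i) * w i * r a := by
          refine sum_le_sum fun i _ => ?_
          by_cases ha : a ∈ e i
          · rw [ind_true ha, one_mul, one_mul]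
            refine mul_le_mul_of_nonneg_left ?_ (h.w0 i)
            rw [← mul_prod_erase _ _ ha]
            exact mul_le_of_le_one_right (r0 a) (prod_le_one (fun a _ => r0 a) fun a _ => r1 a)
          · rw [ind_false ha]; simp
      _ = load e w a * r a := by rw [← sum_mul]; rfl
      _ ≤ 1 := by
          simp only [hr]
          rw [mul_one_div, div_le_one (hm a)]
          exact le_max_right _ _
  · calc ∑ i, (w i - w i * ∏ a ∈ e i, r a) ≤ ∑ i, ∑ a, ind (a ∈ e i) * w i * (1 - r a) := by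
          refine sum_le_sum fun i _ => ?_
          have h1 := one_sub_sum_le (e i) (fun a => 1 - r a) (fun a _ => sub_nonneg.2 (r1 a))
            (fun a _ => by have := r0 a; linarith)
          simp only [sub_sub_cancel] at h1
          rw [sum_mem_ind] at h1
          have h2 : ∑ a, ind (a ∈ e i) * w i * (1 - r a) = w i * ∑ a, ind (a ∈ e i) * (1 - r a) := by
            rw [mul_sum]; exact sum_congr rfl fun a _ => by ring
          rw [h2]
          have := mul_le_mul_of_nonneg_left h1 (h.w0 i)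
          linarith
      _ = ∑ a, load e w a * (1 - r a) := by
          rw [sum_comm]; exact sum_congr rfl fun a _ => by rw [← sum_mul]; rfl
      _ ≤ exc e w := by
          refine sum_le_sum fun a _ => ?_
          simp only [hr]
          rcases le_total (load e w a) 1 with h1 | h1
          · rw [max_eq_left h1]; simp
          · rw [max_eq_right h1]
            have : load e w a ≠ 0 := by linarith
            rw [mul_sub, mul_one, mul_one_div_cancel this]
            exact le_max_left _ _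

/-- the coins that must fail for the set `A` to survive -/
def Rel (e : I → Finset U) (A : Finset U) : I ⊕ U → Prop :=
  Sum.elim (fun i => ¬ Disjoint (e i) A) (fun v => v ∈ A)

/-- the set `A` survives -/
def surv (e : I → Finset U) (A : Finset U) (ω : I ⊕ U → Bool) : Prop :=
  ∀ x, Rel e A x → ω x = false

/-- edge `i` is selected and isolated -/
def iso (e : I → Finset U) (i : I) (ω : I ⊕ U → Bool) : Prop :=
  ω (Sum.inl i) = true ∧ ∀ j, j ≠ i → ¬ Disjoint (e j) (e i) → ω (Sum.inl j) = false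

omit [Fintype I] [Fintype U] [DecidableEq I] [DecidableEq U] in
lemma surv_mono (e : I → Finset U) {A B : Finset U} (h : A ⊆ B) {ω : I ⊕ U → Bool}
    (hs : surv e B ω) : surv e A ω := by
  intro x hx
  apply hs x
  cases x with
  | inl i => exact fun hd => hx (hd.mono_right h)
  | inr v => exact h hx

omit [Fintype I] [Fintype U] [DecidableEq I] in
lemma surv_union (e : I → Finset U) {A B : Finset U} {ω : I ⊕ U → Bool}
    (hA : surv e A ω) (hB : surv e B ω) : surv e (A ∪ B) ω := by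
  intro x hx
  cases x with
  | inl i =>
    have hx' : ¬ Disjoint (e i) (A ∪ B) := hx
    rw [disjoint_union_right, not_and_or] at hx'
    rcases hx' with h | h
    · exact hA _ h
    · exact hB _ h
  | inr v =>
    have hx' : v ∈ A ∪ B := hx
    rcases mem_union.1 hx' with h | h
    · exact hA _ h
    · exact hB _ h

lemma coin_false {μ : FP Bool} {ρ : ℝ} (h : μ.P (fun b => b = true) = ρ) (C : Prop) :
    μ.P (fun b => C → b = false) = 1 - ind C * ρ := by
  by_cases hC : C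
  · rw [ind_true hC, one_mul, ← h, ← μ.P_not]
    exact μ.P_congr fun b => by simp [hC]
  · rw [ind_false hC, zero_mul, sub_zero]
    exact μ.P_true fun b h => absurd h hC

/-- the probability space of one nibble -/
lemma space {K : ℕ} {e : I → Finset U} {w g : I → ℝ} {S : Finset U} {δ ε : ℝ}
    (h : Hyp K e w g S δ) (hδ : 0 ≤ δ) (hl : ∀ a, load e w a ≤ 1) (hε0 : 0 < ε) (hε : ε ≤ 1 / 2) :
    ∃ μ : FP (I ⊕ U → Bool),
      (∀ A, (1 - ε) ^ #A ≤ μ.P (surv e A)) ∧
      (∀ A, μ.P (surv e A) ≤ (1 - ε) ^ #A * Real.exp ((#A : ℝ) ^ 2 * δ)) ∧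
      (∀ i, ε * w i * (1 - ε * K) ≤ μ.P (iso e i)) := by
  have w1 : ∀ i, w i ≤ 1 := fun i => by
    obtain ⟨a, ha⟩ := h.ne i
    exact (le_load e h.w0 ha).trans (hl a)
  have x0 : ∀ i, 0 ≤ ε * w i := fun i => mul_nonneg hε0.le (h.w0 i)
  have x1 : ∀ i, ε * w i ≤ 1 / 2 := fun i =>
    (mul_le_of_le_one_right hε0.le (w1 i)).trans hε
  set l : I → ℝ := fun i => - Real.log (1 - ε * w i) with hl'
  have l1 : ∀ i, Real.exp (- l i) = 1 - ε * w i := fun i => by
    simp only [hl', neg_neg]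
    exact Real.exp_log (by have := x1 i; linarith)
  have l0 : ∀ i, 0 ≤ l i := fun i => by
    simp only [hl']
    exact neg_nonneg.2 (Real.log_nonpos (by have := x1 i; linarith) (by have := x0 i; linarith))
  have l2 : ∀ i, l i ≤ w i := fun i => by
    simp only [hl']
    have hp : 0 < 1 - ε * w i := by have := x1 i; linarith
    have h1 := Real.one_sub_inv_le_log_of_pos hp
    have h2 : (1 - ε * w i)⁻¹ ≤ 1 + 2 * (ε * w i) := by
      rw [inv_le_iff_one_le_mul₀ hp]
      nlinarith [x0 i, x1 i]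
    have h3 : 2 * (ε * w i) ≤ w i := by nlinarith [h.w0 i]
    linarith
  have li : ∀ (i : I) (C : Prop), Real.exp (- (ind C * l i)) = 1 - ind C * (ε * w i) := by
    intro i C
    by_cases hC : C
    · rw [ind_true hC, one_mul, one_mul, l1]
    · rw [ind_false hC]; simp
  have ix0 : ∀ (i : I) (C : Prop), 0 ≤ ind C * (ε * w i) := fun i C => mul_nonneg (ind_nonneg _) (x0 i)
  have ix1 : ∀ (i : I) (C : Prop), ind C * (ε * w i) ≤ 1 := fun i C =>
    (mul_le_of_le_one_left (x0 i) (ind_le_one _)).trans (by have := x1 i; linarith)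
  have hq : ∀ v, (1 - ε) * Real.exp (load e l v) ≤ 1 := by
    intro v
    have h1 : 1 - ε ≤ Real.exp (- load e l v) := by
      unfold load
      rw [← sum_neg_distrib, Real.exp_sum]
      simp only [li]
      refine le_trans ?_ (one_sub_sum_le _ _ (fun i _ => ix0 i _) (fun i _ => ix1 i _))
      have : ∑ i, ind (v ∈ e i) * (ε * w i) = ε * load e w v := by
        unfold load; rw [mul_sum]; exact sum_congr rfl fun i _ => by ring
      rw [this]
      have := mul_le_of_le_one_right hε0.le (hl v)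
      linarith
    calc _ ≤ Real.exp (- load e l v) * Real.exp (load e l v) :=
          mul_le_mul_of_nonneg_right h1 (Real.exp_pos _).le
      _ = 1 := by rw [← Real.exp_add]; simp
  set ρ : I ⊕ U → ℝ := Sum.elim (fun i => ε * w i) (fun v => 1 - (1 - ε) * Real.exp (load e l v))
    with hρ
  have hc : ∀ x, ∃ μ : FP Bool, μ.P (fun b => b = true) = ρ x := by
    intro x
    cases x with
    | inl i => exact FP.exists_coin (x0 i) (by have := x1 i; simp only [hρ, Sum.elim_inl]; linarith)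
    | inr v =>
      refine FP.exists_coin (sub_nonneg.2 (hq v)) ?_
      have : 0 ≤ (1 - ε) * Real.exp (load e l v) := mul_nonneg (by linarith) (Real.exp_pos _).le
      simp only [hρ, Sum.elim_inr]; linarith
  choose μ hμ using hc
  have hP : ∀ A, (FP.pi (α := fun _ => Bool) μ).P (surv e A) = (1 - ε) ^ #A *
      Real.exp (∑ v ∈ A, load e l v - ∑ i, ind (¬ Disjoint (e i) A) * l i) := by
    intro A
    have := FP.pi_P_forall (α := fun _ => Bool) μ (fun x b => Rel e A x → b = false)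
    unfold surv
    rw [this]
    simp only [coin_false (hμ _)]
    rw [Fintype.prod_sum_type]
    have e1 : ∏ i, (1 - ind (Rel e A (Sum.inl i)) * ρ (Sum.inl i))
        = Real.exp (- ∑ i, ind (¬ Disjoint (e i) A) * l i) := by
      rw [← sum_neg_distrib, Real.exp_sum]
      exact prod_congr rfl fun i _ => (li i _).symm
    have e2 : ∏ v, (1 - ind (Rel e A (Sum.inr v)) * ρ (Sum.inr v))
        = (1 - ε) ^ #A * Real.exp (∑ v ∈ A, load e l v) := by
      rw [Real.exp_sum, ← prod_const, ← prod_mul_distrib]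
      symm
      apply prod_subset_one_on_sdiff (subset_univ A)
      · intro v hv
        have : ¬ Rel e A (Sum.inr v) := (mem_sdiff.1 hv).2
        rw [ind_false this]; simp
      · intro v hv
        have : Rel e A (Sum.inr v) := hv
        rw [ind_true this]; simp [hρ]
    rw [e1, e2, sub_eq_add_neg (∑ v ∈ A, load e l v), Real.exp_add]; ring
  have hε1 : 0 ≤ 1 - ε := by linarith
  refine ⟨FP.pi (α := fun _ => Bool) μ, fun A => ?_, fun A => ?_, fun i => ?_⟩
  · rw [hP]
    exact le_mul_of_one_le_right (pow_nonneg hε1 _) (Real.one_le_exp (sub_nonneg.2 (meet_le e l0 A)))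
  · rw [hP]
    refine mul_le_mul_of_nonneg_left (Real.exp_le_exp.2 ?_) (pow_nonneg hε1 _)
    have := le_meet e l0 hδ (h.cod.mono zero_le_one (fun i => by simpa using l2 i) (by simp)) A
    linarith
  · set C : I ⊕ U → Prop := Sum.elim (fun j => j ≠ i ∧ ¬ Disjoint (e j) (e i)) (fun _ => False)
      with hC
    have := FP.pi_P_forall (α := fun _ => Bool) μ
      (fun x b => (x = Sum.inl i → b = true) ∧ (C x → b = false))
    have e0 : (FP.pi (α := fun _ => Bool) μ).P (iso e i) = (FP.pi (α := fun _ => Bool) μ).P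
        (fun ω => ∀ x, (x = Sum.inl i → ω x = true) ∧ (C x → ω x = false)) := by
      apply FP.P_congr
      intro ω
      constructor
      · rintro ⟨h1, h2⟩ x
        refine ⟨fun hx => hx ▸ h1, fun hx => ?_⟩
        cases x with
        | inl j => exact h2 j hx.1 hx.2
        | inr v => exact hx.elim
      · intro hx
        exact ⟨(hx _).1 rfl, fun j h1 h2 => (hx (Sum.inl j)).2 ⟨h1, h2⟩⟩
    rw [e0, this, ← mul_prod_erase univ _ (mem_univ (Sum.inl i))]
    have e1 : (μ (Sum.inl i)).P (fun b => ((Sum.inl i : I ⊕ U) = Sum.inl i → b = true)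
        ∧ (C (Sum.inl i) → b = false)) = ε * w i := by
      rw [show ε * w i = ρ (Sum.inl i) from rfl, ← hμ]
      exact FP.P_congr _ fun b => by simp [hC]
    have e2 : ∏ x ∈ univ.erase (Sum.inl i : I ⊕ U), (μ x).P (fun b => (x = Sum.inl i → b = true)
        ∧ (C x → b = false)) = ∏ x, (1 - ind (C x) * ρ x) := by
      rw [← mul_prod_erase univ _ (mem_univ (Sum.inl i))]
      rw [ind_false (by simp [hC]), zero_mul, sub_zero, one_mul]
      refine prod_congr rfl fun x hx => ?_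
      rw [← coin_false (hμ x)]
      exact FP.P_congr _ fun b => by simp [ne_of_mem_erase hx]
    rw [e1, e2]
    refine mul_le_mul_of_nonneg_left ?_ (x0 i)
    rw [Fintype.prod_sum_type]
    have e3 : ∏ v, (1 - ind (C (Sum.inr v)) * ρ (Sum.inr v)) = 1 :=
      prod_eq_one fun v _ => by rw [ind_false (by simp [hC])]; simp
    rw [e3, mul_one]
    refine le_trans ?_ (one_sub_sum_le _ _ (fun j _ => ix0 j _) (fun j _ => ix1 j _))
    have h1 : ∑ j, ind (C (Sum.inl j)) * (ε * w j) ≤ ε * ∑ j, ind (¬ Disjoint (e j) (e i)) * w j := by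
      rw [mul_sum]
      refine sum_le_sum fun j _ => ?_
      have := mul_le_mul_of_nonneg_right
        (ind_mono (p := C (Sum.inl j)) (q := ¬ Disjoint (e j) (e i)) fun hx => hx.2) (x0 j)
      linarith
    have h2 : ∑ j, ind (¬ Disjoint (e j) (e i)) * w j ≤ K := by
      refine (meet_le e h.w0 _).trans ?_
      calc _ ≤ ∑ _v ∈ e i, (1 : ℝ) := sum_le_sum fun v _ => hl v
        _ = #(e i) := by simp
        _ ≤ K := by exact_mod_cast h.cd i
    have := mul_le_mul_of_nonneg_left h2 hε0.le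
    show 1 - ε * K ≤ 1 - ∑ j, ind (C (Sum.inl j)) * (ε * w j)
    linarith

/-- rescaling factor of a surviving edge -/
def kap (e : I → Finset U) (ε : ℝ) (i : I) : ℝ := ((1 - ε) ^ (#(e i) - 1))⁻¹

omit [Fintype U] [DecidableEq I] in
/-- the overload at one vertex after one nibble -/
lemma over_le {K : ℕ} {e : I → Finset U} {w g : I → ℝ} {S : Finset U} {δ ε t : ℝ}
    (h : Hyp K e w g S δ) (hδ : 0 ≤ δ) (hl : ∀ a, load e w a ≤ 1) (hε0 : 0 < ε) (hε : ε ≤ 1 / 2)
    (μ : FP (I ⊕ U → Bool)) (h1 : ∀ A, (1 - ε) ^ #A ≤ μ.P (surv e A))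
    (h2 : ∀ A, μ.P (surv e A) ≤ (1 - ε) ^ #A * Real.exp ((#A : ℝ) ^ 2 * δ)) (ht : 0 < t)
    (hs : Real.exp (4 * (K : ℝ) ^ 2 * δ) - 1 + (((1 - ε) ^ K)⁻¹) ^ 2 * (K * δ) ≤ t ^ 2) (v : U) :
    μ.E (fun ω => max (load e (fun i => w i * kap e ε i * ind (surv e (e i) ω)) v - 1) 0) ≤ t := by
  have hε1 : 0 < 1 - ε := by linarith
  set c : ℝ := ((1 - ε) ^ K)⁻¹ with hc
  have k0 : ∀ i, 0 < kap e ε i := fun i => inv_pos.2 (pow_pos hε1 _)
  have kc : ∀ i, kap e ε i ≤ c := fun i =>
    inv_anti₀ (pow_pos hε1 _) (pow_le_pow_of_le_one hε1.le (by linarith) (by have := h.cd i; omega))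
  have c0 : 0 < c := inv_pos.2 (pow_pos hε1 _)
  have kk : ∀ i, v ∈ e i → kap e ε i * (1 - ε) ^ #((e i).erase v) = 1 := fun i hi => by
    rw [card_erase_of_mem hi]; exact inv_mul_cancel₀ (pow_pos hε1 _).ne'
  set L := load e w v with hL
  have L0 : 0 ≤ L := load_nonneg e h.w0 v
  have L1 : L ≤ 1 := hl v
  set u : I → ℝ := fun i => ind (v ∈ e i) * w i with hu
  have u0 : ∀ i, 0 ≤ u i := fun i => mul_nonneg (ind_nonneg _) (h.w0 i)
  have uL : ∑ i, u i = L := rfl
  set X : (I ⊕ U → Bool) → ℝ := fun ω => ∑ i, u i * kap e ε i * ind (surv e ((e i).erase v) ω)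
    with hX
  have EX : L ≤ μ.E X := by
    simp only [hX]
    rw [FP.E_sum, ← uL]
    refine sum_le_sum fun i _ => ?_
    rw [FP.E_mul_left]
    by_cases hi : v ∈ e i
    · calc u i = u i * kap e ε i * (1 - ε) ^ #((e i).erase v) := by rw [mul_assoc, kk i hi, mul_one]
        _ ≤ _ := mul_le_mul_of_nonneg_left (h1 _) (mul_nonneg (u0 i) (k0 i).le)
    · simp [hu, ind_false hi]
  set ξ := Real.exp (4 * (K : ℝ) ^ 2 * δ) with hξ
  have ξ1 : 1 ≤ ξ := Real.one_le_exp (by positivity)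
  have pair : ∀ i j, μ.E (fun ω => (u i * kap e ε i * ind (surv e ((e i).erase v) ω))
      * (u j * kap e ε j * ind (surv e ((e j).erase v) ω))) ≤ u i * u j * ξ
        + c ^ 2 * (u i * (ind (¬ Disjoint (e j) ((e i).erase v)) * u j)) := by
    intro i j
    have n1 : 0 ≤ u i * u j * ξ := mul_nonneg (mul_nonneg (u0 i) (u0 j)) (by linarith)
    have n2 : 0 ≤ c ^ 2 * (u i * (ind (¬ Disjoint (e j) ((e i).erase v)) * u j)) :=
      mul_nonneg (by positivity) (mul_nonneg (u0 i) (mul_nonneg (ind_nonneg _) (u0 j)))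
    have n3 : 0 ≤ u i * u j * (kap e ε i * kap e ε j) :=
      mul_nonneg (mul_nonneg (u0 i) (u0 j)) (mul_nonneg (k0 i).le (k0 j).le)
    have e1 : μ.E (fun ω => (u i * kap e ε i * ind (surv e ((e i).erase v) ω))
        * (u j * kap e ε j * ind (surv e ((e j).erase v) ω))) = u i * u j * (kap e ε i * kap e ε j)
          * μ.P (fun ω => surv e ((e i).erase v) ω ∧ surv e ((e j).erase v) ω) := by
      unfold FP.P
      rw [← FP.E_mul_left]
      congr 1; funext ω; rw [ind_and]; ring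
    rw [e1]
    by_cases hi : v ∈ e i
    swap
    · simp [hu, ind_false hi]
    by_cases hj : v ∈ e j
    swap
    · simp [hu, ind_false hj]
    by_cases hd : Disjoint (e j) ((e i).erase v)
    · have hd' : Disjoint ((e i).erase v) ((e j).erase v) := hd.symm.mono_right (erase_subset _ _)
      have h3 := (μ.P_mono (fun ω (hω : surv e ((e i).erase v) ω ∧ surv e ((e j).erase v) ω) =>
        surv_union e hω.1 hω.2)).trans (h2 _)
      have h4 : Real.exp ((#((e i).erase v ∪ (e j).erase v) : ℝ) ^ 2 * δ) ≤ ξ := by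
        refine Real.exp_le_exp.2 (mul_le_mul_of_nonneg_right ?_ hδ)
        have : #((e i).erase v ∪ (e j).erase v) ≤ 2 * K := by
          have a1 := card_union_le ((e i).erase v) ((e j).erase v)
          have a2 := card_erase_le (s := e i) (a := v)
          have a3 := card_erase_le (s := e j) (a := v)
          have := h.cd i; have := h.cd j; omega
        have a4 : (#((e i).erase v ∪ (e j).erase v) : ℝ) ≤ 2 * K := by exact_mod_cast this
        calc _ ≤ (2 * (K : ℝ)) ^ 2 := pow_le_pow_left₀ (by positivity) a4 2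
          _ = _ := by ring
      have h5 := h3.trans (mul_le_mul_of_nonneg_left h4 (pow_nonneg hε1.le _))
      rw [card_union_of_disjoint hd', pow_add] at h5
      calc _ ≤ u i * u j * (kap e ε i * kap e ε j) * ((1 - ε) ^ #((e i).erase v)
            * (1 - ε) ^ #((e j).erase v) * ξ) := mul_le_mul_of_nonneg_left h5 n3
        _ = u i * u j * ξ * ((kap e ε i * (1 - ε) ^ #((e i).erase v))
            * (kap e ε j * (1 - ε) ^ #((e j).erase v))) := by ring
        _ = u i * u j * ξ := by rw [kk i hi, kk j hj]; ring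
        _ ≤ _ := le_add_of_nonneg_right n2
    · rw [ind_true hd, one_mul]
      calc _ ≤ u i * u j * (kap e ε i * kap e ε j) := mul_le_of_le_one_right n3 (μ.P_le_one _)
        _ ≤ u i * u j * (c * c) := mul_le_mul_of_nonneg_left
            (mul_le_mul (kc i) (kc j) (k0 j).le c0.le) (mul_nonneg (u0 i) (u0 j))
        _ = c ^ 2 * (u i * u j) := by ring
        _ ≤ _ := le_add_of_nonneg_left n1
  have near : ∀ i, ∑ j, ind (¬ Disjoint (e j) ((e i).erase v)) * u j ≤ K * δ := by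
    intro i
    refine (meet_le e u0 _).trans ?_
    calc _ ≤ ∑ _a ∈ (e i).erase v, δ := by
          refine sum_le_sum fun a ha => le_trans (le_of_eq ?_) (h.cod a v (ne_of_mem_erase ha))
          exact sum_congr rfl fun j _ => by simp only [hu]; rw [ind_and]; ring
      _ = (#((e i).erase v) : ℝ) * δ := by rw [sum_const, nsmul_eq_mul]
      _ ≤ _ := mul_le_mul_of_nonneg_right (by exact_mod_cast card_erase_le.trans (h.cd i)) hδ
  have EX2 : μ.E (fun ω => X ω * X ω) ≤ L * L * ξ + c ^ 2 * (L * (K * δ)) := by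
    simp only [hX, sum_mul_sum]
    rw [FP.E_sum]
    simp only [FP.E_sum]
    calc _ ≤ ∑ i, ∑ j, (u i * u j * ξ
          + c ^ 2 * (u i * (ind (¬ Disjoint (e j) ((e i).erase v)) * u j))) :=
          sum_le_sum fun i _ => sum_le_sum fun j _ => pair i j
      _ = ∑ i, (u i * L * ξ + c ^ 2 * (u i * ∑ j, ind (¬ Disjoint (e j) ((e i).erase v)) * u j)) := by
          refine sum_congr rfl fun i _ => ?_
          rw [sum_add_distrib, ← sum_mul, ← mul_sum, ← mul_sum, ← mul_sum, uL]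
      _ ≤ ∑ i, (u i * L * ξ + c ^ 2 * (u i * (K * δ))) := by
          refine sum_le_sum fun i _ => add_le_add le_rfl ?_
          exact mul_le_mul_of_nonneg_left (mul_le_mul_of_nonneg_left (near i) (u0 i)) (by positivity)
      _ = _ := by rw [sum_add_distrib, ← sum_mul, ← sum_mul, ← mul_sum, ← sum_mul, uL]
  have EV : μ.E (fun ω => (X ω - L) ^ 2) ≤ t ^ 2 := by
    have e1 : (fun ω => (X ω - L) ^ 2) = fun ω => X ω * X ω - 2 * L * X ω + L * L := by
      funext ω; ring
    rw [e1, FP.E_add, FP.E_sub, FP.E_mul_left, FP.E_const]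
    have a1 := mul_le_mul_of_nonneg_left EX L0
    have a2 : L * L * (ξ - 1) ≤ ξ - 1 :=
      mul_le_of_le_one_left (by linarith) (mul_le_one₀ L1 L0 L1)
    have a3 : c ^ 2 * (L * (K * δ)) ≤ c ^ 2 * (K * δ) :=
      mul_le_mul_of_nonneg_left (mul_le_of_le_one_left (by positivity) L1) (by positivity)
    have a4 : μ.E (fun ω => X ω) = μ.E X := rfl
    rw [a4]
    linarith
  calc _ ≤ μ.E (fun ω => (t + (X ω - L) ^ 2 / t) / 2) := by
        refine μ.E_mono fun ω => max_le ?_ (by positivity)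
        have a1 : load e (fun i => w i * kap e ε i * ind (surv e (e i) ω)) v ≤ X ω := by
          refine sum_le_sum fun i _ => ?_
          have := mul_le_mul_of_nonneg_left (ind_mono (surv_mono e (erase_subset v (e i)) (ω := ω)))
            (mul_nonneg (u0 i) (k0 i).le)
          refine le_trans (le_of_eq ?_) this
          simp only [hu]; ring
        have a2 : X ω - L ≤ (t + (X ω - L) ^ 2 / t) / 2 := by
          rw [le_div_iff₀ two_pos, ← sub_le_iff_le_add', le_div_iff₀ ht]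
          nlinarith [sq_nonneg (X ω - L - t)]
        linarith
    _ = (t + μ.E (fun ω => (X ω - L) ^ 2) / t) / 2 := by
        rw [FP.E_div, FP.E_add, FP.E_const, FP.E_div]
    _ ≤ t := by
        have : μ.E (fun ω => (X ω - L) ^ 2) / t ≤ t := by rw [div_le_iff₀ ht]; linarith
        linarith

/-- one nibble -/
lemma step {K : ℕ} {e : I → Finset U} {w g : I → ℝ} {S : Finset U} {δ δ' ε t a b : ℝ}
    (h : Hyp K e w g S δ) (hδ : 0 ≤ δ) (hl : ∀ a, load e w a ≤ 1) (hε0 : 0 < ε) (hε : ε ≤ 1 / 2)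
    (ht : 0 < t) (ha : 0 ≤ a)
    (hs : Real.exp (4 * (K : ℝ) ^ 2 * δ) - 1 + (((1 - ε) ^ K)⁻¹) ^ 2 * (K * δ) ≤ t ^ 2)
    (hδ' : ((1 - ε) ^ K)⁻¹ * δ ≤ δ')
    (IH : ∀ w' : I → ℝ, Hyp K e w' g S δ' →
      Mat e w' g (a * ∑ i, w' i * g i - b * (#S : ℝ) - exc e w')) :
    Mat e w g ((ε * (1 - ε * K) + (1 - ε) * a) * ∑ i, w i * g i - (b + t) * (#S : ℝ)) := by
  obtain ⟨μ, h1, h2, h3⟩ := space h hδ hl hε0 hε
  have hε1 : 0 < 1 - ε := by linarith
  have k0 : ∀ i, 0 < kap e ε i := fun i => inv_pos.2 (pow_pos hε1 _)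
  have kc : ∀ i, kap e ε i ≤ ((1 - ε) ^ K)⁻¹ := fun i =>
    inv_anti₀ (pow_pos hε1 _) (pow_le_pow_of_le_one hε1.le (by linarith) (by have := h.cd i; omega))
  set w' : (I ⊕ U → Bool) → I → ℝ := fun ω i => w i * kap e ε i * ind (surv e (e i) ω) with hw'
  have wp : ∀ ω i, 0 < w' ω i → 0 < w i ∧ surv e (e i) ω := by
    intro ω i hi
    by_contra hc
    rcases not_and_or.1 hc with h4 | h4
    · have : w i = 0 := le_antisymm (not_lt.1 h4) (h.w0 i)
      simp [hw', this] at hi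
    · simp [hw', ind_false h4] at hi
  have hH : ∀ ω, Hyp K e (w' ω) g S δ' := fun ω =>
    ⟨fun i => mul_nonneg (mul_nonneg (h.w0 i) (k0 i).le) (ind_nonneg _), h.g0, h.g1, h.ne, h.cd,
      fun i hi => h.sub i (wp ω i hi).1,
      h.cod.mono (inv_pos.2 (pow_pos hε1 _)).le (fun i => by
        calc w' ω i ≤ w i * kap e ε i :=
              mul_le_of_le_one_right (mul_nonneg (h.w0 i) (k0 i).le) (ind_le_one _)
          _ ≤ w i * ((1 - ε) ^ K)⁻¹ := mul_le_mul_of_nonneg_left (kc i) (h.w0 i)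
          _ = _ := mul_comm _ _) hδ'⟩
  have E1 : ε * (1 - ε * K) * ∑ i, w i * g i
      ≤ μ.E (fun ω => ∑ i, ind (0 < w i ∧ iso e i ω) * g i) := by
    rw [FP.E_sum, mul_sum]
    refine sum_le_sum fun i _ => ?_
    rw [FP.E_mul_right]
    rcases (h.w0 i).eq_or_lt with h4 | h4
    · rw [← h4]
      simp only [zero_mul, mul_zero]
      exact mul_nonneg (μ.pos _ fun ω => ind_nonneg _) (h.g0 i)
    · have : μ.E (fun ω => ind (0 < w i ∧ iso e i ω)) = μ.P (iso e i) :=
        μ.P_congr fun ω => by simp [h4]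
      rw [this]
      have := mul_le_mul_of_nonneg_right (h3 i) (h.g0 i)
      linarith
  have E2 : (1 - ε) * ∑ i, w i * g i ≤ μ.E (fun ω => ∑ i, w' ω i * g i) := by
    rw [FP.E_sum, mul_sum]
    refine sum_le_sum fun i _ => ?_
    rw [FP.E_mul_right]
    simp only [hw']
    rw [FP.E_mul_left]
    have a1 : kap e ε i * (1 - ε) ^ #(e i) = 1 - ε := by
      obtain ⟨m, hm⟩ : ∃ m, #(e i) = m + 1 := ⟨#(e i) - 1, by have := (h.ne i).card_pos; omega⟩
      unfold kap
      rw [hm, Nat.add_sub_cancel, pow_succ, ← mul_assoc, inv_mul_cancel₀ (pow_pos hε1 _).ne', one_mul]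
    calc (1 - ε) * (w i * g i) = w i * kap e ε i * (1 - ε) ^ #(e i) * g i := by
          rw [mul_assoc (w i), a1]; ring
      _ ≤ _ := mul_le_mul_of_nonneg_right
          (mul_le_mul_of_nonneg_left (h1 _) (mul_nonneg (h.w0 i) (k0 i).le)) (h.g0 i)
  have E3 : μ.E (fun ω => exc e (w' ω)) ≤ t * (#S : ℝ) := by
    unfold exc
    rw [FP.E_sum]
    calc _ ≤ ∑ v, ind (v ∈ S) * t := by
          refine sum_le_sum fun v _ => ?_
          by_cases hv : v ∈ S
          · rw [ind_true hv, one_mul]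
            exact over_le h hδ hl hε0 hε μ h1 h2 ht hs v
          · rw [ind_false hv, zero_mul]
            refine μ.E_le fun ω => max_le ?_ le_rfl
            have : load e (w' ω) v = 0 := by
              refine sum_eq_zero fun i _ => ?_
              by_cases hi : v ∈ e i
              · rcases ((hH ω).w0 i).eq_or_lt with h4 | h4
                · rw [← h4, mul_zero]
                · exact absurd ((hH ω).sub i h4 hi) hv
              · rw [ind_false hi, zero_mul]
            rw [this]; norm_num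
      _ = _ := by rw [← sum_mem_ind S (fun _ => t), sum_const, nsmul_eq_mul, mul_comm]
  obtain ⟨ω, hω⟩ := exists_ge_E μ (fun ω => ∑ i, ind (0 < w i ∧ iso e i ω) * g i
    + a * ∑ i, w' ω i * g i - exc e (w' ω))
  rw [FP.E_sub, FP.E_add, FP.E_mul_left] at hω
  obtain ⟨M, m1, m2, m3⟩ := IH (w' ω) (hH ω)
  classical
  set M0 := univ.filter (fun i => 0 < w i ∧ iso e i ω) with hM0
  have n0 : ∀ i ∈ M0, 0 < w i ∧ iso e i ω := fun i hi => (mem_filter.1 hi).2
  have cross : ∀ i ∈ M0, ∀ j ∈ M, Disjoint (e i) (e j) := by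
    intro i hi j hj
    by_contra hc
    have := (wp ω j (m1 j hj)).2 (Sum.inl i) hc
    rw [(n0 i hi).2.1] at this
    exact absurd this (by simp)
  have hdis : Disjoint M0 M := by
    rw [disjoint_left]
    intro i hi hj
    obtain ⟨x, hx⟩ := h.ne i
    exact disjoint_left.1 (cross i hi i hj) hx hx
  refine ⟨M0 ∪ M, ?_, ?_, ?_⟩
  · intro i hi
    rcases mem_union.1 hi with h4 | h4
    · exact (n0 i h4).1
    · exact (wp ω i (m1 i h4)).1
  · intro i hi j hj hij
    rcases mem_union.1 hi with h4 | h4 <;> rcases mem_union.1 hj with h5 | h5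
    · by_contra hc
      have := (n0 j h5).2.2 i hij hc
      rw [(n0 i h4).2.1] at this
      exact absurd this (by simp)
    · exact cross i h4 j h5
    · exact (cross j h5 i h4).symm
    · exact m2 i h4 j h5 hij
  · rw [sum_union hdis, hM0, sum_filter_ind]
    have := mul_le_mul_of_nonneg_left E2 ha
    linarith

end Sys

/-- the statement with loss factor `a` -/
def Good (K : ℕ) (a b δ : ℝ) : Prop :=
  ∀ (I U : Type) [Fintype I] [Fintype U] [DecidableEq I] [DecidableEq U]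
    (e : I → Finset U) (w g : I → ℝ) (S : Finset U), Hyp K e w g S δ →
    Mat e w g (a * ∑ i, w i * g i - b * (#S : ℝ) - exc e w)

lemma exists_delta (K : ℕ) (c : ℝ) {t δ' : ℝ} (ht : 0 < t) (hδ' : 0 < δ') :
    ∃ δ, 0 < δ ∧ Real.exp (4 * (K : ℝ) ^ 2 * δ) - 1 + c ^ 2 * (K * δ) ≤ t ^ 2 ∧ c * δ ≤ δ' := by
  have f1 : Continuous fun δ : ℝ => Real.exp (4 * (K : ℝ) ^ 2 * δ) - 1 + c ^ 2 * (K * δ) := by
    fun_prop
  have f2 : Continuous fun δ : ℝ => c * δ := by fun_prop
  have e1 := (f1.tendsto 0).eventually (gt_mem_nhds (a := t ^ 2) (by simp; positivity))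
  have e2 := (f2.tendsto 0).eventually (gt_mem_nhds (a := δ') (by simpa using hδ'))
  obtain ⟨δ, ⟨h1, h2⟩, h3⟩ :=
    (((e1.and e2).filter_mono nhdsWithin_le_nhds).and (self_mem_nhdsWithin (s := Set.Ioi 0))).exists
  exact ⟨δ, h3, h1.le, h2.le⟩

lemma good_succ {K : ℕ} {ε a : ℝ} (hε0 : 0 < ε) (hε : ε ≤ 1 / 2) (ha : 0 ≤ a)
    (ha1 : ε * (1 - ε * K) + (1 - ε) * a ≤ 1)
    (H : ∀ b, 0 < b → ∃ δ, 0 < δ ∧ Good K a b δ) (b : ℝ) (hb : 0 < b) :
    ∃ δ, 0 < δ ∧ Good K (ε * (1 - ε * K) + (1 - ε) * a) b δ := by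
  obtain ⟨δ', hδ', hG⟩ := H (b / 2) (by positivity)
  obtain ⟨δ, hδ, d1, d2⟩ := exists_delta K ((1 - ε) ^ K)⁻¹ (t := b / 2) (by positivity) hδ'
  refine ⟨δ, hδ, fun I U _ _ _ _ e w g S h => ?_⟩
  obtain ⟨w2, h2, hle, hl, hx⟩ := trim h
  obtain ⟨M, m1, m2, m3⟩ := step h2 hδ.le hl hε0 hε (by positivity : 0 < b / 2) ha d1 d2
    (fun w' h' => hG I U e w' g S h')
  refine ⟨M, fun i hi => lt_of_lt_of_le (m1 i hi) (hle i), m2, le_trans ?_ m3⟩
  have a0 : 0 ≤ ∑ i, (w i - w2 i) * g i :=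
    sum_nonneg fun i _ => mul_nonneg (sub_nonneg.2 (hle i)) (h.g0 i)
  have a1 : ∑ i, (w i - w2 i) * g i ≤ ∑ i, (w i - w2 i) :=
    sum_le_sum fun i _ => mul_le_of_le_one_right (sub_nonneg.2 (hle i)) (h.g1 i)
  have a2 : ∑ i, w i * g i = ∑ i, w2 i * g i + ∑ i, (w i - w2 i) * g i := by
    rw [← sum_add_distrib]; exact sum_congr rfl fun i _ => by ring
  have a3 := mul_le_of_le_one_left a0 ha1
  rw [a2, mul_add]
  linarith

lemma good_iter {K : ℕ} {ε : ℝ} (hε0 : 0 < ε) (hε : ε ≤ 1 / 2) (hK : ε * K ≤ 1) (j : ℕ) :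
    ∀ b, 0 < b → ∃ δ, 0 < δ ∧ Good K ((1 - ε * K) * (1 - (1 - ε) ^ j)) b δ := by
  have p1 : ∀ j : ℕ, (1 - ε) ^ j ≤ 1 := fun j => pow_le_one₀ (by linarith) (by linarith)
  have p0 : ∀ j : ℕ, 0 ≤ (1 - ε) ^ j := fun j => pow_nonneg (by linarith) _
  have k0 : 0 ≤ ε * K := by positivity
  induction j with
  | zero =>
    intro b hb
    refine ⟨1, one_pos, fun I U _ _ _ _ e w g S h => ⟨∅, by simp, by simp, ?_⟩⟩
    have : 0 ≤ exc e w := sum_nonneg fun a _ => le_max_right _ _
    have : 0 ≤ b * (#S : ℝ) := by positivity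
    simp only [pow_zero, sub_self, mul_zero, zero_mul, sum_empty]
    linarith
  | succ j ih =>
    have e1 : (1 - ε * K) * (1 - (1 - ε) ^ (j + 1))
        = ε * (1 - ε * K) + (1 - ε) * ((1 - ε * K) * (1 - (1 - ε) ^ j)) := by ring
    rw [e1]
    refine good_succ hε0 hε (mul_nonneg (by linarith) (sub_nonneg.2 (p1 j))) ?_ ih
    rw [← e1]
    exact mul_le_one₀ (by linarith) (sub_nonneg.2 (p1 _)) (by have := p0 (j + 1); linarith)

end

end Nib

/-- fractional nibble: small codegrees give a matching that realises almost all of the weight -/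
theorem nibble (K : ℕ) (η : ℝ) (hη : 0 < η) : ∃ δ : ℝ, 0 < δ ∧
    ∀ (I U : Type) [Fintype I] [Fintype U] [DecidableEq I] [DecidableEq U]
      (e : I → Finset U) (w g : I → ℝ) (S : Finset U),
      (∀ i, 0 ≤ w i) → (∀ i, 0 ≤ g i) → (∀ i, g i ≤ 1) → (∀ i, (e i).Nonempty) →
      (∀ i, (e i).card ≤ K) → (∀ i, 0 < w i → e i ⊆ S) →
      (∀ a b, a ≠ b → ∑ i ∈ univ.filter (fun i => a ∈ e i ∧ b ∈ e i), w i ≤ δ) →
      ∃ M : Finset I, (∀ i ∈ M, 0 < w i) ∧
        (∀ i ∈ M, ∀ j ∈ M, i ≠ j → Disjoint (e i) (e j)) ∧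
        (1 - η) * ∑ i, w i * g i - η * (S.card : ℝ)
          - ∑ a, max (∑ i ∈ univ.filter (fun i => a ∈ e i), w i - 1) 0 ≤ ∑ i ∈ M, g i := by
  set θ := min η 1 with hθ
  have θ0 : 0 < θ := lt_min hη one_pos
  have θ1 : θ ≤ 1 := min_le_right _ _
  have θ2 : θ ≤ η := min_le_left _ _
  set ε := θ / (2 * (K + 1)) with hε
  have K0 : (0 : ℝ) ≤ K := Nat.cast_nonneg K
  have ε0 : 0 < ε := by positivity
  have ε1 : ε * (K + 1) = θ / 2 := by rw [hε]; field_simp
  have ε2 : ε ≤ 1 / 2 := by nlinarith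
  have ε3 : ε * K ≤ θ / 2 := by nlinarith
  obtain ⟨j, hj⟩ := exists_pow_lt_of_lt_one (x := θ / 2) (y := 1 - ε) (by positivity) (by linarith)
  obtain ⟨δ, hδ, hG⟩ := Nib.good_iter (K := K) ε0 ε2 (by linarith) j η hη
  refine ⟨δ, hδ, fun I U _ _ _ _ e w g S w0 g0 g1 ne cd sub cod => ?_⟩
  obtain ⟨M, m1, m2, m3⟩ := hG I U e w g S ⟨w0, g0, g1, ne, cd, sub, fun a b hab => by
    rw [← Nib.sum_filter_ind]; exact cod a b hab⟩
  refine ⟨M, m1, m2, le_trans ?_ m3⟩
  have e1 : ∑ a, max (∑ i ∈ univ.filter (fun i => a ∈ e i), w i - 1) 0 = Nib.exc e w :=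
    sum_congr rfl fun a _ => by rw [Nib.sum_filter_ind]; rfl
  have e2 : 1 - η ≤ (1 - ε * K) * (1 - (1 - ε) ^ j) := by
    have : (1 - θ / 2) * (1 - θ / 2) ≤ (1 - ε * K) * (1 - (1 - ε) ^ j) :=
      mul_le_mul (by linarith) (by linarith) (by linarith) (by linarith)
    nlinarith
  have e3 := mul_le_mul_of_nonneg_right e2 (sum_nonneg fun i (_ : i ∈ univ) => mul_nonneg (w0 i) (g0 i))
  rw [e1]
  linarith

end Pool.Agent.Lib.MP_5cebc8_co
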