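import Pool.Agent.Lib.MP_5cebc8_co.Embed0
import Pool.Agent.Lib.MP_5cebc8_co.Nibble

open Finset
open Pool.Agent.Lib.MP_ad359d_co

namespace Pool.Agent.Lib.MP_5cebc8_co

set_option linter.unusedSectionVars false

noncomputable section

namespace Sys

variable {N J ι Λ G : Type} [Fintype N] [DecidableEq N] [Fintype J] [DecidableEq J]
  [Fintype ι] [DecidableEq ι] [Fintype Λ] [DecidableEq Λ] [Fintype G] [DecidableEq G]
  [AddCommGroup G] (S : Sys N J ι Λ G)

/-- the hyperedge of an option -/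
def ed (i : ι × (N → G)) : Finset (ι ⊕ Λ × G) :=
  insert (Sum.inl i.1) ((S.Jq i.1).image (fun j => Sum.inr (S.cls j, S.val j i.2)))

/-- the weight of an option -/
def ww (s : ℝ) (i : ι × (N → G)) : ℝ :=
  s * (wt S.F i.2 * (ind (S.ND i.1 i.2) * S.PI i.1 i.2)) / S.PP i.1

variable {S} {K : ℕ} {ρ1 ρ lam s : ℝ}

lemma inl_mem_ed {Q : ι} {i : ι × (N → G)} : Sum.inl Q ∈ S.ed i ↔ Q = i.1 := by simp [ed]

lemma inr_mem_ed {z : Λ × G} {i : ι × (N → G)} :
    Sum.inr z ∈ S.ed i ↔ ∃ j ∈ S.Jq i.1, S.cls j = z.1 ∧ S.val j i.2 = z.2 := by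
  simp [ed, Prod.ext_iff]

lemma ww_nonneg (h : S.Ok K ρ1 ρ lam) (hs : 0 ≤ s) (i : ι × (N → G)) : 0 ≤ S.ww s i :=
  div_nonneg (mul_nonneg hs (mul_nonneg (wt_nonneg _ _) (mul_nonneg (ind_nonneg _) (PI_nonneg _ _))))
    (PP_pos h _).le

lemma ww_pos (h : S.Ok K ρ1 ρ lam) {i : ι × (N → G)} (hi : 0 < S.ww s i) :
    (∀ v, i.2 v ∈ S.F v) ∧ S.ND i.1 i.2 ∧ ∀ j ∈ S.Jq i.1, S.val j i.2 ∈ S.Cl (S.cls j) := by
  have h1 : wt S.F i.2 ≠ 0 := by
    intro e; simp [ww, e] at hi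
  have h2 : ind (S.ND i.1 i.2) ≠ 0 := by
    intro e; simp [ww, e] at hi
  have h3 : S.PI i.1 i.2 ≠ 0 := by
    intro e; simp [ww, e] at hi
  have a1 : ∀ v, i.2 v ∈ S.F v := by
    intro v
    by_contra hv
    exact h1 (prod_eq_zero (mem_univ v) (by rw [ind_false hv, zero_div]))
  refine ⟨a1, by_contra fun hn => h2 (ind_false hn), fun j hj => ?_⟩
  by_cases hb : S.bn j = true
  · by_contra hv
    simp only [val, hb, if_true] at hv
    exact h3 (prod_eq_zero (i := j) (mem_filter.2 ⟨mem_univ _, hb, (mem_filter.1 hj).2⟩)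
      (ind_false hv))
  · simp only [val, hb]
    exact h.hun j (by simpa using hb) _ (a1 _)

lemma sum_ww_le (h : S.Ok K ρ1 ρ lam) (hs : 0 ≤ s) (Q : ι) (f : (N → G) → ℝ) (hf : ∀ x, 0 ≤ f x) :
    ∑ x, S.ww s (Q, x) * f x ≤ s * ((mu S.F h.ne).E (fun x => S.PI Q x * f x) / S.PP Q) := by
  rw [mu_E, sum_div, mul_sum]
  refine sum_le_sum fun x _ => ?_
  have := PP_pos h Q
  have := wt_nonneg S.F x
  have := PI_nonneg (S := S) Q x
  have := hf x
  have := ind_le_one (S.ND Q x)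
  have := ind_nonneg (S.ND Q x)
  simp only [ww]
  rw [show s * (wt S.F x * (ind (S.ND Q x) * S.PI Q x)) / S.PP Q * f x =
    ind (S.ND Q x) * (s * (wt S.F x * (S.PI Q x * f x) / S.PP Q)) by ring]
  exact mul_le_of_le_one_left (by positivity) ‹_›

lemma sum_ww_le' (h : S.Ok K ρ1 ρ lam) (hs : 0 ≤ s) (hs1 : s ≤ 1) (Q : ι) (f : (N → G) → ℝ)
    (hf : ∀ x, 0 ≤ f x) : ∑ x, S.ww s (Q, x) * f x ≤ (mu S.F h.ne).E f / ρ1 ^ K := by
  refine (sum_ww_le h hs Q f hf).trans ?_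
  have h1 : (mu S.F h.ne).E (fun x => S.PI Q x * f x) ≤ (mu S.F h.ne).E f :=
    FP.E_mono _ fun x => mul_le_of_le_one_left (hf x) (PI_le_one Q x)
  have h2 : 0 ≤ (mu S.F h.ne).E (fun x => S.PI Q x * f x) :=
    FP.pos _ _ fun x => mul_nonneg (PI_nonneg Q x) (hf x)
  have h3 := PP_pos h Q
  have h4 := PP_ge h Q
  have h5 := pow_pos h.ρ1pos K
  calc _ ≤ (mu S.F h.ne).E (fun x => S.PI Q x * f x) / S.PP Q :=
        mul_le_of_le_one_left (by positivity) hs1
    _ ≤ _ := by gcongr; exact h2.trans h1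

lemma sum_ww_ge (h : S.Ok K ρ1 ρ lam) (hs : 0 ≤ s) (Q : ι) :
    s * (1 - (K * (lam / ρ ^ 2) + K ^ 2 * (1 / (ρ * Fintype.card G))) / ρ1 ^ K) ≤
      ∑ x, S.ww s (Q, x) := by
  have e : ∑ x, S.ww s (Q, x) =
      s * ((mu S.F h.ne).E (fun x => ind (S.ND Q x) * S.PI Q x) / S.PP Q) := by
    rw [mu_E, sum_div, mul_sum]
    exact sum_congr rfl fun x _ => by simp only [ww]; ring
  rw [e]
  refine mul_le_mul_of_nonneg_left ?_ hs
  have h1 : (mu S.F h.ne).E (S.PI Q) - (mu S.F h.ne).E (fun x => ind (¬ S.ND Q x)) ≤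
      (mu S.F h.ne).E (fun x => ind (S.ND Q x) * S.PI Q x) := by
    rw [← FP.E_sub]
    refine FP.E_mono _ fun x => ?_
    have := PI_le_one (S := S) Q x
    by_cases hx : S.ND Q x
    · rw [ind_true hx, ind_false (not_not.2 hx)]; linarith
    · rw [ind_false hx, ind_true hx]; linarith
  have h2 := total_ge h Q
  have h3 := P_deg h Q
  have h4 := PP_pos h Q
  have h5 := PP_ge h Q
  have h6 := pow_pos h.ρ1pos K
  have hm : (0 : ℝ) < Fintype.card G := by exact_mod_cast Fintype.card_pos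
  have := h.ρpos
  have := h.lampos
  rw [le_div_iff₀ h4]
  have h7 : (K * (lam / ρ ^ 2) + K ^ 2 * (1 / (ρ * Fintype.card G))) ≤
      (K * (lam / ρ ^ 2) + K ^ 2 * (1 / (ρ * Fintype.card G))) / ρ1 ^ K * S.PP Q := by
    rw [div_mul_eq_mul_div, le_div_iff₀ h6]
    gcongr
  nlinarith

lemma sum_filter_ww (q : ι × (N → G) → Prop) [DecidablePred q] :
    ∑ i ∈ univ.filter q, S.ww s i = ∑ Q, ∑ x, S.ww s (Q, x) * ind (q (Q, x)) := by
  rw [sum_filter, Fintype.sum_prod_type]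
  refine sum_congr rfl fun Q _ => sum_congr rfl fun x _ => ?_
  rw [ind_eq_ite]; split_ifs <;> simp

lemma load_inl (h : S.Ok K ρ1 ρ lam) (hs : 0 ≤ s) (hs1 : s ≤ 1) (Q : ι) :
    ∑ i ∈ univ.filter (fun i => Sum.inl Q ∈ S.ed i), S.ww s i ≤
      1 + K * (lam / ρ ^ 2) / ρ1 ^ K := by
  rw [sum_filter_ww, sum_eq_single Q]
  · simp only [inl_mem_ed, ind_true]
    refine (sum_ww_le h hs Q (fun _ => 1) fun _ => by norm_num).trans ?_
    simp only [mul_one]
    refine le_trans (mul_le_of_le_one_left ?_ hs1) (total_le h Q)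
    exact div_nonneg (FP.pos _ _ fun x => PI_nonneg Q x) (PP_pos h Q).le
  · intro Q' _ hQ
    refine sum_eq_zero fun x _ => ?_
    rw [ind_false, mul_zero]
    rw [inl_mem_ed]; exact Ne.symm hQ
  · simp

lemma load_inr (h : S.Ok K ρ1 ρ lam) (hs : 0 ≤ s) (A : Λ → Finset G) :
    ∑ τ, ∑ y ∈ A τ, ∑ i ∈ univ.filter (fun i => Sum.inr (τ, y) ∈ S.ed i), S.ww s i ≤
      s * ∑ j, (S.mass j (A (S.cls j)) + K * (lam / ρ ^ 2) / ρ1 ^ K) := by
  simp only [sum_filter_ww]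
  have e1 : ∑ τ, ∑ y ∈ A τ, ∑ Q, ∑ x, S.ww s (Q, x) * ind (Sum.inr (τ, y) ∈ S.ed (Q, x)) =
      ∑ Q, ∑ x, S.ww s (Q, x) * ∑ τ, ∑ y ∈ A τ, ind (Sum.inr (τ, y) ∈ S.ed (Q, x)) := by
    simp only [mul_sum]
    rw [sum_congr rfl fun τ _ => sum_comm, sum_comm]
    refine sum_congr rfl fun Q _ => ?_
    rw [sum_congr rfl fun τ _ => sum_comm, sum_comm]
  rw [e1, ← sum_fiberwise (s := univ) (g := fun j => S.cp (S.own j)), mul_sum]
  refine sum_le_sum fun Q _ => ?_
  have e2 : ∀ x, ∑ τ, ∑ y ∈ A τ, ind (Sum.inr (τ, y) ∈ S.ed (Q, x)) ≤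
      ∑ j ∈ S.Jq Q, ind (S.val j x ∈ A (S.cls j)) := by
    intro x
    calc _ ≤ ∑ τ, ∑ y ∈ A τ, ∑ j ∈ S.Jq Q, ind (S.cls j = τ ∧ S.val j x = y) :=
          sum_le_sum fun τ _ => sum_le_sum fun y _ => by
            rw [inr_mem_ed]; exact ind_exists_le _ _
      _ = ∑ j ∈ S.Jq Q, ∑ τ, ∑ y ∈ A τ, ind (S.cls j = τ ∧ S.val j x = y) := by
          rw [sum_congr rfl fun τ _ => sum_comm, sum_comm]
      _ = _ := by
          refine sum_congr rfl fun j _ => ?_
          simp only [ind_and, ← mul_sum]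
          rw [sum_ind_eq_mul' (S.cls j) (fun τ => ∑ y ∈ A τ, ind (S.val j x = y))]
          simp [ind_eq_ite]
  calc _ ≤ ∑ x, S.ww s (Q, x) * ∑ j ∈ S.Jq Q, ind (S.val j x ∈ A (S.cls j)) :=
        sum_le_sum fun x _ => mul_le_mul_of_nonneg_left (e2 x) (ww_nonneg h hs _)
    _ = ∑ j ∈ S.Jq Q, ∑ x, S.ww s (Q, x) * ind (S.val j x ∈ A (S.cls j)) := by
        simp only [mul_sum]; rw [sum_comm]
    _ ≤ ∑ j ∈ S.Jq Q, s * (S.mass j (A (S.cls j)) + K * (lam / ρ ^ 2) / ρ1 ^ K) :=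
        sum_le_sum fun j hj => (sum_ww_le h hs Q _ fun _ => ind_nonneg _).trans
          (mul_le_mul_of_nonneg_left (slot_load h Q hj _) hs)
    _ = _ := by rw [mul_sum]; rfl

lemma codeg_lr (h : S.Ok K ρ1 ρ lam) (hs : 0 ≤ s) (hs1 : s ≤ 1) (Q : ι) (z : Λ × G) :
    ∑ i ∈ univ.filter (fun i => Sum.inl Q ∈ S.ed i ∧ Sum.inr z ∈ S.ed i), S.ww s i ≤
      K * (1 / (ρ * Fintype.card G)) / ρ1 ^ K := by
  rw [sum_filter_ww, sum_eq_single Q]
  · refine (sum_ww_le' h hs hs1 Q _ fun _ => ind_nonneg _).trans ?_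
    refine div_le_div_of_nonneg_right ?_ (pow_pos h.ρ1pos K).le
    calc _ ≤ (mu S.F h.ne).E (fun x => ∑ j ∈ S.Jq Q, ind (S.val j x = z.2)) := by
          refine FP.E_mono _ fun x => le_trans (ind_mono fun hh => ?_) (ind_exists_le _ _)
          obtain ⟨j, hj, _, e⟩ := inr_mem_ed.1 hh.2
          exact ⟨j, hj, e⟩
      _ ≤ ∑ _j ∈ S.Jq Q, 1 / (ρ * Fintype.card G) := by
          rw [FP.E_sum]; exact sum_le_sum fun j _ => P_val h j _
      _ ≤ _ := by
          rw [sum_const, nsmul_eq_mul]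
          have : ((S.Jq Q).card : ℝ) ≤ K := by exact_mod_cast h.hK Q
          have hm : (0 : ℝ) < Fintype.card G := by exact_mod_cast Fintype.card_pos
          have := h.ρpos
          gcongr
  · intro Q' _ hQ
    refine sum_eq_zero fun x _ => ?_
    rw [ind_false, mul_zero]
    rw [inl_mem_ed]; exact fun hh => hQ hh.1.symm
  · simp

lemma codeg_rr (h : S.Ok K ρ1 ρ lam) (hs : 0 ≤ s) (hs1 : s ≤ 1) {δ : ℝ} {z z' : Λ × G}
    (hz : z ≠ z')
    (ht : (cnt univ (fun q : J × J => q.1 ≠ q.2 ∧ S.Tied q.1 q.2 ∧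
      S.off q.2 - S.off q.1 = z'.2 - z.2) : ℝ) ≤ δ * Fintype.card G) :
    ∑ i ∈ univ.filter (fun i => Sum.inr z ∈ S.ed i ∧ Sum.inr z' ∈ S.ed i), S.ww s i ≤
      (Fintype.card ι * K ^ 2 * (1 / (ρ * Fintype.card G) ^ 2) + δ / ρ1) / ρ1 ^ K := by
  have hm : (0 : ℝ) < Fintype.card G := by exact_mod_cast Fintype.card_pos
  have hρ := h.ρpos
  have hρ1 := h.ρ1pos
  let T : J × J → Prop := fun q => q.1 ≠ q.2 ∧ S.Tied q.1 q.2 ∧ S.off q.2 - S.off q.1 = z'.2 - z.2
  have key : ∀ Q, (mu S.F h.ne).E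
      (fun x => ind (Sum.inr z ∈ S.ed (Q, x) ∧ Sum.inr z' ∈ S.ed (Q, x))) ≤
      K ^ 2 * (1 / (ρ * Fintype.card G) ^ 2) +
        (∑ j ∈ S.Jq Q, ∑ j', ind (T (j, j'))) * (1 / (ρ1 * Fintype.card G)) := by
    intro Q
    calc _ ≤ (mu S.F h.ne).E (fun x => ∑ q ∈ S.Jq Q ×ˢ S.Jq Q,
          ind (q.1 ≠ q.2 ∧ S.val q.1 x = z.2 ∧ S.val q.2 x = z'.2)) := by
          refine FP.E_mono _ fun x => le_trans (ind_mono fun hh => ?_) (ind_exists_le _ _)
          obtain ⟨j, hj, a, b⟩ := inr_mem_ed.1 hh.1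
          obtain ⟨j', hj', a', b'⟩ := inr_mem_ed.1 hh.2
          refine ⟨(j, j'), mem_product.2 ⟨hj, hj'⟩, ?_, b, b'⟩
          intro e
          simp only at e
          subst e
          exact hz (Prod.ext (a.symm.trans a') (b.symm.trans b'))
      _ ≤ ∑ q ∈ S.Jq Q ×ˢ S.Jq Q, (1 / (ρ * Fintype.card G) ^ 2 +
            ind (T q) * (1 / (ρ1 * Fintype.card G))) := by
          rw [FP.E_sum]
          refine sum_le_sum fun q _ => ?_
          have p1 : 0 ≤ ind (T q) * (1 / (ρ1 * Fintype.card G)) :=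
            mul_nonneg (ind_nonneg _) (by positivity)
          have p2 : (0 : ℝ) ≤ 1 / (ρ * Fintype.card G) ^ 2 := by positivity
          by_cases hq : q.1 = q.2
          · refine FP.E_le _ fun x => ?_
            rw [ind_false fun hh => hh.1 hq]; linarith
          · by_cases ht : S.Tied q.1 q.2
            · by_cases ho : S.off q.2 - S.off q.1 = z'.2 - z.2
              · rw [ind_true (show T q from ⟨hq, ht, ho⟩), one_mul]
                have a1 : (mu S.F h.ne).E (fun x =>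
                    ind (q.1 ≠ q.2 ∧ S.val q.1 x = z.2 ∧ S.val q.2 x = z'.2)) ≤
                    1 / ((S.F (S.own q.1)).card : ℝ) :=
                  le_trans (FP.E_mono _ fun x => ind_mono fun hh => hh.2.1) (P_val' h _ _)
                have a2 : 1 / ((S.F (S.own q.1)).card : ℝ) ≤ 1 / (ρ1 * Fintype.card G) :=
                  one_div_le_one_div_of_le (by positivity) (h.htie _ _ hq ht).2
                linarith
              · refine FP.E_le _ fun x => ?_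
                rw [ind_false]
                · linarith
                · rintro ⟨_, a, b⟩
                  apply ho
                  simp only [val, ht.2.1, ht.2.2, ht.1, Bool.false_eq_true, if_false] at a b
                  rw [← a, ← b]; abel
            · have a1 := le_trans (FP.E_mono (mu S.F h.ne) fun x => ind_mono
                (fun hh : q.1 ≠ q.2 ∧ S.val q.1 x = z.2 ∧ S.val q.2 x = z'.2 => hh.2))
                (P_val2 h hq ht z.2 z'.2)
              linarith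
      _ ≤ _ := by
          rw [sum_add_distrib, sum_const, card_product, nsmul_eq_mul, ← sum_mul, sum_product]
          have : ((S.Jq Q).card : ℝ) ≤ K := by exact_mod_cast h.hK Q
          push_cast
          rw [sq (K : ℝ)]
          gcongr with j hj
          · exact fun _ _ _ => ind_nonneg _
          · exact subset_univ _
  rw [sum_filter_ww]
  calc _ ≤ ∑ Q, (K ^ 2 * (1 / (ρ * Fintype.card G) ^ 2) +
        (∑ j ∈ S.Jq Q, ∑ j', ind (T (j, j'))) * (1 / (ρ1 * Fintype.card G))) / ρ1 ^ K :=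
        sum_le_sum fun Q _ => (sum_ww_le' h hs hs1 Q _ fun _ => ind_nonneg _).trans
          (div_le_div_of_nonneg_right (key Q) (by positivity))
    _ ≤ _ := by
        rw [← sum_div, sum_add_distrib, sum_const, ← sum_mul, card_univ, nsmul_eq_mul]
        refine div_le_div_of_nonneg_right ?_ (by positivity)
        have e : ∑ Q, ∑ j ∈ S.Jq Q, ∑ j', ind (T (j, j')) = (cnt univ T : ℝ) := by
          rw [cnt_cast, Fintype.sum_prod_type]
          exact sum_fiberwise (s := univ) (g := fun j => S.cp (S.own j)) _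
        rw [e]
        have : (cnt univ T : ℝ) * (1 / (ρ1 * Fintype.card G)) ≤ δ / ρ1 := by
          calc _ ≤ δ * Fintype.card G * (1 / (ρ1 * Fintype.card G)) := by gcongr
            _ = _ := by field_simp
        linarith

lemma overload (h : S.Ok K ρ1 ρ lam) (hs : 0 ≤ s) (hs1 : s ≤ 1) {ξ : ℝ}
    (hl : ∀ A : Λ → Finset G, (∀ τ, A τ ⊆ S.Cl τ) →
      s * ∑ j, S.mass j (A (S.cls j)) ≤ ∑ τ, ((A τ).card : ℝ) + ξ * Fintype.card G) :
    ∑ a, max (∑ i ∈ univ.filter (fun i => a ∈ S.ed i), S.ww s i - 1) 0 ≤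
      Fintype.card ι * (K + 1) * (K * (lam / ρ ^ 2) / ρ1 ^ K) + ξ * Fintype.card G := by
  classical
  have hρ := h.ρpos
  have hρ1 := h.ρ1pos
  have hlam := h.lampos
  set ε1 : ℝ := K * (lam / ρ ^ 2) / ρ1 ^ K with hε1
  have hε : 0 ≤ ε1 := by positivity
  rw [Fintype.sum_sum_type]
  have a1 : ∑ Q : ι, max (∑ i ∈ univ.filter (fun i => Sum.inl Q ∈ S.ed i), S.ww s i - 1) 0 ≤
      Fintype.card ι * ε1 := by
    calc _ ≤ ∑ _Q : ι, ε1 := sum_le_sum fun Q _ => max_le (by linarith [load_inl h hs hs1 Q]) hε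
      _ = _ := by simp
  let ld : Λ × G → ℝ := fun z => ∑ i ∈ univ.filter (fun i => Sum.inr z ∈ S.ed i), S.ww s i
  let A : Λ → Finset G := fun τ => univ.filter (fun y => 1 < ld (τ, y))
  have hA : ∀ τ, A τ ⊆ S.Cl τ := by
    intro τ y hy
    by_contra hn
    have h1 : 1 < ld (τ, y) := (mem_filter.1 hy).2
    have h2 : ld (τ, y) ≤ 0 := by
      refine sum_nonpos fun i hi => ?_
      by_contra hp
      obtain ⟨j, hj, a, b⟩ := inr_mem_ed.1 (mem_filter.1 hi).2
      have := (ww_pos h (not_le.1 hp)).2.2 j hj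
      rw [a, b] at this
      exact hn this
    linarith
  have a2 : ∑ z : Λ × G, max (ld z - 1) 0 = ∑ τ, ∑ y ∈ A τ, ld (τ, y) - ∑ τ, ((A τ).card : ℝ) := by
    rw [Fintype.sum_prod_type, ← sum_sub_distrib]
    refine sum_congr rfl fun τ _ => ?_
    rw [card_eq_sum_ones, Nat.cast_sum, ← sum_sub_distrib, sum_filter]
    refine sum_congr rfl fun y _ => ?_
    split_ifs with hy
    · rw [max_eq_left (by linarith)]; simp
    · rw [max_eq_right (by linarith)]
  have a3 := load_inr h hs A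
  have a4 := hl A hA
  have a5 : (Fintype.card J : ℝ) ≤ Fintype.card ι * K := by
    have : Fintype.card J ≤ Fintype.card ι * K := by
      rw [← card_univ, card_eq_sum_card_fiberwise (f := fun j => S.cp (S.own j)) (t := univ)
        (fun _ _ => mem_univ _)]
      calc _ ≤ ∑ _Q : ι, K := sum_le_sum fun Q _ => h.hK Q
        _ = _ := by simp
    exact_mod_cast this
  rw [sum_add_distrib, sum_const, card_univ, nsmul_eq_mul, mul_add, ← hε1] at a3
  have a6 : s * (Fintype.card J * ε1) ≤ Fintype.card ι * K * ε1 :=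
    (mul_le_of_le_one_left (by positivity) hs1).trans (by gcongr)
  have a7 : ∑ z : Λ × G, max (∑ i ∈ univ.filter (fun i => Sum.inr z ∈ S.ed i), S.ww s i - 1) 0 =
    ∑ z : Λ × G, max (ld z - 1) 0 := rfl
  rw [a7, a2]
  simp only [ld]
  nlinarith

end Sys

/-- almost all components of a system can be embedded with all slots distinct -/
theorem embed (K : ℕ) (ρ1 η : ℝ) (hρ1 : 0 < ρ1) (hη : 0 < η) : ∃ δ : ℝ, 0 < δ ∧ ∃ ξ : ℝ, 0 < ξ ∧
    ∀ ρ : ℝ, 0 < ρ → ∃ lam : ℝ, 0 < lam ∧ ∃ m0 : ℕ,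
    ∀ (N J ι Λ G : Type) [Fintype N] [DecidableEq N] [Fintype J] [DecidableEq J]
      [Fintype ι] [DecidableEq ι] [Fintype Λ] [DecidableEq Λ] [Fintype G] [DecidableEq G]
      [AddCommGroup G] (S : Sys N J ι Λ G) (s : ℝ), m0 ≤ Fintype.card G → S.Ok K ρ1 ρ lam →
      Fintype.card N ≤ 2 * Fintype.card G → Fintype.card ι ≤ 2 * Fintype.card G → 0 ≤ s → s ≤ 1 →
      (∀ Q, (univ.filter (fun v => S.cp v = Q)).card ≤ K) →
      ∑ τ, (S.Cl τ).card ≤ 11 * Fintype.card G →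
      (∀ a, (cnt univ (fun q : J × J => q.1 ≠ q.2 ∧ S.Tied q.1 q.2 ∧
        S.off q.2 - S.off q.1 = a) : ℝ) ≤ δ * Fintype.card G) →
      (∀ A : Λ → Finset G, (∀ τ, A τ ⊆ S.Cl τ) →
        s * ∑ j, S.mass j (A (S.cls j)) ≤ ∑ τ, ((A τ).card : ℝ) + ξ * Fintype.card G) →
      ∃ (Cov : Finset ι) (x : N → G), (∀ v, S.cp v ∈ Cov → x v ∈ S.F v) ∧
        (∀ j, S.cp (S.own j) ∈ Cov → S.val j x ∈ S.Cl (S.cls j)) ∧
        (∀ j j', S.cp (S.own j) ∈ Cov → S.cp (S.own j') ∈ Cov → S.cls j = S.cls j' →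
          S.val j x = S.val j' x → j = j') ∧
        ((univ.filter (fun v => S.cp v ∉ Cov)).card : ℝ) ≤
          (1 - s) * Fintype.card N + η * Fintype.card G := by
  obtain ⟨η0, h0, h01, h0η⟩ : ∃ η0 : ℝ, 0 < η0 ∧ η0 ≤ 1 ∧ η0 ≤ η :=
    ⟨min η 1, lt_min hη one_pos, min_le_right _ _, min_le_left _ _⟩
  obtain ⟨K', hK'⟩ : ∃ K' : ℝ, K' = K + 1 := ⟨_, rfl⟩
  have hK0 : (0 : ℝ) ≤ K := by positivity
  have hK1 : 1 ≤ K' := by linarith
  have hKK : (K : ℝ) ≤ K' := by linarith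
  obtain ⟨δ0, hδ0, hnib⟩ := nibble (K + 1) (η0 / (60 * K')) (by positivity)
  have hr : 0 < ρ1 ^ K := by positivity
  refine ⟨δ0 * ρ1 ^ K * ρ1 / 2, by positivity, η0 / (10 * K'), by positivity, fun ρ hρ => ?_⟩
  refine ⟨η0 * ρ ^ 2 * ρ1 ^ K / (100 * K' ^ 3), by positivity,
    ⌈4 * K' ^ 2 / (ρ ^ 2 * ρ1 ^ K * δ0) + K' / (ρ * ρ1 ^ K * δ0) +
      100 * K' ^ 2 / (ρ * ρ1 ^ K * η0)⌉₊, ?_⟩
  intro N J ι Λ G _ _ _ _ _ _ _ _ _ _ _ S s hm0 h hN hι hs hs1 hK2 hCl htie hload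
  classical
  set m : ℝ := (Fintype.card G : ℝ) with hmdef
  have hm : 0 < m := by rw [hmdef]; exact_mod_cast Fintype.card_pos
  have hm1 : 4 * K' ^ 2 / (ρ ^ 2 * ρ1 ^ K * δ0) + K' / (ρ * ρ1 ^ K * δ0) +
      100 * K' ^ 2 / (ρ * ρ1 ^ K * η0) ≤ m := (Nat.ceil_le.1 hm0)
  have t1 : 0 ≤ 4 * K' ^ 2 / (ρ ^ 2 * ρ1 ^ K * δ0) := by positivity
  have t2 : 0 ≤ K' / (ρ * ρ1 ^ K * δ0) := by positivity
  have t3 : 0 ≤ 100 * K' ^ 2 / (ρ * ρ1 ^ K * η0) := by positivity
  have hN' : (Fintype.card N : ℝ) ≤ 2 * m := by rw [hmdef]; exact_mod_cast hN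
  have hι' : (Fintype.card ι : ℝ) ≤ 2 * m := by rw [hmdef]; exact_mod_cast hι
  have b1 : K * (1 / (ρ * m)) / ρ1 ^ K ≤ δ0 := by
    have : K' / (ρ * ρ1 ^ K * δ0) ≤ m := by linarith
    rw [div_le_iff₀ (by positivity)] at this
    rw [div_le_iff₀ hr, mul_one_div, div_le_iff₀ (by positivity)]
    nlinarith
  have b2 : (Fintype.card ι * K ^ 2 * (1 / (ρ * m) ^ 2) + δ0 * ρ1 ^ K * ρ1 / 2 / ρ1) / ρ1 ^ K
      ≤ δ0 := by
    have : 4 * K' ^ 2 / (ρ ^ 2 * ρ1 ^ K * δ0) ≤ m := by linarith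
    rw [div_le_iff₀ (by positivity)] at this
    have c1 : (Fintype.card ι : ℝ) * K ^ 2 * (1 / (ρ * m) ^ 2) ≤ δ0 * ρ1 ^ K / 2 := by
      rw [mul_one_div, div_le_iff₀ (by positivity)]
      calc (Fintype.card ι : ℝ) * K ^ 2 ≤ 2 * m * K' ^ 2 := by gcongr
        _ = m / 2 * (4 * K' ^ 2) := by ring
        _ ≤ m / 2 * (m * (ρ ^ 2 * ρ1 ^ K * δ0)) := by gcongr
        _ = _ := by ring
    have c2 : δ0 * ρ1 ^ K * ρ1 / 2 / ρ1 = δ0 * ρ1 ^ K / 2 := by field_simp
    rw [c2, div_le_iff₀ hr]; linarith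
  set ε1 : ℝ := K * (η0 * ρ ^ 2 * ρ1 ^ K / (100 * K' ^ 3) / ρ ^ 2) / ρ1 ^ K with hε1
  have b3 : K' ^ 2 * ε1 ≤ η0 / 100 := by
    have : K' ^ 2 * ε1 = η0 / 100 * (K / K') := by rw [hε1]; field_simp
    rw [this]
    exact mul_le_of_le_one_right (by positivity) (div_le_one_of_le₀ hKK (by linarith))
  have hε0 : 0 ≤ ε1 := by positivity
  have b3' : ε1 ≤ η0 / 100 := le_trans (le_mul_of_one_le_left hε0 (by nlinarith)) b3
  have b4 : K ^ 2 * (1 / (ρ * m)) / ρ1 ^ K ≤ η0 / 100 := by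
    have : 100 * K' ^ 2 / (ρ * ρ1 ^ K * η0) ≤ m := by linarith
    rw [div_le_iff₀ (by positivity)] at this
    rw [div_le_iff₀ hr, mul_one_div, div_le_iff₀ (by positivity)]
    have : (K : ℝ) ^ 2 ≤ K' ^ 2 := by gcongr
    nlinarith
  let nq : ι → ℝ := fun Q => ((univ.filter (fun v => S.cp v = Q)).card : ℝ)
  have hnq : ∀ Q, nq Q ≤ K := fun Q => by simp only [nq]; exact_mod_cast hK2 Q
  have hnq0 : ∀ Q, 0 ≤ nq Q := fun Q => by simp only [nq]; positivity
  let SS : Finset (ι ⊕ Λ × G) := univ.image Sum.inl ∪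
    univ.biUnion (fun τ => (S.Cl τ).image (fun y => Sum.inr (τ, y)))
  have hSS : (SS.card : ℝ) ≤ 13 * m := by
    have c1 : SS.card ≤ Fintype.card ι + ∑ τ, (S.Cl τ).card := by
      refine (card_union_le _ _).trans (add_le_add (card_image_le.trans (by simp)) ?_)
      exact card_biUnion_le.trans (sum_le_sum fun τ _ => card_image_le)
    have : SS.card ≤ 13 * Fintype.card G := by omega
    rw [hmdef]; exact_mod_cast this
  obtain ⟨M, hM1, hM2, hM3⟩ := hnib (ι × (N → G)) (ι ⊕ Λ × G) S.ed (S.ww s) (fun i => nq i.1 / K')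
    SS (Sys.ww_nonneg h hs) (fun i => div_nonneg (hnq0 _) (by linarith))
    (fun i => div_le_one_of_le₀ ((hnq _).trans hKK) (by linarith))
    (fun i => ⟨_, mem_insert_self _ _⟩)
    (fun i => (card_insert_le _ _).trans (Nat.succ_le_succ (card_image_le.trans (h.hK _))))
    (fun i hi a ha => by
      rcases a with Q | z
      · exact mem_union_left _ (mem_image_of_mem _ (mem_univ _))
      · obtain ⟨j, hj, a, b⟩ := Sys.inr_mem_ed.1 ha
        refine mem_union_right _ (mem_biUnion.2 ⟨z.1, mem_univ _, mem_image.2 ⟨z.2, ?_, rfl⟩⟩)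
        rw [← a, ← b]; exact (Sys.ww_pos h hi).2.2 j hj)
    (fun a b hab => by
      rcases a with Q | z <;> rcases b with Q' | z'
      · rw [sum_eq_zero]
        · exact hδ0.le
        · intro i hi
          obtain ⟨c, d⟩ := (mem_filter.1 hi).2
          rw [Sys.inl_mem_ed] at c d
          exact absurd (by rw [c, d]) hab
      · exact (Sys.codeg_lr h hs hs1 Q z').trans b1
      · simp only [and_comm (a := Sum.inr z ∈ _)]
        exact (Sys.codeg_lr h hs hs1 Q' z).trans b1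
      · exact (Sys.codeg_rr h hs hs1 (fun e => hab (by rw [e])) (htie _)).trans b2)
  have huniq : ∀ i ∈ M, ∀ i' ∈ M, i.1 = i'.1 → i = i' := by
    intro i hi i' hi' e
    by_contra hne
    exact disjoint_left.1 (hM2 i hi i' hi' hne) (Sys.inl_mem_ed.2 rfl) (Sys.inl_mem_ed.2 e)
  have hX : ∀ Q, ∃ x : N → G, Q ∈ M.image Prod.fst → (Q, x) ∈ M := by
    intro Q
    by_cases hQ : Q ∈ M.image Prod.fst
    · obtain ⟨i, hi, rfl⟩ := mem_image.1 hQ
      exact ⟨i.2, fun _ => hi⟩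
    · exact ⟨fun _ => 0, fun h => absurd h hQ⟩
  choose X hX using hX
  have hval : ∀ j, S.val j (fun v => X (S.cp v) v) = S.val j (X (S.cp (S.own j))) := by
    intro j
    by_cases hb : S.bn j = true
    · simp only [Sys.val, hb, if_true, (h.hbn j hb).2]
    · simp [Sys.val, hb]
  have hJ : ∀ j, j ∈ S.Jq (S.cp (S.own j)) := fun j => mem_filter.2 ⟨mem_univ _, rfl⟩
  refine ⟨M.image Prod.fst, fun v => X (S.cp v) v, fun v hv => ?_, fun j hj => ?_,
    fun j j' hj hj' hc hv => ?_, ?_⟩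
  · exact (Sys.ww_pos h (hM1 _ (hX _ hv))).1 v
  · rw [hval]; exact (Sys.ww_pos h (hM1 _ (hX _ hj))).2.2 j (hJ j)
  · rw [hval, hval] at hv
    by_cases hQ : S.cp (S.own j) = S.cp (S.own j')
    · refine (Sys.ww_pos h (hM1 _ (hX _ hj))).2.1 j (hJ j) j' (hQ ▸ hJ j') hc ?_
      rw [hv, hQ]
    · exfalso
      refine disjoint_left.1 (hM2 _ (hX _ hj) _ (hX _ hj') fun e => hQ (congrArg Prod.fst e))
        (Sys.inr_mem_ed.2 ⟨j, hJ j, rfl, rfl⟩ : Sum.inr (S.cls j, S.val j (X (S.cp (S.own j)))) ∈ _)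
        (Sys.inr_mem_ed.2 ⟨j', hJ j', hc.symm, hv.symm⟩)
  · have hov := Sys.overload h hs hs1 hload
    rw [← hε1, ← hK', ← hmdef] at hov
    have hsumN : ∑ Q, nq Q = Fintype.card N := by
      simp only [nq]
      rw [← Nat.cast_sum, ← card_eq_sum_card_fiberwise (fun _ _ => mem_univ _), card_univ]
    have c1 : s * (1 - η0 / 50) * (Fintype.card N / K') ≤ ∑ i, S.ww s i * (nq i.1 / K') := by
      rw [Fintype.sum_prod_type, ← hsumN, sum_div, mul_sum]
      refine sum_le_sum fun Q _ => ?_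
      simp only
      rw [← sum_mul]
      refine mul_le_mul_of_nonneg_right (le_trans ?_ (Sys.sum_ww_ge h hs Q))
        (div_nonneg (hnq0 _) (by linarith))
      refine mul_le_mul_of_nonneg_left ?_ hs
      rw [add_div, ← hε1, ← hmdef]; linarith
    have c2 : ∑ i ∈ M, nq i.1 / K' = (Fintype.card N -
        ((univ.filter (fun v => S.cp v ∉ M.image Prod.fst)).card : ℝ)) / K' := by
      rw [← sum_div, ← sum_image (s := M) (g := Prod.fst) (f := nq) huniq]
      congr 1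
      have d1 := card_filter_add_card_filter_not (s := (univ : Finset N))
        (fun v => S.cp v ∈ M.image Prod.fst)
      have d2 : (univ.filter (fun v => S.cp v ∈ M.image Prod.fst)).card =
          ∑ Q ∈ M.image Prod.fst, (univ.filter (fun v => S.cp v = Q)).card := by
        rw [card_eq_sum_card_fiberwise (f := S.cp) (t := M.image Prod.fst)
          (s := univ.filter (fun v => S.cp v ∈ M.image Prod.fst))
          (fun v hv => mem_coe.2 (mem_filter.1 (mem_coe.1 hv)).2)]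
        refine sum_congr rfl fun Q hQ => ?_
        congr 1
        ext v
        simp only [mem_filter, mem_univ, true_and]
        exact ⟨fun h => h.2, fun h => ⟨h ▸ hQ, h⟩⟩
      rw [card_univ, d2] at d1
      simp only [nq]
      rw [← d1]; push_cast; ring
    rw [c2] at hM3
    have hη' : η0 / (60 * K') ≤ η0 / 20 := by gcongr; linarith
    have hη'0 : 0 ≤ η0 / (60 * K') := by positivity
    have c3 := mul_le_mul_of_nonneg_left c1 (show 0 ≤ 1 - η0 / (60 * K') by linarith)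
    have c4 : η0 / (60 * K') * SS.card ≤ η0 / (60 * K') * (13 * m) := by gcongr
    have c5 : Fintype.card ι * K' * ε1 ≤ 2 * m * K' * ε1 := by gcongr
    have c6 : (1 - η0 / (60 * K')) * (s * (1 - η0 / 50) * (Fintype.card N / K')) -
        η0 / (60 * K') * (13 * m) - (2 * m * K' * ε1 + η0 / (10 * K') * m) ≤ (Fintype.card N -
        ((univ.filter (fun v => S.cp v ∉ M.image Prod.fst)).card : ℝ)) / K' := by linarith
    rw [le_div_iff₀ (by linarith)] at c6
    have c7 : ((1 - η0 / (60 * K')) * (s * (1 - η0 / 50) * (Fintype.card N / K')) -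
        η0 / (60 * K') * (13 * m) - (2 * m * K' * ε1 + η0 / (10 * K') * m)) * K' =
        (1 - η0 / (60 * K')) * (1 - η0 / 50) * (s * Fintype.card N) - 13 * η0 / 60 * m -
          2 * m * (K' ^ 2 * ε1) - η0 / 10 * m := by
      field_simp; ring
    rw [c7] at c6
    have c8 : 1 - η0 / 20 - η0 / 50 ≤ (1 - η0 / (60 * K')) * (1 - η0 / 50) := by nlinarith
    have hN0 : (0 : ℝ) ≤ Fintype.card N := by positivity
    have c9 : s * Fintype.card N ≤ 2 * m := (mul_le_of_le_one_left hN0 hs1).trans hN'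
    have c10 := mul_le_mul_of_nonneg_right c8 (mul_nonneg hs hN0)
    have c11 : 2 * m * (K' ^ 2 * ε1) ≤ 2 * m * (η0 / 100) := by gcongr
    have c12 : η0 * (s * Fintype.card N) ≤ η0 * (2 * m) := by gcongr
    have c13 : η0 * m ≤ η * m := by gcongr
    nlinarith

end

end Pool.Agent.Lib.MP_5cebc8_co
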