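import Pool.Agent.Lib.MP_5cebc8_co.ZB

open Finset
open Pool.Agent.Lib.MP_ad359d_co

namespace Pool.Agent.Lib.MP_5cebc8_co

set_option linter.unusedSectionVars false

noncomputable section

lemma Unif.mono {G : Type} [AddCommGroup G] [Fintype G] {A : Finset G} {p a b : ℝ}
    (h : Unif A p a) (hab : a ≤ b) : Unif A p b := fun f g hf hg =>
  (h f g hf hg).trans (by gcongr)

lemma card_shift {G : Type} [AddCommGroup G] [Fintype G] [DecidableEq G] (A : Finset G) (z : G) :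
    (univ.filter (fun x => x + z ∈ A)).card = A.card := by
  refine card_bij (fun x _ => x + z) (fun x hx => (mem_filter.1 hx).2)
    (fun x _ y _ e => add_right_cancel e) fun y hy => ⟨y - z, by simpa using hy, by simp⟩

namespace Pre

variable {V : Type} [Fintype V] [DecidableEq V] (P : Pre V) {m : ℕ} [NeZero m]
  (A : Cn P.Own → Finset (ZMod m)) (p : Cn P.Own → ℝ) (z : V → ZMod m)

/-- the numerical hypotheses on the classes -/
structure Num (L : ℕ) (lam lam' ρ ρ1 σ : ℝ) : Prop where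
  pat : Pat L lam A p
  p01 : ∀ a, 0 ≤ p a ∧ p a ≤ 1
  Lpos : 0 < L
  lam0 : 0 ≤ lam
  lam0' : 0 ≤ lam'
  hl : 4 * lam * m + 6 * L ≤ lam' ^ 2 * m
  far : ∀ v ∈ P.N1, far L (z (P.an v))
  q0 : ∀ v ∈ P.N0, 2 * ρ ≤ P.q p v
  q1 : ∀ v ∈ P.N1, 2 * ρ1 ≤ P.q p v
  pc : ρ1 ≤ p .cc
  pd : ρ1 ≤ p .dd
  ρ0 : 0 < ρ
  ρ1' : ρ ≤ 1
  ρ10 : 0 < ρ1
  lamσ : lam ≤ σ * (2 * ρ)
  σ0 : 0 ≤ σ
  σ1 : σ ≤ 1 / 2

variable {P A p z} {L : ℕ} {lam lam' ρ ρ1 σ dg : ℝ}

lemma Cl_card (τ : Cn P.Own) : (P.Cl A z τ).card = (A τ).card := by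
  cases τ with
  | own w => exact card_shift _ _
  | _ => rfl

lemma Num.Cl_unif (hn : P.Num A p z L lam lam' ρ ρ1 σ) (τ : Cn P.Own) :
    Unif (P.Cl A z τ) (p τ) lam' := by
  have := hn.pat.unif hn.Lpos hn.p01 hn.lam0 hn.lam0' hn.hl τ
  cases τ with
  | own w => exact this.shift _
  | _ => exact this

lemma Num.F_size (h : P.Ok dg) (hn : P.Num A p z L lam lam' ρ ρ1 σ) {v : V} (hv : v ∈ P.N0) :
    |((P.F A z v).card : ℝ) - P.q p v * m| ≤ lam * m := by
  unfold F q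
  split_ifs with h1
  · rw [Cl_of_not _ _ (h.an_spec h1).2.2.1]
    exact hn.pat.cross_add hn.Lpos _ _ (hn.far v h1)
  · rw [Cl_card]; exact hn.pat.size _

lemma Num.F_unif (h : P.Ok dg) (hn : P.Num A p z L lam lam' ρ ρ1 σ) {v : V} (hv : v ∈ P.N0) :
    Unif (P.F A z v) (P.q p v) lam' := by
  unfold F q
  split_ifs with h1
  · rw [Cl_of_not _ _ (h.an_spec h1).2.2.1]
    exact hn.pat.unif2 hn.Lpos hn.p01 hn.lam0 hn.lam0' hn.hl _ _ (hn.far v h1)
  · exact hn.Cl_unif _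

lemma Num.F_ge (h : P.Ok dg) (hn : P.Num A p z L lam lam' ρ ρ1 σ) {v : V} (hv : v ∈ P.N0) :
    (1 - σ) * P.q p v * m ≤ ((P.F A z v).card : ℝ) := by
  have h1 := (abs_le.1 (hn.F_size h hv)).1
  have h2 := hn.q0 v hv
  have h3 := hn.lamσ
  have h4 : lam ≤ σ * P.q p v := h3.trans (mul_le_mul_of_nonneg_left h2 hn.σ0)
  have hm : (0 : ℝ) ≤ m := by positivity
  nlinarith

lemma Num.F_ge' (h : P.Ok dg) (hn : P.Num A p z L lam lam' ρ ρ1 σ) {v : V} (hv : v ∈ P.N0)
    {r : ℝ} (hr : 2 * r ≤ P.q p v) (hr0 : 0 ≤ r) : r * m ≤ ((P.F A z v).card : ℝ) := by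
  refine le_trans ?_ (hn.F_ge h hv)
  have := hn.σ1
  have hm : (0 : ℝ) ≤ m := by positivity
  gcongr
  nlinarith

lemma Num.F_rho (h : P.Ok dg) (hn : P.Num A p z L lam lam' ρ ρ1 σ) (v : V) :
    ρ * m ≤ ((P.F A z v).card : ℝ) := by
  by_cases hv : v ∈ P.N0
  · exact hn.F_ge' h hv (hn.q0 v hv) hn.ρ0.le
  · have h1 : v ∉ P.N1 := fun a => hv (mem_N1.1 a).1
    simp only [F, hv, h1, if_false, card_univ, ZMod.card]
    exact mul_le_of_le_one_left (by positivity) hn.ρ1'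

lemma tau_ne_cc (v : V) : P.tau v ≠ .cc := by
  unfold tau; split_ifs <;> simp

theorem sys_ok (h : P.Ok dg) (hn : P.Num A p z L lam lam' ρ ρ1 σ) {lamE : ℝ} (hE : lam' ≤ lamE) :
    (P.sys A p z).Ok (3 * P.K + 1) ρ1 ρ lamE where
  hbn := by
    rintro (v | v | ⟨v, hv⟩) hb
    · simp [sys, bn] at hb
    · simp [sys, bn] at hb
    · obtain ⟨h0, hp⟩ := mem_N2.1 hv
      have hR := (mem_N0.1 h0).1
      have hd := P.T.dep_par v (h.ne_root hR)
      refine ⟨?_, ?_⟩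
      · show P.T.dep (P.π (P.T.par v)) < P.T.dep v
        by_cases e : P.π (P.T.par v) = P.T.par v
        · rw [e]; omega
        · have := (h.tie.tied _ e).2.2.2.2.2.2.2.1
          omega
      · show P.cp' (P.π (P.T.par v)) = P.cp' v
        simp only [cp', hR, (mem_N0.1 (h.pi_N0 hp)).1, if_false]
        rw [h.cp_pi, h.cut.cp_par v hR hp]
  hbn1 := by
    rintro (v | v | v) (u | u | u) a b c <;> simp [sys, bn] at a b
    exact congrArg _ (congrArg _ (Subtype.ext c))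
  hK := fun Q => slots_card h Q
  hF := fun v => by rw [ZMod.card]; exact hn.F_rho h v
  hU := by
    rintro (v | v | v) hb
    · simp [sys, bn] at hb
    · simp [sys, bn] at hb
    · refine ⟨(hn.Cl_unif _).mono hE, ?_, (hn.p01 _).2⟩
      show ρ1 ≤ p (if (v : V) ∈ P.Vt then .dd else .cc)
      split_ifs
      · exact hn.pd
      · exact hn.pc
  hun := by
    rintro (v | v | v) hb y hy
    · show y + 0 ∈ P.Cl A z (P.tau v)
      rw [add_zero]; exact F_sub _ _ v.2 hy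
    · show y + z (P.an v) ∈ A .cc
      have hy' : y ∈ P.F A z v := hy
      simp only [F, v.2, if_true] at hy'
      exact (mem_filter.1 hy').2
    · simp [sys, bn] at hb
  htie := by
    rw [ZMod.card]
    rintro (v | v | v) (u | u | u) hne ⟨a, b, c⟩ <;> simp [sys, bn] at b c
    · exact absurd (congrArg _ (Subtype.ext a)) hne
    · have a' : (v : V) = u := a
      exact ⟨tau_ne_cc _, hn.F_ge' h v.2 (a' ▸ hn.q1 u u.2) hn.ρ10.le⟩
    · exact ⟨(tau_ne_cc _).symm, hn.F_ge' h (mem_N1.1 v.2).1 (hn.q1 v v.2) hn.ρ10.le⟩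
    · exact absurd (congrArg _ (congrArg _ (Subtype.ext a))) hne
  ρ1pos := hn.ρ10
  ρ1le := hn.pc.trans (hn.p01 _).2
  ρpos := hn.ρ0
  lampos := hn.lam0'.trans hE

theorem sys_tie {M : ℝ} (hM : ∀ a, ((P.N1.filter (fun v => z (P.an v) = a)).card : ℝ) ≤ M)
    (a : ZMod m) : (cnt univ (fun q : P.J × P.J => q.1 ≠ q.2 ∧ (P.sys A p z).Tied q.1 q.2 ∧
      (P.sys A p z).off q.2 - (P.sys A p z).off q.1 = a) : ℝ) ≤ 2 * M := by
  classical
  have h1 : cnt univ (fun q : P.J × P.J => q.1 ≠ q.2 ∧ (P.sys A p z).Tied q.1 q.2 ∧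
      (P.sys A p z).off q.2 - (P.sys A p z).off q.1 = a) ≤
      cnt (univ : Finset (V × Bool)) (fun y => (y.2 = true ∧ y.1 ∈ P.N1 ∧ z (P.an y.1) = a) ∨
        (y.2 = false ∧ y.1 ∈ P.N1 ∧ z (P.an y.1) = -a)) := by
    refine cnt_le_of_inj (fun q => (P.own q.1, q.1.isLeft)) ?_ ?_
    · rintro ⟨v | v | v, u | u | u⟩ - ⟨hne, ⟨a, b, c⟩, d⟩ <;> simp [sys, bn] at b c
      · exact absurd (congrArg _ (Subtype.ext a)) hne
      · have a' : (v : V) = u := a
        refine ⟨mem_univ _, Or.inl ⟨rfl, ?_, ?_⟩⟩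
        · show (v : V) ∈ P.N1
          rw [a']; exact u.2
        · show z (P.an v) = _
          rw [a']; simpa [sys, off] using d
      · refine ⟨mem_univ _, Or.inr ⟨rfl, v.2, ?_⟩⟩
        show z (P.an v) = _
        simp only [sys, off, zero_sub] at d
        rw [← d, neg_neg]
      · exact absurd (congrArg _ (congrArg _ (Subtype.ext a))) hne
    · rintro ⟨v | v | v, u | u | u⟩ - ⟨v' | v' | v', u' | u' | u'⟩ - ⟨hne, ⟨a, b, c⟩, -⟩
        ⟨hne', ⟨a', b', c'⟩, -⟩ e <;> simp [sys, bn, own] at a b c a' b' c' hne hne' e ⊢ <;>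
        first
        | exact absurd a hne
        | exact absurd a' hne'
        | exact ⟨e, Subtype.ext (by rw [← a, ← a', e])⟩
  have h2 := cnt_or_le (univ : Finset (V × Bool))
    (fun y => y.2 = true ∧ y.1 ∈ P.N1 ∧ z (P.an y.1) = a)
    (fun y => y.2 = false ∧ y.1 ∈ P.N1 ∧ z (P.an y.1) = -a)
  have h3 : ∀ (b : Bool) (c : ZMod m), cnt (univ : Finset (V × Bool))
      (fun y => y.2 = b ∧ y.1 ∈ P.N1 ∧ z (P.an y.1) = c) ≤
      (P.N1.filter (fun v => z (P.an v) = c)).card := by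
    intro b c
    rw [← cnt_eq]
    exact cnt_le_of_inj (fun y => y.1) (fun y _ hy => hy.2)
      fun y _ y' _ hy hy' e => Prod.ext e (hy.1.trans hy'.1.symm)
  have h4 := hM a
  have h5 := hM (-a)
  have h6 := (h1.trans h2).trans (add_le_add (h3 true a) (h3 false (-a)))
  have h7 : (cnt univ (fun q : P.J × P.J => q.1 ≠ q.2 ∧ (P.sys A p z).Tied q.1 q.2 ∧
      (P.sys A p z).off q.2 - (P.sys A p z).off q.1 = a) : ℝ) ≤
      ((P.N1.filter (fun v => z (P.an v) = a)).card : ℝ) +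
        (P.N1.filter (fun v => z (P.an v) = -a)).card := by exact_mod_cast h6
  linarith

lemma Num.fluct (hn : P.Num A p z L lam lam' ρ ρ1 σ) {δ β : ℝ} (hδ : 0 ≤ δ) (hβ0 : 0 ≤ β)
    (hV : Fintype.card V ≤ 2 * m)
    (hM : ∀ a, ((P.N1.filter (fun v => z (P.an v) - a ∈ Xn m L)).card : ℝ) ≤ 3 * δ * m)
    (hβ : 16 * lam + 6 * δ ≤ β ^ 2) (I : Finset V) (hI : I ⊆ P.N1) (a : Cn P.Own)
    (B : Finset (ZMod m)) (s : V → ZMod m)
    (hs : (∀ v, s v = z (P.an v)) ∨ ∀ v, s v = - z (P.an v)) :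
    ∑ v ∈ I, ∑ y ∈ B, (ind (y + s v ∈ A a) - p a) ≤ β * (m : ℝ) ^ 2 := by
  have hm : (0 : ℝ) ≤ m := by positivity
  have hb := (hn.pat.ac hn.Lpos hn.p01 a).bound (hn.p01 a).1 (hn.p01 a).2
    (by have := hn.lam0; positivity) I s (fun _ => 1) (fun _ _ => by norm_num)
    (M1 := 2 * m) (M2 := 3 * δ * m)
    (by
      rw [sum_const, nsmul_eq_mul, mul_one]
      exact_mod_cast (card_le_univ I).trans hV) (by positivity)
    (fun i _ => by
      refine le_trans ?_ (hM (z (P.an i)))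
      simp only [one_mul]
      rw [← cnt_cast, ← cnt_eq]
      norm_cast
      refine cnt_mono hI fun j _ hj => ?_
      rcases hs with hs | hs
      · rwa [hs, hs] at hj
      · rw [hs, hs] at hj
        have := Xn_neg hn.Lpos _ hj
        rwa [show -(-z (P.an j) - -z (P.an i)) = z (P.an j) - z (P.an i) by abel] at this)
    (fun y => ind (y ∈ B)) (fun _ => abs_ind_le _)
  rw [sum_ind_mem, ZMod.card] at hb
  simp only [one_mul] at hb
  rw [sum_comm]
  refine (abs_le_of_sq_le_sq' ?_ (by positivity)).2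
  refine hb.trans ?_
  calc (m : ℝ) ^ 2 * (4 * lam * (2 * m) ^ 2 + 2 * m * (3 * δ * m)) =
      (16 * lam + 6 * δ) * m ^ 4 := by ring
    _ ≤ β ^ 2 * m ^ 4 := by gcongr
    _ = _ := by ring

lemma Num.p_tau_pos (hn : P.Num A p z L lam lam' ρ ρ1 σ) {v : V} (hv : v ∈ P.N0) :
    0 < p (P.tau v) := by
  have h1 := hn.q0 v hv
  have h2 := hn.ρ0
  refine lt_of_le_of_ne (hn.p01 _).1 fun e => ?_
  unfold q at h1
  rw [← e] at h1
  split_ifs at h1 <;> linarith

lemma sum_ind_filter {G : Type} [Fintype G] [DecidableEq G] {F B : Finset G} (f : G → G)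
    (hf : Function.Injective f) (r : G → Prop) (hr : ∀ a ∈ F, r (f a)) :
    ∑ a ∈ F, ind (f a ∈ B) ≤ ∑ y ∈ B, ind (r y) := by
  rw [← cnt_cast, ← cnt_cast]
  exact_mod_cast cnt_le_of_inj f (fun a ha hb => ⟨hb, hr a ha⟩) fun a _ b _ _ _ e => hf e

/-- the deviation terms -/
def dv (A : Cn P.Own → Finset (ZMod m)) (p : Cn P.Own → ℝ) (a : Cn P.Own) (B : Finset (ZMod m))
    (s : ZMod m) : ℝ := ∑ y ∈ B, (ind (y + s ∈ A a) - p a)

lemma dv_eq (a : Cn P.Own) (B : Finset (ZMod m)) (s : ZMod m) :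
    ∑ y ∈ B, ind (y + s ∈ A a) = p a * B.card + dv A p a B s := by
  unfold dv; rw [sum_sub_distrib]; simp [mul_comm]

lemma Num.mass0 (h : P.Ok dg) (hn : P.Num A p z L lam lam' ρ ρ1 σ) (v : P.N0)
    (B : Finset (ZMod m)) : (P.sys A p z).mass (.inl v) B ≤
      B.card / ((1 - σ) * p (P.tau v) * m) +
        if (v : V) ∈ P.N1 then dv A p .cc B (z (P.an v)) / ((1 - σ) * P.q p v * m) else 0 := by
  have hm : (0 : ℝ) < m := by exact_mod_cast NeZero.pos m
  have hF := hn.F_ge h v.2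
  have hσ : 0 < 1 - σ := by linarith [hn.σ1]
  have hq : 0 < P.q p v := by linarith [hn.q0 v v.2, hn.ρ0]
  have ht := hn.p_tau_pos v.2
  have hc : 0 < p .cc := hn.ρ10.trans_le hn.pc
  show (∑ a ∈ P.F A z v, ind (a + 0 ∈ B)) / ((P.F A z v).card : ℝ) ≤ _
  split_ifs with h1
  · have a1 : ∑ a ∈ P.F A z v, ind (a + 0 ∈ B) ≤ ∑ y ∈ B, ind (y + z (P.an v) ∈ A .cc) :=
      sum_ind_filter (fun a => a + 0) (add_left_injective _) _ fun a ha => by
        simp only [F, h1, if_true] at ha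
        simpa using (mem_filter.1 ha).2
    calc _ ≤ (∑ y ∈ B, ind (y + z (P.an v) ∈ A .cc)) / ((1 - σ) * P.q p v * m) := by
          gcongr
          exact sum_nonneg fun _ _ => ind_nonneg _
      _ = _ := by
          rw [dv_eq (p := p), add_div]
          simp only [q, h1, if_true]
          congr 1
          field_simp
  · have a1 : ∑ a ∈ P.F A z v, ind (a + 0 ∈ B) ≤ ∑ y ∈ B, ind True :=
      sum_ind_filter (fun a => a + 0) (add_left_injective _) (fun _ => True) fun _ _ => trivial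
    simp only [ind_true trivial, sum_const, nsmul_eq_mul, mul_one] at a1
    simp only [q, h1, if_false] at hF
    rw [add_zero]
    gcongr

lemma Num.mass1 (h : P.Ok dg) (hn : P.Num A p z L lam lam' ρ ρ1 σ) (v : P.N1)
    (B : Finset (ZMod m)) : (P.sys A p z).mass (.inr (.inl v)) B ≤
      B.card / ((1 - σ) * p .cc * m) +
        dv A p (P.tau v) B (- z (P.an v)) / ((1 - σ) * P.q p v * m) := by
  have hm : (0 : ℝ) < m := by exact_mod_cast NeZero.pos m
  have h0 := (mem_N1.1 v.2).1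
  have hF := hn.F_ge h h0
  have hσ : 0 < 1 - σ := by linarith [hn.σ1]
  have hq : 0 < P.q p v := by linarith [hn.q0 v h0, hn.ρ0]
  have ht := hn.p_tau_pos h0
  have hc : 0 < p .cc := hn.ρ10.trans_le hn.pc
  show (∑ a ∈ P.F A z v, ind (a + z (P.an v) ∈ B)) / ((P.F A z v).card : ℝ) ≤ _
  have a1 : ∑ a ∈ P.F A z v, ind (a + z (P.an v) ∈ B) ≤
      ∑ y ∈ B, ind (y + - z (P.an v) ∈ A (P.tau v)) :=
    sum_ind_filter (fun a => a + z (P.an v)) (add_left_injective _) _ fun a ha => by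
      have := F_sub A z h0 ha
      rw [Cl_of_not _ _ (h.an_spec v.2).2.2.1] at this
      simpa using this
  calc _ ≤ (∑ y ∈ B, ind (y + - z (P.an v) ∈ A (P.tau v))) / ((1 - σ) * P.q p v * m) := by
        gcongr
        exact sum_nonneg fun _ _ => ind_nonneg _
    _ = _ := by
        rw [dv_eq (p := p), add_div]
        simp only [q, v.2, if_true]
        congr 1
        field_simp

lemma Num.mass2 (h : P.Ok dg) (hn : P.Num A p z L lam lam' ρ ρ1 σ) (v : P.N2)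
    (B : Finset (ZMod m)) : (P.sys A p z).mass (.inr (.inr v)) B ≤
      B.card / ((1 - σ) * p (P.cls (.inr (.inr v))) * m) + lam' / (ρ ^ 2 * ρ1) := by
  have hm : (0 : ℝ) < m := by exact_mod_cast NeZero.pos m
  have h0 := (mem_N2.1 v.2).1
  have hF := hn.F_ge h h0
  have hσ : 0 < 1 - σ := by linarith [hn.σ1]
  have hq : 0 < P.q p v := by linarith [hn.q0 v h0, hn.ρ0]
  have hρ := hn.ρ0
  have hρ1 := hn.ρ10
  have hl := hn.lam0'
  have hp : ρ1 ≤ p (P.cls (.inr (.inr v))) := by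
    show ρ1 ≤ p (if (v : V) ∈ P.Vt then .dd else .cc)
    split_ifs
    · exact hn.pd
    · exact hn.pc
  have hp0 := hρ1.trans_le hp
  have f1 := hn.F_rho h v
  have f2 := hn.F_rho h (P.π (P.T.par v))
  have g1 : (0 : ℝ) < (P.F A z v).card := lt_of_lt_of_le (by positivity) f1
  have g2 : (0 : ℝ) < (P.F A z (P.π (P.T.par v))).card := lt_of_lt_of_le (by positivity) f2
  have a1 := (hn.F_unif h h0).conv (P.F A z (P.π (P.T.par v))) B (P.o (P.T.par v) : ZMod m)
  rw [ZMod.card] at a1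
  show (∑ a ∈ P.F A z v, ∑ b ∈ P.F A z (P.π (P.T.par v)),
    ind (a + b + (P.o (P.T.par v) : ZMod m) ∈ B)) /
    (((P.F A z v).card : ℝ) * (P.F A z (P.π (P.T.par v))).card) / p (P.cls (.inr (.inr v))) ≤ _
  calc _ ≤ (P.q p v * (P.F A z (P.π (P.T.par v))).card * B.card + lam' * (m : ℝ) ^ 2) /
        (((P.F A z v).card : ℝ) * (P.F A z (P.π (P.T.par v))).card) / p (P.cls (.inr (.inr v))) := by
        gcongr
    _ = P.q p v * B.card / ((P.F A z v).card * p (P.cls (.inr (.inr v)))) +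
        lam' * (m : ℝ) ^ 2 / ((((P.F A z v).card : ℝ) * (P.F A z (P.π (P.T.par v))).card) *
          p (P.cls (.inr (.inr v)))) := by field_simp
    _ ≤ P.q p v * B.card / ((1 - σ) * P.q p v * m * p (P.cls (.inr (.inr v)))) +
        lam' * (m : ℝ) ^ 2 / (((ρ * m) * (ρ * m)) * ρ1) := by gcongr
    _ = _ := by field_simp

lemma Num.dev_sum (h : P.Ok dg) (hn : P.Num A p z L lam lam' ρ ρ1 σ) {β : ℝ} (hβ0 : 0 ≤ β)
    (d : V → ℝ) (hd : ∀ I : Finset V, I ⊆ P.N1 → ∀ τ, (∀ v ∈ I, P.tau v = τ) →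
      ∑ v ∈ I, d v ≤ β * (m : ℝ) ^ 2) :
    ∑ v ∈ P.N1, d v / ((1 - σ) * P.q p v * m) ≤ 4 * (β * m / ρ1) := by
  have hm : (0 : ℝ) < m := by exact_mod_cast NeZero.pos m
  have hρ1 := hn.ρ10
  rw [← sum_fiberwise (s := P.N1) (g := fun v => (P.T.sd v, decide (v ∈ P.Sp)))]
  calc _ ≤ ∑ _b : Bool × Bool, β * m / ρ1 := by
        refine sum_le_sum fun b _ => ?_
        set I := P.N1.filter (fun v => (P.T.sd v, decide (v ∈ P.Sp)) = b) with hI
        rcases I.eq_empty_or_nonempty with e | ⟨v0, hv0⟩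
        · rw [e, sum_empty]; positivity
        · have ht : ∀ v ∈ I, P.tau v = P.tau v0 := by
            intro v hv
            obtain ⟨a1, a2⟩ := mem_filter.1 hv
            obtain ⟨b1, b2⟩ := mem_filter.1 hv0
            have e := a2.trans b2.symm
            simp only [Prod.mk.injEq, decide_eq_decide] at e
            rw [tau_of_not (h.an_spec a1).2.2.1, tau_of_not (h.an_spec b1).2.2.1, e.1]
            simp only [e.2]
          have hq : ∀ v ∈ I, P.q p v = P.q p v0 := by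
            intro v hv
            simp only [q, (mem_filter.1 hv).1, (mem_filter.1 hv0).1, if_true, ht v hv]
          rw [sum_congr rfl fun v hv => by rw [hq v hv], ← sum_div]
          have a1 := hd I (filter_subset _ _) _ ht
          have a2 := hn.q1 v0 (mem_filter.1 hv0).1
          have a3 := hn.σ1
          have a4 : ρ1 ≤ (1 - σ) * P.q p v0 := by nlinarith
          calc _ ≤ β * (m : ℝ) ^ 2 / ((1 - σ) * P.q p v0 * m) :=
                div_le_div_of_nonneg_right a1 (mul_nonneg (by linarith) hm.le)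
            _ ≤ β * (m : ℝ) ^ 2 / (ρ1 * m) := by gcongr
            _ = _ := by field_simp
    _ = _ := by simp

theorem sys_load (h : P.Ok dg) (hn : P.Num A p z L lam lam' ρ ρ1 σ) {δ β ξ : ℝ} (hδ : 0 ≤ δ)
    (hβ0 : 0 ≤ β) (hV : Fintype.card V ≤ 2 * m)
    (hM : ∀ a, ((P.N1.filter (fun v => z (P.an v) - a ∈ Xn m L)).card : ℝ) ≤ 3 * δ * m)
    (hβ : 16 * lam + 6 * δ ≤ β ^ 2) (hξ : 8 * (β / ρ1) + 2 * (lam' / (ρ ^ 2 * ρ1)) ≤ ξ)
    (hcc : ∀ τ, (1 - σ) * P.cc τ ≤ p τ * m) (B : Cn P.Own → Finset (ZMod m)) :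
    (1 - σ) ^ 2 * ∑ j, (P.sys A p z).mass j (B (P.cls j)) ≤ ∑ τ, ((B τ).card : ℝ) + ξ * m := by
  have hm : (0 : ℝ) < m := by exact_mod_cast NeZero.pos m
  have hσ : 0 < 1 - σ := by linarith [hn.σ1]
  have hσ0 := hn.σ0
  have hρ := hn.ρ0
  have hρ1 := hn.ρ10
  have hl := hn.lam0'
  have e1 := hn.dev_sum h hβ0 (fun v => dv A p .cc (B (P.tau v)) (z (P.an v))) (fun I hI τ ht => by
    rw [sum_congr rfl fun v hv => by rw [ht v hv]]
    exact hn.fluct hδ hβ0 hV hM hβ I hI .cc (B τ) _ (Or.inl fun _ => rfl))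
  have e2 := hn.dev_sum h hβ0 (fun v => dv A p (P.tau v) (B .cc) (- z (P.an v))) (fun I hI τ ht => by
    rw [sum_congr rfl fun v hv => by rw [ht v hv]]
    exact hn.fluct hδ hβ0 hV hM hβ I hI τ (B .cc) _ (Or.inr fun _ => rfl))
  let mn : P.J → ℝ := fun j => (B (P.cls j)).card / ((1 - σ) * p (P.cls j) * m)
  have s1 : ∑ j, (P.sys A p z).mass j (B (P.cls j)) ≤ ∑ j, mn j + ξ * m := by
    simp only [Fintype.sum_sum_type]
    have a0 : ∑ v : P.N0, (P.sys A p z).mass (.inl v) (B (P.cls (.inl v))) ≤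
        ∑ v : P.N0, mn (.inl v) + 4 * (β * m / ρ1) := by
      refine (sum_le_sum fun v _ => hn.mass0 h v _).trans ?_
      rw [sum_add_distrib]
      refine add_le_add le_rfl (le_trans (le_of_eq ?_) e1)
      refine (sum_coe_sort P.N0 (fun v => if v ∈ P.N1 then
        dv A p .cc (B (P.tau v)) (z (P.an v)) / ((1 - σ) * P.q p v * m) else 0)).trans ?_
      rw [← sum_filter]
      congr 1
      ext v
      simp only [mem_filter]
      exact ⟨fun a => a.2, fun a => ⟨(mem_N1.1 a).1, a⟩⟩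
    have a1 : ∑ v : P.N1, (P.sys A p z).mass (.inr (.inl v)) (B (P.cls (.inr (.inl v)))) ≤
        ∑ v : P.N1, mn (.inr (.inl v)) + 4 * (β * m / ρ1) := by
      refine (sum_le_sum fun v _ => hn.mass1 h v _).trans ?_
      rw [sum_add_distrib]
      refine add_le_add le_rfl (le_trans (le_of_eq ?_) e2)
      exact sum_coe_sort P.N1 (fun v =>
        dv A p (P.tau v) (B .cc) (- z (P.an v)) / ((1 - σ) * P.q p v * m))
    have a2 : ∑ v : P.N2, (P.sys A p z).mass (.inr (.inr v)) (B (P.cls (.inr (.inr v)))) ≤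
        ∑ v : P.N2, mn (.inr (.inr v)) + 2 * m * (lam' / (ρ ^ 2 * ρ1)) := by
      refine (sum_le_sum fun v _ => hn.mass2 h v _).trans ?_
      rw [sum_add_distrib]
      refine add_le_add le_rfl ?_
      rw [sum_const, card_univ, nsmul_eq_mul]
      have : (Fintype.card P.N2 : ℝ) ≤ 2 * m := by
        exact_mod_cast (Fintype.card_subtype_le _).trans hV
      gcongr
    have a3 := mul_le_mul_of_nonneg_right hξ hm.le
    have a4 : β * m / ρ1 = β / ρ1 * m := by ring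
    rw [a4] at a0 a1
    linarith
  have s2 : (1 - σ) ^ 2 * ∑ j, mn j ≤ ∑ τ, ((B τ).card : ℝ) := by
    rw [← sum_fiberwise (s := univ) (g := P.cls), mul_sum]
    refine sum_le_sum fun τ _ => ?_
    rw [sum_congr rfl (g := fun _ => ((B τ).card : ℝ) / ((1 - σ) * p τ * m))
      fun j hj => by simp only [mn, (mem_filter.1 hj).2], sum_const, nsmul_eq_mul]
    have a1 := hcc τ
    rcases (hn.p01 τ).1.eq_or_lt with e | e
    · rw [← e]; simp
    · calc _ = (B τ).card * ((1 - σ) * P.cc τ / (p τ * m)) := by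
            simp only [cc]; field_simp
        _ ≤ _ := mul_le_of_le_one_right (by positivity) (div_le_one_of_le₀ a1 (by positivity))
  have hξ0 : 0 ≤ ξ := le_trans (by positivity) hξ
  have s3 : (1 - σ) ^ 2 ≤ 1 := by nlinarith
  calc _ ≤ (1 - σ) ^ 2 * (∑ j, mn j + ξ * m) := by gcongr
    _ = (1 - σ) ^ 2 * ∑ j, mn j + (1 - σ) ^ 2 * (ξ * m) := by ring
    _ ≤ _ := add_le_add s2 (mul_le_of_le_one_left (by positivity) s3)

end Pre

end

end Pool.Agent.Lib.MP_5cebc8_co
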