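import Pool.Agent.Lib.MP_5cebc8_co.Tree

open Finset

namespace Pool.Agent.Lib.MP_5cebc8_co

namespace TC

/-- monotone matching of keys and colours -/
lemma mtch {α : Type} [DecidableEq α] (k : α → ℤ) (A : Finset α) :
    ∀ C : Finset ℤ, C.card = A.card →
    ∃ φ : α → ℤ, (∀ a ∈ A, φ a ∈ C) ∧ (∀ c ∈ C, ∃ a ∈ A, φ a = c) ∧
      (∀ a ∈ A, ∀ a' ∈ A, φ a = φ a' → a = a') ∧
      (∀ a ∈ A, ∀ a' ∈ A, k a + φ a = k a' + φ a' → a = a') := by
  induction A using Finset.induction_on_max_value k with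
  | empty =>
    intro C hC
    have : C = ∅ := card_eq_zero.1 hC
    exact ⟨fun _ => 0, by simp, by simp [this], by simp, by simp⟩
  | insert a A ha hmax ih =>
    intro C hC
    rw [card_insert_of_notMem ha] at hC
    have hne : C.Nonempty := card_pos.1 (by omega)
    obtain ⟨φ, h1, h2, h3, h4⟩ := ih (C.erase (C.max' hne))
      (by rw [card_erase_of_mem (max'_mem _ _)]; omega)
    have hlt : ∀ x ∈ A, φ x < C.max' hne := fun x hx =>
      lt_of_le_of_ne (le_max' _ _ (mem_of_mem_erase (h1 x hx))) (ne_of_mem_erase (h1 x hx))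
    let φ' := Function.update φ a (C.max' hne)
    have u1 : φ' a = C.max' hne := Function.update_self _ _ _
    have u2 : ∀ x ∈ A, φ' x = φ x := fun x hx => 
      Function.update_of_ne (fun h : x = a => ha (h ▸ hx)) _ _
    refine ⟨φ', fun x hx => ?_, fun c hc => ?_, fun x hx y hy he => ?_, fun x hx y hy he => ?_⟩
    · rcases mem_insert.1 hx with h | h
      · rw [h, u1]; exact max'_mem _ _
      · rw [u2 x h]; exact mem_of_mem_erase (h1 x h)
    · by_cases h : c = C.max' hne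
      · exact ⟨a, mem_insert_self _ _, by rw [u1, h]⟩
      · obtain ⟨x, hx, he⟩ := h2 c (mem_erase.2 ⟨h, hc⟩)
        exact ⟨x, mem_insert_of_mem hx, by rw [u2 x hx, he]⟩
    · rcases mem_insert.1 hx with h | h <;> rcases mem_insert.1 hy with h' | h'
      · rw [h, h']
      · rw [h, u1, u2 y h'] at he; have := hlt y h'; omega
      · rw [h', u1, u2 x h] at he; have := hlt x h; omega
      · rw [u2 x h, u2 y h'] at he; exact h3 x h y h' he
    · rcases mem_insert.1 hx with h | h <;> rcases mem_insert.1 hy with h' | h'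
      · rw [h, h']
      · rw [h, u1, u2 y h'] at he; have := hlt y h'; have := hmax y h'; omega
      · rw [h', u1, u2 x h] at he; have := hlt x h; have := hmax x h; omega
      · rw [u2 x h, u2 y h'] at he; exact h4 x h y h' he

/-- the leaves of one side get their signed colours -/
lemma side {α : Type} [DecidableEq α] (L : Finset α) (k : α → ℤ) (H F1 F : ℤ) (hH : 0 ≤ H)
    (hF1 : 0 < F1) (hF : F1 ≤ F) (I J : Finset ℤ) (hI : ∀ c ∈ I, -(F + H) < c ∧ c ≤ -H)
    (hJ : ∀ c ∈ J, -H < c ∧ c < H) (hk : ∀ a ∈ L, -H < k a ∧ k a < F - H)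
    (hA : I.card ≤ (L.filter (fun a => k a ≤ 0)).card)
    (hD : J.card ≤ (L.filter (fun a => F1 + H ≤ k a)).card) :
    ∃ (φ : α → ℤ) (kk : ℕ), kk ≤ L.card ∧
      (∀ a ∈ L, φ a ∈ I ∨ φ a ∈ J ∨ (F + H ≤ φ a ∧ φ a < F + H + kk)) ∧
      (∀ c, c ∈ I ∨ c ∈ J ∨ (F + H ≤ c ∧ c < F + H + kk) → ∃ a ∈ L, φ a = c) ∧
      (∀ a ∈ L, ∀ a' ∈ L, φ a = φ a' → a = a') ∧
      (∀ a ∈ L, ∀ a' ∈ L, k a + φ a = k a' + φ a' → a = a') ∧
      (∀ a ∈ L, -(F + 2 * H) < k a + φ a ∧ k a + φ a < 2 * F + kk ∧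
        (k a + φ a ≤ -H ∨ (J.Nonempty ∧ F1 < k a + φ a) ∨ F < k a + φ a)) := by
  obtain ⟨A, hAs, hAc⟩ := exists_subset_card_eq hA
  obtain ⟨D, hDs, hDc⟩ := exists_subset_card_eq hD
  let O := L \ (A ∪ D)
  obtain ⟨φA, a1, a2, a3, a4⟩ := mtch k A I hAc.symm
  obtain ⟨φD, d1, d2, d3, d4⟩ := mtch k D J hDc.symm
  obtain ⟨φO, o1, o2, o3, o4⟩ := mtch k O (Ico (F + H) (F + H + O.card)) (by simp)
  have hA' : ∀ a ∈ A, a ∈ L ∧ k a ≤ 0 := fun a ha => mem_filter.1 (hAs ha)
  have hD' : ∀ a ∈ D, a ∈ L ∧ F1 + H ≤ k a := fun a ha => mem_filter.1 (hDs ha)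
  let φ : α → ℤ := fun a => if a ∈ A then φA a else if a ∈ D then φD a else φO a
  have eA : ∀ a ∈ A, φ a = φA a := fun a ha => by simp only [φ, ha, if_true]
  have eD : ∀ a ∈ D, φ a = φD a := fun a ha => by
    have : a ∉ A := fun h => by have := (hA' a h).2; have := (hD' a ha).2; omega
    simp only [φ, ha, this, if_true, if_false]
  have eO : ∀ a ∈ O, φ a = φO a := fun a ha => by
    have h := (mem_sdiff.1 ha).2
    rw [mem_union, not_or] at h
    simp only [φ, h.1, h.2, if_false]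
  have hc : ∀ a ∈ L, -H < k a ∧ k a < F - H ∧
      ((a ∈ A ∧ φ a = φA a ∧ φ a ∈ I ∧ k a ≤ 0 ∧ -(F + H) < φ a ∧ φ a ≤ -H) ∨
      (a ∈ D ∧ φ a = φD a ∧ φ a ∈ J ∧ F1 + H ≤ k a ∧ -H < φ a ∧ φ a < H) ∨
      (a ∈ O ∧ φ a = φO a ∧ F + H ≤ φ a ∧ φ a < F + H + O.card)) := by
    intro a ha
    refine ⟨(hk a ha).1, (hk a ha).2, ?_⟩
    by_cases h : a ∈ A
    · have := eA a h ▸ a1 a h
      exact Or.inl ⟨h, eA a h, this, (hA' a h).2, hI _ this⟩
    · by_cases h' : a ∈ D
      · have := eD a h' ▸ d1 a h'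
        exact Or.inr (Or.inl ⟨h', eD a h', this, (hD' a h').2, hJ _ this⟩)
      · have ho : a ∈ O := mem_sdiff.2 ⟨ha, by simp [h, h']⟩
        have := eO a ho ▸ o1 a ho
        exact Or.inr (Or.inr ⟨ho, eO a ho, mem_Ico.1 this⟩)
  refine ⟨φ, O.card, card_le_card sdiff_subset, fun a ha => ?_, fun c hc' => ?_,
    fun a ha a' ha' he => ?_, fun a ha a' ha' he => ?_, fun a ha => ?_⟩
  · rcases (hc a ha).2.2 with h | h | h
    · exact Or.inl h.2.2.1
    · exact Or.inr (Or.inl h.2.2.1)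
    · exact Or.inr (Or.inr h.2.2)
  · rcases hc' with h | h | h
    · obtain ⟨a, ha, he⟩ := a2 c h
      exact ⟨a, (hA' a ha).1, by rw [eA a ha, he]⟩
    · obtain ⟨a, ha, he⟩ := d2 c h
      exact ⟨a, (hD' a ha).1, by rw [eD a ha, he]⟩
    · obtain ⟨a, ha, he⟩ := o2 c (mem_Ico.2 h)
      exact ⟨a, (mem_sdiff.1 ha).1, by rw [eO a ha, he]⟩
  · obtain ⟨x1, x2, h | h | h⟩ := hc a ha <;> obtain ⟨y1, y2, h' | h' | h'⟩ := hc a' ha'
    · exact a3 a h.1 a' h'.1 (by rw [← h.2.1, ← h'.2.1, he])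
    · omega
    · omega
    · omega
    · exact d3 a h.1 a' h'.1 (by rw [← h.2.1, ← h'.2.1, he])
    · omega
    · omega
    · omega
    · exact o3 a h.1 a' h'.1 (by rw [← h.2.1, ← h'.2.1, he])
  · obtain ⟨x1, x2, h | h | h⟩ := hc a ha <;> obtain ⟨y1, y2, h' | h' | h'⟩ := hc a' ha'
    · exact a4 a h.1 a' h'.1 (by rw [← h.2.1, ← h'.2.1, he])
    · omega
    · omega
    · omega
    · exact d4 a h.1 a' h'.1 (by rw [← h.2.1, ← h'.2.1, he])
    · omega
    · omega
    · omega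
    · exact o4 a h.1 a' h'.1 (by rw [← h.2.1, ← h'.2.1, he])
  · obtain ⟨x1, x2, h | h | h⟩ := hc a ha
    · omega
    · exact ⟨by omega, by omega, Or.inr (Or.inl ⟨⟨_, h.2.2.1⟩, by omega⟩)⟩
    · omega

/-- the sign attached to a side -/
def sg (s : Bool) (x : ℤ) : ℤ := if s = true then x else -x

@[simp] lemma sg_true (x : ℤ) : sg true x = x := rfl
@[simp] lemma sg_false (x : ℤ) : sg false x = -x := rfl
lemma sg_sg (s : Bool) (x : ℤ) : sg s (sg s x) = x := by cases s <;> simp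

variable {V : Type} (T : RT V)

/-- reduction modulo `m` -/
lemma good_mod (m : ℕ) (ψ : V → ℤ) (h : T.Good ψ)
    (h1 : ∀ u v, T.sd u = T.sd v → ψ u - ψ v < m)
    (h2 : ∀ u v, u ≠ T.root → v ≠ T.root → ψ u + ψ (T.par u) - (ψ v + ψ (T.par v)) < m) :
    T.Good (fun v => (ψ v : ZMod m)) := by
  have key : ∀ x y : ℤ, (x : ZMod m) = y → x - y < m → y - x < m → x = y := by
    intro x y he a b
    have := Int.eq_zero_of_abs_lt_dvd ((ZMod.intCast_eq_intCast_iff_dvd_sub x y m).1 he)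
      (abs_lt.2 ⟨by omega, b⟩)
    omega
  refine ⟨fun u v hs he => h.1 u v hs (key _ _ he (h1 u v hs) (h1 v u hs.symm)),
    fun u v hu hv he => h.2 u v hu hv (key _ _ ?_ (h2 u v hu hv) (h2 v u hv hu))⟩
  push_cast
  exact he

lemma inner_par {v : V} (h : v ≠ T.root) : T.Inner (T.par v) := ⟨v, h, rfl⟩

lemma inner_root : ∀ (d : ℕ) (v : V), T.dep v = d + 1 → T.Inner T.root := by
  intro d
  induction d with
  | zero =>
    intro v hv
    have h : v ≠ T.root := fun h => by rw [h, T.dep_root] at hv; omega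
    have := T.dep_par v h
    exact ⟨v, h, T.eq_root_of_dep (by omega)⟩
  | succ d ih =>
    intro v hv
    have h : v ≠ T.root := fun h => by rw [h, T.dep_root] at hv; omega
    have := T.dep_par v h
    exact ih (T.par v) (by omega)

open Classical in
/-- extension of a labelling of the inner vertices to the leaves -/
lemma leaves [Fintype V] (n : ℕ) (h1 : (univ.filter (fun v => T.sd v = true)).card = n)
    (h0 : (univ.filter (fun v => T.sd v = false)).card = n) (hr : T.Inner T.root)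
    (ψ1 : V → ℤ) (hPG : T.PG (univ.filter (fun v => T.Inner v)) ψ1) (H F1 F : ℤ) (hH : 0 < H)
    (hF1 : 0 < F1) (hF : F1 ≤ F) (s1 : Bool) (K : Finset ℤ)
    (hK : ∀ c ∈ K, ∃ v, T.Inner v ∧ v ≠ T.root ∧ ψ1 v + ψ1 (T.par v) = c)
    (hB : ∀ v, T.Inner v → -H < sg (T.sd v) (ψ1 v) ∧ sg (T.sd v) (ψ1 v) < F - H)
    (hN : ∀ v, T.Inner v → T.sd v = s1 → sg (T.sd v) (ψ1 v) ≤ F1)
    (hA : ∀ s, F + H ≤ (univ.filter (fun c => ¬ T.Inner c ∧ T.sd c = s ∧
      sg (!s) (ψ1 (T.par c)) ≤ 0)).card)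
    (hD : ((Ioo (-H) H).filter (fun c => sg s1 c ∉ K)).card ≤
      (univ.filter (fun c => ¬ T.Inner c ∧ T.sd c = s1 ∧ F1 + H ≤ sg (!s1) (ψ1 (T.par c)))).card)
    (hn : 3 * F + 2 * H + 1 ≤ n) :
    ∃ ψ : V → ZMod (2 * n - 1), T.Good ψ := by
  let KB : Finset ℤ := (univ.filter (fun v => T.Inner v ∧ v ≠ T.root)).image
    (fun v => ψ1 v + ψ1 (T.par v))
  have hKB : ∀ c, c ∈ KB ↔ ∃ v, T.Inner v ∧ v ≠ T.root ∧ ψ1 v + ψ1 (T.par v) = c := by
    intro c; simp [KB, and_assoc]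
  have hnr : ∀ v, ¬ T.Inner v → v ≠ T.root := fun v hv h => hv (h ▸ hr)
  let L : Bool → Finset V := fun s => univ.filter (fun c => ¬ T.Inner c ∧ T.sd c = s)
  have hL : ∀ s c, c ∈ L s ↔ ¬ T.Inner c ∧ T.sd c = s := by intro s c; simp [L]
  let k : Bool → V → ℤ := fun s c => sg (!s) (ψ1 (T.par c))
  let I : Bool → Finset ℤ := fun s => (Ioc (-(F + H)) (-H)).filter (fun c => sg s c ∉ KB)
  let J : Bool → Finset ℤ := fun s =>
    if s = s1 then (Ioo (-H) H).filter (fun c => sg s c ∉ KB) else ∅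
  have hI : ∀ s c, c ∈ I s ↔ (-(F + H) < c ∧ c ≤ -H) ∧ sg s c ∉ KB := by
    intro s c; simp only [I, mem_filter, mem_Ioc]
  have hJ : ∀ s c, c ∈ J s ↔ s = s1 ∧ (-H < c ∧ c < H) ∧ sg s c ∉ KB := by
    intro s c
    by_cases h : s = s1
    · simp only [J, h, if_true, mem_filter, mem_Ioo, true_and]
    · simp [J, h]
  have hk : ∀ s, ∀ a ∈ L s, -H < k s a ∧ k s a < F - H := by
    intro s a ha
    obtain ⟨a1, a2⟩ := (hL s a).1 ha
    have := hB _ (inner_par T (hnr a a1))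
    rwa [T.sd_par_eq (hnr a a1), a2] at this
  have hside := fun s => side (L s) (k s) H F1 F hH.le hF1 hF (I s) (J s)
    (fun c hc => ((hI s c).1 hc).1) (fun c hc => ((hJ s c).1 hc).2.1) (hk s)
    (by
      have e1 : (I s).card ≤ (Ioc (-(F + H)) (-H)).card := card_filter_le _ _
      have e2 := hA s
      have e3 : (L s).filter (fun a => k s a ≤ 0) = univ.filter (fun c => ¬ T.Inner c ∧
          T.sd c = s ∧ sg (!s) (ψ1 (T.par c)) ≤ 0) := by
        ext c; simp [L, k, and_assoc]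
      rw [Int.card_Ioc] at e1
      rw [e3]; omega)
    (by
      by_cases h : s = s1
      · subst h
        have e3 : (L s).filter (fun a => F1 + H ≤ k s a) = univ.filter (fun c => ¬ T.Inner c ∧
            T.sd c = s ∧ F1 + H ≤ sg (!s) (ψ1 (T.par c))) := by
          ext c; simp [L, k, and_assoc]
        rw [e3]
        refine le_trans (card_le_card fun c hc => ?_) hD
        obtain ⟨_, b1, b2⟩ := (hJ s c).1 hc
        exact mem_filter.2 ⟨mem_Ioo.2 b1, fun h => b2 ((hKB _).2 (hK _ h))⟩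
      · simp [J, h])
  choose φ kk p1 p2 p3 p4 p5 p6 using hside
  let ψ : V → ℤ := fun v => if T.Inner v then ψ1 v else sg (T.sd v) (k (T.sd v) v + φ (T.sd v) v)
  have e1 : ∀ v, T.Inner v → ψ v = ψ1 v := fun v hv => if_pos hv
  have e2 : ∀ v, ¬ T.Inner v → ψ v = sg (T.sd v) (k (T.sd v) v + φ (T.sd v) v) :=
    fun v hv => if_neg hv
  have hm : ∀ v, ¬ T.Inner v → v ∈ L (T.sd v) := fun v hv => (hL _ _).2 ⟨hv, rfl⟩
  have c1 : ∀ v, T.Inner v → v ≠ T.root → ψ v + ψ (T.par v) = ψ1 v + ψ1 (T.par v) :=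
    fun v hv h => by rw [e1 v hv, e1 _ (inner_par T h)]
  have c2 : ∀ v, ¬ T.Inner v → ψ v + ψ (T.par v) = sg (T.sd v) (φ (T.sd v) v) := by
    intro v hv
    rw [e2 v hv, e1 _ (inner_par T (hnr v hv))]
    simp only [k]
    cases T.sd v <;> simp
  have hkk : ∀ s, kk s ≤ n := by
    intro s
    refine (p1 s).trans (le_trans (card_le_card fun c hc => ?_)
      (show (univ.filter (fun v => T.sd v = s)).card ≤ n by cases s <;> omega))
    exact mem_filter.2 ⟨mem_univ _, ((hL s c).1 hc).2⟩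
  -- base colours are small
  have hbc : ∀ v, T.Inner v → v ≠ T.root →
      -(F + H) < ψ1 v + ψ1 (T.par v) ∧ ψ1 v + ψ1 (T.par v) < F + H := by
    intro v hv h
    have a1 := hB v hv
    have a2 := hB _ (inner_par T h)
    rw [T.sd_par_eq h] at a2
    revert a1 a2
    cases T.sd v <;> simp only [sg_true, sg_false, Bool.not_true, Bool.not_false] <;> omega
  have hcol : ∀ v, v ≠ T.root →
      -(F + H) - kk false < ψ v + ψ (T.par v) ∧ ψ v + ψ (T.par v) < F + H + kk true := by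
    intro v h
    by_cases hv : T.Inner v
    · have := hbc v hv h
      rw [c1 v hv h]; omega
    · rw [c2 v hv]
      have a1 := p2 _ v (hm v hv)
      rw [hI, hJ] at a1
      revert a1
      cases T.sd v <;> simp only [sg_true, sg_false] <;> omega
  -- all colours of the range are used
  have hsurj : Ioo (-(F + H) - kk false) (F + H + kk true) ⊆
      (univ.erase T.root).image (fun v => ψ v + ψ (T.par v)) := by
    intro c hc
    rw [mem_Ioo] at hc
    have hleaf : ∀ s, (sg s c ∈ I s ∨ sg s c ∈ J s ∨ (F + H ≤ sg s c ∧ sg s c < F + H + kk s)) →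
        c ∈ (univ.erase T.root).image (fun v => ψ v + ψ (T.par v)) := by
      intro s h
      obtain ⟨a, ha, he⟩ := p3 s _ h
      obtain ⟨a1, a2⟩ := (hL s a).1 ha
      refine mem_image.2 ⟨a, mem_erase.2 ⟨hnr a a1, mem_univ _⟩, ?_⟩
      rw [c2 a a1, a2, he, sg_sg]
    by_cases hcK : c ∈ KB
    · obtain ⟨v, a1, a2, a3⟩ := (hKB c).1 hcK
      exact mem_image.2 ⟨v, mem_erase.2 ⟨a2, mem_univ _⟩, by rw [c1 v a1 a2, a3]⟩
    · by_cases b1 : F + H ≤ c
      · exact hleaf true (Or.inr (Or.inr ⟨b1, hc.2⟩))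
      by_cases b2 : c ≤ -(F + H)
      · exact hleaf false (Or.inr (Or.inr (by simp only [sg_false]; omega)))
      by_cases b3 : c ≤ -H
      · exact hleaf true (Or.inl ((hI _ _).2 ⟨by simp only [sg_true]; omega, hcK⟩))
      by_cases b4 : H ≤ c
      · exact hleaf false (Or.inl ((hI _ _).2 ⟨by simp only [sg_false]; omega,
          by rwa [sg_sg]⟩))
      · refine hleaf s1 (Or.inr (Or.inl ((hJ _ _).2 ⟨rfl, ?_, by rwa [sg_sg]⟩)))
        cases s1 <;> simp only [sg_true, sg_false] <;> omega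
  have hcard : Fintype.card V = 2 * n := by
    have := card_filter_add_card_filter_not (s := (univ : Finset V)) (fun v => T.sd v = true)
    simp only [Bool.not_eq_true] at this
    rw [← card_univ]; omega
  have hcount := (card_le_card hsurj).trans card_image_le
  rw [Int.card_Ioo, card_erase_of_mem (mem_univ _), card_univ, hcard] at hcount
  have hmem : ∀ v, T.Inner v → v ∈ univ.filter (fun v => T.Inner v) :=
    fun v hv => mem_filter.2 ⟨mem_univ _, hv⟩
  -- an inner vertex and a leaf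
  have hmix : ∀ u v, T.Inner u → ¬ T.Inner v → T.sd u = T.sd v → ψ u ≠ ψ v := by
    intro u v hu hv hs he
    rw [e1 u hu, e2 v hv] at he
    have a1 := hB u hu
    have a2 := hN u hu
    rw [he, hs, sg_sg] at a1 a2
    obtain ⟨_, _, b | ⟨⟨c, hc⟩, b⟩ | b⟩ := p6 _ v (hm v hv)
    · omega
    · have := a2 ((hJ _ _).1 hc).1; omega
    · omega
  have hmix2 : ∀ u v, T.Inner u → u ≠ T.root → ¬ T.Inner v →
      ψ u + ψ (T.par u) ≠ ψ v + ψ (T.par v) := by
    intro u v hu hur hv he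
    rw [c1 u hu hur, c2 v hv] at he
    have a1 := hbc u hu hur
    have a2 : sg (T.sd v) (φ (T.sd v) v) ∈ KB := (hKB _).2 ⟨u, hu, hur, he⟩
    rcases p2 _ v (hm v hv) with b | b | b
    · exact ((hI _ _).1 b).2 a2
    · exact ((hJ _ _).1 b).2.2 a2
    · revert he b
      cases T.sd v <;> simp only [sg_true, sg_false] <;> omega
  have hsgi : ∀ s x y, sg s x = sg s y → x = y := fun s x y h => by
    rw [← sg_sg s x, h, sg_sg]
  refine ⟨_, good_mod T (2 * n - 1) ψ ⟨fun u v hs he => ?_, fun u v hu hv he => ?_⟩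
    (fun u v hs => ?_) (fun u v hu hv => ?_)⟩
  · by_cases a : T.Inner u <;> by_cases b : T.Inner v
    · rw [e1 u a, e1 v b] at he
      exact hPG.1 u (hmem u a) v (hmem v b) hs he
    · exact absurd he (hmix u v a b hs)
    · exact absurd he.symm (hmix v u b a hs.symm)
    · rw [e2 u a, e2 v b, hs] at he
      exact p5 _ u (hs ▸ hm u a) v (hm v b) (hsgi _ _ _ he)
  · by_cases a : T.Inner u <;> by_cases b : T.Inner v
    · rw [c1 u a hu, c1 v b hv] at he
      exact hPG.2 u (hmem u a) v (hmem v b) hu hv (hmem _ (inner_par T hu))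
        (hmem _ (inner_par T hv)) he
    · exact absurd he (hmix2 u v a hu b)
    · exact absurd he.symm (hmix2 v u b hv a)
    · rw [c2 u a, c2 v b] at he
      by_cases hs : T.sd u = T.sd v
      · rw [hs] at he
        exact p4 _ u (hs ▸ hm u a) v (hm v b) (hsgi _ _ _ he)
      · exfalso
        have hq : ∀ w, ¬ T.Inner w → (-(F + H) < φ (T.sd w) w ∧ φ (T.sd w) w ≤ -H) ∨
            (T.sd w = s1 ∧ -H < φ (T.sd w) w ∧ φ (T.sd w) w < H) ∨ F + H ≤ φ (T.sd w) w := by
          intro w hw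
          rcases p2 _ w (hm w hw) with b | b | b
          · exact Or.inl ((hI _ _).1 b).1
          · exact Or.inr (Or.inl ⟨((hJ _ _).1 b).1, ((hJ _ _).1 b).2.1⟩)
          · exact Or.inr (Or.inr b.1)
        have he' : φ (T.sd u) u = -φ (T.sd v) v := by
          revert hs he
          generalize φ (T.sd u) u = x
          generalize φ (T.sd v) v = y
          cases T.sd u <;> cases T.sd v <;> intro h h' <;>
            first | exact absurd rfl h' | exact absurd rfl h | (simp only [sg_true, sg_false] at *; omega)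
        rcases hq u a with a1 | a1 | a1 <;> rcases hq v b with a2 | a2 | a2
        all_goals first | omega | exact hs (a1.1.trans a2.1.symm)
  · have hp : ∀ w, -(F + 2 * H) < sg (T.sd w) (ψ w) ∧ sg (T.sd w) (ψ w) < 2 * F + n := by
      intro w
      by_cases a : T.Inner w
      · have := hB w a
        rw [e1 w a]; omega
      · have := p6 _ w (hm w a)
        have := hkk (T.sd w)
        rw [e2 w a, sg_sg]; omega
    have a1 := hp u
    have a2 := hp v
    rw [hs] at a1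
    revert a1 a2
    cases T.sd v <;> simp only [sg_true, sg_false] <;> omega
  · have a1 := hcol u hu
    have a2 := hcol v hv
    omega

open Classical in
/-- leaves counted through their parents -/
lemma sum_lc [Fintype V] (hr : T.Inner T.root) (X : Finset V) :
    ∑ v ∈ X, T.lc v = (univ.filter (fun c => ¬ T.Inner c ∧ T.par c ∈ X)).card := by
  rw [card_eq_sum_card_fiberwise (f := T.par) (t := X)
    (fun c hc => (mem_filter.1 (mem_coe.1 hc)).2.2)]
  refine sum_congr rfl fun v hv => ?_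
  unfold RT.lc
  congr 1
  ext c
  simp only [mem_filter, mem_univ, true_and]
  exact ⟨fun h => ⟨⟨h.2.2, h.2.1 ▸ hv⟩, h.2.1⟩, fun h => ⟨fun e => h.1.1 (e ▸ hr), h.2, h.1.1⟩⟩

open Classical in
/-- the core lemma: a labelled seed `S` extends to the whole tree -/
lemma core [Fintype V] (n : ℕ) (h1 : (univ.filter (fun v => T.sd v = true)).card = n)
    (h0 : (univ.filter (fun v => T.sd v = false)).card = n) (hr : T.Inner T.root) (b H : ℕ)
    (hb : (univ.filter (fun v => T.Inner v)).card ≤ b) (hH : 1 ≤ H) (S : Finset V)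
    (hS : ∀ v ∈ S, T.Inner v) (ψ0 : V → ℤ) (hPG : T.PG S ψ0)
    (hpos : ∀ v ∈ S, -(H : ℤ) < sg (T.sd v) (ψ0 v) ∧ sg (T.sd v) (ψ0 v) ≤ 1)
    (hch : ∀ v, v ∉ S → ∀ c ∈ S, ∀ c' ∈ S, c ≠ T.root → c' ≠ T.root → T.par c = v →
      T.par c' = v → c = c')
    (hA : ∀ s, ∃ X : Finset V, (∀ v ∈ X, v ∈ S ∧ T.sd v = s ∧ sg s (ψ0 v) ≤ 0) ∧
      14 * b + 3 * H + 4 ≤ ∑ v ∈ X, T.lc v)
    (s0 : Bool)
    (hD : (H = 1 ∧ ∃ v ∈ S, v ≠ T.root ∧ T.par v ∈ S ∧ ψ0 v + ψ0 (T.par v) = 0) ∨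
      ∃ X : Finset V, (∀ v ∈ X, v ∉ S ∧ T.sd v = s0) ∧ 2 * H ≤ ∑ v ∈ X, T.lc v + 1)
    (hn : 42 * b + 8 * H + 13 ≤ n) :
    ∃ ψ : V → ZMod (2 * n - 1), T.Good ψ := by
  let B := univ.filter (fun v => T.Inner v)
  have hBm : ∀ v, v ∈ B ↔ T.Inner v := by intro v; simp [B]
  have hSB : S ⊆ B := fun v hv => (hBm v).2 (hS v hv)
  let K : Finset ℤ := (S.filter (fun v => v ≠ T.root ∧ T.par v ∈ S)).image
    (fun v => ψ0 v + ψ0 (T.par v))
  have hKc : K.card ≤ b :=
    card_image_le.trans ((card_filter_le _ _).trans ((card_le_card hSB).trans hb))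
  let lo : Bool → ℤ := fun s => if s = s0 then 7 * b + 3 + H else 2
  have hlo : ∀ s, (s = s0 ∧ lo s = 7 * b + 3 + H) ∨ (s ≠ s0 ∧ lo s = 2) := by
    intro s
    by_cases h : s = s0
    · exact Or.inl ⟨h, if_pos h⟩
    · exact Or.inr ⟨h, if_neg h⟩
  let W : V → Finset ℤ := fun v =>
    (Ico (lo (T.sd v)) (lo (T.sd v) + (7 * b + 1))).image (sg (T.sd v))
  have hW : ∀ v y, y ∈ W v →
      lo (T.sd v) ≤ sg (T.sd v) y ∧ sg (T.sd v) y < lo (T.sd v) + (7 * b + 1) := by
    intro v y hy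
    obtain ⟨x, hx, rfl⟩ := mem_image.1 hy
    rw [sg_sg]; exact mem_Ico.1 hx
  have hWc : ∀ v, (W v).card = 7 * b + 1 := by
    intro v
    rw [card_image_of_injective _ (fun x y h => by rw [← sg_sg _ x, h, sg_sg]), Int.card_Ico]
    omega
  obtain ⟨ψ1, g1, g2, g3, -, -⟩ := T.greedy S ψ0 W (fun c => c ∉ K) ∅ ∅ (by simp) b hPG
    (fun u hu hur hp h => h (mem_image.2 ⟨u, mem_filter.2 ⟨hu, hur, hp⟩, rfl⟩)) (B \ S)
    sdiff_disjoint ((card_le_card sdiff_subset).trans hb)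
    (fun v _ u hu hs hy => by
      have a1 := hW v _ hy
      have a2 := hpos u hu
      rw [hs] at a2
      rcases hlo (T.sd v) with h | h <;> omega)
    (fun v hv => hch v (mem_sdiff.1 hv).2)
    (fun v _ p z => by
      have a1 := card_filter_add_card_filter_not (s := W v) (fun y => y + p ∉ K ∧ y + z ∉ K)
      have a2 : (W v).filter (fun y => ¬ (y + p ∉ K ∧ y + z ∉ K)) ⊆
          K.image (fun c => c - p) ∪ K.image (fun c => c - z) := by
        intro y hy
        have := (mem_filter.1 hy).2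
        rw [not_and_or, not_not, not_not] at this
        rcases this with h | h
        · exact mem_union_left _ (mem_image.2 ⟨_, h, by ring⟩)
        · exact mem_union_right _ (mem_image.2 ⟨_, h, by ring⟩)
      have a3 := (card_le_card a2).trans (card_union_le _ _)
      have a4 := card_image_le (s := K) (f := fun c => c - p)
      have a5 := card_image_le (s := K) (f := fun c => c - z)
      have a6 := hWc v
      simp only [card_empty]
      omega)
  rw [union_sdiff_of_subset hSB] at g2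
  have gS : ∀ v ∈ S, ψ1 v = ψ0 v := fun v hv => g1 v (fun h => (mem_sdiff.1 h).2 hv)
  have gY : ∀ v, T.Inner v → v ∉ S → lo (T.sd v) ≤ sg (T.sd v) (ψ1 v) ∧
      sg (T.sd v) (ψ1 v) < lo (T.sd v) + (7 * b + 1) :=
    fun v hv h => hW v _ (g3 v (mem_sdiff.2 ⟨(hBm v).2 hv, h⟩))
  have hnr : ∀ v, ¬ T.Inner v → v ≠ T.root := fun v hv h => hv (h ▸ hr)
  have hsd : ∀ c s, ¬ T.Inner c → T.sd (T.par c) = (!s) → T.sd c = s := by
    intro c s hc h
    rw [T.sd_par_eq (hnr c hc)] at h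
    exact Bool.not_inj h
  refine leaves T n h1 h0 hr ψ1 g2 H (7 * b + 3) (14 * b + 4 + 2 * H) (by omega) (by omega)
    (by omega) (!s0) K (fun c hc => ?_) (fun v hv => ?_) (fun v hv hs => ?_) (fun s => ?_) ?_
    (by omega)
  · obtain ⟨v, hv, rfl⟩ := mem_image.1 hc
    obtain ⟨a1, a2, a3⟩ := mem_filter.1 hv
    exact ⟨v, hS v a1, a2, by rw [gS v a1, gS _ a3]⟩
  · by_cases h : v ∈ S
    · have := hpos v h
      rw [gS v h]; omega
    · have := gY v hv h
      rcases hlo (T.sd v) with h | h <;> omega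
  · by_cases h : v ∈ S
    · have := hpos v h
      rw [gS v h]; omega
    · have := gY v hv h
      rcases hlo (T.sd v) with h | h
      · rw [h.1] at hs; simp at hs
      · omega
  · obtain ⟨X, x1, x2⟩ := hA (!s)
    rw [sum_lc T hr] at x2
    have : univ.filter (fun c => ¬ T.Inner c ∧ T.par c ∈ X) ⊆ univ.filter (fun c => ¬ T.Inner c ∧
        T.sd c = s ∧ sg (!s) (ψ1 (T.par c)) ≤ 0) := by
      intro c hc
      obtain ⟨_, a1, a2⟩ := mem_filter.1 hc
      obtain ⟨b1, b2, b3⟩ := x1 _ a2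
      exact mem_filter.2 ⟨mem_univ _, a1, hsd c s a1 b2, by rwa [gS _ b1]⟩
    have := card_le_card this
    omega
  · rcases hD with ⟨e, v, a1, a2, a3, a4⟩ | ⟨X, x1, x2⟩
    · have : (Ioo (-(H : ℤ)) H).filter (fun c => sg (!s0) c ∉ K) = ∅ := by
        refine filter_eq_empty_iff.2 fun c hc h => h ?_
        rw [mem_Ioo] at hc
        have : c = 0 := by omega
        refine mem_image.2 ⟨v, mem_filter.2 ⟨a1, a2, a3⟩, ?_⟩
        rw [a4, this]; cases s0 <;> simp
      rw [this]; simp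
    · rw [sum_lc T hr] at x2
      have a1 : univ.filter (fun c => ¬ T.Inner c ∧ T.par c ∈ X) ⊆
          univ.filter (fun c => ¬ T.Inner c ∧ T.sd c = (!s0) ∧
            (7 * b + 3 + H : ℤ) ≤ sg (!!s0) (ψ1 (T.par c))) := by
        intro c hc
        obtain ⟨_, a1, a2⟩ := mem_filter.1 hc
        obtain ⟨b1, b2⟩ := x1 _ a2
        refine mem_filter.2 ⟨mem_univ _, a1, hsd c _ a1 (by rw [b2, Bool.not_not]), ?_⟩
        have := gY _ (inner_par T (hnr c a1)) b1
        rw [b2] at this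
        rw [Bool.not_not]
        rcases hlo s0 with h | h
        · omega
        · exact absurd rfl h.1
      have a2 := card_le_card a1
      have a3 := card_filter_le (Ioo (-(H : ℤ)) H) (fun c => sg (!s0) c ∉ K)
      rw [Int.card_Ioo] at a3
      omega

/-- a small subset carrying a fixed share of the sum -/
lemma share {α : Type} [DecidableEq α] (f : α → ℕ) (k : ℕ) : ∀ (q : ℕ) (A : Finset α),
    A.card ≤ q * k → ∃ X ⊆ A, X.card ≤ k ∧ ∑ a ∈ A, f a ≤ q * ∑ a ∈ X, f a := by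
  intro q
  induction q with
  | zero =>
    intro A hA
    have : A = ∅ := card_eq_zero.1 (by omega)
    exact ⟨∅, by simp, by simp, by simp [this]⟩
  | succ q ih =>
    intro A hA
    by_cases h : A.card ≤ k
    · exact ⟨A, Subset.refl _, h, Nat.le_mul_of_pos_left _ (by omega)⟩
    · obtain ⟨A1, a1, a2⟩ := exists_subset_card_eq (show k ≤ A.card by omega)
      obtain ⟨X, x1, x2, x3⟩ := ih (A \ A1) (by
        rw [card_sdiff_of_subset a1, a2]
        rw [Nat.succ_mul] at hA; omega)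
      have e := sum_sdiff (f := f) a1
      by_cases h' : ∑ a ∈ A1, f a ≤ ∑ a ∈ X, f a
      · exact ⟨X, x1.trans sdiff_subset, x2, by rw [Nat.succ_mul]; omega⟩
      · have := Nat.mul_le_mul_left q (le_of_not_ge h')
        exact ⟨A1, a1, a2.le, by rw [Nat.succ_mul]; omega⟩

lemma inner_of_lc [Fintype V] {v : V} (h : 0 < T.lc v) : T.Inner v := by
  obtain ⟨c, hc⟩ := card_pos.1 h
  simp only [mem_filter] at hc
  exact ⟨c, hc.2.1, hc.2.2.1⟩

open Classical in
/-- many parents of leaves on one side -/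
lemma multi [Fintype V] (n : ℕ) (h1 : (univ.filter (fun v => T.sd v = true)).card = n)
    (h0 : (univ.filter (fun v => T.sd v = false)).card = n) (hr : T.Inner T.root) (b : ℕ)
    (hb : (univ.filter (fun v => T.Inner v)).card ≤ b) (hn : 10000 * b ≤ n)
    (Ps : Bool → Finset V) (hPs : ∀ s, ∀ v ∈ Ps s, T.sd v = s ∧ 0 < T.lc v)
    (hsum : ∀ s, n ≤ ∑ v ∈ Ps s, T.lc v + b) (s0 : Bool) (hmax : ∀ s, (Ps s).card ≤ (Ps s0).card)
    (hP : 100 ≤ (Ps s0).card) : ∃ ψ : V → ZMod (2 * n - 1), T.Good ψ := by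
  have hPb : (Ps s0).card ≤ b := (card_le_card fun v hv =>
    mem_filter.2 ⟨mem_univ _, inner_of_lc T (hPs s0 v hv).2⟩).trans hb
  obtain ⟨k, hk⟩ : ∃ k, k = (Ps s0).card / 300 + 1 := ⟨_, rfl⟩
  choose X x1 x2 x3 using fun s => share (fun v => T.lc v) k 300 (Ps s) (by have := hmax s; omega)
  obtain ⟨R, r1, r2, r3, -⟩ := T.closure (X true ∪ X false)
  have r4 := card_union_le (X true) (X false)
  have r5 := x2 true
  have r6 := x2 false
  let S := R.filter (fun v => T.Inner v)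
  have hSc : S.card ≤ 6 * k := (card_filter_le _ _).trans (by omega)
  have hXS : ∀ s, ∀ v ∈ X s, v ∈ S := fun s v hv =>
    mem_filter.2 ⟨r1 (by cases s <;> simp [hv]), inner_of_lc T (hPs s v (x1 s hv)).2⟩
  let W : V → Finset ℤ := fun v => (Ioc (-(30 * k + 1 : ℤ)) 0).image (sg (T.sd v))
  obtain ⟨ψ0, -, g2, g3, -, -⟩ := T.greedy ∅ (fun _ => (0 : ℤ)) W (fun _ => True) ∅ ∅ (by simp)
    (6 * k) ⟨by simp, by simp⟩ (by simp) S (by simp) hSc (by simp) (by simp)
    (fun v _ p z => by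
      rw [filter_true_of_mem (fun _ _ => ⟨trivial, trivial⟩),
        card_image_of_injective _ (fun x y h => by rw [← sg_sg _ x, h, sg_sg]), Int.card_Ioc]
      simp only [card_empty]
      omega)
  rw [empty_union] at g2
  have hpos : ∀ v ∈ S, -(30 * k + 1 : ℤ) < sg (T.sd v) (ψ0 v) ∧ sg (T.sd v) (ψ0 v) ≤ 0 := by
    intro v hv
    obtain ⟨x, hx, he⟩ := mem_image.1 (g3 v hv)
    rw [← he, sg_sg]; exact mem_Ioc.1 hx
  refine core T n h1 h0 hr b (30 * k + 1) hb (by omega) S (fun v hv => (mem_filter.1 hv).2) ψ0 g2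
    (fun v hv => by have := hpos v hv; omega) (fun v hv c hc c' hc' a1 a2 a3 a4 => ?_)
    (fun s => ⟨X s, fun v hv => ?_, ?_⟩) s0 (Or.inr ⟨Ps s0 \ S, fun v hv => ?_, ?_⟩) (by omega)
  · exact r3 v (fun h => hv (mem_filter.2 ⟨h, c, a1, a3⟩)) c (mem_filter.1 hc).1 c'
      (mem_filter.1 hc').1 a1 a2 a3 a4
  · have a := (hPs s v (x1 s hv)).1
    exact ⟨hXS s v hv, a, a ▸ (hpos v (hXS s v hv)).2⟩
  · have := x3 s
    have := hsum s
    omega
  · exact ⟨(mem_sdiff.1 hv).2, (hPs s0 v (mem_sdiff.1 hv).1).1⟩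
  · have a1 := card_nsmul_le_sum (Ps s0 \ S) (fun v => T.lc v) 1
      (fun v hv => (hPs s0 v (mem_sdiff.1 hv).1).2)
    have a2 := le_card_sdiff S (Ps s0)
    simp only [smul_eq_mul] at a1
    omega

open Classical in
/-- a vertex with many leaves on each side, one of them the root -/
lemma single [Fintype V] (n : ℕ) (h1 : (univ.filter (fun v => T.sd v = true)).card = n)
    (h0 : (univ.filter (fun v => T.sd v = false)).card = n) (hr : T.Inner T.root) (b : ℕ)
    (hb : (univ.filter (fun v => T.Inner v)).card ≤ b) (hn : 42 * b + 21 ≤ n) (a : V)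
    (hs : T.sd a = !T.sd T.root) (l1 : 14 * b + 7 ≤ T.lc T.root) (l2 : 14 * b + 7 ≤ T.lc a) :
    ∃ ψ : V → ZMod (2 * n - 1), T.Good ψ := by
  have ha : T.Inner a := inner_of_lc T (by omega)
  have har : a ≠ T.root := fun h => by rw [h] at hs; simp at hs
  have hA : ∀ (S : Finset V) (ψ0 : V → ℤ), T.root ∈ S → a ∈ S → ψ0 T.root = 0 → ψ0 a = 0 →
      ∀ s, ∃ X : Finset V, (∀ v ∈ X, v ∈ S ∧ T.sd v = s ∧ sg s (ψ0 v) ≤ 0) ∧
      14 * b + 3 * 1 + 4 ≤ ∑ v ∈ X, T.lc v := by
    intro S ψ0 a1 a2 a3 a4 s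
    by_cases h : T.sd T.root = s
    · refine ⟨{T.root}, fun v hv => ?_, by rw [sum_singleton]; omega⟩
      rw [mem_singleton.1 hv, a3]
      exact ⟨a1, h, by cases s <;> simp⟩
    · refine ⟨{a}, fun v hv => ?_, by rw [sum_singleton]; omega⟩
      rw [mem_singleton.1 hv, a4]
      refine ⟨a2, ?_, by cases s <;> simp⟩
      rw [hs]
      revert h
      cases s <;> cases T.sd T.root <;> simp
  by_cases hp : T.par a = T.root
  · have hm : ∀ v ∈ ({T.root, a} : Finset V), v ≠ T.root → v = a := fun v hv h =>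
      mem_singleton.1 ((mem_insert.1 hv).resolve_left h)
    refine core T n h1 h0 hr b 1 hb le_rfl {T.root, a} (fun v hv => ?_) (fun _ => 0)
      ⟨fun u hu v hv h _ => ?_, fun u hu v hv a1 a2 _ _ _ => by rw [hm u hu a1, hm v hv a2]⟩
      (fun v _ => by cases T.sd v <;> simp)
      (fun v _ c hc c' hc' a1 a2 _ _ => by rw [hm c hc a1, hm c' hc' a2])
      (hA _ _ (by simp) (by simp) rfl rfl) true
      (Or.inl ⟨rfl, a, by simp, har, by simp [hp], by simp⟩) (by omega)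
    · by_cases h : v = T.root
      · rw [h]; exact hr
      · rw [hm v hv h]; exact ha
    · by_cases a1 : u = T.root <;> by_cases a2 : v = T.root
      · rw [a1, a2]
      · rw [a1, hm v hv a2, hs] at h; simp at h
      · rw [a2, hm u hu a1, hs] at h; simp at h
      · rw [hm u hu a1, hm v hv a2]
  · obtain ⟨y, hy⟩ : ∃ y, y = T.par a := ⟨_, rfl⟩
    obtain ⟨x, hx⟩ : ∃ x, x = T.par y := ⟨_, rfl⟩
    obtain ⟨r, hr'⟩ : ∃ r, r = T.sd T.root := ⟨_, rfl⟩
    rw [← hy] at hp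
    rw [← hr'] at hs
    have sy : T.sd y = r := by rw [hy, T.sd_par_eq har, hs, Bool.not_not]
    have sx : T.sd x = !r := by rw [hx, T.sd_par_eq hp, sy]
    have hxr : x ≠ T.root := fun h => by rw [h, ← hr'] at sx; simp at sx
    have d1 := T.dep_par a har
    have d2 := T.dep_par y hp
    have d3 := T.dep_par x hxr
    rw [← hy] at d1
    rw [← hx] at d2
    have n1 : a ≠ x := fun h => by rw [h] at d1; omega
    have n2 : a ≠ y := fun h => by rw [h] at d1; omega
    let ψ0 : V → ℤ := fun v => if v = x ∨ v = y then sg (T.sd v) 1 else 0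
    have v1 : ψ0 T.root = 0 := if_neg (not_or.2 ⟨hxr.symm, Ne.symm hp⟩)
    have v2 : ψ0 a = 0 := if_neg (not_or.2 ⟨n1, n2⟩)
    have v3 : ψ0 x = sg (!r) 1 := by rw [← sx]; exact if_pos (Or.inl rfl)
    have v4 : ψ0 y = sg r 1 := by rw [← sy]; exact if_pos (Or.inr rfl)
    have hm : ∀ v, v ∈ ({T.root, a, x, y} : Finset V) ↔ v = T.root ∨ v = a ∨ v = x ∨ v = y := by
      intro v; simp only [mem_insert, mem_singleton]
    have hv : ∀ v ∈ ({T.root, a, x, y} : Finset V),
        (v = T.root ∧ T.sd v = r ∧ ψ0 v = 0) ∨ (v = a ∧ T.sd v = (!r) ∧ ψ0 v = 0) ∨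
        (v = x ∧ T.sd v = (!r) ∧ ψ0 v = sg (!r) 1) ∨ (v = y ∧ T.sd v = r ∧ ψ0 v = sg r 1) := by
      intro v hv
      rcases (hm v).1 hv with h | h | h | h
      · exact Or.inl ⟨h, h ▸ hr'.symm, h ▸ v1⟩
      · exact Or.inr (Or.inl ⟨h, h ▸ hs, h ▸ v2⟩)
      · exact Or.inr (Or.inr (Or.inl ⟨h, h ▸ sx, h ▸ v3⟩))
      · exact Or.inr (Or.inr (Or.inr ⟨h, h ▸ sy, h ▸ v4⟩))
    have hc : ∀ v ∈ ({T.root, a, x, y} : Finset V), v ≠ T.root →
        T.par v ∈ ({T.root, a, x, y} : Finset V) →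
        (v = a ∧ ψ0 v + ψ0 (T.par v) = sg r 1) ∨ (v = x ∧ ψ0 v + ψ0 (T.par v) = sg (!r) 1) ∨
        (v = y ∧ ψ0 v + ψ0 (T.par v) = 0) := by
      intro v hv hvr hpv
      rcases (hm v).1 hv with h | h | h | h
      · exact absurd h hvr
      · exact Or.inl ⟨h, by rw [h, ← hy, v2, v4, zero_add]⟩
      · rw [h] at hpv
        rcases (hm _).1 hpv with h' | h' | h' | h'
        · exact Or.inr (Or.inl ⟨h, by rw [h, h', v1, v3, add_zero]⟩)
        all_goals rw [h'] at d3; omega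
      · exact Or.inr (Or.inr ⟨h, by rw [h, ← hx, v3, v4]; cases r <;> simp⟩)
    have hx' : ∀ v, v ∉ ({T.root, a, x, y} : Finset V) → ∀ c ∈ ({T.root, a, x, y} : Finset V),
        c ≠ T.root → T.par c = v → c = x := by
      intro v hv c hc hcr hpc
      rcases (hm c).1 hc with h | h | h | h
      · exact absurd h hcr
      · rw [h, ← hy] at hpc; exact absurd ((hm v).2 (by simp [hpc])) hv
      · exact h
      · rw [h, ← hx] at hpc; exact absurd ((hm v).2 (by simp [hpc])) hv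
    refine core T n h1 h0 hr b 1 hb le_rfl {T.root, a, x, y} (fun v hv => ?_) ψ0
      ⟨fun u hu v hv' h he => ?_, fun u hu v hv' a1 a2 a3 a4 he => ?_⟩ (fun v hv' => ?_)
      (fun v hv c hc c' hc' a1 a2 a3 a4 => by rw [hx' v hv c hc a1 a3, hx' v hv c' hc' a2 a4])
      (hA _ _ (by simp) (by simp) v1 v2) true
      (Or.inl ⟨rfl, y, by simp, hp, by simp [← hx], ?_⟩) (by omega)
    · rcases (hm v).1 hv with h | h | h | h <;> rw [h]
      · exact hr
      · exact ha
      · exact ⟨y, hp, hx.symm⟩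
      · exact ⟨a, har, hy.symm⟩
    · rcases hv u hu with ⟨a1, a2, a3⟩ | ⟨a1, a2, a3⟩ | ⟨a1, a2, a3⟩ | ⟨a1, a2, a3⟩ <;>
        rcases hv v hv' with ⟨b1, b2, b3⟩ | ⟨b1, b2, b3⟩ | ⟨b1, b2, b3⟩ | ⟨b1, b2, b3⟩
      all_goals first
        | exact a1.trans b1.symm
        | (rw [a2, b2] at h; rw [a3, b3] at he; revert h he; cases r <;> simp)
    · rcases hc u hu a1 a3 with ⟨b1, b2⟩ | ⟨b1, b2⟩ | ⟨b1, b2⟩ <;>
        rcases hc v hv' a2 a4 with ⟨c1, c2⟩ | ⟨c1, c2⟩ | ⟨c1, c2⟩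
      all_goals first
        | exact b1.trans c1.symm
        | (rw [b2, c2] at he; revert he; cases r <;> simp)
    · rcases hv v hv' with ⟨a1, a2, a3⟩ | ⟨a1, a2, a3⟩ | ⟨a1, a2, a3⟩ | ⟨a1, a2, a3⟩ <;>
        rw [a2, a3] <;> cases r <;> simp
    · rw [← hx, v3, v4]; cases r <;> simp

end TC

open TC

open Classical in
/-- balanced trees with few inner vertices have a good labelling -/
theorem thmC (n : ℕ) (V : Type) [Fintype V] (T : RT V)
    (h1 : (univ.filter (fun v => T.sd v = true)).card = n)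
    (h0 : (univ.filter (fun v => T.sd v = false)).card = n)
    (hb : 10000 * (univ.filter (fun v => T.Inner v)).card ≤ n)
    (hroot : ∀ v, T.sd v = T.sd T.root → T.lc v ≤ T.lc T.root) :
    ∃ ψ : V → ZMod (2 * n - 1), T.Good ψ := by
  have hside : ∀ s, (univ.filter (fun v => T.sd v = s)).card = n := fun s => by
    cases s <;> assumption
  have hn : 0 < n := by
    rw [← hside (T.sd T.root)]
    exact card_pos.2 ⟨T.root, by simp⟩
  have hr : T.Inner T.root := by
    obtain ⟨v, hv⟩ := card_pos.1 ((hside (!T.sd T.root)).symm ▸ hn)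
    have h : v ≠ T.root := fun h => by rw [h] at hv; simp at hv
    exact inner_root T _ v (T.dep_par v h)
  obtain ⟨b, hb'⟩ : ∃ b, b = (univ.filter (fun v => T.Inner v)).card := ⟨_, rfl⟩
  have hb1 : 0 < b := hb' ▸ card_pos.2 ⟨T.root, by simpa using hr⟩
  rw [← hb'] at hb
  let Ps : Bool → Finset V := fun s => univ.filter (fun v => T.sd v = s ∧ 0 < T.lc v)
  have hPs : ∀ s, ∀ v ∈ Ps s, T.sd v = s ∧ 0 < T.lc v := fun s v hv => (mem_filter.1 hv).2
  have hsum : ∀ s, n ≤ ∑ v ∈ Ps s, T.lc v + b := by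
    intro s
    rw [sum_lc T hr, hb', ← hside (!s)]
    refine le_trans (card_le_card fun c hc => ?_) (card_union_le _ _)
    by_cases h : T.Inner c
    · exact mem_union_right _ (mem_filter.2 ⟨mem_univ _, h⟩)
    · have hc' : c ≠ T.root := fun e => h (e ▸ hr)
      refine mem_union_left _ (mem_filter.2 ⟨mem_univ _, h, mem_filter.2 ⟨mem_univ _, ?_, ?_⟩⟩)
      · rw [T.sd_par_eq hc', (mem_filter.1 hc).2, Bool.not_not]
      · exact card_pos.2 ⟨c, by simp [hc', h]⟩
  obtain ⟨s0, -, hmax⟩ := exists_max_image univ (fun s => (Ps s).card) ⟨true, mem_univ _⟩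
  by_cases hP : 100 ≤ (Ps s0).card
  · exact multi T n h1 h0 hr b hb'.ge hb Ps hPs hsum s0 (fun s => hmax s (mem_univ _)) hP
  · have hbig : ∀ s, ∃ a, T.sd a = s ∧ 14 * b + 7 ≤ T.lc a := by
      intro s
      by_contra hc
      have a1 := sum_le_card_nsmul (Ps s) (fun v => T.lc v) (14 * b + 7) (fun v hv => by
        by_contra h
        exact hc ⟨v, (hPs s v hv).1, by omega⟩)
      have a2 : (Ps s).card ≤ 99 := by have := hmax s (mem_univ _); omega
      have a3 := Nat.mul_le_mul_right (14 * b + 7) a2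
      have a4 := hsum s
      simp only [smul_eq_mul] at a1
      omega
    obtain ⟨a, a1, a2⟩ := hbig (T.sd T.root)
    obtain ⟨a', a3, a4⟩ := hbig (!T.sd T.root)
    exact single T n h1 h0 hr b hb'.ge (by omega) a' a3 (a2.trans (hroot a a1)) a4

end Pool.Agent.Lib.MP_5cebc8_co
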