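import Pool.Agent.Lib.MP_5cebc8_co.Defs

open Finset

namespace Pool.Agent.Lib.MP_5cebc8_co

variable {V : Type} [Fintype V] [DecidableEq V]

namespace Tr

theorem sum_fib (T : RT V) (X Y : Finset V) :
    ∑ v ∈ X, (Y.filter (fun c => T.par c = v)).card ≤ Y.card := by
  rw [sum_card_fiberwise_eq_card_filter]
  exact card_filter_le _ _

open Classical in
/-- the number of children that have a child -/
noncomputable def ci (T : RT V) (v : V) : ℕ :=
  (univ.filter (fun c => c ≠ T.root ∧ T.par c = v ∧ T.Inner c)).card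

omit [DecidableEq V] in
theorem lc_iff {T : RT V} {v : V} :
    0 < T.lc v ↔ ∃ c, c ≠ T.root ∧ T.par c = v ∧ ¬ T.Inner c := by
  unfold RT.lc
  rw [card_pos]
  constructor
  · rintro ⟨c, hc⟩; exact ⟨c, by simpa using hc⟩
  · rintro ⟨c, hc⟩; exact ⟨c, by simpa using hc⟩

def Gd (T : RT V) (R : Finset V) (v : V) : Prop := T.Inner v ∧ v ∉ R ∧ T.lc v = 0 ∧ ci T v = 1

theorem Gd.uniq {T : RT V} {R : Finset V} {p c c' : V} (h : Gd T R p) (hc : c ≠ T.root)
    (hc' : c' ≠ T.root) (e : T.par c = p) (e' : T.par c' = p) : c = c' := by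
  classical
  obtain ⟨_, _, h1, h2⟩ := h
  have inn : ∀ x, x ≠ T.root → T.par x = p → T.Inner x := by
    intro x hx ex
    by_contra hn
    have := lc_iff.2 ⟨x, hx, ex, hn⟩
    omega
  unfold ci at h2
  exact card_le_one.1 h2.le c (mem_filter.2 ⟨mem_univ _, hc, e, inn c hc e⟩) c'
    (mem_filter.2 ⟨mem_univ _, hc', e', inn c' hc' e'⟩)

theorem inner_par {T : RT V} {v : V} (h : T.Inner v) : T.Inner (T.par v) := by
  by_cases e : v = T.root
  · rw [e, T.par_root, ← e]; exact h
  · exact ⟨v, e, rfl⟩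

open Classical in
theorem sum_ci (T : RT V) : ∑ v ∈ univ.filter (fun v => T.Inner v), ci T v ≤
    (univ.filter (fun v => T.Inner v)).card := by
  refine le_trans (sum_le_sum fun v _ => card_le_card fun c hc => ?_)
    (sum_fib T _ (univ.filter (fun v => T.Inner v)))
  obtain ⟨_, _, h2, h3⟩ := mem_filter.1 hc
  exact mem_filter.2 ⟨mem_filter.2 ⟨mem_univ _, h3⟩, h2⟩

open Classical in
theorem lc_pos {T : RT V} {v : V} (h : T.Inner v) (h0 : ci T v = 0) : 0 < T.lc v := by
  obtain ⟨c, hc, e⟩ := h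
  unfold ci at h0
  rw [card_eq_zero, filter_eq_empty_iff] at h0
  exact lc_iff.2 ⟨c, hc, e, fun hi => h0 (mem_univ c) ⟨hc, e, hi⟩⟩

open Classical in
theorem card_bad (T : RT V) (R : Finset V) :
    (univ.filter (fun v => T.Inner v ∧ ¬ Gd T R v)).card ≤
      R.card + 2 * (univ.filter (fun v => 0 < T.lc v)).card := by
  set B := univ.filter (fun v => T.Inner v) with hB
  set P := univ.filter (fun v => 0 < T.lc v) with hP
  have h1 := sum_ci T
  have h2 : ∀ v ∈ B, 1 + (if 2 ≤ ci T v then 1 else 0) ≤ ci T v + if ci T v = 0 then 1 else 0 := by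
    intro v _; split_ifs <;> omega
  have h3 := sum_le_sum h2
  rw [sum_add_distrib, sum_add_distrib, ← card_filter, ← card_filter, sum_const, smul_eq_mul,
    mul_one] at h3
  have h4 : (B.filter (fun v => ci T v = 0)).card ≤ P.card := card_le_card fun v hv => by
    obtain ⟨a, b⟩ := mem_filter.1 hv
    exact mem_filter.2 ⟨mem_univ _, lc_pos (mem_filter.1 a).2 b⟩
  have h5 : univ.filter (fun v => T.Inner v ∧ ¬ Gd T R v) ⊆
      R ∪ P ∪ B.filter (fun v => 2 ≤ ci T v) := by
    intro v hv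
    obtain ⟨_, a, b⟩ := mem_filter.1 hv
    by_contra hn
    simp only [mem_union, not_or, mem_filter, mem_univ, true_and, hP, hB, not_and] at hn
    obtain ⟨⟨n1, n2⟩, n3⟩ := hn
    have n4 := n3 a
    have n5 : ci T v ≠ 0 := fun h => n2 (lc_pos a h)
    exact b ⟨a, n1, by omega, by omega⟩
  have h6 := (card_le_card h5).trans (card_union_le _ _)
  have h7 := card_union_le R P
  rw [← hB] at h1
  omega

open Classical in
theorem sum_ci_bad (T : RT V) (R : Finset V) :
    ∑ v ∈ univ.filter (fun v => T.Inner v ∧ ¬ Gd T R v), ci T v ≤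
      (univ.filter (fun v => T.Inner v ∧ ¬ Gd T R v)).card := by
  have h1 := sum_ci T
  have h2 := sum_filter_add_sum_filter_not (univ.filter (fun v => T.Inner v)) (Gd T R) (ci T)
  have h3 := card_filter_add_card_filter_not (s := univ.filter (fun v => T.Inner v)) (Gd T R)
  have h4 : ∑ v ∈ (univ.filter (fun v => T.Inner v)).filter (Gd T R), ci T v =
      ((univ.filter (fun v => T.Inner v)).filter (Gd T R)).card := by
    rw [card_eq_sum_ones]
    exact sum_congr rfl fun v hv => (mem_filter.1 hv).2.2.2.2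
  have h5 : univ.filter (fun v => T.Inner v ∧ ¬ Gd T R v) =
      (univ.filter (fun v => T.Inner v)).filter (fun v => ¬ Gd T R v) := by rw [filter_filter]
  rw [h5]
  have h6 : ∑ v ∈ (univ.filter (fun v => T.Inner v)).filter (Gd T R), ci T v +
      ∑ v ∈ (univ.filter (fun v => T.Inner v)).filter (fun v => ¬ Gd T R v), ci T v ≤
      ((univ.filter (fun v => T.Inner v)).filter (Gd T R)).card +
      ((univ.filter (fun v => T.Inner v)).filter (fun v => ¬ Gd T R v)).card :=
    h2.le.trans (h1.trans h3.ge)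
  rw [h4] at h6
  exact Nat.le_of_add_le_add_left h6

open Classical in
theorem card_step (T : RT V) (R : Finset V) (hR : T.root ∈ R) (j : ℕ) :
    (univ.filter (fun v => T.Inner v ∧ (∀ i < j, Gd T R (T.par^[i] v)) ∧
      ¬ Gd T R (T.par^[j] v))).card ≤ (univ.filter (fun v => T.Inner v ∧ ¬ Gd T R v)).card := by
  have nr : ∀ v, Gd T R v → v ≠ T.root := fun v h e => h.2.1 (e ▸ hR)
  induction j with
  | zero => simp
  | succ j ih =>
    rcases Nat.eq_zero_or_pos j with rfl | hj
    · refine le_trans ?_ (sum_ci_bad T R)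
      unfold ci
      refine le_trans (card_le_card fun v hv => ?_) card_biUnion_le
      obtain ⟨_, a, b, c⟩ := mem_filter.1 hv
      exact mem_biUnion.2 ⟨T.par v, mem_filter.2 ⟨mem_univ _, inner_par a, c⟩,
        mem_filter.2 ⟨mem_univ _, nr v (b 0 (by omega)), rfl, a⟩⟩
    · refine le_trans (card_le_card_of_injOn T.par (fun v hv => ?_) fun v hv w hw e => ?_) ih
      · obtain ⟨_, a, b, c⟩ := mem_filter.1 (mem_coe.1 hv)
        exact mem_coe.2 (mem_filter.2 ⟨mem_univ _, inner_par a, fun i hi => b (i + 1) (by omega), c⟩)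
      · obtain ⟨_, _, b, _⟩ := mem_filter.1 (mem_coe.1 hv)
        obtain ⟨_, _, b', _⟩ := mem_filter.1 (mem_coe.1 hw)
        exact (b 1 (by omega)).uniq (nr v (b 0 (by omega))) (nr w (b' 0 (by omega))) rfl e.symm

open Classical in
theorem card_deep (T : RT V) (R : Finset V) (hR : T.root ∈ R) (j : ℕ) :
    (univ.filter (fun v => T.Inner v)).card ≤
      (univ.filter (fun v => T.Inner v ∧ ∀ i < j, Gd T R (T.par^[i] v))).card +
        j * (univ.filter (fun v => T.Inner v ∧ ¬ Gd T R v)).card := by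
  induction j with
  | zero => simp
  | succ j ih =>
    have h1 := card_step T R hR j
    have h2 : univ.filter (fun v => T.Inner v ∧ ∀ i < j, Gd T R (T.par^[i] v)) ⊆
        univ.filter (fun v => T.Inner v ∧ ∀ i < j + 1, Gd T R (T.par^[i] v)) ∪
        univ.filter (fun v => T.Inner v ∧ (∀ i < j, Gd T R (T.par^[i] v)) ∧
          ¬ Gd T R (T.par^[j] v)) := by
      intro v hv
      obtain ⟨_, a, b⟩ := mem_filter.1 hv
      by_cases c : Gd T R (T.par^[j] v)
      · refine mem_union_left _ (mem_filter.2 ⟨mem_univ _, a, fun i hi => ?_⟩)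
        by_cases e : i = j
        · rw [e]; exact c
        · exact b i (by omega)
      · exact mem_union_right _ (mem_filter.2 ⟨mem_univ _, a, b, c⟩)
    have h3 := (card_le_card h2).trans (card_union_le _ _)
    rw [Nat.succ_mul]
    omega

theorem iter_inj {T : RT V} {R : Finset V} (hR : T.root ∈ R) {v w : V}
    (hv : ∀ i < 9, Gd T R (T.par^[i] v)) (hw : ∀ i < 9, Gd T R (T.par^[i] w)) :
    ∀ j, j < 9 → T.par^[j] v = T.par^[j] w → v = w := by
  have nr : ∀ v, Gd T R v → v ≠ T.root := fun v h e => h.2.1 (e ▸ hR)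
  intro j
  induction j with
  | zero => intro _ h; exact h
  | succ j ih =>
    intro hj h
    refine ih (by omega) ((hv (j + 1) hj).uniq (nr _ (hv j (by omega))) (nr _ (hw j (by omega)))
      (Function.iterate_succ_apply' _ _ _).symm ?_)
    rw [h]; exact (Function.iterate_succ_apply' _ _ _).symm

end Tr

theorem cutR (T : RT V) (K : ℕ) (dg : ℝ) (hdg : 0 < dg) : ∃ (Hg R : Finset V) (cp : V → V),
    Cut T Hg R cp K dg ∧ (Hg.card : ℝ) * dg ≤ 3 * Fintype.card V ∧
      R.card * K ≤ 3 * Fintype.card V + K * (3 + 6 * Hg.card) := by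
  classical
  let H0 : Finset V := univ.filter
    (fun v => dg < ((univ.filter (fun c => c ≠ T.root ∧ T.par c = v)).card : ℝ))
  have h0 : (H0.card : ℝ) * dg ≤ Fintype.card V := by
    have a1 : H0.card • dg ≤ ∑ v ∈ H0, ((univ.filter (fun c => T.par c = v)).card : ℝ) :=
      card_nsmul_le_sum _ _ _ fun v hv => (mem_filter.1 hv).2.le.trans (by
        have : univ.filter (fun c => c ≠ T.root ∧ T.par c = v) ⊆ univ.filter (fun c => T.par c = v) :=
          fun c hc => mem_filter.2 ⟨mem_univ _, (mem_filter.1 hc).2.2⟩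
        exact_mod_cast card_le_card this)
    have a2 := Tr.sum_fib T H0 univ
    rw [nsmul_eq_mul] at a1
    refine a1.trans ?_
    exact_mod_cast a2
  obtain ⟨Hg, g1, g2, g3, _⟩ := T.closure H0
  obtain ⟨R0, cp, c1, c2, c3⟩ := T.cut K
  obtain ⟨R, r1, r2, r3, r4⟩ := T.closure (insert T.root (R0 ∪ Hg ∪ Hg.image T.par))
  have m0 : T.root ∈ R := r1 (mem_insert_self _ _)
  have m1 : R0 ⊆ R := fun v hv =>
    r1 (mem_insert_of_mem (mem_union_left _ (mem_union_left _ hv)))
  refine ⟨Hg, R, cp, ⟨m0, fun v hv => r1 (mem_insert_of_mem (mem_union_left _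
    (mem_union_right _ hv))), fun v hv => r1 (mem_insert_of_mem (mem_union_right _
    (mem_image_of_mem _ hv))), fun v a b => c2 v (fun h => a (m1 h)) (fun h => b (m1 h)),
    fun t => le_trans (card_le_card fun u hu => ?_) (c3 t), r3,
    fun v a b => r4 v a (fun e => a (e ▸ m0)) b, g3, fun v hv => ?_⟩, ?_, ?_⟩
  · obtain ⟨_, a, b⟩ := mem_filter.1 hu
    exact mem_filter.2 ⟨mem_univ _, fun h => a (m1 h), b⟩
  · by_contra hn
    exact hv (g1 (mem_filter.2 ⟨mem_univ _, not_le.1 hn⟩))
  · have : (Hg.card : ℝ) ≤ 3 * H0.card := by exact_mod_cast g2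
    nlinarith
  · have a1 := card_insert_le T.root (R0 ∪ Hg ∪ Hg.image T.par)
    have a2 := card_union_le (R0 ∪ Hg) (Hg.image T.par)
    have a3 := card_union_le R0 Hg
    have a4 := card_image_le (s := Hg) (f := T.par)
    have a5 : R.card ≤ 3 * R0.card + (3 + 6 * Hg.card) := by omega
    have a6 := Nat.mul_le_mul_right K a5
    nlinarith

open Classical in
theorem tricho (T : RT V) (R : Finset V) (hR : T.root ∈ R) (n k : ℕ)
    (hb : n < 10000 * (univ.filter (fun v => T.Inner v)).card)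
    (hRn : 10000000 * R.card ≤ n) (hk : 10000000 * k ≤ n) :
    (∃ (Sp : Finset V) (l : V → V) (s0 : Bool), LeafA T R Sp l s0 ∧ Sp.card = k) ∨
    (∃ (Sp : Finset V) (q : V → ℕ → V) (s0 : Bool), PathB T R Sp q s0 ∧ Sp.card = k) := by
  set P := univ.filter (fun v => 0 < T.lc v) with hP
  by_cases hc : n ≤ 1000000 * P.card
  · left
    have hl : ∀ p, ∃ c, p ∈ P → c ≠ T.root ∧ T.par c = p ∧ ¬ T.Inner c := by
      intro p
      by_cases h : p ∈ P
      · obtain ⟨c, hc⟩ := Tr.lc_iff.1 (mem_filter.1 h).2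
        exact ⟨c, fun _ => hc⟩
      · exact ⟨p, fun h' => absurd h' h⟩
    choose l hl using hl
    have hs : ∃ s0, P.card ≤ 2 * (P.filter (fun p => T.sd p = s0)).card := by
      have h1 := card_filter_add_card_filter_not (s := P) (fun p => T.sd p = true)
      have h2 : P.filter (fun p => ¬ T.sd p = true) = P.filter (fun p => T.sd p = false) := by
        simp
      rw [h2] at h1
      by_cases c : P.card ≤ 2 * (P.filter (fun p => T.sd p = true)).card
      · exact ⟨true, c⟩
      · exact ⟨false, by omega⟩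
    obtain ⟨s0, hs⟩ := hs
    have h1 : P.filter (fun p => T.sd p = s0) ⊆
        P.filter (fun p => T.sd p = s0 ∧ p ∉ R ∧ l p ∉ R) ∪ R ∪ R.image T.par := by
      intro p hp
      obtain ⟨a, b⟩ := mem_filter.1 hp
      by_cases c1 : p ∈ R
      · exact mem_union_left _ (mem_union_right _ c1)
      by_cases c2 : l p ∈ R
      · exact mem_union_right _ (mem_image.2 ⟨_, c2, (hl p a).2.1⟩)
      · exact mem_union_left _ (mem_union_left _ (mem_filter.2 ⟨a, b, c1, c2⟩))
    have h2 := (card_le_card h1).trans (card_union_le _ _)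
    have h3 := card_union_le (P.filter (fun p => T.sd p = s0 ∧ p ∉ R ∧ l p ∉ R)) R
    have h4 := card_image_le (s := R) (f := T.par)
    obtain ⟨Sp, s1, s2⟩ := exists_subset_card_eq
      (s := P.filter (fun p => T.sd p = s0 ∧ p ∉ R ∧ l p ∉ R)) (n := k) (by omega)
    refine ⟨Sp, l, s0, ⟨fun p hp => ?_⟩, s2⟩
    obtain ⟨a, b, c, d⟩ := mem_filter.1 (s1 hp)
    exact ⟨c, b, d, hl p a⟩
  · right
    have nr : ∀ v, Tr.Gd T R v → v ≠ T.root := fun v h e => h.2.1 (e ▸ hR)
    have h1 := Tr.card_bad T R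
    have h2 := Tr.card_deep T R hR 9
    rw [← hP] at h1
    obtain ⟨D, hD, h2⟩ : ∃ D : Finset V, (∀ v ∈ D, ∀ i < 9, Tr.Gd T R (T.par^[i] v)) ∧
        (univ.filter (fun v => T.Inner v)).card ≤ D.card +
          9 * (univ.filter (fun v => T.Inner v ∧ ¬ Tr.Gd T R v)).card :=
      ⟨_, fun v hv => by
        simp only [mem_filter] at hv
        exact hv.2.2, h2⟩
    obtain ⟨y, _, hy⟩ := exists_le_card_fiber_of_mul_le_card_of_maps_to (s := D)
      (t := range 9 ×ˢ (univ : Finset Bool)) (f := fun v => (T.dep v % 9, T.sd (T.par^[7] v)))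
      (n := k) (fun v _ => mem_product.2 ⟨mem_range.2 (Nat.mod_lt _ (by norm_num)), mem_univ _⟩)
      ⟨(0, true), by simp⟩ (by
        rw [card_product, card_range, card_univ, Fintype.card_bool]; omega)
    obtain ⟨Cl, s1, s2⟩ := exists_subset_card_eq hy
    have hCl : ∀ v ∈ Cl, (∀ i < 9, Tr.Gd T R (T.par^[i] v)) ∧ T.dep v % 9 = y.1 ∧
        T.sd (T.par^[7] v) = y.2 ∧ 9 ≤ T.dep v := by
      intro v hv
      obtain ⟨a, b⟩ := mem_filter.1 (s1 hv)
      have c := hD v a
      refine ⟨c, congrArg Prod.fst b, congrArg Prod.snd b, ?_⟩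
      by_contra hn
      exact nr _ (c 8 (by norm_num)) (T.eq_root_of_dep (by rw [T.dep_iter]; omega))
    have hinv : ∀ p, ∃ v, p ∈ Cl.image (T.par^[7]) → v ∈ Cl ∧ T.par^[7] v = p := by
      intro p
      by_cases h : p ∈ Cl.image (T.par^[7])
      · obtain ⟨v, a, b⟩ := mem_image.1 h
        exact ⟨v, fun _ => ⟨a, b⟩⟩
      · exact ⟨p, fun h' => absurd h' h⟩
    choose w hw using hinv
    have step : ∀ v i, i < 7 → T.par (T.par^[7 - (i + 1)] v) = T.par^[7 - i] v := by
      intro v i hi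
      rw [show 7 - i = 7 - (i + 1) + 1 by omega, Function.iterate_succ_apply']
    refine ⟨Cl.image (T.par^[7]), fun p i => T.par^[7 - i] (w p), y.2,
      ⟨fun p hp => ?_, fun p hp i hi => ?_, fun p hp i hi c c1 c2 => ?_, fun p hp i hi => ?_,
        fun p hp p' hp' i i' hi hi' e => ?_⟩, ?_⟩
    · obtain ⟨a, b⟩ := hw p hp
      obtain ⟨c, _, d, _⟩ := hCl _ a
      refine ⟨b, by rw [← b]; exact d, ?_⟩
      have := (c 8 (by norm_num)).2.1
      rwa [Function.iterate_succ_apply', b] at this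
    · exact ⟨nr _ ((hCl _ (hw p hp).1).1 _ (by omega)), step _ i hi⟩
    · have c := (hCl _ (hw p hp).1).1
      exact (c (7 - i) (by omega)).uniq c1 (nr _ (c _ (by omega))) c2 (step _ i hi)
    · exact ((hCl _ (hw p hp).1).1 _ (by omega)).2.1
    · obtain ⟨a, b⟩ := hw p hp
      obtain ⟨a', b'⟩ := hw p' hp'
      obtain ⟨c, d, _, f⟩ := hCl _ a
      obtain ⟨c', d', _, f'⟩ := hCl _ a'
      have e1 := congrArg T.dep e
      simp only [T.dep_iter] at e1
      have e2 : i = i' := by omega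
      subst e2
      have e3 := Tr.iter_inj hR c c' _ (by omega) e
      exact ⟨by rw [← b, ← b', e3], rfl⟩
    · rw [card_image_of_injOn, s2]
      intro v hv v' hv' e
      exact Tr.iter_inj hR (hCl v hv).1 (hCl v' hv').1 7 (by norm_num) e

end Pool.Agent.Lib.MP_5cebc8_co
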