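import Pool.Agent.Lib.MP_5cebc8_co.Stage
import Pool.Agent.Lib.MP_5cebc8_co.Tricho
import Pool.Agent.Lib.MP_5cebc8_co.Cases
import Pool.Agent.Lib.MP_5cebc8_co.ThmC

open Finset

namespace Pool.Agent.Lib.MP_5cebc8_co

/-- large balanced rooted trees have a good labelling -/
theorem large_rooted : ∃ n0 : ℕ, ∀ n, n0 ≤ n → ∀ (V : Type) [Fintype V] (T : RT V),
    (∀ s, (univ.filter (fun v => T.sd v = s)).card = n) →
    (∀ v, T.sd v = T.sd T.root → T.lc v ≤ T.lc T.root) →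
    ∃ ψ : V → ZMod (2 * n - 1), T.Good ψ := by
  obtain ⟨κ, hκd⟩ : ∃ κ : ℝ, κ = 1 / 10 ^ 8 := ⟨_, rfl⟩
  obtain ⟨θ, hθd⟩ : ∃ θ : ℝ, θ = κ ^ 2 / 10 ^ 10 := ⟨_, rfl⟩
  have hκ : 0 < κ := by rw [hκd]; positivity
  have hκ1 : κ ≤ 1 / 1000 := by rw [hκd]; norm_num
  have hθ : 0 < θ := by rw [hθd]; positivity
  obtain ⟨ζ0, hζ0, H1⟩ := stage κ θ hκ hκ1 hθ hθd.le
  obtain ⟨ζ, hζ, hζ1, hζ2⟩ : ∃ ζ : ℝ, 0 < ζ ∧ ζ ≤ ζ0 ∧ ζ ≤ κ :=
    ⟨min ζ0 κ, lt_min hζ0 hκ, min_le_left _ _, min_le_right _ _⟩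
  obtain ⟨K, hK⟩ : ∃ K : ℕ, 12 / ζ ≤ K := ⟨_, Nat.le_ceil _⟩
  have hK' : 12 ≤ (K : ℝ) * ζ := (div_le_iff₀ hζ).1 hK
  have hK0 : (0 : ℝ) < K := lt_of_lt_of_le (by positivity) hK
  obtain ⟨δ, hδ, H2⟩ := H1 K
  obtain ⟨h, hh⟩ : ∃ h : ℕ, 6 / δ ≤ h := ⟨_, Nat.le_ceil _⟩
  have hh' : 6 ≤ (h : ℝ) * δ := (div_le_iff₀ hδ).1 hh
  obtain ⟨m0, H3⟩ := H2 h
  refine ⟨m0 + 1 + ⌈2 * (3 + 6 * h) / ζ + 1 / θ + 1 / κ⌉₊, fun n hn V _ T hs hroot => ?_⟩
  classical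
  by_cases hb : 10000 * (univ.filter (fun v => T.Inner v)).card ≤ n
  · exact thmC n V T (by convert hs true) (by convert hs false) (by convert hb) hroot
  obtain ⟨m, hm⟩ : ∃ m, m = 2 * n - 1 := ⟨_, rfl⟩
  rw [← hm]
  haveI : NeZero m := ⟨by omega⟩
  have hmn : m + 1 = 2 * n := by omega
  have hm0 : (0 : ℝ) < m := by exact_mod_cast NeZero.pos m
  have hV : Fintype.card V = m + 1 := by
    have := card_filter_add_card_filter_not (s := (univ : Finset V)) (fun v => T.sd v = true)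
    simp only [Bool.not_eq_true] at this
    rw [hs, hs, card_univ] at this
    omega
  have hV' : (Fintype.card V : ℝ) ≤ 2 * m := by
    have : Fintype.card V ≤ 2 * m := by omega
    exact_mod_cast this
  have hbig : 2 * (3 + 6 * h) / ζ + 1 / θ + 1 / κ ≤ (m : ℝ) := Nat.ceil_le.1 (by omega)
  have t1 : 0 ≤ 2 * (3 + 6 * (h : ℝ)) / ζ := by positivity
  have t2 : 0 ≤ 1 / θ := by positivity
  have t3 : 0 ≤ 1 / κ := by positivity
  have b1 : 2 * (3 + 6 * (h : ℝ)) ≤ m * ζ := (div_le_iff₀ hζ).1 (by linarith)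
  have b2 : 1 ≤ m * θ := (div_le_iff₀ hθ).1 (by linarith)
  have b3 : 1 ≤ m * κ := (div_le_iff₀ hκ).1 (by linarith)
  obtain ⟨Hg, R, cp, hcut, c1, c2⟩ := cutR T K (δ * m) (by positivity)
  have hH' : (Hg.card : ℝ) ≤ h := by
    have a1 : (Hg.card : ℝ) * (δ * m) ≤ h * (δ * m) := by nlinarith
    exact le_of_mul_le_mul_right a1 (by positivity)
  have hH : Hg.card ≤ h := by exact_mod_cast hH'
  have hR : (R.card : ℝ) ≤ ζ * m := by
    have a1 : (R.card : ℝ) * K ≤ 3 * Fintype.card V + K * (3 + 6 * Hg.card) := by exact_mod_cast c2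
    have a2 : (K : ℝ) * (3 + 6 * Hg.card) ≤ K * (m * ζ / 2) := by gcongr; linarith
    have a3 : 12 * (m : ℝ) ≤ K * ζ * m := by gcongr
    exact le_of_mul_le_mul_right (by nlinarith) hK0
  have hmn' : (m : ℝ) ≤ 2 * n := by exact_mod_cast (by omega : m ≤ 2 * n)
  have hk1 : κ * m ≤ (⌈κ * m⌉₊ : ℝ) := Nat.le_ceil _
  have hk2 : (⌈κ * m⌉₊ : ℝ) ≤ 2 * κ * m := by
    have := Nat.ceil_lt_add_one (show 0 ≤ κ * m by positivity)
    linarith
  have hζm : ζ * m ≤ κ * m := by gcongr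
  have hζm' : ζ * m ≤ ζ0 * m := by gcongr
  have hκm : κ * m = m / 10 ^ 8 := by rw [hκd]; ring
  rcases tricho T R hcut.root_mem n ⌈κ * m⌉₊ (by convert not_le.1 hb)
    (by
      have : (10000000 : ℝ) * R.card ≤ n := by linarith
      exact_mod_cast this)
    (by
      have : (10000000 : ℝ) * (⌈κ * m⌉₊ : ℝ) ≤ n := by linarith
      exact_mod_cast this) with ⟨Sp, l, s0, hA, hc⟩ | ⟨Sp, q, s0, hB, hc⟩
  · obtain ⟨Vt, π, o, ht, hv, hfin⟩ := caseA T R Sp cp l s0 hA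
    obtain ⟨X, ψ, Cov, D, W, ho⟩ := H3 m n (by omega) hmn V ⟨T, Hg, R, Sp, Vt, cp, π, o, 1, s0, K⟩
      rfl hV (fun s => by convert hs s) ⟨hcut, ht⟩ hH (hR.trans hζm') (by rw [← hc] at hk1; exact hk1)
      (by rw [← hc] at hk2; exact hk2) (by rw [← hc, ← hv] at hk1; exact hk1)
    exact hfin m κ θ X ψ Cov D W hV hκ hκ1 hθd.le (by linarith) ho
  · obtain ⟨Vt, π, o, ht, hv, hfin⟩ := caseB T R Sp cp q s0 hcut.cp_par hB
    obtain ⟨X, ψ, Cov, D, W, ho⟩ := H3 m n (by omega) hmn V ⟨T, Hg, R, Sp, Vt, cp, π, o, 2, s0, K⟩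
      rfl hV (fun s => by convert hs s) ⟨hcut, ht⟩ hH (hR.trans hζm') (by rw [← hc] at hk1; exact hk1)
      (by rw [← hc] at hk2; exact hk2) (by
        show κ * m ≤ (Vt.card : ℝ)
        rw [hv, hc]; push_cast; linarith)
    exact hfin m κ θ X ψ Cov D W hV ⟨n - 1, by omega⟩ hκ hκ1 hθd.le (by linarith) ho

/-- a tree can be rooted at a vertex with the most leaves in its class -/
theorem exists_RT_max {V : Type} [Fintype V] (T : SimpleGraph V) (hT : T.IsTree) (c : V → Bool)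
    (hc : ∀ u v, T.Adj u v → c u ≠ c v) (hne : ∃ v, c v = true) :
    ∃ R : RT V, R.sd = c ∧
      (∀ u v, T.Adj u v ↔ (u ≠ R.root ∧ R.par u = v) ∨ (v ≠ R.root ∧ R.par v = u)) ∧
      ∀ v, R.sd v = R.sd R.root → R.lc v ≤ R.lc R.root := by
  classical
  let dl : V → ℕ := fun v => (univ.filter (fun x => T.Adj v x ∧ (T.neighborSet x).ncard = 1)).card
  obtain ⟨r, hr, hmax⟩ := exists_max_image (univ.filter (fun v => c v = true)) dl
    (by obtain ⟨v, hv⟩ := hne; exact ⟨v, mem_filter.2 ⟨mem_univ _, hv⟩⟩)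
  obtain ⟨R, e1, e2, e3⟩ := exists_RT T hT c hc r
  subst e1 e2
  have hpar : ∀ v, v ≠ R.root → T.Adj v (R.par v) := fun v hv => (e3 _ _).2 (Or.inl ⟨hv, rfl⟩)
  have hleaf : ∀ v, v ≠ R.root → (¬ R.Inner v ↔ (T.neighborSet v).ncard = 1) := by
    intro v hv
    constructor
    · intro h
      refine Set.ncard_eq_one.2 ⟨R.par v, Set.eq_singleton_iff_unique_mem.2 ⟨hpar v hv, ?_⟩⟩
      intro x hx
      rcases (e3 v x).1 hx with a | a
      · exact a.2.symm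
      · exact absurd ⟨x, a.1, a.2⟩ h
    · rintro h ⟨x, hx, hp⟩
      obtain ⟨y, hy⟩ := Set.ncard_eq_one.1 h
      have a1 : R.par v ∈ T.neighborSet v := hpar v hv
      have a2 : x ∈ T.neighborSet v := (hp ▸ hpar x hx : T.Adj x v).symm
      rw [hy, Set.mem_singleton_iff] at a1 a2
      have d1 := R.dep_par v hv
      have d2 := R.dep_par x hx
      rw [hp] at d2
      rw [a1, ← a2] at d1
      omega
  have hlc : ∀ v, R.sd v = R.sd R.root → R.lc v = dl v := by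
    intro v hv
    unfold RT.lc
    congr 1
    ext x
    simp only [mem_filter, mem_univ, true_and]
    constructor
    · rintro ⟨a1, a2, a3⟩
      exact ⟨(a2 ▸ hpar x a1 : T.Adj x v).symm, (hleaf x a1).1 a3⟩
    · rintro ⟨a1, a2⟩
      have hx : x ≠ R.root := fun h => hc _ _ a1 (by rw [h, hv])
      have a3 := (hleaf x hx).2 a2
      refine ⟨hx, ?_, a3⟩
      rcases (e3 v x).1 a1 with a | a
      · exact absurd ⟨v, a.1, a.2⟩ a3
      · exact a.2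
  refine ⟨R, rfl, e3, fun v hv => ?_⟩
  rw [hlc v hv, hlc _ rfl]
  exact hmax v (mem_filter.2 ⟨mem_univ _, hv.trans (mem_filter.1 hr).2⟩)

end Pool.Agent.Lib.MP_5cebc8_co
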