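import Pool.Agent.Lib.MP_5cebc8_co.Ctx

open Finset

namespace Pool.Agent.Lib.MP_5cebc8_co

set_option linter.unusedSectionVars false

namespace Md

open Pre

variable {V : Type} [Fintype V] [DecidableEq V] {P : Pre V} {dg : ℝ}
  {m : ℕ} [NeZero m] {L L0 : ℕ} {A : Cn P.Own → Finset (ZMod m)}
  {p : Cn P.Own → ℝ} {tl : Bool → ZMod m → Fin 3 ⊕ P.Own} {tc : ZMod m → Fin 4 ⊕ P.Own}
  {z : V → ZMod m} {Cv : Finset V} {x : V → ZMod m}

lemma mem_Cov {v : V} : v ∈ P.Cov Cv ↔ v ∉ P.R ∧ P.cp v ∈ Cv := by simp [Pre.Cov]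

lemma psi_R {v : V} (hv : v ∈ P.R) : P.psi z x v = z v := by simp [Pre.psi, hv]

lemma psi_nR {v : V} (hv : v ∉ P.R) : P.psi z x v = x (P.π v) + (P.o v : ZMod m) := by
  simp [Pre.psi, hv]

lemma psi_un (h : P.Ok dg) {v : V} (hv : v ∉ P.R) (e : P.π v = v) : P.psi z x v = x v := by
  rw [psi_nR hv, e, h.tie.o_zero v e]; simp

lemma cov_pi (h : P.Ok dg) {v : V} (hv : v ∈ P.Cov Cv) : P.π v ∈ P.Cov Cv := by
  obtain ⟨a, b⟩ := mem_Cov.1 hv
  exact mem_Cov.2 ⟨(mem_N0.1 (h.pi_N0 a)).1, by rw [h.cp_pi]; exact b⟩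

lemma cp_cov {v : V} (hv : v ∈ P.Cov Cv) : P.cp' v ∈ Cv := by
  obtain ⟨a, b⟩ := mem_Cov.1 hv
  simpa [Pre.cp', a] using b

lemma x_cls (he : P.Emb A p z Cv x) {v : V} (hv : v ∈ P.Cov Cv) (e : P.π v = v) :
    x v ∈ P.Cl A z (P.tau v) :=
  F_sub A z (mem_N0.2 ⟨(mem_Cov.1 hv).1, e⟩) (he.h1 v (cp_cov hv))

lemma un_of_par (h : P.Ok dg) {v : V} (hp : P.T.par v ∈ P.R) : P.π v = v := by
  by_contra e
  exact (h.tie.vt _ (h.tie.tied v e).2.2.2.2.2.2.2.2.1).1 hp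

lemma un_of_par_pi (h : P.Ok dg) {v : V} (hp : P.T.par (P.π v) ∈ P.R) : P.π v = v := by
  by_contra e
  obtain ⟨a, b, _⟩ := h.tie.tied v e
  exact (h.tie.two a).1 _ b hp

lemma un_of_notSp (h : P.Ok dg) {v : V} (hp : P.π v ∉ P.Sp) : P.π v = v := by
  by_contra e
  exact hp (h.tie.tied v e).2.1

lemma far_mem (st : Struct L L0 P.wd P.ls A tl tc) {a : Cn P.Own} {y : ZMod m} (hy : y ∈ A a) :
    far L y := by
  simpa using st.far_add a y hy 0 (by omega)

lemma own_mem (he : P.Emb A p z Cv x) {v : V} (hv : v ∈ P.Cov Cv) (e : P.π v = v)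
    (hH : P.T.par v ∈ P.Hg) :
    x v + z (P.T.par v) ∈ A (.own (⟨P.T.par v, hH⟩, decide (v ∈ P.Sp))) := by
  have := x_cls he hv e
  rw [tau_of_mem hH] at this
  simpa [Pre.Cl] using this

/-- the three types of labels of covered vertices -/
lemma lab_type (h : P.Ok dg) (st : Struct L L0 P.wd P.ls A tl tc) (hz : P.Zok L0 (A .ar) z)
    (he : P.Emb A p z Cv x) {v : V} (hv : v ∈ P.Cov Cv) :
    far L (P.psi z x v) ∧
      ((∃ w, P.π v = v ∧ P.tau v = .own w ∧ tl (P.T.sd v) (P.psi z x v) = Sum.inr w) ∨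
       (P.tau (P.π v) = .uu (P.T.sd v) ∧ x (P.π v) ∈ A (.uu (P.T.sd v)) ∧
          tl (P.T.sd v) (P.psi z x v) = Sum.inl 1) ∨
       (P.π v = v ∧ P.tau v = .lb (P.T.sd v) ∧ tl (P.T.sd v) (P.psi z x v) = Sum.inl 0)) := by
  have hR := (mem_Cov.1 hv).1
  by_cases hH : P.T.par (P.π v) ∈ P.Hg
  · have e := un_of_par_pi h (h.cut.sub hH)
    rw [e] at hH
    have hm := own_mem he hv e hH
    have hz0 := (hz.hg _ hH).le
    have e2 : P.psi z x v = x v + z (P.T.par v) - z (P.T.par v) := by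
      rw [psi_un h hR e]; ring
    refine ⟨by rw [e2]; exact st.far_sub _ _ hm _ hz0, Or.inl ⟨_, e, tau_of_mem hH, ?_⟩⟩
    have := st.tl_own _ _ hm _ hz0
    rw [e2, ← this]
    congr 1
    simp only [Pre.ls]
    rw [P.T.sd_par_eq (h.ne_root hR)]
    simp
  · have hx := x_cls he (cov_pi h hv) (h.pi_pi v)
    rw [Cl_of_not A z hH] at hx
    have ht := tau_of_not hH
    rw [h.sd_pi] at ht
    by_cases hS : P.π v ∈ P.Sp
    · rw [if_pos hS] at ht
      rw [ht] at hx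
      rw [psi_nR hR]
      exact ⟨st.far_add _ _ hx _ (h.o_le v), Or.inr (Or.inl ⟨ht, hx, st.tl_uu _ _ hx _ (h.o_le v)⟩)⟩
    · rw [if_neg hS] at ht
      rw [ht] at hx
      have e := un_of_notSp h hS
      rw [e] at ht hx
      rw [psi_un h hR e]
      exact ⟨far_mem st hx, Or.inr (Or.inr ⟨e, ht, st.tl_lb _ _ hx⟩)⟩

lemma slot_inj (he : P.Emb A p z Cv x) {u v : V} (hu : u ∈ P.Cov Cv) (hv : v ∈ P.Cov Cv)
    (eu : P.π u = u) (ev : P.π v = v) (ht : P.tau u = P.tau v) (hx : x u = x v) : u = v := by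
  have := he.h3 (.inl ⟨u, mem_N0.2 ⟨(mem_Cov.1 hu).1, eu⟩⟩) (.inl ⟨v, mem_N0.2 ⟨(mem_Cov.1 hv).1, ev⟩⟩)
    (cp_cov hu) (cp_cov hv) ht (by simp [Sys.val, Pre.sys, Pre.bn, Pre.own, Pre.off, hx])
  simpa using this

lemma lab_cov (h : P.Ok dg) (st : Struct L L0 P.wd P.ls A tl tc) (hz : P.Zok L0 (A .ar) z)
    (he : P.Emb A p z Cv x) {u v : V} (hu : u ∈ P.Cov Cv) (hv : v ∈ P.Cov Cv)
    (hs : P.T.sd u = P.T.sd v) (e : P.psi z x u = P.psi z x v) : u = v := by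
  have hRu := (mem_Cov.1 hu).1
  have hRv := (mem_Cov.1 hv).1
  have a := (lab_type h st hz he hu).2
  have b := (lab_type h st hz he hv).2
  rw [hs, e] at a
  rcases a with ⟨w, a1, a2, a3⟩ | ⟨a1, a2, a3⟩ | ⟨a1, a2, a3⟩ <;>
    rcases b with ⟨w', b1, b2, b3⟩ | ⟨b1, b2, b3⟩ | ⟨b1, b2, b3⟩
  · have : w = w' := by simpa using a3.symm.trans b3
    rw [psi_un h hRu a1, psi_un h hRv b1] at e
    exact slot_inj he hu hv a1 b1 (by rw [a2, b2, this]) e
  · simpa using a3.symm.trans b3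
  · simpa using a3.symm.trans b3
  · simpa using a3.symm.trans b3
  · rw [psi_nR hRu, psi_nR hRv] at e
    obtain ⟨c1, c2⟩ := st.uu_inj _ _ a2 _ b2 _ _ (h.o_le u) (h.o_le v) e
    exact h.tie.inj u v (slot_inj he (cov_pi h hu) (cov_pi h hv) (h.pi_pi u) (h.pi_pi v)
      (by rw [a1, b1]) c1) c2
  · exact absurd (a3.symm.trans b3) (by simp)
  · simpa using a3.symm.trans b3
  · exact absurd (a3.symm.trans b3) (by simp)
  · rw [psi_un h hRu a1, psi_un h hRv b1] at e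
    exact slot_inj he hu hv a1 b1 (by rw [a2, b2]) e

lemma labW (h : P.Ok dg) (st : Struct L L0 P.wd P.ls A tl tc) (hz : P.Zok L0 (A .ar) z)
    (he : P.Emb A p z Cv x) {v : V} (hv : v ∈ P.Cov Cv) :
    P.psi z x v ∉ A (.ww (P.T.sd v)) := by
  intro hw
  have c := st.tl_ww _ _ hw
  rcases (lab_type h st hz he hv).2 with ⟨w, _, _, a⟩ | ⟨_, _, a⟩ | ⟨_, _, a⟩
  · exact absurd (a.symm.trans c) (by simp)
  · exact absurd (a.symm.trans c) (by simp)
  · exact absurd (a.symm.trans c) (by simp)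

lemma lab_mix (h : P.Ok dg) (hL : 2 * L0 + 8 ≤ L) (st : Struct L L0 P.wd P.ls A tl tc)
    (hz : P.Zok L0 (A .ar) z) (he : P.Emb A p z Cv x) {u v : V} (hu : u ∈ P.R)
    (hv : v ∈ P.Cov Cv) : P.psi z x u ≠ P.psi z x v := by
  intro e
  rw [psi_R hu] at e
  by_cases hH : u ∈ P.Hg
  · have a := hz.hg u hH
    have b := (lab_type h st hz he hv).1.1
    rw [← e] at b
    omega
  · exact labW h st hz he hv (e ▸ st.ar_sub _ (hz.lab u hu hH))

lemma lab_all (h : P.Ok dg) (hL : 2 * L0 + 8 ≤ L) (st : Struct L L0 P.wd P.ls A tl tc)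
    (hz : P.Zok L0 (A .ar) z) (he : P.Emb A p z Cv x) {u v : V} (hu : u ∈ P.R ∪ P.Cov Cv)
    (hv : v ∈ P.R ∪ P.Cov Cv) (hs : P.T.sd u = P.T.sd v) (e : P.psi z x u = P.psi z x v) :
    u = v := by
  rcases mem_union.1 hu with hu | hu <;> rcases mem_union.1 hv with hv | hv
  · rw [psi_R hu, psi_R hv] at e
    exact hz.pg.1 u hu v hv hs e
  · exact absurd e (lab_mix h hL st hz he hu hv)
  · exact absurd e.symm (lab_mix h hL st hz he hv hu)
  · exact lab_cov h st hz he hu hv hs e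

/-- the vertex whose edge to the parent is described by a slot -/
noncomputable def sl (P : Pre V) : P.J → V
  | .inl v => v
  | .inr (.inl v) => if P.T.par v ∈ P.R then v else P.an v
  | .inr (.inr v) => v

lemma val_bin (h : P.Ok dg) {v : V} (hv : v ∈ P.N2) :
    (P.sys A p z).val (.inr (.inr ⟨v, hv⟩)) x = P.psi z x v + P.psi z x (P.T.par v) := by
  obtain ⟨a, b⟩ := mem_N2.1 hv
  obtain ⟨a1, a2⟩ := mem_N0.1 a
  rw [psi_un h a1 a2, psi_nR b]
  simp [Sys.val, Pre.sys, Pre.bn, Pre.own, Pre.off, add_assoc]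

lemma val_an {v : V} (hv : v ∈ P.N1) :
    (P.sys A p z).val (.inr (.inl ⟨v, hv⟩)) x = x v + z (P.an v) := by
  simp [Sys.val, Pre.sys, Pre.bn, Pre.own, Pre.off]

/-- the three kinds of visible colours -/
lemma col_kind (h : P.Ok dg) (hL : 2 * L0 + 8 ≤ L) (st : Struct L L0 P.wd P.ls A tl tc)
    (hz : P.Zok L0 (A .ar) z) (he : P.Emb A p z Cv x) {v : V} (hv : v ∈ P.R ∪ P.Cov Cv)
    (hr : v ≠ P.T.root) (hp : P.T.par v ∈ P.R ∪ P.Cov Cv) (hh : ¬ Hid P.Vt P.π (P.Cov Cv) v) :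
    (v ∈ P.R ∧ P.T.par v ∈ P.R ∧ (¬ far L (P.psi z x v + P.psi z x (P.T.par v)) ∨
        tc (P.psi z x v + P.psi z x (P.T.par v)) = Sum.inl 2)) ∨
      (far L (P.psi z x v + P.psi z x (P.T.par v)) ∧ ∃ w : P.Own, (w.1 : V) = P.T.par v ∧
        tc (P.psi z x v + P.psi z x (P.T.par v)) = Sum.inr w) ∨
      (far L (P.psi z x v + P.psi z x (P.T.par v)) ∧
        tc (P.psi z x v + P.psi z x (P.T.par v)) = Sum.inl 0 ∧
        ∃ j : P.J, P.cp' (P.own j) ∈ Cv ∧ P.cls j = .cc ∧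
          (P.sys A p z).val j x = P.psi z x v + P.psi z x (P.T.par v) ∧ sl P j = v) := by
  have key : ∀ j : P.J, P.cp' (P.own j) ∈ Cv → P.cls j = .cc →
      (P.sys A p z).val j x = P.psi z x v + P.psi z x (P.T.par v) → sl P j = v →
      (far L (P.psi z x v + P.psi z x (P.T.par v)) ∧
        tc (P.psi z x v + P.psi z x (P.T.par v)) = Sum.inl 0 ∧
        ∃ j : P.J, P.cp' (P.own j) ∈ Cv ∧ P.cls j = .cc ∧
          (P.sys A p z).val j x = P.psi z x v + P.psi z x (P.T.par v) ∧ sl P j = v) := by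
    intro j a b c d
    have := he.h2 j a
    rw [b, c] at this
    exact ⟨far_mem st (a := .cc) this, st.tc_cc _ this, j, a, b, c, d⟩
  rcases mem_union.1 hv with hv | hv <;> rcases mem_union.1 hp with hp | hp
  · left
    refine ⟨hv, hp, ?_⟩
    rw [psi_R hv, psi_R hp]
    rcases hz.col v hv hr hp with ⟨a, b⟩ | a
    · left
      intro hf
      have c1 := hz.hg _ a
      have c2 := hz.hg _ b
      have c3 := ZMod.val_add_le (z v) (z (P.T.par v))
      have c4 := hf.1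
      omega
    · exact Or.inr (st.tc_ar _ a)
  · right; right
    have hpR := (mem_Cov.1 hp).1
    obtain ⟨a, b⟩ := h.an_down hv hr hpR
    have c := (mem_N0.1 (mem_N1.1 a).1).2
    refine key (.inr (.inl ⟨_, a⟩)) (cp_cov hp) rfl ?_ ?_
    · rw [val_an, b, psi_R hv, psi_un h hpR c, add_comm]
    · have : P.T.par (P.T.par v) ∉ P.R := fun d => h.cut.no_both _ hpR d v hv hr rfl
      simp [sl, this, b]
  · have hR := (mem_Cov.1 hv).1
    have e := un_of_par h hp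
    by_cases hH : P.T.par v ∈ P.Hg
    · right; left
      have hm := own_mem he hv e hH
      rw [psi_un h hR e, psi_R hp]
      exact ⟨far_mem st hm, _, rfl, st.tc_own _ _ hm⟩
    · right; right
      obtain ⟨a, b⟩ := Ok.an_up (mem_N0.2 ⟨hR, e⟩) hp hH
      refine key (.inr (.inl ⟨_, a⟩)) (cp_cov hv) rfl ?_ ?_
      · rw [val_an, b, psi_R hp, psi_un h hR e]
      · simp [sl, hp]
  · right; right
    have hR := (mem_Cov.1 hv).1
    have h1 : v ∉ P.Vt := fun a => hh ⟨hv, Or.inl a⟩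
    have h2 : P.π v = v := by
      by_contra a
      exact hh ⟨hv, Or.inr a⟩
    have a : v ∈ P.N2 := mem_N2.2 ⟨mem_N0.2 ⟨hR, h2⟩, (mem_Cov.1 hp).1⟩
    exact key (.inr (.inr ⟨_, a⟩)) (cp_cov hv) (by simp [Pre.cls, h1]) (val_bin h a) rfl

lemma vt_N2 (h : P.Ok dg) {v : V} (hv : v ∈ P.Vt) : v ∈ P.N2 := by
  obtain ⟨a, b, c, _⟩ := h.tie.vt v hv
  exact mem_N2.2 ⟨mem_N0.2 ⟨a, b⟩, c⟩

end Md

namespace Pre

open Md

variable {V : Type} [Fintype V] [DecidableEq V] {P : Pre V} {dg : ℝ}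

theorem mid (h : P.Ok dg) {m : ℕ} [NeZero m] {L L0 : ℕ} {A : Cn P.Own → Finset (ZMod m)}
    {p : Cn P.Own → ℝ} {tl : Bool → ZMod m → Fin 3 ⊕ P.Own} {tc : ZMod m → Fin 4 ⊕ P.Own}
    (hL : 2 * L0 + 8 ≤ L) (st : Struct L L0 P.wd P.ls A tl tc) {z : V → ZMod m}
    (hz : P.Zok L0 (A .ar) z) {Cv : Finset V} {x : V → ZMod m} (he : P.Emb A p z Cv x) :
    P.Mid A z L tc (P.Cov Cv) (P.psi z x) := by
  refine
    { notR := fun v hv => (mem_Cov.1 hv).1
      onR := fun v hv => psi_R hv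
      cov_par := fun v hv hp => ?_
      cov_pi := fun v hv => cov_pi h hv
      lab := fun u hu v hv hs e => lab_all h hL st hz he hu hv hs e
      labW := fun v hv => labW h st hz he hv
      col := fun u hu v hv hur hvr hup hvp hhu hhv e => ?_
      colT := fun v hv hr hp hh => ?_
      colD := fun v hv hc => ?_
      colD_inj := fun u hu v hv hcu hcv e => ?_
      tie := fun v hv => ?_
      cls := fun v hv e => ?_ }
  · rw [mem_Cov, mem_Cov, h.cut.cp_par v hv hp]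
    simp [hv, hp]
  · have a := col_kind h hL st hz he hu hur hup hhu
    have b := col_kind h hL st hz he hv hvr hvp hhv
    rw [e] at a
    rcases a with ⟨a1, a2, a3⟩ | ⟨a1, w, a2, a3⟩ | ⟨a1, a2, j, a3, a4, a5, a6⟩ <;>
      rcases b with ⟨b1, b2, b3⟩ | ⟨b1, w', b2, b3⟩ | ⟨b1, b2, j', b3, b4, b5, b6⟩
    · rw [psi_R a1, psi_R a2, psi_R b1, psi_R b2] at e
      exact hz.pg.2 u a1 v b1 hur hvr a2 b2 e
    · rcases a3 with a3 | a3
      · exact absurd b1 a3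
      · exact absurd (a3.symm.trans b3) (by simp)
    · rcases a3 with a3 | a3
      · exact absurd b1 a3
      · exact absurd (a3.symm.trans b2) (by simp)
    · rcases b3 with b3 | b3
      · exact absurd a1 b3
      · exact absurd (a3.symm.trans b3) (by simp)
    · have hw : w = w' := by simpa using a3.symm.trans b3
      have hpp : P.T.par u = P.T.par v := by rw [← a2, ← b2, hw]
      rw [hpp] at e
      refine lab_all h hL st hz he hu hv ?_ (add_right_cancel e)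
      have c1 := P.T.sd_par_eq hur
      have c2 := P.T.sd_par_eq hvr
      rw [hpp, c2] at c1
      simpa using c1.symm
    · exact absurd (a3.symm.trans b2) (by simp)
    · rcases b3 with b3 | b3
      · exact absurd a1 b3
      · exact absurd (a2.symm.trans b3) (by simp)
    · exact absurd (a2.symm.trans b3) (by simp)
    · have := he.h3 j j' a3 b3 (by rw [a4, b4]) (by rw [a5, b5])
      rw [← a6, ← b6, this]
  · rcases col_kind h hL st hz he hv hr hp hh with ⟨_, _, a | a⟩ | ⟨_, w, _, a⟩ | ⟨_, a, _⟩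
    · exact Or.inr a
    · left; rw [a]; simp
    · left; rw [a]; simp
    · left; rw [a]; simp
  · have := he.h2 (.inr (.inr ⟨v, vt_N2 h hv⟩)) (cp_cov hc)
    rw [val_bin h] at this
    simpa [Pre.cls, hv, Pre.Cl] using this
  · have := he.h3 (.inr (.inr ⟨u, vt_N2 h hu⟩)) (.inr (.inr ⟨v, vt_N2 h hv⟩)) (cp_cov hcu)
      (cp_cov hcv) (by simp [Pre.cls, hu, hv]) (by rw [val_bin h, val_bin h, e])
    simpa using this
  · rw [psi_nR (mem_Cov.1 hv).1, psi_un h (mem_Cov.1 (cov_pi h hv)).1 (h.pi_pi v)]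
  · rw [psi_un h (mem_Cov.1 hv).1 e]
    exact x_cls he hv e

end Pre

end Pool.Agent.Lib.MP_5cebc8_co
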