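import Pool.Agent.Lib.MP_5cebc8_co.Load

open Finset
open Pool.Agent.Lib.MP_ad359d_co

namespace Pool.Agent.Lib.MP_5cebc8_co

set_option linter.unusedSectionVars false

noncomputable section

lemma card_or {α : Type} (S : Finset α) (q q' b : α → Prop) [DecidablePred q] [DecidablePred q']
    [DecidablePred b] (h : ∀ a ∈ S, q a → q' a ∨ b a) :
    ((S.filter q).card : ℝ) ≤ (S.filter q').card + (S.filter b).card := by
  classical
  have : (S.filter q).card ≤ (S.filter q').card + (S.filter b).card := by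
    refine le_trans (card_le_card fun a ha => ?_) (card_union_le _ _)
    obtain ⟨h1, h2⟩ := mem_filter.1 ha
    rcases h a h1 h2 with e | e
    · exact mem_union_left _ (mem_filter.2 ⟨h1, e⟩)
    · exact mem_union_right _ (mem_filter.2 ⟨h1, e⟩)
  exact_mod_cast this

lemma card_to {α β : Type} (S : Finset α) (q : α → Prop) [DecidablePred q] (Z : Finset β)
    (f : α → β) (h : ∀ a ∈ S, q a → f a ∈ Z)
    (hi : ∀ a ∈ S, ∀ b ∈ S, q a → q b → f a = f b → a = b) :
    ((S.filter q).card : ℝ) ≤ Z.card := by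
  have : (S.filter q).card ≤ Z.card := card_le_card_of_injOn f
    (fun a ha => h a (mem_filter.1 (mem_coe.1 ha)).1 (mem_filter.1 (mem_coe.1 ha)).2)
    (fun a ha b hb e => hi a (mem_filter.1 (mem_coe.1 ha)).1 b (mem_filter.1 (mem_coe.1 hb)).1
      (mem_filter.1 (mem_coe.1 ha)).2 (mem_filter.1 (mem_coe.1 hb)).2 e)
  exact_mod_cast this

/-- removing a set of forbidden values of an injective function -/
lemma card_rm {α β : Type} [DecidableEq β] (S : Finset α) (q q' : α → Prop) [DecidablePred q]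
    [DecidablePred q'] (Z : Finset β) (f : α → β) (h : ∀ a ∈ S, q a → f a ∉ Z → q' a)
    (hi : ∀ a ∈ S, ∀ b ∈ S, f a = f b → a = b) :
    ((S.filter q).card : ℝ) ≤ (S.filter q').card + Z.card := by
  have h1 := card_or S q q' (fun a => f a ∈ Z) fun a ha hq => by
    by_cases e : f a ∈ Z
    · exact Or.inr e
    · exact Or.inl (h a ha hq e)
  have h2 := card_to S (fun a => f a ∈ Z) Z f (fun _ _ e => e) fun a ha b hb _ _ e => hi a ha b hb e
  linarith

lemma mix_rm {G : Type} [AddCommGroup G] [Fintype G] [DecidableEq G] (W Z A B : Finset G) :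
    (((A ×ˢ B).filter (fun z => z.2 - z.1 ∈ W)).card : ℝ) ≤
      ((A ×ˢ B).filter (fun z => z.2 - z.1 ∈ W \ Z)).card + Z.card * Fintype.card G := by
  have := card_rm (A ×ˢ B) (fun z => z.2 - z.1 ∈ W) (fun z => z.2 - z.1 ∈ W \ Z)
    (Z ×ˢ (univ : Finset G)) (fun z => (z.2 - z.1, z.1))
    (fun a _ h1 h2 => mem_sdiff.2 ⟨h1, fun e => h2 (mem_product.2 ⟨e, mem_univ _⟩)⟩)
    (fun a _ b _ e => by
      simp only [Prod.mk.injEq] at e
      refine Prod.ext e.2 ?_
      have := e.1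
      rw [e.2] at this
      exact sub_left_injective this)
  rw [card_product, card_univ] at this
  exact_mod_cast this

namespace Pre

variable {V : Type} [Fintype V] [DecidableEq V] {P : Pre V} {m : ℕ} [NeZero m]
  {A : Cn P.Own → Finset (ZMod m)} {p : Cn P.Own → ℝ} {z : V → ZMod m}
  {tl : Bool → ZMod m → Fin 3 ⊕ P.Own} {tc : ZMod m → Fin 4 ⊕ P.Own} {L L0 : ℕ} {lam dg : ℝ}

lemma Cl_cross (pat : Pat L lam A p) (τ b : Cn P.Own) (d : ZMod m) :
    |(((P.Cl A z τ).filter (fun x => d - x ∈ A b)).card : ℝ) - p τ * p b * m| ≤ lam * m := by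
  cases τ with
  | own w =>
    have := pat.cross_sub (.own w) b (d + z w.1)
    rwa [← card_bij (s := (P.Cl A z (.own w)).filter (fun x => d - x ∈ A b)) (fun x _ => x + z w.1)
      (fun x hx => by
        obtain ⟨a1, a2⟩ := mem_filter.1 hx
        exact mem_filter.2 ⟨(mem_filter.1 a1).2, by simpa using a2⟩)
      (fun x _ y _ e => add_right_cancel e)
      (fun y hy => by
        obtain ⟨a1, a2⟩ := mem_filter.1 hy
        refine ⟨y - z w.1, mem_filter.2 ⟨mem_filter.2 ⟨mem_univ _, by simpa using a1⟩, ?_⟩, by simp⟩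
        rwa [show d - (y - z w.1) = d + z w.1 - y by abel])] at this
  | _ => exact pat.cross_sub _ b d

lemma Cl_far (st : Struct L L0 P.wd P.ls A tl tc) (hz : ∀ v ∈ P.Hg, (z v).val < L0)
    (τ : Cn P.Own) {x : ZMod m} (hx : x ∈ P.Cl A z τ) {i : ℕ} (hi : i ≤ 3) :
    far L (x + (i : ZMod m)) := by
  cases τ with
  | own w =>
    have h1 : x + z w.1 ∈ A (.own w) := (mem_filter.1 hx).2
    have h2 := hz w.1 w.1.2
    by_cases e : i ≤ (z w.1).val
    · have := st.far_sub _ _ h1 ((((z w.1).val - i : ℕ) : ZMod m))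
        (le_trans (ZMod.val_natCast _ _ ▸ Nat.mod_le _ _) (by omega))
      rw [Nat.cast_sub e, ZMod.natCast_zmod_val] at this
      rwa [show x + z w.1 - (z w.1 - i) = x + i by abel] at this
    · have := st.far_add _ _ h1 (i - (z w.1).val) (by omega)
      rw [Nat.cast_sub (by omega), ZMod.natCast_zmod_val] at this
      rwa [show x + z w.1 + (i - z w.1) = x + i by abel] at this
  | _ => exact st.far_add _ _ hx i hi

/-- completing the labelling greedily on the uncovered vertices -/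
lemma finish (h : P.Ok dg) (st : Struct L L0 P.wd P.ls A tl tc) {Cov : Finset V} {ψ1 : V → ZMod m}
    (md : P.Mid A z L tc Cov ψ1) {u qd : ℝ}
    (hu : ((univ.filter (fun v => v ∉ P.R ∧ v ∉ Cov)).card : ℝ) ≤ u * m)
    (hR : (P.R.card : ℝ) ≤ u * m) (hlow : Low (A .ad) qd) (hqd : 6 * u < qd) :
    ∃ ψ : V → ZMod m, (∀ v ∈ P.R ∪ Cov, ψ v = ψ1 v) ∧
      (∀ u v, P.T.sd u = P.T.sd v → ψ u = ψ v → u = v) ∧
      (∀ u v, u ≠ P.T.root → v ≠ P.T.root → ¬ Hid P.Vt P.π Cov u → ¬ Hid P.Vt P.π Cov v →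
        ψ u + ψ (P.T.par u) = ψ v + ψ (P.T.par v) → u = v) := by
  classical
  have hm : (0 : ℝ) < m := by exact_mod_cast NeZero.pos m
  set Y := univ.filter (fun v => v ∉ P.R ∧ v ∉ Cov) with hY
  have mY : ∀ v, v ∈ Y ↔ v ∉ P.R ∧ v ∉ Cov := fun v => by simp [hY]
  have mY' : ∀ v, v ∉ Y ↔ v ∈ P.R ∪ Cov := fun v => by rw [mY, mem_union]; tauto
  let S := P.R ∪ (Cov \ P.Vt)
  have hS : ∀ v ∈ S, v ∈ P.R ∪ Cov := fun v hv => by
    simp only [S, mem_union, mem_sdiff] at hv ⊢; tauto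
  have hnh : ∀ v ∈ S, P.T.par v ∈ S → ¬ Hid P.Vt P.π Cov v := by
    rintro v hv hp ⟨a, b | b⟩
    · rcases mem_union.1 hv with e | e
      · exact md.notR v a e
      · exact (mem_sdiff.1 e).2 b
    · have c := (h.tie.tied v b).2.2.2.2.2.2.2.2.1
      rcases mem_union.1 hp with e | e
      · exact (h.tie.vt _ c).1 e
      · exact (mem_sdiff.1 e).2 c
  have hcol : ∀ v ∈ P.R ∪ Cov, v ≠ P.T.root → P.T.par v ∈ P.R ∪ Cov → ¬ Hid P.Vt P.π Cov v →
      ψ1 v + ψ1 (P.T.par v) ∉ A .ad := by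
    intro v a b c d e
    rcases md.colT v a b c d with f | f
    · exact f (st.tc_ad _ e)
    · exact f (by simpa using st.far_add _ _ e 0 (by omega))
  have hcovY : ∀ v, v ∉ P.R → P.T.par v ∉ P.R → (v ∈ Y ↔ P.T.par v ∈ Y) := by
    intro v a b
    rw [mY, mY, md.cov_par v a b]; tauto
  obtain ⟨ψ, e1, e2, e3, e4, -⟩ := P.T.greedy S ψ1 (fun _ => A .ad \ P.R.image ψ1)
    (fun c => c ∈ A .ad) ∅ ∅ (by simp) Y.card
    ⟨fun a ha b hb => md.lab a (hS a ha) b (hS b hb), fun a ha b hb c d e f =>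
      md.col a (hS a ha) b (hS b hb) c d (hS _ e) (hS _ f) (hnh a ha e) (hnh b hb f)⟩
    (fun a ha b c => hcol a (hS a ha) b (hS _ c) (hnh a ha c)) Y
    (disjoint_left.2 fun a ha hb => (mY' a).2 (hS a hb) ha) le_rfl
    (fun v _ a ha _ hb => by
      obtain ⟨b1, b2⟩ := mem_sdiff.1 hb
      rcases mem_union.1 (hS a ha) with e | e
      · exact b2 (mem_image_of_mem _ e)
      · exact md.labW a e (st.ad_sub _ b1))
    (fun v hv c hc c' hc' a b d e => by
      have k : ∀ c ∈ S, P.T.par c = v → c ∈ P.R := by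
        intro c hc d
        by_contra f
        exact (mY' c).2 (hS c hc) ((hcovY c f (d ▸ ((mY v).1 hv).1)).2 (d ▸ hv))
      exact h.cut.one_child v ((mY v).1 hv).1 c (k c hc d) c' (k c' hc' e) a b d e)
    (fun v _ s t => by
      have a1 := hlow s t
      have a2 := card_rm (A .ad) (fun x => x + s ∈ A .ad ∧ x + t ∈ A .ad)
        (fun x => x ∉ P.R.image ψ1 ∧ x + s ∈ A .ad ∧ x + t ∈ A .ad) (P.R.image ψ1) id
        (fun _ _ a b => ⟨b, a⟩) (fun _ _ _ _ e => e)
      have a3 : ((P.R.image ψ1).card : ℝ) ≤ P.R.card := by exact_mod_cast card_image_le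
      have a4 : (A .ad \ P.R.image ψ1).filter (fun y => y + s ∈ A .ad ∧ y + t ∈ A .ad) =
          (A .ad).filter (fun x => x ∉ P.R.image ψ1 ∧ x + s ∈ A .ad ∧ x + t ∈ A .ad) := by
        ext x; simp only [mem_filter, mem_sdiff]; tauto
      rw [a4]
      have a5 := mul_lt_mul_of_pos_right hqd hm
      have : (5 * Y.card : ℝ) < ((A .ad).filter
          (fun x => x ∉ P.R.image ψ1 ∧ x + s ∈ A .ad ∧ x + t ∈ A .ad)).card := by
        have a6 : (((A .ad).filter (fun x => x + s ∈ A .ad ∧ x + t ∈ A .ad)).card : ℝ) ≥ qd * m := by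
          convert a1
        linarith
      simp only [card_empty, mul_zero, add_zero]
      exact_mod_cast this)
  have f1 : ∀ v ∈ P.R ∪ Cov, ψ v = ψ1 v := fun v hv => e1 v ((mY' v).2 hv)
  have hlabY : ∀ a ∈ Y, ∀ b, b ∉ Y → P.T.sd a = P.T.sd b → ψ a ≠ ψ b := by
    intro a ha b hb hs e
    obtain ⟨b1, b2⟩ := mem_sdiff.1 (e3 a ha)
    rw [e, e1 b hb] at b1 b2
    rcases mem_union.1 ((mY' b).1 hb) with k | k
    · exact b2 (mem_image_of_mem _ k)
    · exact md.labW b k (st.ad_sub _ b1)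
  have hRS : ∀ v ∈ P.R, v ∈ S ∪ Y := fun v hv => mem_union_left _ (mem_union_left _ hv)
  have hgr : ∀ v, (v ∈ Y ∨ P.T.par v ∈ Y) → v ∈ S ∪ Y ∧ P.T.par v ∈ S ∪ Y := by
    intro v hv
    by_cases a : v ∈ P.R <;> by_cases b : P.T.par v ∈ P.R
    · exact ⟨hRS _ a, hRS _ b⟩
    · exact ⟨hRS _ a, mem_union_right _ (hv.resolve_left fun e => ((mY v).1 e).1 a)⟩
    · exact ⟨mem_union_right _ (hv.resolve_right fun e => ((mY _).1 e).1 b), hRS _ b⟩
    · have := hcovY v a b
      exact ⟨mem_union_right _ (by tauto), mem_union_right _ (by tauto)⟩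
  refine ⟨ψ, f1, fun a b hs e => ?_, fun a b ha hb na nb e => ?_⟩
  · by_cases k : a ∈ Y <;> by_cases k' : b ∈ Y
    · exact e2.1 a (mem_union_right _ k) b (mem_union_right _ k') hs e
    · exact absurd e (hlabY a k b k' hs)
    · exact absurd e.symm (hlabY b k' a k hs.symm)
    · rw [e1 a k, e1 b k'] at e
      exact md.lab a ((mY' a).1 k) b ((mY' b).1 k') hs e
  · have hmix : ∀ a b, a ≠ P.T.root → b ≠ P.T.root → ¬ Hid P.Vt P.π Cov b →
        (a ∈ Y ∨ P.T.par a ∈ Y) → ¬ (b ∈ Y ∨ P.T.par b ∈ Y) →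
        ψ a + ψ (P.T.par a) ≠ ψ b + ψ (P.T.par b) := by
      intro a b ha hb nb k k' e
      rw [not_or] at k'
      have := e4 a (hgr a k).1 ha (hgr a k).2 k
      rw [e, e1 b k'.1, e1 _ k'.2] at this
      exact hcol b ((mY' _).1 k'.1) hb ((mY' _).1 k'.2) nb this
    by_cases k : a ∈ Y ∨ P.T.par a ∈ Y <;> by_cases k' : b ∈ Y ∨ P.T.par b ∈ Y
    · exact e2.2 a (hgr a k).1 b (hgr b k').1 ha hb (hgr a k).2 (hgr b k').2 e
    · exact absurd e (hmix a b ha hb nb k k')
    · exact absurd e.symm (hmix b a hb ha na k' k)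
    · rw [not_or] at k k'
      rw [e1 a k.1, e1 _ k.2, e1 b k'.1, e1 _ k'.2] at e
      exact md.col a ((mY' _).1 k.1) b ((mY' _).1 k'.1) ha hb ((mY' _).1 k.2) ((mY' _).1 k'.2)
        na nb e

end Pre

end

end Pool.Agent.Lib.MP_5cebc8_co
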