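import Pool.Agent.Lib.MP_5cebc8_co.OutA

open Finset
open Pool.Agent.Lib.MP_ad359d_co

namespace Pool.Agent.Lib.MP_5cebc8_co

set_option linter.unusedSectionVars false

noncomputable section

namespace Pre

variable {V : Type} [Fintype V] [DecidableEq V] {P : Pre V} {m : ℕ} [NeZero m]
  {A : Cn P.Own → Finset (ZMod m)} {p : Cn P.Own → ℝ} {z : V → ZMod m}
  {tl : Bool → ZMod m → Fin 3 ⊕ P.Own} {tc : ZMod m → Fin 4 ⊕ P.Own} {L L0 : ℕ} {lam dg : ℝ}

lemma deg2_aux (h : P.Ok dg) (pat : Pat L lam A p) {Cov : Finset V} {ψ : V → ZMod m}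
    (hcls : ∀ v ∈ P.Sp, v ∈ Cov → ψ v ∈ P.Cl A z (P.tau v))
    (hlab : ∀ u v, P.T.sd u = P.T.sd v → ψ u = ψ v → u = v) (b : Cn P.Own)
    (hb : 1 / 25 ≤ p b) (hb1 : p b ≤ 1) {p0 p1 : ℝ} (hp0 : 0 ≤ p0) (hp1 : 0 ≤ p1) (hlam : 0 ≤ lam)
    (hT : ∀ v ∈ P.Sp, p (P.tau v) * m ≤
      P.cc (P.tau v) + (if P.tau v = .uu P.s0 then p1 else p0) * m) (d : ZMod m) :
    (P.Sp.card : ℝ) / 25 - ((P.Sp.filter (fun v => v ∉ Cov)).card : ℝ) -
      (p1 + Fintype.card (Cn P.Own) * (p0 + 2 * lam)) * m ≤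
      ((P.Sp.filter (fun v => v ∈ Cov ∧ d - ψ v ∈ A b)).card : ℝ) := by
  classical
  have hm : (0 : ℝ) ≤ m := by positivity
  have fib : ∀ q : V → Prop, ∀ [DecidablePred q], ((P.Sp.filter q).card : ℝ) =
      ∑ τ ∈ P.Sp.image P.tau, (((P.Sp.filter (fun v => P.tau v = τ)).filter q).card : ℝ) := by
    intro q _
    rw [card_eq_sum_card_fiberwise (f := P.tau) (t := P.Sp.image P.tau) (s := P.Sp.filter q)
      (fun v hv => mem_coe.2 (mem_image_of_mem _ (mem_filter.1 (mem_coe.1 hv)).1))]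
    push_cast
    exact sum_congr rfl fun τ _ => by rw [filter_comm]
  have f0 := fib (fun _ => True)
  simp only [filter_true] at f0
  rw [f0, fib, fib]
  have key : ∀ τ ∈ P.Sp.image P.tau, ((P.Sp.filter (fun v => P.tau v = τ)).card : ℝ) / 25 -
      (((P.Sp.filter (fun v => P.tau v = τ)).filter (fun v => v ∉ Cov)).card : ℝ) -
      ((if τ = .uu P.s0 then p1 else 0) + (p0 + 2 * lam)) * m ≤
      (((P.Sp.filter (fun v => P.tau v = τ)).filter (fun v => v ∈ Cov ∧ d - ψ v ∈ A b)).card : ℝ) := by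
    intro τ hτ
    obtain ⟨v0, hv0, rfl⟩ := mem_image.1 hτ
    set S := P.Sp.filter (fun v => P.tau v = P.tau v0) with hS
    have a0 := hT v0 hv0
    rw [cc_sp h hv0, ← hS] at a0
    have a1 := card_or S (fun _ => True) (fun v => v ∈ Cov) (fun v => v ∉ Cov)
      (fun a _ _ => em _)
    have a2 := card_or S (fun v => v ∈ Cov) (fun v => v ∈ Cov ∧ d - ψ v ∈ A b)
      (fun v => v ∈ Cov ∧ d - ψ v ∉ A b) (fun a _ _ => by tauto)
    have a3 := card_to S (fun v => v ∈ Cov ∧ d - ψ v ∉ A b)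
      ((P.Cl A z (P.tau v0)).filter (fun y => ¬ d - y ∈ A b)) ψ
      (fun a ha hq => mem_filter.2 ⟨(mem_filter.1 ha).2 ▸ hcls a (mem_filter.1 ha).1 hq.1, hq.2⟩)
      (fun a ha c hc _ _ e => hlab a c (by
        rw [(h.tie.sp a (mem_filter.1 ha).1).2.1, (h.tie.sp c (mem_filter.1 hc).1).2.1]) e)
    have a4 : (((P.Cl A z (P.tau v0)).filter (fun y => d - y ∈ A b)).card : ℝ) +
        ((P.Cl A z (P.tau v0)).filter (fun y => ¬ d - y ∈ A b)).card = (A (P.tau v0)).card := by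
      rw [← Cl_card (z := z)]
      exact_mod_cast card_filter_add_card_filter_not _
    have a5 := (abs_le.1 (Cl_cross (z := z) pat (P.tau v0) b d)).1
    have a6 := (abs_le.1 (pat.size (P.tau v0))).2
    simp only [filter_true] at a1
    have a7 : (if P.tau v0 = .uu P.s0 then p1 else p0) ≤
        (if P.tau v0 = .uu P.s0 then p1 else 0) + p0 := by split_ifs <;> linarith
    have a8 : 0 ≤ (if P.tau v0 = .uu P.s0 then p1 else 0) := by split_ifs <;> linarith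
    generalize (if P.tau v0 = .uu P.s0 then p1 else 0) = w at a7 a8 ⊢
    have a9 : p (P.tau v0) * m ≤ S.card + (w + p0) * m := a0.trans (by gcongr)
    have b1 := mul_le_mul_of_nonneg_right a9 (show 0 ≤ 1 - p b by linarith)
    have b2 : (S.card : ℝ) / 25 ≤ S.card * p b := by
      have : (0 : ℝ) ≤ S.card := by positivity
      nlinarith
    have b3 : 0 ≤ (w + p0) * m * p b := by positivity
    nlinarith
  have s1 := sum_le_sum key
  rw [sum_sub_distrib, sum_sub_distrib, ← sum_div, ← sum_mul, sum_add_distrib, sum_const,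
    nsmul_eq_mul] at s1
  have s2 : ∑ τ ∈ P.Sp.image P.tau, (if τ = .uu P.s0 then p1 else 0) ≤ p1 := by
    rw [sum_ite_eq']; split_ifs <;> linarith
  have s3 : ((P.Sp.image P.tau).card : ℝ) ≤ Fintype.card (Cn P.Own) := by
    exact_mod_cast card_le_univ _
  have s4 : (∑ τ ∈ P.Sp.image P.tau, (if τ = .uu P.s0 then p1 else 0) +
      (P.Sp.image P.tau).card * (p0 + 2 * lam)) * m ≤
      (p1 + Fintype.card (Cn P.Own) * (p0 + 2 * lam)) * m := by gcongr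
  linarith

theorem out_of_mid (h : P.Ok dg) (hL : 2 * L0 + 8 ≤ L) (st : Struct L L0 P.wd P.ls A tl tc)
    (pat : Pat L lam A p) (p01 : ∀ a, 0 ≤ p a ∧ p a ≤ 1) (hz : ∀ v ∈ P.Hg, (z v).val < L0)
    {Cov : Finset V} {ψ1 : V → ZMod m} (md : P.Mid A z L tc Cov ψ1) {κ θ e qd p0 p1 : ℝ}
    (hκ : 0 < κ) (hκ1 : κ ≤ 1 / 1000) (hθ : θ ≤ κ ^ 2 / 10 ^ 10) (he0 : 0 ≤ e) (he : 10 * e ≤ θ)
    (hu : ((univ.filter (fun v => v ∉ P.R ∧ v ∉ Cov)).card : ℝ) ≤ e * m)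
    (hR : (P.R.card : ℝ) ≤ e * m) (hlow : Low (A .ad) qd) (hqd : 6 * e < qd)
    (hlam0 : 0 ≤ lam) (hlam : lam ≤ e) (hLm : 2 * (L : ℝ) ≤ θ * m)
    (hW : ∀ s, Unif (A (.ww s)) (p (.ww s)) e) (pW : ∀ s, 1 / 25 ≤ p (.ww s))
    (pD1 : p .dd * m ≤ P.Vt.card) (pD2 : 3 / 4 * κ ≤ p .dd) (hp0 : 0 ≤ p0) (hp1 : 0 ≤ p1)
    (hT : ∀ v ∈ P.Sp, p (P.tau v) * m ≤
      P.cc (P.tau v) + (if P.tau v = .uu P.s0 then p1 else p0) * m)
    (hfl : p1 + Fintype.card (Cn P.Own) * (p0 + 2 * lam) ≤ e)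
    (pU : P.wd = 2 → κ / 2 ≤ p (.uu P.s0)) (hSp : κ * m ≤ P.Sp.card) :
    ∃ (X : Finset (ZMod m)) (ψ : V → ZMod m) (D : Finset (ZMod m)) (W : Bool → Finset (ZMod m)),
      Out P.T P.R P.Sp P.Vt P.π P.o P.wd P.s0 κ θ X ψ Cov D W := by
  classical
  obtain ⟨ψ, f1, f2, f3⟩ := finish h st md hu hR hlow hqd
  have hm : (0 : ℝ) < m := by exact_mod_cast NeZero.pos m
  have hL0 : 0 < L := by omega
  set Y := univ.filter (fun v => v ∉ P.R ∧ v ∉ Cov) with hY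
  let Z := (P.R ∪ Y).image ψ
  have hRY : ((P.R ∪ Y).card : ℝ) ≤ 2 * e * m := by
    have : ((P.R ∪ Y).card : ℝ) ≤ P.R.card + Y.card := by exact_mod_cast card_union_le _ _
    linarith
  have hZ : (Z.card : ℝ) ≤ 2 * e * m := le_trans (by exact_mod_cast card_image_le) hRY
  have c1 : ∀ v ∈ Cov, ψ v = ψ1 v := fun v hv => f1 v (mem_union_right _ hv)
  have c2 : ∀ v ∈ P.Vt, v ∈ Cov → P.T.par v ∈ Cov := fun v hv hc =>
    (md.cov_par v (h.tie.vt v hv).1 (h.tie.vt v hv).2.2.1).1 hc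
  have hcls : ∀ v ∈ P.Sp, v ∈ Cov → ψ v ∈ P.Cl A z (P.tau v) := fun v hv hc =>
    c1 v hc ▸ md.cls v hc (h.tie.sp v hv).2.2
  have hinj : ∀ a ∈ P.Sp, ∀ b ∈ P.Sp, ψ a = ψ b → a = b := fun a ha b hb e =>
    f2 a b (by rw [(h.tie.sp a ha).2.1, (h.tie.sp b hb).2.1]) e
  have hunc : ((P.Sp.filter (fun v => v ∉ Cov)).card : ℝ) ≤ e * m :=
    le_trans (card_to _ _ Y id (fun a ha hq => mem_filter.2 ⟨mem_univ _, (h.tie.sp a ha).1, hq⟩)
      fun _ _ _ _ _ _ e => e) hu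
  have hθκ : θ ≤ κ / 10 ^ 13 := by nlinarith
  have hem : e * m ≤ κ ^ 2 / 10 ^ 11 * m := by gcongr; linarith
  have hem' : e * m ≤ κ / 10 ^ 14 * m := by gcongr; linarith
  have hlm : lam * m ≤ e * m := by gcongr
  have heθ : 10 * e * m ≤ θ * m := by gcongr
  have hκm : 0 ≤ κ * m := by positivity
  have hκm2 : κ ^ 2 * m ≤ κ * m / 1000 := by nlinarith
  have hem0 : 0 ≤ e * m := by positivity
  have hsz := abs_le.1 (pat.size .dd)
  have nX : ∀ s : ZMod m, s ∉ Xn m L → far L s := fun s hs => not_not.1 (mt mem_Xn.2 hs)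
  refine ⟨Xn m L, ψ, A .dd, fun s => A (.ww s) \ Z,
    { cov_par := md.cov_par
      lab := f2
      col := f3
      colD := fun v hv hc => by rw [c1 v hc, c1 _ (c2 v hv hc)]; exact md.colD v hv hc
      colD_inj := fun a ha b hb hc hd e => by
        rw [c1 a hc, c1 _ (c2 a ha hc), c1 b hd, c1 _ (c2 b hb hd)] at e
        exact md.colD_inj a ha b hb hc hd e
      pair := st.dd_pair
      tie := fun v hv => by rw [c1 v hv, c1 _ (md.cov_pi v hv)]; exact md.tie v hv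
      hit := ?_
      free := fun v hv => ?_
      unc := by linarith
      cardD := by linarith [hsz.2]
      cardD' := by nlinarith [hsz.1]
      X0 := Xn_zero hL0
      Xs := Xn_neg hL0
      cardX := le_trans (by exact_mod_cast Xn_card L) hLm
      deg1 := fun v hv hc i hi => ?_
      deg2 := fun d => ?_
      mix := fun B C => ?_
      hu := fun hw c s1 s2 n1 n2 n3 => ?_
      hd := fun s1 s2 s3 n1 n2 n3 n4 n5 n6 => ?_ }⟩
  · have a1 := card_to (A .dd) (fun d => ∃ v, v ≠ P.T.root ∧ ¬ Hid P.Vt P.π Cov v ∧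
        (ψ v + ψ (P.T.par v) = d ∨ ψ v + ψ (P.T.par v) = d + 1))
      ((P.R ∪ Y).image (fun v => ψ v + ψ (P.T.par v)) ∪
        (P.R ∪ Y).image (fun v => ψ v + ψ (P.T.par v) - 1)) id
      (fun d hd ⟨v, a, b, c⟩ => by
        have hv : v ∈ P.R ∪ Y := by
          by_contra hv
          simp only [hY, mem_union, mem_filter, mem_univ, true_and, not_or, not_and, not_not] at hv
          have k1 := hv.2 hv.1
          have k2 : P.T.par v ∈ P.R ∪ Cov := by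
            by_cases k : P.T.par v ∈ P.R
            · exact mem_union_left _ k
            · exact mem_union_right _ ((md.cov_par v hv.1 k).1 k1)
          have k3 := md.colT v (mem_union_right _ k1) a k2 b
          rw [← c1 v k1, ← f1 _ k2] at k3
          rcases c with c | c <;> rw [c] at k3 <;> rcases k3 with k3 | k3
          · exact k3 (st.tc_dd d hd).1
          · exact k3 (by simpa using st.far_add _ _ hd 0 (by omega))
          · exact k3 (st.tc_dd d hd).2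
          · exact k3 (by simpa using st.far_add _ _ hd 1 (by omega))
        rcases c with c | c
        · exact mem_union_left _ (mem_image.2 ⟨v, hv, c⟩)
        · exact mem_union_right _ (mem_image.2 ⟨v, hv, by rw [c]; simp⟩))
      (fun _ _ _ _ _ _ e => e)
    have a2 : (((P.R ∪ Y).image (fun v => ψ v + ψ (P.T.par v)) ∪
        (P.R ∪ Y).image (fun v => ψ v + ψ (P.T.par v) - 1)).card : ℝ) ≤
        (P.R ∪ Y).card + (P.R ∪ Y).card := by
      exact_mod_cast (card_union_le _ _).trans (add_le_add card_image_le card_image_le)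
    refine le_trans (le_of_eq ?_) (a1.trans (by linarith))
    congr
  · obtain ⟨a1, a2⟩ := mem_sdiff.1 hv
    by_cases k : v ∈ Cov
    · exact md.labW v k (c1 v k ▸ a1)
    · refine a2 (mem_image_of_mem _ ?_)
      by_cases k' : v ∈ P.R
      · exact mem_union_left _ k'
      · exact mem_union_right _ (mem_filter.2 ⟨mem_univ _, k', k⟩)
  · have a1 := (abs_le.1 (pat.cross_add hL0 .dd (.ww (!P.s0))
      (far_neg hL0 (Cl_far st hz _ (hcls v hv hc) (show i ≤ 3 by omega))))).1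
    have a2 := card_rm (A .dd) (fun x => x + -(ψ v + (i : ZMod m)) ∈ A (.ww (!P.s0)))
      (fun d => d - (ψ v + (i : ZMod m)) ∈ A (.ww (!P.s0)) \ Z) Z (fun d => d - (ψ v + i))
      (fun d _ a b => mem_sdiff.2 ⟨by rwa [sub_eq_add_neg], b⟩)
      (fun _ _ _ _ e => sub_left_injective e)
    have a3 : 3 / 4 * κ * (1 / 25) * m ≤ p .dd * p (.ww (!P.s0)) * m := by
      have := pW (!P.s0)
      have := (p01 .dd).1
      gcongr
    linarith
  · have a1 := deg2_aux h pat hcls f2 (.ww (!P.s0)) (pW _) (p01 _).2 hp0 hp1 hlam0 hT d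
    have a2 := card_rm P.Sp (fun v => v ∈ Cov ∧ d - ψ v ∈ A (.ww (!P.s0)))
      (fun v => v ∈ Cov ∧ d - ψ v ∈ A (.ww (!P.s0)) \ Z) Z (fun v => d - ψ v)
      (fun v _ a b => ⟨a.1, mem_sdiff.2 ⟨a.2, b⟩⟩)
      (fun a ha b hb e => hinj a ha b hb (sub_right_injective e))
    have a3 := mul_le_mul_of_nonneg_right hfl hm.le
    linarith
  · have a1 := (hW (!P.s0)).mix B C
    have a2 := mix_rm (A (.ww (!P.s0))) Z B C
    rw [ZMod.card] at a1 a2
    have a3 : (B.card : ℝ) * C.card / 25 ≤ p (.ww (!P.s0)) * B.card * C.card := by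
      have := pW (!P.s0)
      have : (0 : ℝ) ≤ (B.card : ℝ) * C.card := by positivity
      nlinarith
    have a4 : (Z.card : ℝ) * m ≤ 2 * e * m * m := by gcongr
    have a5 : 10 * e * m * m ≤ θ * m * m := by gcongr
    have a6 : 0 ≤ e * m * m := by positivity
    nlinarith
  · have ht : ∀ v ∈ P.Sp, P.tau v = .uu P.s0 := fun v hv => by
      rw [tau_of_not fun k => (h.tie.two hw).1 v hv (h.cut.sub k), if_pos hv, (h.tie.sp v hv).2.1]
    have hne : P.Sp.Nonempty := card_pos.1 (by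
      have : (0 : ℝ) < P.Sp.card := lt_of_lt_of_le (by positivity) hSp
      exact_mod_cast this)
    obtain ⟨v0, hv0⟩ := hne
    have a0 := hT v0 hv0
    rw [ht v0 hv0, if_pos rfl] at a0
    have a0' : (P.cc (.uu P.s0) : ℝ) ≤ P.Sp.card := by exact_mod_cast cc_uu P.s0
    have a1 := pat.hu hL0 (.uu P.s0) (.ww P.s0) (.ww (!P.s0)) c s1 s2 (nX _ n1) (nX _ n2) (nX _ n3)
    let U := (P.Sp.filter (fun v => v ∈ Cov)).image ψ
    have hU : U ⊆ A (.uu P.s0) := fun y hy => by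
      obtain ⟨v, hv, rfl⟩ := mem_image.1 hy
      have := hcls v (mem_filter.1 hv).1 (mem_filter.1 hv).2
      rwa [ht v (mem_filter.1 hv).1] at this
    have hUc : (U.card : ℝ) = (P.Sp.filter (fun v => v ∈ Cov)).card := by
      rw [card_image_of_injOn fun a ha b hb e =>
        hinj a (mem_filter.1 (mem_coe.1 ha)).1 b (mem_filter.1 (mem_coe.1 hb)).1 e]
    have a2 := card_rm (A (.uu P.s0))
      (fun x => x + s1 ∈ A (.ww P.s0) ∧ x + s2 ∈ A (.ww P.s0) ∧ c - x ∈ A (.ww (!P.s0)))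
      (fun x => x ∈ U ∧ x + s1 ∈ A (.ww P.s0) ∧ x + s2 ∈ A (.ww P.s0) ∧ c - x ∈ A (.ww (!P.s0)))
      (A (.uu P.s0) \ U) id (fun x hx a b => ⟨by simpa [hx] using b, a⟩) (fun _ _ _ _ e => e)
    have a3 : ((A (.uu P.s0) \ U).card : ℝ) + U.card = (A (.uu P.s0)).card := by
      exact_mod_cast card_sdiff_add_card_eq_card hU
    have a4 : (((A (.uu P.s0)).filter (fun x => x ∈ U ∧ x + s1 ∈ A (.ww P.s0) ∧
        x + s2 ∈ A (.ww P.s0) ∧ c - x ∈ A (.ww (!P.s0)))).card : ℝ) ≤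
        (P.Sp.filter (fun v => v ∈ Cov ∧ ψ v + s1 ∈ A (.ww P.s0) ∧ ψ v + s2 ∈ A (.ww P.s0) ∧
          c - ψ v ∈ A (.ww (!P.s0)))).card := by
      have : (A (.uu P.s0)).filter (fun x => x ∈ U ∧ x + s1 ∈ A (.ww P.s0) ∧
          x + s2 ∈ A (.ww P.s0) ∧ c - x ∈ A (.ww (!P.s0))) ⊆
          (P.Sp.filter (fun v => v ∈ Cov ∧ ψ v + s1 ∈ A (.ww P.s0) ∧ ψ v + s2 ∈ A (.ww P.s0) ∧
          c - ψ v ∈ A (.ww (!P.s0)))).image ψ := fun y hy => by
        obtain ⟨_, k1, k2⟩ := mem_filter.1 hy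
        obtain ⟨v, hv, rfl⟩ := mem_image.1 k1
        exact mem_image_of_mem _ (mem_filter.2 ⟨(mem_filter.1 hv).1, (mem_filter.1 hv).2, k2⟩)
      exact_mod_cast (card_le_card this).trans card_image_le
    have a5 := card_rm P.Sp (fun v => v ∈ Cov ∧ ψ v + s1 ∈ A (.ww P.s0) ∧ ψ v + s2 ∈ A (.ww P.s0) ∧
        c - ψ v ∈ A (.ww (!P.s0)))
      (fun v => v ∈ Cov ∧ ψ v + s1 ∈ A (.ww P.s0) \ Z ∧ ψ v + s2 ∈ A (.ww P.s0) ∧
        c - ψ v ∈ A (.ww (!P.s0))) Z (fun v => ψ v + s1)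
      (fun v _ a b => ⟨a.1, mem_sdiff.2 ⟨a.2.1, b⟩, a.2.2⟩)
      (fun a ha b hb e => hinj a ha b hb (add_right_cancel e))
    have a6 := card_rm P.Sp (fun v => v ∈ Cov ∧ ψ v + s1 ∈ A (.ww P.s0) \ Z ∧
        ψ v + s2 ∈ A (.ww P.s0) ∧ c - ψ v ∈ A (.ww (!P.s0)))
      (fun v => v ∈ Cov ∧ ψ v + s1 ∈ A (.ww P.s0) \ Z ∧ ψ v + s2 ∈ A (.ww P.s0) \ Z ∧
        c - ψ v ∈ A (.ww (!P.s0))) Z (fun v => ψ v + s2)
      (fun v _ a b => ⟨a.1, a.2.1, mem_sdiff.2 ⟨a.2.2.1, b⟩, a.2.2.2⟩)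
      (fun a ha b hb e => hinj a ha b hb (add_right_cancel e))
    have a7 := card_rm P.Sp (fun v => v ∈ Cov ∧ ψ v + s1 ∈ A (.ww P.s0) \ Z ∧
        ψ v + s2 ∈ A (.ww P.s0) \ Z ∧ c - ψ v ∈ A (.ww (!P.s0)))
      (fun v => v ∈ Cov ∧ ψ v + s1 ∈ A (.ww P.s0) \ Z ∧ ψ v + s2 ∈ A (.ww P.s0) \ Z ∧
        c - ψ v ∈ A (.ww (!P.s0)) \ Z) Z (fun v => c - ψ v)
      (fun v _ a b => ⟨a.1, a.2.1, a.2.2.1, mem_sdiff.2 ⟨a.2.2.2, b⟩⟩)
      (fun a ha b hb e => hinj a ha b hb (sub_right_injective e))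
    have a8 := card_or P.Sp (fun _ => True) (fun v => v ∈ Cov) (fun v => v ∉ Cov)
      (fun a _ _ => em _)
    simp only [filter_true] at a8
    have a9 := (abs_le.1 (pat.size (.uu P.s0))).2
    have b1 : κ / 2 * (1 / 25) * (1 / 25) * (1 / 25) * m ≤
        p (.uu P.s0) * p (.ww P.s0) * p (.ww P.s0) * p (.ww (!P.s0)) * m := by
      have := pW (!P.s0)
      have := pW P.s0
      have := pU hw
      have := (p01 (.uu P.s0)).1
      have := (p01 (.ww P.s0)).1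
      gcongr
    have b2 : p1 * m ≤ e * m := by
      have : (0 : ℝ) ≤ Fintype.card (Cn P.Own) * (p0 + 2 * lam) := by positivity
      gcongr; linarith
    linarith
  · have a1 := pat.hd hL0 .dd (.ww (!P.s0)) s1 s2 s3 (nX _ n1) (nX _ n2) (nX _ n3) (nX _ n4)
      (nX _ n5) (nX _ n6)
    have a2 := card_rm (A .dd)
      (fun d => d + s1 ∈ A .dd ∧ d + s2 ∈ A (.ww (!P.s0)) ∧ d + s3 ∈ A (.ww (!P.s0)))
      (fun d => d + s1 ∈ A .dd ∧ d + s2 ∈ A (.ww (!P.s0)) \ Z ∧ d + s3 ∈ A (.ww (!P.s0))) Z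
      (fun d => d + s2) (fun v _ a b => ⟨a.1, mem_sdiff.2 ⟨a.2.1, b⟩, a.2.2⟩)
      (fun _ _ _ _ e => add_right_cancel e)
    have a3 := card_rm (A .dd)
      (fun d => d + s1 ∈ A .dd ∧ d + s2 ∈ A (.ww (!P.s0)) \ Z ∧ d + s3 ∈ A (.ww (!P.s0)))
      (fun d => d + s1 ∈ A .dd ∧ d + s2 ∈ A (.ww (!P.s0)) \ Z ∧ d + s3 ∈ A (.ww (!P.s0)) \ Z) Z
      (fun d => d + s3) (fun v _ a b => ⟨a.1, a.2.1, mem_sdiff.2 ⟨a.2.2, b⟩⟩)
      (fun _ _ _ _ e => add_right_cancel e)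
    have b1 : 3 / 4 * κ * (3 / 4 * κ) * (1 / 25) * (1 / 25) * m ≤
        p .dd * p .dd * p (.ww (!P.s0)) * p (.ww (!P.s0)) * m := by
      have := pW (!P.s0)
      have := (p01 .dd).1
      have := (p01 (.ww (!P.s0))).1
      gcongr
    have b2 : 0 ≤ κ ^ 2 * m := by positivity
    nlinarith

end Pre

end

end Pool.Agent.Lib.MP_5cebc8_co
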