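import Pool.Agent.Lib.MP_5cebc8_co.Unif

open Finset
open Pool.Agent.Lib.MP_ad359d_co

namespace Pool.Agent.Lib.MP_5cebc8_co

noncomputable section

variable {m : ℕ} [NeZero m]

/-- `h` is at cyclic distance at least `L` from zero -/
def far (L : ℕ) (h : ZMod m) : Prop := L ≤ h.val ∧ h.val + L ≤ m

open Classical in
/-- the residues close to zero -/
def Xn (m : ℕ) [NeZero m] (L : ℕ) : Finset (ZMod m) := univ.filter (fun h => ¬ far L h)

/-- the interior positions: not in the first or last blocks, not at the margins of a block -/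
def Intr (L L0 : ℕ) (x : ZMod m) : Prop :=
  1 ≤ x.val / L ∧ x.val / L + 2 ≤ m / L ∧ L0 ≤ x.val % L ∧ x.val % L + 4 ≤ L

open Classical in
/-- the block random set given by a predicate on the state of the block and the offset -/
def Aset {Ω : Type} (m : ℕ) [NeZero m] (L L0 : ℕ) (ω : ℕ → Ω) (π : Ω → ℕ → Prop) :
    Finset (ZMod m) :=
  univ.filter (fun x => Intr L L0 x ∧ π (ω (x.val / L)) (x.val % L))

open Classical in
/-- patterns of at most four forms have the expected counts -/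
def Pat {P : Type} (L : ℕ) (lam : ℝ) (A : P → Finset (ZMod m)) (p : P → ℝ) : Prop :=
  ∀ (r : ℕ), r ≤ 4 → ∀ (ε : Fin r → Bool) (s : Fin r → ZMod m) (a : Fin r → P),
    (∀ i j, i ≠ j → ε i = ε j → far L (s i - s j)) →
    |((univ.filter (fun x : ZMod m =>
        ∀ i, (if ε i = true then x + s i else s i - x) ∈ A (a i))).card : ℝ) - m * ∏ i, p (a i)|
      ≤ lam * m

open Classical in
/-- lower bound for three forms with arbitrary shifts -/
def Low (A : Finset (ZMod m)) (q : ℝ) : Prop :=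
  ∀ s t : ZMod m, q * m ≤ ((A.filter (fun x => x + s ∈ A ∧ x + t ∈ A)).card : ℝ)

/-- names of the classes -/
inductive Cn (Own : Type) : Type
  | lb (s : Bool) | uu (s : Bool) | ww (s : Bool) | cc | dd | ar | ad | own (o : Own)

/-- the deterministic structure of the classes; `wd` is the width (one or two) of the class `dd` -/
structure Struct {Own : Type} (L L0 wd : ℕ) (ls : Own → Bool) (A : Cn Own → Finset (ZMod m))
    (tl : Bool → ZMod m → Fin 3 ⊕ Own) (tc : ZMod m → Fin 4 ⊕ Own) : Prop where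
  far_add : ∀ a, ∀ x ∈ A a, ∀ i : ℕ, i ≤ 3 → far L (x + (i : ZMod m))
  far_sub : ∀ a, ∀ x ∈ A a, ∀ z : ZMod m, z.val ≤ L0 → far L (x - z)
  tl_lb : ∀ s, ∀ x ∈ A (.lb s), tl s x = Sum.inl 0
  tl_uu : ∀ s, ∀ x ∈ A (.uu s), ∀ i : ℕ, i ≤ 3 → tl s (x + (i : ZMod m)) = Sum.inl 1
  tl_ww : ∀ s, ∀ x ∈ A (.ww s), tl s x = Sum.inl 2
  tl_own : ∀ o, ∀ x ∈ A (.own o), ∀ z : ZMod m, z.val ≤ L0 → tl (ls o) (x - z) = Sum.inr o
  uu_inj : ∀ s, ∀ x ∈ A (.uu s), ∀ y ∈ A (.uu s), ∀ i j : ℕ, i ≤ 3 → j ≤ 3 →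
    x + (i : ZMod m) = y + (j : ZMod m) → x = y ∧ i = j
  tc_cc : ∀ x ∈ A .cc, tc x = Sum.inl 0
  tc_dd : ∀ x ∈ A .dd, tc x = Sum.inl 1 ∧ tc (x + 1) = Sum.inl 1
  tc_ad : ∀ x ∈ A .ad, tc x = Sum.inl 1
  tc_ar : ∀ x ∈ A .ar, tc x = Sum.inl 2
  tc_own : ∀ o, ∀ x ∈ A (.own o), tc x = Sum.inr o
  dd_pair : wd = 2 → ∀ x ∈ A .dd, x + 1 ∉ A .dd
  ar_sub : ∀ s, A .ar ⊆ A (.ww s)
  ad_sub : ∀ s, A .ad ⊆ A (.ww s)

end

end Pool.Agent.Lib.MP_5cebc8_co
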