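import Pool.Agent.Lib.MP_5cebc8_co.PatDefs

open Finset
open Pool.Agent.Lib.MP_ad359d_co

namespace Pool.Agent.Lib.MP_5cebc8_co

namespace Pt

noncomputable section

/-! ### independent coordinates -/

section prob

variable {ι Ω : Type} [Fintype ι] [DecidableEq ι]

lemma prob_reg (μ : FP Ω) {r : ℕ} (b : Fin r → ι) (hb : Function.Injective b)
    (q : Fin r → Ω → Prop) :
    (FP.pi (fun _ : ι => μ)).P (fun w => ∀ i, q i (w (b i))) = ∏ i, μ.P (q i) := by
  have h1 : (FP.pi (fun _ : ι => μ)).P (fun w => ∀ i, q i (w (b i))) =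
      (FP.pi (fun _ : ι => μ)).P (fun w => ∀ β, (fun β u => ∀ i, b i = β → q i u) β (w β)) := by
    refine FP.P_congr _ fun w => ⟨fun h β i hi => ?_, fun h i => h (b i) i rfl⟩
    subst hi; exact h i
  rw [h1, FP.pi_P_forall (fun _ : ι => μ) (fun β u => ∀ i, b i = β → q i u)]
  rw [← prod_subset (subset_univ (univ.image b)), prod_image (fun i _ j _ h => hb h)]
  · refine prod_congr rfl fun i _ => FP.P_congr _ fun u => ⟨fun h => h i rfl, fun h j hj => ?_⟩
    rw [hb hj]; exact h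
  · intro β _ hβ
    refine FP.P_true _ fun u i hi => absurd (mem_image.2 ⟨i, mem_univ _, hi⟩) hβ

lemma prob_low (μ : FP Ω) {r : ℕ} (b : Fin r → ι) (q : Ω → Prop) :
    μ.P q ^ r ≤ (FP.pi (fun _ : ι => μ)).P (fun w => ∀ i, q (w (b i))) := by
  have h1 : (FP.pi (fun _ : ι => μ)).P (fun w => ∀ i, q (w (b i))) =
      (FP.pi (fun _ : ι => μ)).P (fun w => ∀ β, (fun β u => β ∈ univ.image b → q u) β (w β)) := by
    refine FP.P_congr _ fun w => ⟨fun h β hβ => ?_, fun h i => h (b i) (mem_image_of_mem _ (mem_univ _))⟩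
    obtain ⟨i, _, rfl⟩ := mem_image.1 hβ
    exact h i
  rw [h1, FP.pi_P_forall (fun _ : ι => μ) (fun β u => β ∈ univ.image b → q u)]
  rw [← prod_subset (subset_univ (univ.image b))]
  · rw [prod_congr rfl (g := fun _ => μ.P q), prod_const]
    · refine pow_le_pow_of_le_one (μ.P_nonneg _) (μ.P_le_one _) ?_
      exact card_image_le.trans (by simp)
    · intro β hβ
      exact FP.P_congr _ fun u => ⟨fun h => h hβ, fun h _ => h⟩
  · intro β _ hβ
    exact FP.P_true _ fun u h => absurd h hβ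

end prob

/-! ### counting -/

variable {m : ℕ} [NeZero m]

/-- a linear form -/
def fm (e : Bool) (s x : ZMod m) : ZMod m := if e = true then x + s else s - x

omit [NeZero m] in
lemma fm_inj (e : Bool) (s : ZMod m) : Function.Injective (fm e s) := by
  intro x y h
  unfold fm at h
  cases e
  · simpa using h
  · simpa using h

lemma cnt_comp_le {g : ZMod m → ZMod m} (hg : Function.Injective g) (Q : ZMod m → Prop) :
    cnt univ (fun x => Q (g x)) ≤ cnt univ Q :=
  cnt_le_of_inj g (fun _ _ h => ⟨mem_univ _, h⟩) (fun _ _ _ _ _ _ h => hg h)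

lemma cnt_box (L : ℕ) (K T : Finset ℕ) :
    cnt univ (fun y : ZMod m => y.val / L ∈ K ∧ y.val % L ∈ T) ≤ K.card * T.card := by
  rw [← card_product]
  refine le_trans (cnt_le_of_inj (t := K ×ˢ T) (q := fun _ => True)
    (fun y : ZMod m => (y.val / L, y.val % L)) ?_ ?_) (cnt_le_card _ _)
  · intro a _ h
    exact ⟨mem_product.2 h, trivial⟩
  · intro a _ b _ _ _ h
    have h1 : a.val / L = b.val / L := congrArg Prod.fst h
    have h2 : a.val % L = b.val % L := congrArg Prod.snd h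
    apply ZMod.val_injective
    rw [← Nat.div_add_mod a.val L, ← Nat.div_add_mod b.val L, h1, h2]

lemma cnt_nonint {L : ℕ} (hL : 0 < L) (L0 : ℕ) :
    cnt univ (fun y : ZMod m => ¬ Intr L L0 y) ≤ 3 * L + (m / L + 1) * (L0 + 3) := by
  have h1 := cnt_box (m := m) L {0, m / L - 1, m / L} (range L)
  have h2 := cnt_box (m := m) L (range (m / L + 1)) (range L0 ∪ Ico (L - 3) L)
  have h3 : ({0, m / L - 1, m / L} : Finset ℕ).card ≤ 3 := card_le_three
  have h4 : (range L0 ∪ Ico (L - 3) L).card ≤ L0 + 3 := by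
    refine (card_union_le _ _).trans ?_
    rw [card_range, Nat.card_Ico]; omega
  rw [card_range] at h1 h2
  refine le_trans (cnt_mono subset_rfl ?_) ((cnt_or_le _ _ _).trans
    (add_le_add (h1.trans (Nat.mul_le_mul_right _ h3)) (h2.trans (Nat.mul_le_mul_left _ h4))))
  intro y _ hy
  have a1 : y.val % L < L := Nat.mod_lt _ hL
  have a2 : y.val / L ≤ m / L := Nat.div_le_div_right (ZMod.val_lt y).le
  unfold Intr at hy
  simp only [mem_insert, mem_singleton, mem_range, mem_union, mem_Ico]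
  clear h1 h2 h3 h4
  generalize y.val / L = k at *
  generalize y.val % L = o at *
  generalize m / L = q at *
  omega

lemma cnt_not_far (L : ℕ) : cnt univ (fun h : ZMod m => ¬ far L h) ≤ 2 * L := by
  refine le_trans (cnt_le_of_inj (t := range L ∪ Ico (m - L) m) (q := fun _ => True)
    (fun y : ZMod m => y.val) ?_ ?_) ((cnt_le_card _ _).trans ?_)
  · intro a _ h
    refine ⟨?_, trivial⟩
    have := ZMod.val_lt a
    unfold far at h
    simp only [mem_range, mem_union, mem_Ico]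
    omega
  · intro a _ b _ _ _ h
    exact ZMod.val_injective _ h
  · refine (card_union_le _ _).trans ?_
    rw [card_range, Nat.card_Ico]; omega

lemma not_far_of_blk {L : ℕ} (hL : 0 < L) {y z : ZMod m} (h : y.val / L = z.val / L) :
    ¬ far L (y - z) := by
  have a1 := Nat.div_add_mod y.val L
  have a2 := Nat.div_add_mod z.val L
  have a3 : y.val % L < L := Nat.mod_lt _ hL
  have a4 : z.val % L < L := Nat.mod_lt _ hL
  rw [h] at a1
  have hy := ZMod.val_lt y
  have hz := ZMod.val_lt z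
  rintro ⟨f1, f2⟩
  rcases le_or_gt z.val y.val with hle | hlt
  · rw [ZMod.val_sub hle] at f1
    omega
  · have hne : y - z ≠ 0 := by
      intro h0
      rw [sub_eq_zero] at h0
      rw [h0] at hlt
      exact lt_irrefl _ hlt
    have e : y - z = -(z - y) := by ring
    have hne' : z - y ≠ 0 := by
      intro h0; apply hne; rw [e, h0, neg_zero]
    rw [e, ZMod.neg_val, if_neg hne', ZMod.val_sub hlt.le] at f2
    omega

/-- the block of a residue -/
def blk (L : ℕ) (x : ZMod m) : ZMod m := ((x.val / L : ℕ) : ZMod m)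

lemma blk_val (L : ℕ) (x : ZMod m) : (blk L x).val = x.val / L := by
  unfold blk
  exact ZMod.val_natCast_of_lt (lt_of_le_of_lt (Nat.div_le_self _ _) (ZMod.val_lt x))

lemma cnt_blk {L : ℕ} (hL : 0 < L) (β : ZMod m) : cnt univ (fun y : ZMod m => blk L y = β) ≤ L := by
  have h1 := cnt_box (m := m) L {β.val} (range L)
  rw [card_range, card_singleton, one_mul] at h1
  refine le_trans (cnt_mono subset_rfl ?_) h1
  intro y _ hy
  exact ⟨mem_singleton.2 (by rw [← blk_val, hy]), mem_range.2 (Nat.mod_lt _ hL)⟩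

lemma cnt_same {L : ℕ} (hL : 0 < L) (hm : Odd m) (e e' : Bool) (s s' : ZMod m)
    (h : e = e' → far L (s - s')) :
    cnt univ (fun x : ZMod m => blk L (fm e s x) = blk L (fm e' s' x)) ≤ 2 * L := by
  have key : ∀ x : ZMod m, blk L (fm e s x) = blk L (fm e' s' x) →
      ¬ far L (fm e s x - fm e' s' x) := by
    intro x hx
    apply not_far_of_blk hL
    rw [← blk_val, ← blk_val, hx]
  by_cases he : e = e'
  · have : cnt univ (fun x : ZMod m => blk L (fm e s x) = blk L (fm e' s' x)) = 0 := by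
      rw [cnt_eq_zero]
      intro x _ hx
      apply key x hx
      have : fm e s x - fm e' s' x = s - s' := by
        subst he
        unfold fm
        cases e <;> simp
      rw [this]; exact h he
    omega
  · have h2 : IsUnit (2 : ZMod m) := by
      have := (ZMod.isUnit_iff_coprime 2 m).2 ((Nat.coprime_two_left).2 hm)
      simpa using this
    have hinj : Function.Injective (fun x : ZMod m => fm e s x - fm e' s' x) := by
      intro x y hxy
      simp only [fm] at hxy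
      apply h2.mul_left_cancel
      cases e <;> cases e'
      · exact absurd rfl he
      · simp only [Bool.false_eq_true, if_false, if_true] at hxy
        linear_combination -hxy
      · simp only [Bool.false_eq_true, if_false, if_true] at hxy
        linear_combination hxy
      · exact absurd rfl he
    exact le_trans (cnt_mono subset_rfl fun x _ hx => key x hx)
      ((cnt_comp_le hinj (fun h => ¬ far L h)).trans (cnt_not_far L))

/-! ### the counting functions -/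

variable {Ω P : Type}

/-- all forms lie in their sets -/
def Ev (L L0 : ℕ) (π : P → Ω → ℕ → Prop) {r : ℕ} (t : Fin r → Bool × ZMod m × P)
    (w : ZMod m → Ω) (x : ZMod m) : Prop :=
  ∀ i, Intr L L0 (fm (t i).1 (t i).2.1 x) ∧
    π (t i).2.2 (w (blk L (fm (t i).1 (t i).2.1 x))) ((fm (t i).1 (t i).2.1 x).val % L)

/-- the count -/
def ff (L L0 : ℕ) (π : P → Ω → ℕ → Prop) {r : ℕ} (t : Fin r → Bool × ZMod m × P)
    (w : ZMod m → Ω) : ℝ := ∑ x, ind (Ev L L0 π t w x)

lemma ff_lip {L : ℕ} (hL : 0 < L) (L0 : ℕ) (π : P → Ω → ℕ → Prop) {r : ℕ} (hr : r ≤ 4)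
    (t : Fin r → Bool × ZMod m × P) (β : ZMod m) (w : ZMod m → Ω) (u v : Ω) :
    |ff L L0 π t (Function.update w β u) - ff L L0 π t (Function.update w β v)| ≤ 4 * L := by
  unfold ff
  rw [← sum_sub_distrib]
  refine (abs_sum_le_sum_abs _ _).trans ?_
  have h1 : ∀ x : ZMod m, |ind (Ev L L0 π t (Function.update w β u) x) -
      ind (Ev L L0 π t (Function.update w β v) x)| ≤
      ind (∃ i ∈ (univ : Finset (Fin r)), blk L (fm (t i).1 (t i).2.1 x) = β) := by
    intro x
    by_cases hx : ∃ i ∈ (univ : Finset (Fin r)), blk L (fm (t i).1 (t i).2.1 x) = β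
    · rw [ind_true hx]; exact abs_ind_sub_le _ _
    · rw [ind_false hx]
      have hx' : ∀ i, blk L (fm (t i).1 (t i).2.1 x) ≠ β := fun i hi => hx ⟨i, mem_univ _, hi⟩
      have : Ev L L0 π t (Function.update w β u) x ↔ Ev L L0 π t (Function.update w β v) x := by
        unfold Ev
        simp only [Function.update_of_ne (hx' _)]
      rw [ind_congr this]; simp
  refine (sum_le_sum fun x _ => h1 x).trans ?_
  rw [← cnt_cast]
  have h2 := cnt_exists_le (univ : Finset (ZMod m)) (univ : Finset (Fin r))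
    (fun i x => blk L (fm (t i).1 (t i).2.1 x) = β)
  have h3 : ∑ i : Fin r, cnt univ (fun x => blk L (fm (t i).1 (t i).2.1 x) = β) ≤ ∑ _i : Fin r, L :=
    sum_le_sum fun i _ => (cnt_comp_le (fm_inj _ _) (fun y => blk L y = β)).trans (cnt_blk hL β)
  have h4 : ∑ _i : Fin r, L ≤ 4 * L := by
    simp only [sum_const, card_univ, Fintype.card_fin, smul_eq_mul]
    exact Nat.mul_le_mul_right _ hr
  exact_mod_cast h2.trans (h3.trans h4)

lemma ff_tail {L : ℕ} (hL : 0 < L) (L0 : ℕ) (μ : FP Ω) (π : P → Ω → ℕ → Prop) {r : ℕ} (hr : r ≤ 4)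
    (t : Fin r → Bool × ZMod m × P) {lam : ℝ} (hlam : 0 < lam) :
    (FP.pi (fun _ : ZMod m => μ)).P (fun w => lam * m / 2 ≤
      |ff L L0 π t w - (FP.pi (fun _ : ZMod m => μ)).E (ff L L0 π t)|) ≤
      2 * Real.exp (-(lam ^ 2 / (128 * (L : ℝ) ^ 2) * m)) := by
  have hm : (0 : ℝ) < m := by exact_mod_cast Nat.pos_of_ne_zero (NeZero.ne m)
  have hL' : (0 : ℝ) < L := by exact_mod_cast hL
  have := FP.pi_tail (fun _ : ZMod m => μ) (fun _ _ _ => True) (fun _ => 1) (fun _ => 4 * (L : ℝ))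
    (fun _ => FP.conc_top _) (ff L L0 π t) (fun β w u v _ => ff_lip hL L0 π hr t β w u v)
    (W := 16 * (L : ℝ) ^ 2 * m) (s := lam * m / 2) (by positivity)
    (by simp only [sum_const, card_univ, ZMod.card, nsmul_eq_mul]; apply le_of_eq; ring)
    (by positivity)
  refine this.trans (le_of_eq ?_)
  congr 2
  field_simp
  ring

lemma ff_E (L L0 : ℕ) (μ : FP Ω) (π : P → Ω → ℕ → Prop) {r : ℕ}
    (t : Fin r → Bool × ZMod m × P) :
    (FP.pi (fun _ : ZMod m => μ)).E (ff L L0 π t) =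
      ∑ x, (FP.pi (fun _ : ZMod m => μ)).P (fun w => Ev L L0 π t w x) :=
  FP.E_sum _ univ (fun x w => ind (Ev L L0 π t w x))

lemma cnt_forms_nonint {L : ℕ} (hL : 0 < L) (L0 : ℕ) {r : ℕ} (hr : r ≤ 4)
    (t : Fin r → Bool × ZMod m × P) :
    cnt univ (fun x => ∃ i ∈ (univ : Finset (Fin r)), ¬ Intr L L0 (fm (t i).1 (t i).2.1 x)) ≤
      4 * (3 * L + (m / L + 1) * (L0 + 3)) := by
  refine (cnt_exists_le _ _ (fun i x => ¬ Intr L L0 (fm (t i).1 (t i).2.1 x))).trans ?_
  refine (sum_le_sum fun i _ => (cnt_comp_le (fm_inj (t i).1 (t i).2.1)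
    (fun y => ¬ Intr L L0 y)).trans (cnt_nonint hL L0)).trans ?_
  simp only [sum_const, card_univ, Fintype.card_fin, smul_eq_mul]
  exact Nat.mul_le_mul_right _ hr

lemma ff_E_pat {L : ℕ} (hL : 0 < L) (hm : Odd m) (L0 : ℕ) (μ : FP Ω) (π : P → Ω → ℕ → Prop)
    (p : P → ℝ) (hp : ∀ a o, μ.P (fun w => π a w o) = p a) {r : ℕ} (hr : r ≤ 4)
    (t : Fin r → Bool × ZMod m × P)
    (ht : ∀ i j, i ≠ j → (t i).1 = (t j).1 → far L ((t i).2.1 - (t j).2.1)) :
    |(FP.pi (fun _ : ZMod m => μ)).E (ff L L0 π t) - m * ∏ i, p (t i).2.2| ≤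
      ((4 * (3 * L + (m / L + 1) * (L0 + 3)) + 32 * L : ℕ) : ℝ) := by
  rw [ff_E]
  have hp0 : ∀ a, 0 ≤ p a := fun a => by rw [← hp a 0]; exact μ.P_nonneg _
  have hp1 : ∀ a, p a ≤ 1 := fun a => by rw [← hp a 0]; exact μ.P_le_one _
  have e : (m : ℝ) * ∏ i, p (t i).2.2 = ∑ _x : ZMod m, ∏ i, p (t i).2.2 := by
    simp only [sum_const, card_univ, ZMod.card, nsmul_eq_mul]
  rw [e, ← sum_sub_distrib]
  refine (abs_sum_le_sum_abs _ _).trans ?_
  set B : ZMod m → Prop := fun x =>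
    (∃ i ∈ (univ : Finset (Fin r)), ¬ Intr L L0 (fm (t i).1 (t i).2.1 x)) ∨
    (∃ ij ∈ (univ : Finset (Fin r × Fin r)), ij.1 ≠ ij.2 ∧
      blk L (fm (t ij.1).1 (t ij.1).2.1 x) = blk L (fm (t ij.2).1 (t ij.2).2.1 x)) with hB
  have h1 : ∀ x : ZMod m, |(FP.pi (fun _ : ZMod m => μ)).P (fun w => Ev L L0 π t w x) -
      ∏ i, p (t i).2.2| ≤ ind (B x) := by
    intro x
    by_cases hx : B x
    · rw [ind_true hx]
      have a1 := (FP.pi (fun _ : ZMod m => μ)).P_nonneg (fun w => Ev L L0 π t w x)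
      have a2 := (FP.pi (fun _ : ZMod m => μ)).P_le_one (fun w => Ev L L0 π t w x)
      have a3 : 0 ≤ ∏ i, p (t i).2.2 := prod_nonneg fun i _ => hp0 _
      have a4 : ∏ i, p (t i).2.2 ≤ 1 := prod_le_one (fun i _ => hp0 _) (fun i _ => hp1 _)
      rw [abs_le]; constructor <;> linarith
    · rw [ind_false hx]
      have b1 : ∀ i, Intr L L0 (fm (t i).1 (t i).2.1 x) := by
        intro i; by_contra hi; exact hx (Or.inl ⟨i, mem_univ _, hi⟩)
      have b2 : Function.Injective (fun i => blk L (fm (t i).1 (t i).2.1 x)) := by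
        intro i j hij; by_contra hne; exact hx (Or.inr ⟨(i, j), mem_univ _, hne, hij⟩)
      have b3 := prob_reg μ _ b2 (fun i u => π (t i).2.2 u ((fm (t i).1 (t i).2.1 x).val % L))
      simp only [hp] at b3
      rw [← b3, FP.P_congr _ (t := fun w => ∀ i, π (t i).2.2 (w (blk L (fm (t i).1 (t i).2.1 x)))
        ((fm (t i).1 (t i).2.1 x).val % L))
        (fun w => ⟨fun h i => (h i).2, fun h i => ⟨b1 i, h i⟩⟩)]
      simp
  refine (sum_le_sum fun x _ => h1 x).trans ?_
  rw [← cnt_cast]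
  have h2 := cnt_forms_nonint hL L0 hr t
  have h3 : cnt univ (fun x => ∃ ij ∈ (univ : Finset (Fin r × Fin r)), ij.1 ≠ ij.2 ∧
      blk L (fm (t ij.1).1 (t ij.1).2.1 x) = blk L (fm (t ij.2).1 (t ij.2).2.1 x)) ≤ 32 * L := by
    refine (cnt_exists_le _ _ (fun (ij : Fin r × Fin r) x => ij.1 ≠ ij.2 ∧
      blk L (fm (t ij.1).1 (t ij.1).2.1 x) = blk L (fm (t ij.2).1 (t ij.2).2.1 x))).trans ?_
    have : ∀ ij : Fin r × Fin r, cnt univ (fun x => ij.1 ≠ ij.2 ∧
        blk L (fm (t ij.1).1 (t ij.1).2.1 x) = blk L (fm (t ij.2).1 (t ij.2).2.1 x)) ≤ 2 * L := by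
      intro ij
      by_cases hij : ij.1 = ij.2
      · rw [cnt_eq_zero.2 fun x _ h => h.1 hij]; exact Nat.zero_le _
      · exact le_trans (cnt_mono subset_rfl fun x _ h => h.2)
          (cnt_same hL hm _ _ _ _ (ht _ _ hij))
    refine (sum_le_sum fun ij _ => this ij).trans ?_
    simp only [sum_const, card_univ, Fintype.card_prod, Fintype.card_fin, smul_eq_mul]
    have : r * r ≤ 4 * 4 := Nat.mul_le_mul hr hr
    nlinarith
  exact_mod_cast (cnt_or_le _ _ _).trans (add_le_add h2 h3)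

lemma ff_E_low {L : ℕ} (hL : 0 < L) (L0 : ℕ) (μ : FP Ω) (π : P → Ω → ℕ → Prop)
    (p : P → ℝ) (hp : ∀ a o, μ.P (fun w => π a w o) = p a) {r : ℕ} (hr : r ≤ 4)
    (t : Fin r → Bool × ZMod m × P) (a : P) (ha : ∀ i, (t i).2.2 = a)
    (hπ : ∀ w o o', π a w o → π a w o') :
    m * p a ^ r - ((4 * (3 * L + (m / L + 1) * (L0 + 3)) + 32 * L : ℕ) : ℝ) ≤
      (FP.pi (fun _ : ZMod m => μ)).E (ff L L0 π t) := by
  rw [ff_E]
  have hp0 : 0 ≤ p a := by rw [← hp a 0]; exact μ.P_nonneg _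
  have hp1 : p a ≤ 1 := by rw [← hp a 0]; exact μ.P_le_one _
  have h1 : ∀ x : ZMod m, p a ^ r -
      ind (∃ i ∈ (univ : Finset (Fin r)), ¬ Intr L L0 (fm (t i).1 (t i).2.1 x)) ≤
      (FP.pi (fun _ : ZMod m => μ)).P (fun w => Ev L L0 π t w x) := by
    intro x
    by_cases hx : ∃ i ∈ (univ : Finset (Fin r)), ¬ Intr L L0 (fm (t i).1 (t i).2.1 x)
    · rw [ind_true hx]
      have a1 := (FP.pi (fun _ : ZMod m => μ)).P_nonneg (fun w => Ev L L0 π t w x)
      have a2 : p a ^ r ≤ 1 := pow_le_one₀ hp0 hp1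
      linarith
    · rw [ind_false hx, sub_zero]
      have b1 : ∀ i, Intr L L0 (fm (t i).1 (t i).2.1 x) := by
        intro i; by_contra hi; exact hx ⟨i, mem_univ _, hi⟩
      have b3 := prob_low μ (fun i => blk L (fm (t i).1 (t i).2.1 x)) (fun u => π a u 0)
      rw [hp] at b3
      refine b3.trans (FP.P_mono _ fun w h i => ⟨b1 i, ?_⟩)
      rw [ha i]
      exact hπ _ _ _ (h i)
  refine le_trans ?_ (sum_le_sum fun x _ => h1 x)
  rw [sum_sub_distrib, ← cnt_cast]
  simp only [sum_const, card_univ, ZMod.card, nsmul_eq_mul]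
  have h2 := (cnt_forms_nonint hL L0 hr t).trans (Nat.le_add_right _ (32 * L))
  have h3 := (Nat.cast_le (α := ℝ)).2 h2
  linarith

lemma exists_good {L : ℕ} (hL : 0 < L) (L0 : ℕ) (μ : FP Ω) (π : P → Ω → ℕ → Prop) [Finite P]
    (hP : Nat.card P ≤ m) {lam : ℝ} (hlam : 0 < lam)
    (hs : 160 * ((m : ℝ) ^ 8 * Real.exp (-(lam ^ 2 / (128 * (L : ℝ) ^ 2) * m))) < 1) :
    ∃ w : ZMod m → Ω, ∀ r ≤ 4, ∀ t : Fin r → Bool × ZMod m × P,
      |ff L L0 π t w - (FP.pi (fun _ : ZMod m => μ)).E (ff L L0 π t)| < lam * m / 2 := by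
  classical
  have := Fintype.ofFinite P
  have hm1 : 1 ≤ m := Nat.pos_of_ne_zero (NeZero.ne m)
  set δ := Real.exp (-(lam ^ 2 / (128 * (L : ℝ) ^ 2) * m)) with hδ
  have hδ0 : 0 < δ := Real.exp_pos _
  have h1 : ∀ r : Fin 5, (FP.pi (fun _ : ZMod m => μ)).P
      (fun w => ∃ t : Fin r.val → Bool × ZMod m × P, lam * m / 2 ≤
        |ff L L0 π t w - (FP.pi (fun _ : ZMod m => μ)).E (ff L L0 π t)|) ≤
      32 * ((m : ℝ) ^ 8 * δ) := by
    intro r
    have hr : r.val ≤ 4 := Nat.lt_succ_iff.1 r.2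
    refine (FP.P_exists_le' _ _ (fun t => ff_tail hL L0 μ π hr t hlam)).trans ?_
    have hc : Fintype.card (Fin r.val → Bool × ZMod m × P) ≤ 16 * m ^ 8 := by
      rw [Fintype.card_fun, Fintype.card_fin, Fintype.card_prod, Fintype.card_prod, ZMod.card,
        Fintype.card_bool, ← Nat.card_eq_fintype_card]
      calc (2 * (m * Nat.card P)) ^ r.val ≤ (2 * (m * m)) ^ r.val := by gcongr
        _ ≤ (2 * (m * m)) ^ 4 := Nat.pow_le_pow_right (by positivity) hr
        _ = 16 * m ^ 8 := by ring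
    have hc' : (Fintype.card (Fin r.val → Bool × ZMod m × P) : ℝ) ≤ 16 * (m : ℝ) ^ 8 := by
      exact_mod_cast hc
    calc _ ≤ 16 * (m : ℝ) ^ 8 * (2 * δ) := mul_le_mul_of_nonneg_right hc' (by positivity)
      _ = _ := by ring
  have h2 := FP.P_exists_le' _ _ h1
  obtain ⟨w, hw⟩ := FP.exists_of_P_lt_one _ (lt_of_le_of_lt h2 (by
    simp only [Fintype.card_fin]; push_cast; linarith))
  refine ⟨w, fun r hr t => ?_⟩
  by_contra hc
  exact hw ⟨⟨r, Nat.lt_succ_of_le hr⟩, t, not_lt.1 hc⟩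

omit [NeZero m] in
lemma exists_m0 {c : ℝ} (hc : 0 < c) : ∃ m0 : ℕ, ∀ m : ℕ, m0 ≤ m →
    160 * ((m : ℝ) ^ 8 * Real.exp (-(c * m))) < 1 := by
  have h1 := Real.tendsto_pow_mul_exp_neg_atTop_nhds_zero 8
  have h2 : Filter.Tendsto (fun m : ℕ => c * (m : ℝ)) Filter.atTop Filter.atTop :=
    Filter.Tendsto.const_mul_atTop hc tendsto_natCast_atTop_atTop
  have h3 := (h1.comp h2).eventually (gt_mem_nhds (show (0 : ℝ) < c ^ 8 / 160 by positivity))
  obtain ⟨m0, hm0⟩ := Filter.eventually_atTop.1 h3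
  refine ⟨m0, fun m hm => ?_⟩
  have h4 := hm0 m hm
  simp only [Function.comp] at h4
  have h5 : (0 : ℝ) < c ^ 8 := by positivity
  rw [lt_div_iff₀ (by norm_num), mul_pow] at h4
  refine lt_of_mul_lt_mul_left (a := c ^ 8) ?_ h5.le
  linarith

open Classical in
lemma ff_eq (L L0 : ℕ) (π : P → Ω → ℕ → Prop) {r : ℕ} (ε : Fin r → Bool) (s : Fin r → ZMod m)
    (a : Fin r → P) (w : ZMod m → Ω) :
    ((univ.filter (fun x : ZMod m => ∀ i, (if ε i = true then x + s i else s i - x) ∈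
      Aset m L L0 (fun k => w (k : ZMod m)) (π (a i)))).card : ℝ) =
      ff L L0 π (fun i => (ε i, s i, a i)) w := by
  unfold ff
  rw [← cnt_cast, cnt_eq]
  congr 2
  refine filter_congr fun x _ => ?_
  unfold Ev Aset fm blk
  simp only [mem_filter, mem_univ, true_and]

end

end Pt

open Pt in
/-- block random sets with the expected pattern counts exist -/
theorem patterns (L0 : ℕ) (lam : ℝ) (hlam : 0 < lam) : ∃ L : ℕ, 2 * L0 + 8 ≤ L ∧ ∃ m0 : ℕ,
    ∀ (m : ℕ) [NeZero m], m0 ≤ m → Odd m →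
    ∀ (Ω : Type) (μ : FP Ω) (P : Type) [Finite P] (π : P → Ω → ℕ → Prop) (p : P → ℝ),
      Nat.card P ≤ m → (∀ a o, μ.P (fun w => π a w o) = p a) →
      ∃ ω : ℕ → Ω, Pat L lam (fun a => Aset m L L0 ω (π a)) p ∧
        ∀ a, (∀ w o o', π a w o → π a w o') → Low (Aset m L L0 ω (π a)) (p a ^ 3 - lam) := by
  classical
  obtain ⟨L1, hL1⟩ := exists_nat_ge (16 * ((L0 : ℝ) + 3) / lam)
  set L := L1 + (2 * L0 + 8) with hLdef
  have hL : 0 < L := by omega
  have hL' : (0 : ℝ) < L := by exact_mod_cast hL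
  have hL2 : 16 * ((L0 : ℝ) + 3) ≤ lam * L := by
    rw [div_le_iff₀ hlam] at hL1
    have : (L1 : ℝ) ≤ L := by exact_mod_cast Nat.le_add_right _ _
    nlinarith
  obtain ⟨m1, hm1⟩ := exists_m0 (c := lam ^ 2 / (128 * (L : ℝ) ^ 2)) (by positivity)
  obtain ⟨m2, hm2⟩ := exists_nat_ge (4 * (44 * (L : ℝ) + 4 * ((L0 : ℝ) + 3)) / lam)
  refine ⟨L, by omega, m1 + m2, ?_⟩
  intro m _ hm hodd Ω μ P _ π p hP hp
  have hirr : ((4 * (3 * L + (m / L + 1) * (L0 + 3)) + 32 * L : ℕ) : ℝ) ≤ lam * m / 2 := by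
    have a1 : ((m / L : ℕ) : ℝ) * L ≤ m := by exact_mod_cast Nat.div_mul_le_self m L
    have a2 : (m2 : ℝ) ≤ m := by exact_mod_cast (by omega : m2 ≤ m)
    rw [div_le_iff₀ hlam] at hm2
    have a3 : (0 : ℝ) ≤ ((m / L : ℕ) : ℝ) := by positivity
    have a4 : ((m / L : ℕ) : ℝ) * (16 * ((L0 : ℝ) + 3)) ≤ ((m / L : ℕ) : ℝ) * (lam * L) :=
      mul_le_mul_of_nonneg_left hL2 a3
    have a5 : lam * (((m / L : ℕ) : ℝ) * L) ≤ lam * m := mul_le_mul_of_nonneg_left a1 hlam.le
    have a6 : (m2 : ℝ) * lam ≤ m * lam := mul_le_mul_of_nonneg_right a2 hlam.le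
    push_cast
    nlinarith
  obtain ⟨w, hw⟩ := exists_good (m := m) hL L0 μ π hP hlam (hm1 m (by omega))
  refine ⟨fun k => w (k : ZMod m), ?_, ?_⟩
  · intro r hr ε s a hfar
    rw [ff_eq]
    have b1 := hw r hr (fun i => (ε i, s i, a i))
    have b2 := ff_E_pat hL hodd L0 μ π p hp hr (fun i => (ε i, s i, a i)) hfar
    have b3 := abs_sub_le (ff L L0 π (fun i => (ε i, s i, a i)) w)
      ((FP.pi (fun _ : ZMod m => μ)).E (ff L L0 π (fun i => (ε i, s i, a i)))) (m * ∏ i, p (a i))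
    linarith
  · intro a ha s t
    have b1 := hw 3 (by norm_num) (fun i => (true, ![0, s, t] i, a))
    have b2 := ff_E_low hL L0 μ π p hp (r := 3) (by norm_num) (fun i => (true, ![0, s, t] i, a)) a
      (fun _ => rfl) ha
    have b3 := ff_eq L L0 π (fun _ : Fin 3 => true) ![0, s, t] (fun _ => a) w
    have b4 : ((Aset m L L0 (fun k => w (k : ZMod m)) (π a)).filter (fun x =>
        x + s ∈ Aset m L L0 (fun k => w (k : ZMod m)) (π a) ∧
        x + t ∈ Aset m L L0 (fun k => w (k : ZMod m)) (π a))) =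
        univ.filter (fun x : ZMod m => ∀ i : Fin 3, (if (fun _ : Fin 3 => true) i = true then
          x + ![0, s, t] i else ![0, s, t] i - x) ∈
          Aset m L L0 (fun k => w (k : ZMod m)) (π ((fun _ => a) i))) := by
      ext x
      simp [Fin.forall_fin_succ]
    rw [b4, b3]
    have b5 := (abs_lt.1 b1).1
    nlinarith

end Pool.Agent.Lib.MP_5cebc8_co
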