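import Pool.Agent.Lib.MP_5cebc8_co.OutB
import Pool.Agent.Lib.MP_5cebc8_co.Mid
import Pool.Agent.Lib.MP_5cebc8_co.Embed

open Finset
open Pool.Agent.Lib.MP_ad359d_co

namespace Pool.Agent.Lib.MP_5cebc8_co

set_option linter.unusedSectionVars false

noncomputable section

namespace Pre

variable {V : Type} [Fintype V] [DecidableEq V] {P : Pre V} {dg : ℝ}

/-- choice of the densities of the classes -/
lemma dens (h : P.Ok dg) {m n : ℕ} [NeZero m] (hm : m + 1 = 2 * n) (h10 : 10 ≤ m)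
    (hV : Fintype.card V = m + 1) (hs : ∀ s, (univ.filter (fun v => P.T.sd v = s)).card = n)
    {κ σ p0 : ℝ} (hκ : 0 < κ) (hκ1 : κ ≤ 1 / 1000) (hσ : 0 < σ) (hσ1 : σ ≤ 1 / 100)
    (hp0 : 0 < p0) (hp0' : p0 ≤ σ / 8) (hH : 2 * P.Hg.card * p0 ≤ σ / 4)
    (hSp : κ * m ≤ P.Sp.card) (hSp' : (P.Sp.card : ℝ) ≤ 2 * κ * m) (hVt : κ * m ≤ P.Vt.card)
    {Q : (Cn P.Own → ℝ) → Prop}
    (hQ : ∀ (po : P.Own → ℝ) (pU : Bool → ℝ) (pC pD : ℝ), (∀ o, 0 ≤ po o) → 0 ≤ pC → 0 ≤ pD →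
      (∀ s, 0 ≤ pU s ∧ pU s ≤ 1 / 100) → ∑ o, po o + pC + P.wd * pD + σ / 4 ≤ 1 →
      (∀ s, ∑ o ∈ univ.filter (fun o => P.ls o = s), po o ≤ 3 / 5) →
      ∃ p : Cn P.Own → ℝ, Q p ∧ (∀ a, 0 ≤ p a) ∧ p .cc = pC ∧ p .dd = pD ∧
        (∀ o, p (.own o) = po o) ∧ (∀ s, p (.uu s) = pU s) ∧
        (∀ s, 4 / 5 - ∑ o ∈ univ.filter (fun o => P.ls o = s), po o ≤ p (.lb s))) :
    ∃ p : Cn P.Own → ℝ, Q p ∧ (∀ τ, (1 - σ) * P.cc τ ≤ p τ * m) ∧ σ / 8 ≤ p .cc ∧
      3 / 4 * κ ≤ p .dd ∧ p .dd * m ≤ P.Vt.card ∧ (∀ v, p0 ≤ p (P.tau v)) ∧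
      (∀ v, P.T.par v ∉ P.Hg → σ / 8 ≤ p (P.tau v)) ∧
      (∀ v ∈ P.Sp, p (P.tau v) * m ≤
        P.cc (P.tau v) + (if P.tau v = .uu P.s0 then σ / 8 else p0) * m) ∧
      (P.wd = 2 → κ / 2 ≤ p (.uu P.s0)) := by
  classical
  have hm0 : (0 : ℝ) < m := by exact_mod_cast NeZero.pos m
  have hσ' : 0 ≤ 1 - σ := by linarith
  have hn : (n : ℝ) ≤ 11 / 20 * m := by
    have a1 : (m : ℝ) + 1 = 2 * n := by exact_mod_cast hm
    have a2 : (10 : ℝ) ≤ m := by exact_mod_cast h10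
    linarith
  have hO : (Fintype.card P.Own : ℝ) * p0 ≤ σ / 4 := by
    have : Fintype.card P.Own = 2 * P.Hg.card := by simp [mul_comm]
    rw [this]; push_cast; exact hH
  let f : Cn P.Own → ℝ := fun τ => (1 - σ) * P.cc τ / m
  have f0 : ∀ τ, 0 ≤ f τ := fun τ => by positivity
  have fm : ∀ τ, f τ * m = (1 - σ) * P.cc τ := fun τ => by simp only [f]; field_simp
  have fle : ∀ τ, f τ * m ≤ P.cc τ := fun τ => by
    rw [fm]; exact mul_le_of_le_one_left (by positivity) (by linarith)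
  have hside : ∀ s, (∑ o ∈ univ.filter (fun o => P.ls o = s), (f (.own o) + p0)) * m ≤
      n - P.cc (.lb s) + σ / 4 * m := by
    intro s
    have a1 := cc_side h s
    rw [hs s] at a1
    have a2 : (P.cc (.lb s) : ℝ) + ∑ o ∈ univ.filter (fun o => P.ls o = s), (P.cc (.own o) : ℝ)
        ≤ n := by exact_mod_cast a1
    have a3 : (∑ o ∈ univ.filter (fun o => P.ls o = s), f (.own o)) * m ≤
        ∑ o ∈ univ.filter (fun o => P.ls o = s), (P.cc (.own o) : ℝ) := by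
      rw [sum_mul]; exact sum_le_sum fun o _ => fle _
    have a4 : ((univ.filter (fun o => P.ls o = s)).card : ℝ) * p0 ≤ σ / 4 := by
      refine le_trans ?_ hO
      gcongr
      exact card_le_univ _
    rw [sum_add_distrib, sum_const, nsmul_eq_mul, add_mul]
    have a5 := mul_le_mul_of_nonneg_right a4 hm0.le
    linarith
  obtain ⟨p, q1, q2, q3, q4, q5, q6, q7⟩ := hQ (fun o => f (.own o) + p0) (fun s => f (.uu s) + σ / 8)
    (f .cc + σ / 8) (f .dd) (fun o => by have := f0 (.own o); linarith)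
    (by have := f0 .cc; linarith) (f0 _)
    (fun s => by
      have a1 := f0 (.uu s)
      have a2 := fle (.uu s)
      have a3 : (P.cc (.uu s) : ℝ) ≤ P.Sp.card := by exact_mod_cast cc_uu s
      have a4 : f (.uu s) ≤ 2 * κ := le_of_mul_le_mul_right (by linarith) hm0
      constructor <;> linarith)
    (by
      have a1 := cc_total h
      rw [hV] at a1
      have a2 : ∑ w, (P.cc (.own w) : ℝ) + P.cc .cc + P.wd * P.cc .dd ≤ m := by
        exact_mod_cast (by omega : ∑ w, P.cc (.own w) + P.cc .cc + P.wd * P.cc .dd ≤ m)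
      have a3 : (∑ w, f (.own w) + f .cc + P.wd * f .dd) * m =
          (1 - σ) * (∑ w, (P.cc (.own w) : ℝ) + P.cc .cc + P.wd * P.cc .dd) := by
        rw [add_mul, add_mul, sum_mul, mul_assoc, fm, fm, mul_add, mul_add, mul_sum]
        simp only [fm]; ring
      have a4 : ∑ w, f (.own w) + f .cc + P.wd * f .dd ≤ 1 - σ :=
        le_of_mul_le_mul_right (by rw [a3]; gcongr) hm0
      rw [sum_add_distrib, sum_const, card_univ, nsmul_eq_mul]
      linarith)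
    (fun s => by
      have a1 := hside s
      have a2 : (0 : ℝ) ≤ P.cc (.lb s) := by positivity
      exact le_of_mul_le_mul_right (by nlinarith) hm0)
  have hlb : ∀ s, P.cc (.lb s) + 1 / 5 * m ≤ p (.lb s) * m := by
    intro s
    have a1 := hside s
    have a2 := mul_le_mul_of_nonneg_right (q7 s) hm0.le
    nlinarith
  have hlb' : ∀ s, σ / 8 ≤ p (.lb s) := fun s => by
    have a1 := hlb s
    have a2 : (0 : ℝ) ≤ P.cc (.lb s) := by positivity
    exact le_of_mul_le_mul_right (by nlinarith) hm0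
  have htau : ∀ v, P.T.par v ∉ P.Hg → σ / 8 ≤ p (P.tau v) := by
    intro v hv
    rw [tau_of_not hv]
    split_ifs
    · rw [q6]; have := f0 (.uu (P.T.sd v)); linarith
    · exact hlb' _
  have hdd : (P.cc .dd : ℝ) = P.Vt.card := by exact_mod_cast cc_dd h
  refine ⟨p, q1, fun τ => ?_, ?_, ?_, ?_, fun v => ?_, htau, fun v hv => ?_, fun hw => ?_⟩
  · cases τ with
    | lb s =>
      have a1 := hlb s
      have a2 : (0 : ℝ) ≤ P.cc (.lb s) := by positivity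
      nlinarith
    | uu s => rw [q6, add_mul, fm]; nlinarith
    | ww s => rw [cc_ww]; simpa using mul_nonneg (q2 _) hm0.le
    | cc => rw [q3, add_mul, fm]; nlinarith
    | dd => rw [q4, fm]
    | ar => rw [cc_ar]; simpa using mul_nonneg (q2 _) hm0.le
    | ad => rw [cc_ad]; simpa using mul_nonneg (q2 _) hm0.le
    | own o => rw [q5, add_mul, fm]; nlinarith
  · rw [q3]; have := f0 .cc; linarith
  · rw [q4]
    refine le_of_mul_le_mul_right ?_ hm0
    rw [fm, hdd]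
    have : 0 ≤ κ * m := by positivity
    nlinarith
  · rw [q4, ← hdd]; exact fle _
  · by_cases hv : P.T.par v ∈ P.Hg
    · rw [tau_of_mem hv, q5]; have := f0 (.own (⟨P.T.par v, hv⟩, decide (v ∈ P.Sp))); linarith
    · exact hp0'.trans (htau v hv)
  · by_cases hp : P.T.par v ∈ P.Hg
    · rw [tau_of_mem hp, q5, if_neg (by simp), add_mul]
      have := fle (.own (⟨P.T.par v, hp⟩, decide (v ∈ P.Sp))); linarith
    · rw [tau_of_not hp, if_pos hv, (h.tie.sp v hv).2.1, q6, if_pos rfl, add_mul]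
      have := fle (.uu P.s0); linarith
  · have ht : ∀ v ∈ P.Sp, P.tau v = .uu P.s0 := fun v hv => by
      rw [tau_of_not fun k => (h.tie.two hw).1 v hv (h.cut.sub k), if_pos hv, (h.tie.sp v hv).2.1]
    have hne : P.Sp.Nonempty := card_pos.1 (by
      have : (0 : ℝ) < P.Sp.card := lt_of_lt_of_le (by positivity) hSp
      exact_mod_cast this)
    obtain ⟨v0, hv0⟩ := hne
    have a1 := cc_sp h hv0
    rw [filter_true_of_mem fun u hu => (ht u hu).trans (ht v0 hv0).symm, ht v0 hv0] at a1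
    rw [q6]
    have a2 : κ / 2 ≤ f (.uu P.s0) := by
      refine le_of_mul_le_mul_right ?_ hm0
      rw [fm, a1]
      have : 0 ≤ κ * m := by positivity
      nlinarith
    linarith

end Pre

theorem stage (κ θ : ℝ) (hκ : 0 < κ) (hκ1 : κ ≤ 1 / 1000) (hθ0 : 0 < θ)
    (hθ : θ ≤ κ ^ 2 / 10 ^ 10) : ∃ ζ : ℝ, 0 < ζ ∧ ∀ K : ℕ, ∃ δ : ℝ, 0 < δ ∧ ∀ h : ℕ, ∃ m0 : ℕ,
    ∀ (m n : ℕ) [NeZero m], m0 ≤ m → m + 1 = 2 * n →
    ∀ (V : Type) [Fintype V] [DecidableEq V] (P : Pre V), P.K = K → Fintype.card V = m + 1 →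
      (∀ s, (univ.filter (fun v => P.T.sd v = s)).card = n) → P.Ok (δ * m) → P.Hg.card ≤ h →
      (P.R.card : ℝ) ≤ ζ * m → κ * m ≤ P.Sp.card → (P.Sp.card : ℝ) ≤ 2 * κ * m →
      κ * m ≤ P.Vt.card →
      ∃ (X : Finset (ZMod m)) (ψ : V → ZMod m) (Cov : Finset V) (D : Finset (ZMod m))
        (W : Bool → Finset (ZMod m)),
        Out P.T P.R P.Sp P.Vt P.π P.o P.wd P.s0 κ θ X ψ Cov D W := by
  obtain ⟨σ, hσd⟩ : ∃ σ : ℝ, σ = κ * θ / 50 := ⟨_, rfl⟩
  have hσ : 0 < σ := by rw [hσd]; positivity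
  have hσθ : 50 * σ ≤ θ := by rw [hσd]; nlinarith
  have hκ2 : κ ^ 2 ≤ 1 := by nlinarith
  have hσκ : σ ≤ κ / 10 ^ 10 := by rw [hσd]; nlinarith
  have hσ1 : σ ≤ 1 / 100 := by linarith
  have hσ3 : 35 * σ < (3 / 4 * κ / 100) ^ 3 := by
    have : κ * θ ≤ κ * (κ ^ 2 / 10 ^ 10) := by gcongr
    have : 0 < κ ^ 3 := by positivity
    rw [hσd]; nlinarith
  obtain ⟨c, hcd⟩ : ∃ c : ℝ, c = (σ / 4 / 100) ^ 3 := ⟨_, rfl⟩
  have hc : 0 < c := by rw [hcd]; positivity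
  have hcσ : c ≤ σ := by
    rw [hcd]
    have : σ ^ 2 ≤ 1 := by nlinarith
    nlinarith
  refine ⟨c / 20, by positivity, fun K => ?_⟩
  obtain ⟨ρ1, hρ1d⟩ : ∃ ρ1 : ℝ, ρ1 = (σ / 8) ^ 2 / 2 := ⟨_, rfl⟩
  have hρ1 : 0 < ρ1 := by rw [hρ1d]; positivity
  have hρ1σ : ρ1 ≤ σ / 8 := by rw [hρ1d]; nlinarith
  obtain ⟨δe, hδe, ξ, hξ, H1⟩ := embed (3 * K + 1) ρ1 σ hρ1 hσ
  obtain ⟨β, hβd⟩ : ∃ β : ℝ, β = ξ * ρ1 / 16 := ⟨_, rfl⟩
  have hβ : 0 < β := by rw [hβd]; positivity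
  obtain ⟨δ, hδ, hδ1, hδ2⟩ : ∃ δ : ℝ, 0 < δ ∧ δ ≤ δe / 8 ∧ δ ≤ β ^ 2 / 8 :=
    ⟨min (δe / 8) (β ^ 2 / 8), by positivity, min_le_left _ _, min_le_right _ _⟩
  refine ⟨δ, hδ, fun h => ?_⟩
  obtain ⟨p0, hp0d⟩ : ∃ p0 : ℝ, p0 = σ / (8 * (h + 5)) := ⟨_, rfl⟩
  have hp0 : 0 < p0 := by rw [hp0d]; positivity
  have hp0h : (2 * h + 10) * p0 = σ / 4 := by rw [hp0d]; field_simp; ring
  have hh0 : (0 : ℝ) ≤ h := by positivity
  have hp0' : p0 ≤ σ / 8 := by nlinarith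
  obtain ⟨ρ, hρd⟩ : ∃ ρ : ℝ, ρ = p0 * (σ / 8) / 2 := ⟨_, rfl⟩
  have hρ : 0 < ρ := by rw [hρd]; positivity
  obtain ⟨lamE, hlamE, m0e, H2⟩ := H1 ρ hρ
  obtain ⟨lam', hl', hl1, hl2, hl3⟩ : ∃ l : ℝ, 0 < l ∧ l ≤ lamE ∧ l ≤ ξ * (ρ ^ 2 * ρ1) / 4 ∧ l ≤ σ :=
    ⟨min lamE (min (ξ * (ρ ^ 2 * ρ1) / 4) σ), by positivity, min_le_left _ _,
      (min_le_right _ _).trans (min_le_left _ _), (min_le_right _ _).trans (min_le_right _ _)⟩
  obtain ⟨lam, hl, hm1, hm2, hm3, hm4, hm5⟩ : ∃ l : ℝ, 0 < l ∧ l ≤ lam' ^ 2 / 8 ∧ l ≤ σ * (2 * ρ) ∧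
      l ≤ β ^ 2 / 64 ∧ l ≤ c / 4 ∧ l ≤ p0 / 2 :=
    ⟨min (lam' ^ 2 / 8) (min (σ * (2 * ρ)) (min (β ^ 2 / 64) (min (c / 4) (p0 / 2)))),
      by positivity, min_le_left _ _, (min_le_right _ _).trans (min_le_left _ _),
      (min_le_right _ _).trans ((min_le_right _ _).trans (min_le_left _ _)),
      (min_le_right _ _).trans ((min_le_right _ _).trans ((min_le_right _ _).trans (min_le_left _ _))),
      (min_le_right _ _).trans ((min_le_right _ _).trans ((min_le_right _ _).trans (min_le_right _ _)))⟩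
  obtain ⟨L, hL, m0c, H3⟩ := classes (5 * h + 1) lam hl
  refine ⟨m0e + m0c + (2 * h + 10) + L +
    ⌈12 * L / lam' ^ 2 + (4 * L + 1) / δ + 2 * L / θ + 128 * L ^ 3 / (δ * c)⌉₊, ?_⟩
  intro m n _ hm0 hmn V _ _ P hK hV hs hok hH hR hSp hSp' hVt
  classical
  have hm : (0 : ℝ) < m := by exact_mod_cast NeZero.pos m
  have hL0 : 0 < L := by omega
  have hLr : (0 : ℝ) < L := by exact_mod_cast hL0
  have hbig : 12 * L / lam' ^ 2 + (4 * L + 1) / δ + 2 * L / θ + 128 * L ^ 3 / (δ * c) ≤ (m : ℝ) :=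
    Nat.ceil_le.1 (by omega)
  have t1 : 0 ≤ 12 * L / lam' ^ 2 := by positivity
  have t2 : 0 ≤ (4 * L + 1) / δ := by positivity
  have t3 : 0 ≤ 2 * L / θ := by positivity
  have t4 : 0 ≤ 128 * L ^ 3 / (δ * c) := by positivity
  have b1 : 12 * (L : ℝ) ≤ m * lam' ^ 2 := (div_le_iff₀ (by positivity)).1 (by linarith)
  have b2 : 4 * (L : ℝ) + 1 ≤ m * δ := (div_le_iff₀ (by positivity)).1 (by linarith)
  have b3 : 2 * (L : ℝ) ≤ m * θ := (div_le_iff₀ (by positivity)).1 (by linarith)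
  have b4 : 128 * (L : ℝ) ^ 3 ≤ m * (δ * c) := (div_le_iff₀ (by positivity)).1 (by linarith)
  have hHr : (P.Hg.card : ℝ) ≤ h := by exact_mod_cast hH
  have hV2 : Fintype.card V ≤ 2 * m := by omega
  have hV2' : (Fintype.card V : ℝ) ≤ 2 * m := by exact_mod_cast hV2
  obtain ⟨p, ⟨A, tl, tc, st, pat, p01, pW, low1, low2⟩, d1, d2, d3, d4, d5, d6, d7, d8⟩ :=
    Pre.dens hok hmn (by omega) hV hs hκ hκ1 hσ hσ1 hp0 hp0' (by nlinarith) hSp hSp' hVt
      (Q := fun p => ∃ (A : Cn P.Own → Finset (ZMod m)) (tl : Bool → ZMod m → Fin 3 ⊕ P.Own)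
        (tc : ZMod m → Fin 4 ⊕ P.Own), Struct L (5 * h + 1) P.wd P.ls A tl tc ∧ Pat L lam A p ∧
        (∀ a, 0 ≤ p a ∧ p a ≤ 1) ∧ (∀ s, 1 / 25 ≤ p (.ww s)) ∧ Low (A .ar) (c - lam) ∧
        Low (A .ad) ((p .dd / 100) ^ 3 - lam))
      (fun po pU pC pD a1 a2 a3 a4 a5 a6 => by
        obtain ⟨A, p, tl, tc, k1, k2, k3, k4, k5, k6, k7, k8, k9, k10, k11⟩ :=
          H3 m (by omega) ⟨n - 1, by omega⟩ P.Own P.ls P.wd po pU pC pD (σ / 4)
            (by simp only [Fintype.card_prod, Fintype.card_coe, Fintype.card_bool]; omega)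
            hok.tie.wd12 a1 a2 a3 (by positivity) a4 a5 a6
        exact ⟨p, ⟨A, tl, tc, k1, k2, k3, k9, hcd ▸ k10, k5 ▸ k11⟩, fun a => (k3 a).1, k4, k5, k6,
          k7, k8⟩)
  have far0 : ∀ a, ∀ x ∈ A a, far L x := fun a x hx => by
    simpa using st.far_add a x hx 0 (by omega)
  obtain ⟨z, hz, z1, z2⟩ := Pre.embedR hok (by positivity) (A .ar) (d2 := δ * m / (4 * L)) hL
    (by omega) (by omega) (far0 _) low1 (by positivity) (by
      have a1 : (Fintype.card V : ℝ) / (δ * m / (4 * L)) * (4 * L ^ 2) ≤ c * m / 4 := by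
        calc _ ≤ 2 * m / (δ * m / (4 * L)) * (4 * L ^ 2) := by gcongr
          _ = 128 * L ^ 3 / (4 * δ) := by field_simp; ring
          _ ≤ m * (δ * c) / (4 * δ) := by gcongr
          _ = _ := by field_simp
      have a2 : lam * m ≤ c / 4 * m := by gcongr
      have a3 : 0 < c * m := by positivity
      nlinarith)
  have hn : P.Num A p z L lam lam' ρ ρ1 σ :=
    { pat := pat, p01 := p01, Lpos := hL0, lam0 := hl.le, lam0' := hl'.le
      hl := by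
        have : lam * m ≤ lam' ^ 2 / 8 * m := by gcongr
        linarith
      far := fun v hv => far0 _ _ (hz.lab _ (hok.an_spec hv).1 (hok.an_spec hv).2.1)
      q0 := fun v _ => by
        have a1 := d5 v
        unfold Pre.q
        rw [hρd]
        split_ifs
        · have : p0 * (σ / 8) ≤ p (P.tau v) * p .cc := by gcongr; linarith
          linarith
        · nlinarith
      q1 := fun v hv => by
        have a1 := d6 v (hok.an_spec hv).2.2.1
        simp only [Pre.q, hv, if_true]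
        have : σ / 8 * (σ / 8) ≤ p (P.tau v) * p .cc := by gcongr; linarith
        rw [hρ1d]; linarith
      pc := hρ1σ.trans d2
      pd := by linarith
      ρ0 := hρ
      ρ1' := by rw [hρd]; nlinarith
      ρ10 := hρ1
      lamσ := hm2
      σ0 := hσ.le
      σ1 := by linarith }
  obtain ⟨Cv, x, e1, e2, e3, e4⟩ := H2 V P.J V (Cn P.Own) (ZMod m) (P.sys A p z) ((1 - σ) ^ 2)
    (by rw [ZMod.card]; omega) (hK ▸ Pre.sys_ok hok hn hl1) (by rw [ZMod.card]; omega)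
    (by rw [ZMod.card]; omega) (by positivity) (by nlinarith)
    (fun Q => hK ▸ Pre.comp_card hok Q) (by rw [ZMod.card]; exact Pre.sum_Cl st z)
    (fun a => by
      refine (Pre.sys_tie z1 a).trans ?_
      rw [ZMod.card]
      have : δ * m ≤ δe / 8 * m := by gcongr
      linarith)
    (fun B _ => by
      rw [ZMod.card]
      refine Pre.sys_load hok hn hδ.le hβ.le hV2 (fun a => (z2 a).trans ?_) (by linarith) ?_ d1 B
      · have : 4 * L * (δ * m / (4 * L) + 1) = δ * m + 4 * L := by field_simp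
        linarith
      · have a1 : β / ρ1 = ξ / 16 := by rw [hβd]; field_simp
        have a2 : lam' / (ρ ^ 2 * ρ1) ≤ ξ / 4 := by
          rw [div_le_iff₀ (by positivity)]; linarith
        linarith)
  have md := Pre.mid hok hL st hz (p := p) ⟨e1, e2, e3⟩
  rw [ZMod.card] at e4
  obtain ⟨X, ψ, D, W, ho⟩ := Pre.out_of_mid hok hL st pat p01 hz.hg md (e := 5 * σ) hκ hκ1 hθ
    (by positivity) (by linarith)
    (by
      have a1 := card_to univ (fun v => v ∉ P.R ∧ v ∉ P.Cov Cv)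
        (univ.filter (fun v => (P.sys A p z).cp v ∉ Cv)) id
        (fun v _ hv => mem_filter.2 ⟨mem_univ _, fun k => hv.2 (mem_filter.2 ⟨mem_univ _, hv.1, by
          simpa [Pre.sys, Pre.cp', hv.1] using k⟩)⟩) (fun _ _ _ _ _ _ e => e)
      have a2 : (1 - (1 - σ) ^ 2) * (Fintype.card V : ℝ) ≤ (2 * σ) * (2 * m) := by
        gcongr; nlinarith
      linarith)
    (hR.trans (by gcongr; linarith)) low2
    (by
      have : (3 / 4 * κ / 100) ^ 3 ≤ (p .dd / 100) ^ 3 := by gcongr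
      linarith)
    hl.le (by linarith) (by linarith)
    (fun s => (pat.unif hL0 p01 hl.le hl'.le hn.hl _).mono (by linarith)) pW d4 d3 hp0.le
    (by positivity) d7
    (by
      have a1 : (Fintype.card (Cn P.Own) : ℝ) ≤ 2 * h + 10 := by
        have : Fintype.card (Cn P.Own) ≤ 2 * h + 10 := Pre.card_Cn.trans (by omega)
        exact_mod_cast this
      have a2 : (Fintype.card (Cn P.Own) : ℝ) * (p0 + 2 * lam) ≤ (2 * h + 10) * (2 * p0) := by
        gcongr; linarith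
      linarith) d8 hSp
  exact ⟨X, ψ, _, D, W, ho⟩

end

end Pool.Agent.Lib.MP_5cebc8_co
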