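import Pool.Agent.Lib.MP_5cebc8_co.Basic

open Finset

namespace Pool.Agent.Lib.MP_5cebc8_co

namespace RT

variable {V : Type} (T : RT V)

/-- `v` has a child -/
def Inner (v : V) : Prop := ∃ c, c ≠ T.root ∧ T.par c = v

open Classical in
/-- the number of children of `v` that have no child -/
noncomputable def lc [Fintype V] (v : V) : ℕ :=
  (univ.filter (fun c => c ≠ T.root ∧ T.par c = v ∧ ¬ T.Inner c)).card

/-- every set has a small superset such that no outside vertex has two neighbours in it -/
theorem closure [Fintype V] [DecidableEq V] (R : Finset V) : ∃ R' : Finset V, R ⊆ R' ∧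
    R'.card ≤ 3 * R.card ∧
    (∀ v, v ∉ R' → ∀ c ∈ R', ∀ c' ∈ R', c ≠ T.root → c' ≠ T.root → T.par c = v → T.par c' = v →
      c = c') ∧
    (∀ v, v ∉ R' → v ≠ T.root → T.par v ∈ R' → ∀ c ∈ R', c ≠ T.root → T.par c ≠ v) := by
  classical
  let tp : Finset V → Finset V := fun X => X.filter (fun v => v = T.root ∨ T.par v ∉ X)
  obtain ⟨X, hX, hmin⟩ := exists_min_image (univ.filter (fun X : Finset V => R ⊆ X))
    (fun X => X.card + 2 * (tp X).card) ⟨R, by simp⟩
  have hRX : R ⊆ X := (mem_filter.1 hX).2
  have hm : ∀ v, X.card + 2 * (tp X).card ≤ (insert v X).card + 2 * (tp (insert v X)).card :=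
    fun v => hmin _ (mem_filter.2 ⟨mem_univ _, hRX.trans (subset_insert _ _)⟩)
  refine ⟨X, hRX, ?_, ?_, ?_⟩
  · have h1 := hmin R (by simp)
    have h2 : (tp R).card ≤ R.card := card_filter_le _ _
    omega
  · intro v hv c hc c' hc' hcr hcr' hp hp'
    by_contra hne
    have h1 := hm v
    have hsub : tp (insert v X) ⊆ insert v (((tp X).erase c).erase c') := by
      intro u hu
      simp only [tp, mem_filter, mem_insert, mem_erase, not_or] at hu ⊢
      rcases hu with ⟨h | h, h'⟩
      · exact Or.inl h
      · right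
        refine ⟨?_, ?_, h, ?_⟩
        · rintro rfl
          rcases h' with h' | h'
          · exact hcr' h'
          · exact h'.1 hp'
        · rintro rfl
          rcases h' with h' | h'
          · exact hcr h'
          · exact h'.1 hp
        · rcases h' with h' | h'
          · exact Or.inl h'
          · exact Or.inr h'.2
    have hc1 : c ∈ tp X := mem_filter.2 ⟨hc, Or.inr (hp ▸ hv)⟩
    have hc2 : c' ∈ (tp X).erase c := mem_erase.2 ⟨Ne.symm hne, mem_filter.2 ⟨hc', Or.inr (hp' ▸ hv)⟩⟩
    have e1 := card_erase_add_one hc1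
    have e2 := card_erase_add_one hc2
    have e3 := (card_le_card hsub).trans (card_insert_le _ _)
    have e4 := card_insert_le v X
    omega
  · intro v hv hvr hpv c hc hcr hp
    have h1 := hm v
    have hsub : tp (insert v X) ⊆ (tp X).erase c := by
      intro u hu
      simp only [tp, mem_filter, mem_insert, mem_erase, not_or] at hu ⊢
      rcases hu with ⟨h | h, h'⟩
      · subst h
        rcases h' with h' | h'
        · exact absurd h' hvr
        · exact absurd hpv h'.2
      · refine ⟨?_, h, ?_⟩
        · rintro rfl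
          rcases h' with h' | h'
          · exact hcr h'
          · exact h'.1 hp
        · rcases h' with h' | h'
          · exact Or.inl h'
          · exact Or.inr h'.2
    have hc1 : c ∈ tp X := mem_filter.2 ⟨hc, Or.inr (hp ▸ hv)⟩
    have e1 := card_erase_add_one hc1
    have e3 := card_le_card hsub
    have e4 := card_insert_le v X
    omega

lemma dep_iter (j : ℕ) (u : V) : T.dep (T.par^[j] u) = T.dep u - j := by
  induction j with
  | zero => simp
  | succ j ih =>
    rw [Function.iterate_succ_apply']
    by_cases h : T.par^[j] u = T.root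
    · rw [h, T.par_root]
      rw [h] at ih
      have := T.dep_root
      omega
    · have := T.dep_par _ h
      omega

/-- `u` is a descendant of `v` -/
def Desc (u v : V) : Prop := T.dep v ≤ T.dep u ∧ T.par^[T.dep u - T.dep v] u = v

lemma desc_root (u : V) : T.Desc u T.root := by
  refine ⟨by rw [T.dep_root]; omega, T.eq_root_of_dep ?_⟩
  rw [T.dep_iter, T.dep_root]; omega

lemma desc_self (u : V) : T.Desc u u := ⟨le_rfl, by simp⟩

lemma desc_of_par {u v : V} (h : T.Desc (T.par u) v) : T.Desc u v := by
  by_cases hu : u = T.root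
  · rw [hu, T.par_root] at h; rw [hu]; exact h
  · have := T.dep_par u hu
    obtain ⟨h1, h2⟩ := h
    refine ⟨by omega, ?_⟩
    have e : T.dep u - T.dep v = (T.dep (T.par u) - T.dep v) + 1 := by omega
    rw [e, Function.iterate_succ_apply]; exact h2

lemma desc_lt {u v : V} (h : T.Desc u v) (hne : u ≠ v) : T.dep v < T.dep u := by
  obtain ⟨h1, h2⟩ := h
  by_contra hc
  have e : T.dep u - T.dep v = 0 := by omega
  rw [e] at h2
  exact hne h2

lemma desc_par {u v : V} (h : T.Desc u v) (hne : u ≠ v) : T.Desc (T.par u) v := by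
  have hlt := T.desc_lt h hne
  have hu : u ≠ T.root := by
    rintro rfl
    rw [T.dep_root] at hlt; omega
  have := T.dep_par u hu
  obtain ⟨h1, h2⟩ := h
  refine ⟨by omega, ?_⟩
  have e : T.dep u - T.dep v = (T.dep (T.par u) - T.dep v) + 1 := by omega
  rw [e, Function.iterate_succ_apply] at h2; exact h2

lemma cut_aux [DecidableEq V] (K : ℕ) : ∀ (N : ℕ) (X : Finset V), X.card ≤ N →
    (∀ v ∈ X, T.par v ∈ X) → ∃ (R : Finset V) (cp : V → V), R.card * K ≤ X.card ∧
      (∀ v ∈ X, cp v ∈ X) ∧
      (∀ v ∈ X, v ∉ R → T.par v ∉ R → cp (T.par v) = cp v) ∧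
      ∀ t, (X.filter (fun u => u ∉ R ∧ cp u = t)).card ≤ K := by
  classical
  intro N
  induction N with
  | zero =>
    intro X hX _
    have : X = ∅ := card_eq_zero.1 (by omega)
    subst this
    exact ⟨∅, id, by simp, by simp, by simp, by simp⟩
  | succ N ih =>
    intro X hX hcl
    have hit : ∀ j, ∀ v ∈ X, T.par^[j] v ∈ X := by
      intro j
      induction j with
      | zero => intro v hv; exact hv
      | succ j ihj => intro v hv; rw [Function.iterate_succ_apply']; exact hcl _ (ihj v hv)
    by_cases hK : X.card ≤ K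
    · by_cases hne : X.Nonempty
      · obtain ⟨x, hx⟩ := hne
        exact ⟨∅, fun _ => x, by simp, fun _ _ => hx, fun _ _ _ _ => rfl,
          fun t => (card_filter_le _ _).trans hK⟩
      · rw [not_nonempty_iff_eq_empty] at hne
        subst hne
        exact ⟨∅, id, by simp, by simp, by simp, by simp⟩
    · have hne : X.Nonempty := card_pos.1 (by omega)
      obtain ⟨x, hx⟩ := hne
      have hr : T.root ∈ X := by
        have := hit (T.dep x - T.dep T.root) x hx
        rwa [(T.desc_root x).2] at this
      let ds : V → Finset V := fun v => X.filter (fun u => T.Desc u v)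
      obtain ⟨v, hv, hmax⟩ := exists_max_image (X.filter (fun v => K < (ds v).card)) T.dep
        ⟨T.root, mem_filter.2 ⟨hr, by
          have : ds T.root = X := filter_true_of_mem fun u _ => T.desc_root u
          rw [this]; omega⟩⟩
      obtain ⟨hvX, hvK⟩ := mem_filter.1 hv
      let X' := X.filter (fun u => ¬ T.Desc u v)
      have hcard : (ds v).card + X'.card = X.card := card_filter_add_card_filter_not _
      obtain ⟨R, cp, h1, h2, h3, h4⟩ := ih X' (by omega) (fun u hu => by
        obtain ⟨a, b⟩ := mem_filter.1 hu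
        exact mem_filter.2 ⟨hcl u a, fun h => b (T.desc_of_par h)⟩)
      let ch : V → V := fun u => T.par^[T.dep u - T.dep v - 1] u
      have hch : ∀ u, T.Desc u v → u ≠ v →
          T.Desc u (ch u) ∧ T.dep (ch u) = T.dep v + 1 ∧ T.Desc (ch u) v := by
        intro u hu hne
        have hlt := T.desc_lt hu hne
        have hd : T.dep (ch u) = T.dep v + 1 := by
          simp only [ch]; rw [T.dep_iter]; omega
        refine ⟨⟨by omega, ?_⟩, hd, ⟨by omega, ?_⟩⟩
        · rw [hd]; rfl
        · rw [hd]
          have e : T.dep v + 1 - T.dep v = 1 := by omega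
          rw [e, Function.iterate_one]
          simp only [ch]
          rw [← Function.iterate_succ_apply' T.par]
          have e2 : (T.dep u - T.dep v - 1).succ = T.dep u - T.dep v := by omega
          rw [e2]; exact hu.2
      refine ⟨insert v R, fun u => if T.Desc u v then ch u else cp u, ?_, ?_, ?_, ?_⟩
      · have := card_insert_le v R
        calc (insert v R).card * K ≤ (R.card + 1) * K := Nat.mul_le_mul_right _ this
          _ = R.card * K + K := by ring
          _ ≤ X.card := by omega
      · intro u hu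
        by_cases hd : T.Desc u v
        · simp only [hd, if_true]; exact hit _ u hu
        · simp only [hd, if_false]
          exact (mem_filter.1 (h2 u (mem_filter.2 ⟨hu, hd⟩))).1
      · intro u hu huR hpR
        rw [mem_insert, not_or] at huR hpR
        by_cases hd : T.Desc u v
        · have hd' := T.desc_par hd huR.1
          simp only [hd, hd', if_true, ch]
          have hlt := T.desc_lt hd' hpR.1
          have hu0 : u ≠ T.root := by
            rintro rfl
            have := T.desc_lt hd huR.1
            rw [T.dep_root] at this; omega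
          have := T.dep_par u hu0
          have e : T.dep u - T.dep v - 1 = (T.dep (T.par u) - T.dep v - 1) + 1 := by omega
          rw [e, Function.iterate_succ_apply]
        · have hd' : ¬ T.Desc (T.par u) v := fun h => hd (T.desc_of_par h)
          simp only [hd, hd', if_false]
          exact h3 u (mem_filter.2 ⟨hu, hd⟩) huR.2 hpR.2
      · intro t
        by_cases ht : T.Desc t v
        · by_cases hemp : (X.filter (fun u => u ∉ insert v R ∧
              (if T.Desc u v then ch u else cp u) = t)) = ∅
          · rw [hemp]; simp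
          · obtain ⟨u0, hu0⟩ := nonempty_iff_ne_empty.2 hemp
            have key : ∀ u ∈ X.filter (fun u => u ∉ insert v R ∧
                (if T.Desc u v then ch u else cp u) = t),
                u ∈ X ∧ T.Desc u t ∧ T.dep t = T.dep v + 1 ∧ t ∈ X := by
              intro u hu
              obtain ⟨a, b, c⟩ := mem_filter.1 hu
              rw [mem_insert, not_or] at b
              by_cases hd : T.Desc u v
              · simp only [hd, if_true] at c
                obtain ⟨e1, e2, _⟩ := hch u hd b.1
                rw [c] at e1 e2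
                exact ⟨a, e1, e2, c ▸ hit _ u a⟩
              · simp only [hd, if_false] at c
                have := (mem_filter.1 (h2 u (mem_filter.2 ⟨a, hd⟩))).2
                rw [c] at this
                exact absurd ht this
            obtain ⟨_, _, k3, k4⟩ := key u0 hu0
            have hle : (ds t).card ≤ K := by
              by_contra hc
              have := hmax t (mem_filter.2 ⟨k4, by omega⟩)
              omega
            refine le_trans (card_le_card fun u hu => ?_) hle
            exact mem_filter.2 ⟨(key u hu).1, (key u hu).2.1⟩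
        · refine le_trans (card_le_card fun u hu => ?_) (h4 t)
          obtain ⟨a, b, c⟩ := mem_filter.1 hu
          rw [mem_insert, not_or] at b
          by_cases hd : T.Desc u v
          · simp only [hd, if_true] at c
            exact absurd (c ▸ (hch u hd b.1).2.2) ht
          · simp only [hd, if_false] at c
            exact mem_filter.2 ⟨mem_filter.2 ⟨a, hd⟩, b.2, c⟩

/-- cutting a tree into small pieces -/
theorem cut [Fintype V] [DecidableEq V] (K : ℕ) : ∃ (R : Finset V) (cp : V → V),
    R.card * K ≤ Fintype.card V ∧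
      (∀ v, v ∉ R → T.par v ∉ R → cp (T.par v) = cp v) ∧
      ∀ t, (univ.filter (fun u => u ∉ R ∧ cp u = t)).card ≤ K := by
  obtain ⟨R, cp, h1, _, h3, h4⟩ := T.cut_aux K _ univ le_rfl (fun _ _ => mem_univ _)
  exact ⟨R, cp, h1, fun v => h3 v (mem_univ _), h4⟩

/-- greedy extension of a labelling from `S` to `S ∪ Y` -/
theorem greedy [DecidableEq V] {G : Type} [AddCommGroup G] [DecidableEq G] (S : Finset V)
    (ψ0 : V → G) (W : V → Finset G) (C : G → Prop) [DecidablePred C] (M : Finset V)
    (Xn : Finset G) (hXs : ∀ h ∈ Xn, -h ∈ Xn) (N : ℕ) (h0 : T.PG S ψ0)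
    (hC : ∀ u ∈ S, u ≠ T.root → T.par u ∈ S → ¬ C (ψ0 u + ψ0 (T.par u))) :
    ∀ (Y : Finset V), Disjoint Y S → Y.card ≤ N →
    (∀ v ∈ Y, ∀ u ∈ S, T.sd u = T.sd v → ψ0 u ∉ W v) →
    (∀ v ∈ Y, ∀ c ∈ S, ∀ c' ∈ S, c ≠ T.root → c' ≠ T.root → T.par c = v → T.par c' = v →
      c = c') →
    (∀ v ∈ Y, ∀ p z : G, 5 * N + M.card * Xn.card <
      ((W v).filter (fun y => C (y + p) ∧ C (y + z))).card) →
    ∃ ψ : V → G, (∀ v, v ∉ Y → ψ v = ψ0 v) ∧ T.PG (S ∪ Y) ψ ∧ (∀ v ∈ Y, ψ v ∈ W v) ∧
      (∀ v ∈ S ∪ Y, v ≠ T.root → T.par v ∈ S ∪ Y → (v ∈ Y ∨ T.par v ∈ Y) →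
        C (ψ v + ψ (T.par v))) ∧
      (∀ u ∈ Y, ∀ v ∈ Y, u ∈ M → v ∈ M → u ≠ v → ψ u - ψ v ∉ Xn) := by
  classical
  intro Y
  induction Y using Finset.induction_on_max_value T.dep with
  | empty =>
    intro _ _ _ _ _
    refine ⟨ψ0, fun _ _ => rfl, by simpa using h0, by simp, by simp, by simp⟩
  | insert v Y hvY hmax ih =>
    intro hdis hN hW hch hcand
    have hvS : v ∉ S := disjoint_left.1 hdis (mem_insert_self _ _)
    have hcardY : Y.card ≤ N := (card_le_card (subset_insert _ _)).trans hN
    obtain ⟨ψ, e1, e2, e3, e4, e5⟩ := ih (hdis.mono_left (subset_insert _ _)) hcardY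
      (fun u hu => hW u (mem_insert_of_mem hu)) (fun u hu => hch u (mem_insert_of_mem hu))
      (fun u hu => hcand u (mem_insert_of_mem hu))
    have hchx : ∀ u, ∃ c0, u ∈ insert v Y → ∀ c ∈ S, c ≠ T.root → T.par c = u → c = c0 := by
      intro u
      by_cases h : ∃ c ∈ S, c ≠ T.root ∧ T.par c = u
      · obtain ⟨c0, a1, a2, a3⟩ := h
        exact ⟨c0, fun hu c b1 b2 b3 => hch u hu c b1 c0 a1 b2 a2 b3 a3⟩
      · exact ⟨u, fun _ c b1 b2 b3 => absurd ⟨c, b1, b2, b3⟩ h⟩
    choose ch hch' using hchx
    let Cn : Finset G := Y.image (fun u => ψ u + ψ (T.par u)) ∪ Y.image (fun u => ψ (ch u) + ψ u)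
    have hCn : Cn.card ≤ 2 * N := by
      refine (card_union_le _ _).trans ?_
      have := card_image_le (s := Y) (f := fun u => ψ u + ψ (T.par u))
      have := card_image_le (s := Y) (f := fun u => ψ (ch u) + ψ u)
      omega
    let p := ψ (T.par v)
    let z := ψ (ch v)
    let B : Finset G := Y.image ψ ∪ Cn.image (fun c => c - p) ∪ Cn.image (fun c => c - z) ∪
      M.biUnion (fun u => Xn.image (fun h => h + ψ u))
    have hB : B.card ≤ 5 * N + M.card * Xn.card := by
      have a1 := card_image_le (s := Y) (f := ψ)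
      have a2 := card_image_le (s := Cn) (f := fun c => c - p)
      have a3 := card_image_le (s := Cn) (f := fun c => c - z)
      have a4 : (M.biUnion (fun u => Xn.image (fun h => h + ψ u))).card ≤ M.card * Xn.card :=
        card_biUnion_le_card_mul _ _ _ fun u _ => card_image_le
      have b1 := card_union_le (Y.image ψ ∪ Cn.image (fun c => c - p) ∪ Cn.image (fun c => c - z))
        (M.biUnion (fun u => Xn.image (fun h => h + ψ u)))
      have b2 := card_union_le (Y.image ψ ∪ Cn.image (fun c => c - p)) (Cn.image (fun c => c - z))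
      have b3 := card_union_le (Y.image ψ) (Cn.image (fun c => c - p))
      simp only [B]
      omega
    obtain ⟨y, hy, hyB⟩ := exists_mem_notMem_of_card_lt_card
      (hB.trans_lt (hcand v (mem_insert_self _ _) p z))
    obtain ⟨hyW, hyp, hyz⟩ := mem_filter.1 hy
    simp only [B, mem_union, not_or, mem_image, mem_biUnion, not_exists, not_and] at hyB
    obtain ⟨⟨⟨n1, n2⟩, n3⟩, n4⟩ := hyB
    have hvSY : v ∉ S ∪ Y := by simp [hvS, hvY]
    let ψ' := Function.update ψ v y
    have u1 : ψ' v = y := Function.update_self _ _ _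
    have u2 : ∀ u, u ≠ v → ψ' u = ψ u := fun u hu => Function.update_of_ne hu _ _
    have u3 : ∀ u ∈ S ∪ Y, ψ' u = ψ u := fun u hu => u2 u (fun h => hvSY (h ▸ hu))
    have hmem : ∀ u, u ∈ S ∪ insert v Y ↔ u = v ∨ u ∈ S ∪ Y := by
      intro u; simp only [mem_union, mem_insert]; tauto
    -- children of v
    have hchild : ∀ c ∈ S ∪ Y, c ≠ T.root → T.par c = v → c ∈ S ∧ c = ch v := by
      intro c hc hcr hp
      rcases mem_union.1 hc with h | h
      · exact ⟨h, hch' v (mem_insert_self _ _) c h hcr hp⟩
      · have a1 := hmax c h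
        have a2 := T.dep_par c hcr
        rw [hp] at a2; omega
    -- old colours differ from allowed new colours
    have hold : ∀ u ∈ S ∪ Y, u ≠ T.root → T.par u ∈ S ∪ Y → ∀ g, C g → g ∉ Cn →
        ψ u + ψ (T.par u) ≠ g := by
      intro u hu hur hpu g hg hgn he
      by_cases h1 : u ∈ Y
      · exact hgn (mem_union_left _ (mem_image.2 ⟨u, h1, he⟩))
      · have huS : u ∈ S := (mem_union.1 hu).resolve_right h1
        by_cases h2 : T.par u ∈ Y
        · have := hch' _ (mem_insert_of_mem h2) u huS hur rfl
          exact hgn (mem_union_right _ (mem_image.2 ⟨_, h2, by rw [← this]; exact he⟩))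
        · have hpS : T.par u ∈ S := (mem_union.1 hpu).resolve_right h2
          apply hC u huS hur hpS
          rw [← e1 u h1, ← e1 _ h2, he]; exact hg
    have hp' : y + p ∉ Cn := fun h => n2 _ h (by simp)
    have hz' : y + z ∉ Cn := fun h => n3 _ h (by simp)
    have hlab : ∀ u ∈ S ∪ Y, T.sd u = T.sd v → ψ u ≠ y := by
      intro u hu hs he
      by_cases h1 : u ∈ Y
      · exact n1 u h1 he
      · have huS : u ∈ S := (mem_union.1 hu).resolve_right h1
        apply hW v (mem_insert_self _ _) u huS hs
        rw [← e1 u h1, he]; exact hyW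
    -- the three kinds of edges
    have hkind : ∀ u ∈ S ∪ insert v Y, u ≠ T.root → T.par u ∈ S ∪ insert v Y →
        (u = v ∧ T.par v ∈ S ∪ Y ∧ ψ' u + ψ' (T.par u) = y + p) ∨
        (u = ch v ∧ u ∈ S ∪ Y ∧ T.par u = v ∧ ψ' u + ψ' (T.par u) = y + z) ∨
        (u ∈ S ∪ Y ∧ T.par u ∈ S ∪ Y ∧ ψ' u + ψ' (T.par u) = ψ u + ψ (T.par u)) := by
      intro u hu hur hpu
      rcases (hmem _).1 hu with h | h
      · subst h
        have hne := T.par_ne hur
        exact Or.inl ⟨rfl, ((hmem _).1 hpu).resolve_left hne, by rw [u1, u2 _ hne]⟩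
      · rcases (hmem _).1 hpu with h' | h'
        · have := (hchild u h hur h').2
          refine Or.inr (Or.inl ⟨this, h, h', ?_⟩)
          rw [h', u1, u3 u h, add_comm, this]
        · exact Or.inr (Or.inr ⟨h, h', by rw [u3 u h, u3 _ h']⟩)
    have hpz : v ≠ T.root → T.par v ∈ S ∪ Y → ∀ c ∈ S ∪ Y, c ≠ T.root → c = ch v → T.par c = v →
        y + p ≠ y + z := by
      intro hvr hpv c hc hcr hcc hpc he
      have he' : ψ (T.par v) = ψ c := by rw [hcc]; exact add_left_cancel he
      have hs : T.sd (T.par v) = T.sd c := by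
        have := T.sd_par_par hcr (hpc ▸ hvr)
        rwa [hpc] at this
      have := e2.1 _ hpv c hc hs he'
      have a1 := T.dep_par c hcr
      have a2 := T.dep_par v hvr
      rw [hpc] at a1; rw [this] at a2; omega
    refine ⟨ψ', fun u hu => ?_, ⟨?_, ?_⟩, ?_, ?_, ?_⟩
    · rw [mem_insert, not_or] at hu
      rw [u2 u hu.1, e1 u hu.2]
    · intro a ha b hb hs he
      rcases (hmem _).1 ha with h | h <;> rcases (hmem _).1 hb with h' | h'
      · rw [h, h']
      · subst h
        rw [u1, u3 b h'] at he
        exact absurd he.symm (hlab b h' hs.symm)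
      · subst h'
        rw [u1, u3 a h] at he
        exact absurd he (hlab a h hs)
      · rw [u3 a h, u3 b h'] at he
        exact e2.1 a h b h' hs he
    · intro a ha b hb har hbr hpa hpb he
      rcases hkind a ha har hpa with ⟨k1, k2, k3⟩ | ⟨k1, k2, k3, k4⟩ | ⟨k1, k2, k3⟩ <;>
        rcases hkind b hb hbr hpb with ⟨l1, l2, l3⟩ | ⟨l1, l2, l3, l4⟩ | ⟨l1, l2, l3⟩
      · rw [k1, l1]
      · exact absurd (k3.symm.trans (he.trans l4)) (hpz (k1 ▸ har) k2 b l2 hbr l1 l3)
      · exact absurd (l3.symm.trans (he.symm.trans k3)) (hold b l1 hbr l2 _ hyp hp')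
      · exact absurd (l3.symm.trans (he.symm.trans k4)) (hpz (l1 ▸ hbr) l2 a k2 har k1 k3)
      · rw [k1, l1]
      · exact absurd (l3.symm.trans (he.symm.trans k4)) (hold b l1 hbr l2 _ hyz hz')
      · exact absurd (k3.symm.trans (he.trans l3)) (hold a k1 har k2 _ hyp hp')
      · exact absurd (k3.symm.trans (he.trans l4)) (hold a k1 har k2 _ hyz hz')
      · exact e2.2 a k1 b l1 har hbr k2 l2 (k3.symm.trans (he.trans l3))
    · intro u hu
      rcases mem_insert.1 hu with h | h
      · rw [h, u1]; exact hyW
      · rw [u3 u (mem_union_right _ h)]; exact e3 u h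
    · intro u hu hur hpu hY
      rcases hkind u hu hur hpu with ⟨k1, k2, k3⟩ | ⟨k1, k2, k3, k4⟩ | ⟨k1, k2, k3⟩
      · rw [k3]; exact hyp
      · rw [k4]; exact hyz
      · rw [k3]
        refine e4 u k1 hur k2 ?_
        rcases hY with h | h
        · exact Or.inl ((mem_insert.1 h).resolve_left fun h' => hvSY (h' ▸ k1))
        · exact Or.inr ((mem_insert.1 h).resolve_left fun h' => hvSY (h' ▸ k2))
    · intro a ha b hb haM hbM hne
      rcases mem_insert.1 ha with h | h <;> rcases mem_insert.1 hb with h' | h'
      · exact absurd (h.trans h'.symm) hne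
      · subst h
        rw [u1, u3 b (mem_union_right _ h')]
        intro hx
        exact n4 b hbM _ hx (by simp)
      · subst h'
        rw [u1, u3 a (mem_union_right _ h)]
        intro hx
        exact n4 a haM _ (hXs _ hx) (by simp)
      · rw [u3 a (mem_union_right _ h), u3 b (mem_union_right _ h')]
        exact e5 a h b h' haM hbM hne

end RT

end Pool.Agent.Lib.MP_5cebc8_co
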