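import Mathlib
import Pool.Agent.Lib.MP_ad359d_co.Prob

open Finset
open Pool.Agent.Lib.MP_ad359d_co

namespace Pool.Agent.Lib.MP_5cebc8_co

set_option linter.unusedSectionVars false

noncomputable section

section uniform

variable {G : Type} [AddCommGroup G] [Fintype G]

/-- bilinear uniformity of a set -/
def Unif (A : Finset G) (p lam : ℝ) : Prop :=
  ∀ f g : G → ℝ, (∀ x, 0 ≤ f x ∧ f x ≤ 1) → (∀ x, 0 ≤ g x ∧ g x ≤ 1) →
    |∑ x, ∑ y, f x * g y * (ind (x + y ∈ A) - p)| ≤ lam * (Fintype.card G : ℝ) ^ 2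

/-- small autocorrelation outside an exceptional set of shifts -/
def AC (A : Finset G) (p lam : ℝ) (X : Finset G) : Prop :=
  ∀ h, h ∉ X → |∑ x, (ind (x ∈ A) - p) * (ind (x + h ∈ A) - p)| ≤ lam * (Fintype.card G : ℝ)

lemma abs_ind_sub_p {q : Prop} {p : ℝ} (h0 : 0 ≤ p) (h1 : p ≤ 1) : |ind q - p| ≤ 1 := by
  have := ind_nonneg q; have := ind_le_one q
  rw [abs_le]; constructor <;> linarith

lemma AC.bound {A X : Finset G} {p lam : ℝ} (h : AC A p lam X) (h0 : 0 ≤ p) (h1 : p ≤ 1)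
    (hlam : 0 ≤ lam) {ι : Type} (I : Finset ι) (z : ι → G) (f : ι → ℝ) (hf : ∀ i ∈ I, 0 ≤ f i)
    {M1 M2 : ℝ} (hM1 : ∑ i ∈ I, f i ≤ M1) (hM20 : 0 ≤ M2)
    (hM2 : ∀ i ∈ I, ∑ j ∈ I, f j * ind (z j - z i ∈ X) ≤ M2)
    (g : G → ℝ) (hg : ∀ x, |g x| ≤ 1) :
    (∑ x, g x * ∑ i ∈ I, f i * (ind (x + z i ∈ A) - p)) ^ 2 ≤
      (Fintype.card G : ℝ) ^ 2 * (lam * M1 ^ 2 + M1 * M2) := by
  set m : ℝ := (Fintype.card G : ℝ) with hm
  have hm0 : 0 ≤ m := by positivity
  have hS0 : 0 ≤ ∑ i ∈ I, f i := sum_nonneg hf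
  have hM10 : 0 ≤ M1 := hS0.trans hM1
  have cs := sum_mul_sq_le_sq_mul_sq univ g (fun x => ∑ i ∈ I, f i * (ind (x + z i ∈ A) - p))
  have hg2 : ∑ x, g x ^ 2 ≤ m := by
    calc ∑ x, g x ^ 2 ≤ ∑ _x : G, (1 : ℝ) := sum_le_sum fun x _ => by
          have := hg x
          rw [← sq_abs]; nlinarith [abs_nonneg (g x)]
      _ = m := by simp [hm]
  have hsq : ∑ x, (∑ i ∈ I, f i * (ind (x + z i ∈ A) - p)) ^ 2 =
      ∑ i ∈ I, ∑ j ∈ I, f i * f j *
        ∑ x, (ind (x ∈ A) - p) * (ind (x + (z j - z i) ∈ A) - p) := by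
    simp only [sq, sum_mul_sum]
    rw [sum_comm]
    refine sum_congr rfl fun i _ => ?_
    rw [sum_comm]
    refine sum_congr rfl fun j _ => ?_
    rw [mul_sum]
    conv_rhs => rw [← Equiv.sum_comp (Equiv.addRight (z i))]
    refine sum_congr rfl fun x _ => ?_
    simp only [Equiv.coe_addRight]
    have : x + z i + (z j - z i) = x + z j := by abel
    rw [this]; ring
  have hb : ∀ i ∈ I, ∀ j ∈ I, f i * f j *
        ∑ x, (ind (x ∈ A) - p) * (ind (x + (z j - z i) ∈ A) - p) ≤
        f i * f j * (lam * m) + m * (f i * (f j * ind (z j - z i ∈ X))) := by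
    intro i hi j hj
    have hff : 0 ≤ f i * f j := mul_nonneg (hf i hi) (hf j hj)
    by_cases hx : z j - z i ∈ X
    · rw [ind_true hx]
      have : ∑ x, (ind (x ∈ A) - p) * (ind (x + (z j - z i) ∈ A) - p) ≤ m := by
        calc _ ≤ ∑ _x : G, (1 : ℝ) := sum_le_sum fun x _ => by
              refine (le_abs_self _).trans ?_
              rw [abs_mul]
              exact mul_le_one₀ (abs_ind_sub_p h0 h1) (abs_nonneg _) (abs_ind_sub_p h0 h1)
          _ = m := by simp [hm]
      have h3 := mul_le_mul_of_nonneg_left this hff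
      have h4 : 0 ≤ f i * f j * (lam * m) := by positivity
      nlinarith
    · rw [ind_false hx]
      have := (le_abs_self _).trans (h _ hx)
      have h3 := mul_le_mul_of_nonneg_left this hff
      simpa using h3
  have hsum : ∑ x, (∑ i ∈ I, f i * (ind (x + z i ∈ A) - p)) ^ 2 ≤ m * (lam * M1 ^ 2 + M1 * M2) := by
    rw [hsq]
    calc _ ≤ ∑ i ∈ I, ∑ j ∈ I, (f i * f j * (lam * m) + m * (f i * (f j * ind (z j - z i ∈ X)))) :=
          sum_le_sum fun i hi => sum_le_sum fun j hj => hb i hi j hj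
      _ = (∑ i ∈ I, f i) * (∑ i ∈ I, f i) * (lam * m) +
            m * ∑ i ∈ I, f i * ∑ j ∈ I, f j * ind (z j - z i ∈ X) := by
          rw [sum_mul_sum]
          simp only [sum_add_distrib, sum_mul, mul_sum]
      _ ≤ M1 * M1 * (lam * m) + m * (M1 * M2) := by
          have a1 : (∑ i ∈ I, f i) * (∑ i ∈ I, f i) ≤ M1 * M1 := mul_le_mul hM1 hM1 hS0 hM10
          have a2 : ∑ i ∈ I, f i * ∑ j ∈ I, f j * ind (z j - z i ∈ X) ≤ M1 * M2 := by
            calc _ ≤ ∑ i ∈ I, f i * M2 :=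
                  sum_le_sum fun i hi => mul_le_mul_of_nonneg_left (hM2 i hi) (hf i hi)
              _ = (∑ i ∈ I, f i) * M2 := by rw [sum_mul]
              _ ≤ M1 * M2 := mul_le_mul_of_nonneg_right hM1 hM20
          have a3 : 0 ≤ lam * m := by positivity
          gcongr
      _ = _ := by ring
  have hpos : 0 ≤ ∑ x, (∑ i ∈ I, f i * (ind (x + z i ∈ A) - p)) ^ 2 :=
    sum_nonneg fun _ _ => sq_nonneg _
  calc _ ≤ _ := cs
    _ ≤ m * (m * (lam * M1 ^ 2 + M1 * M2)) := mul_le_mul hg2 hsum hpos hm0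
    _ = _ := by ring

lemma AC.unif [DecidableEq G] {A X : Finset G} {p lam lam' : ℝ} (h : AC A p lam X) (h0 : 0 ≤ p)
    (h1 : p ≤ 1) (hlam : 0 ≤ lam) (hl' : 0 ≤ lam')
    (hX : lam * Fintype.card G + X.card ≤ lam' ^ 2 * Fintype.card G) : Unif A p lam' := by
  intro f g hf hg
  set m : ℝ := (Fintype.card G : ℝ) with hm
  have hm0 : 0 ≤ m := by positivity
  have hb := h.bound h0 h1 hlam univ id g (fun i _ => (hg i).1) (M1 := m) (M2 := X.card)
    (by calc ∑ i, g i ≤ ∑ _i : G, (1 : ℝ) := sum_le_sum fun i _ => (hg i).2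
          _ = m := by simp [hm]) (by positivity)
    (fun i _ => by
      calc ∑ j, g j * ind (id j - id i ∈ X) ≤ ∑ j, ind (j - i ∈ X) := sum_le_sum fun j _ => by
            have := ind_nonneg (j - i ∈ X)
            have := hg j
            simp only [id]; nlinarith
        _ = ∑ j, ind (j ∈ X) := Equiv.sum_comp (Equiv.subRight i) (fun j => ind (j ∈ X))
        _ = X.card := by simp [ind_eq_ite])
    f (fun x => by rw [abs_of_nonneg (hf x).1]; exact (hf x).2)
  have e : ∑ x, ∑ y, f x * g y * (ind (x + y ∈ A) - p) =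
      ∑ x, f x * ∑ i, g i * (ind (x + id i ∈ A) - p) := by
    refine sum_congr rfl fun x _ => ?_
    rw [mul_sum]; exact sum_congr rfl fun y _ => by simp only [id]; ring
  rw [e]
  refine abs_le_of_sq_le_sq' ?_ (by positivity) |> fun h => abs_le.2 h
  calc _ ≤ _ := hb
    _ = m ^ 3 * (lam * m + X.card) := by ring
    _ ≤ m ^ 3 * (lam' ^ 2 * m) := by gcongr
    _ = _ := by ring

end uniform

section product

variable {N G : Type} [Fintype N] [DecidableEq N] [Fintype G]

/-- weight of the uniform product distribution -/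
def wt (F : N → Finset G) (x : N → G) : ℝ := ∏ v, ind (x v ∈ F v) / ((F v).card : ℝ)

lemma wt_nonneg (F : N → Finset G) (x : N → G) : 0 ≤ wt F x :=
  prod_nonneg fun _ _ => div_nonneg (ind_nonneg _) (by positivity)

lemma sum_ind_mem (A : Finset G) (f : G → ℝ) : ∑ y, ind (y ∈ A) * f y = ∑ y ∈ A, f y := by
  classical
  simp only [ind_eq_ite, ite_mul, one_mul, zero_mul]
  rw [← sum_filter]; simp

lemma sum_ind_mem' (A : Finset G) : ∑ y, ind (y ∈ A) = (A.card : ℝ) := by
  have := sum_ind_mem A (fun _ => 1)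
  simpa using this

lemma sum_wt (F : N → Finset G) (hF : ∀ v, (F v).Nonempty) : ∑ x, wt F x = 1 := by
  classical
  unfold wt
  rw [← Fintype.prod_sum (fun v y => ind (y ∈ F v) / ((F v).card : ℝ))]
  refine prod_eq_one fun v _ => ?_
  rw [← sum_div, sum_ind_mem']
  have : ((F v).card : ℝ) ≠ 0 := by exact_mod_cast (hF v).card_pos.ne'
  field_simp

/-- the uniform product distribution -/
def mu (F : N → Finset G) (hF : ∀ v, (F v).Nonempty) : FP (N → G) :=
  FP.ofWeights univ (wt F) (fun x _ => wt_nonneg F x) (sum_wt F hF)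

lemma mu_E (F : N → Finset G) (hF : ∀ v, (F v).Nonempty) (h : (N → G) → ℝ) :
    (mu F hF).E h = ∑ x, wt F x * h x := rfl

lemma wt_update (F : N → Finset G) (x : N → G) (i : N) (y : G) :
    wt F (Function.update x i y) * (ind (x i ∈ F i) / ((F i).card : ℝ)) =
      wt F x * (ind (y ∈ F i) / ((F i).card : ℝ)) := by
  unfold wt
  rw [← mul_prod_erase univ _ (mem_univ i), ← mul_prod_erase univ _ (mem_univ i)]
  have : ∏ v ∈ univ.erase i, ind (Function.update x i y v ∈ F v) / ((F v).card : ℝ) =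
      ∏ v ∈ univ.erase i, ind (x v ∈ F v) / ((F v).card : ℝ) :=
    prod_congr rfl fun v hv => by rw [Function.update_of_ne (ne_of_mem_erase hv)]
  rw [this, Function.update_self]; ring

lemma resample (F : N → Finset G) (hF : ∀ v, (F v).Nonempty) (i : N) (h : (N → G) → ℝ) :
    (mu F hF).E h =
      (mu F hF).E (fun x => (∑ y ∈ F i, h (Function.update x i y)) / ((F i).card : ℝ)) := by
  rw [mu_E, mu_E]
  have hc : ((F i).card : ℝ) ≠ 0 := by exact_mod_cast (hF i).card_pos.ne'
  let e : ((N → G) × G) ≃ ((N → G) × G) :=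
    { toFun := fun z => (Function.update z.1 i z.2, z.1 i)
      invFun := fun z => (Function.update z.1 i z.2, z.1 i)
      left_inv := fun z => by simp
      right_inv := fun z => by simp }
  have l : ∑ x, wt F x * h x =
      ∑ z : (N → G) × G, wt F z.1 * (ind (z.2 ∈ F i) / ((F i).card : ℝ)) * h z.1 := by
    rw [Fintype.sum_prod_type]
    refine sum_congr rfl fun x _ => ?_
    simp only
    rw [← sum_mul, ← mul_sum, ← sum_div, sum_ind_mem']
    field_simp
  rw [l, ← Equiv.sum_comp e, Fintype.sum_prod_type]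
  refine sum_congr rfl fun x _ => ?_
  simp only [e, Equiv.coe_fn_mk]
  rw [← sum_ind_mem (F i), sum_div, mul_sum]
  refine sum_congr rfl fun y _ => ?_
  rw [wt_update]; ring

lemma mu_coord (F : N → Finset G) (hF : ∀ v, (F v).Nonempty) (i : N) (f : G → ℝ) :
    (mu F hF).E (fun x => f (x i)) = (∑ y ∈ F i, f y) / ((F i).card : ℝ) := by
  rw [resample F hF i]
  simp only [Function.update_self]
  exact FP.E_const _ _

lemma mu_coord2 (F : N → Finset G) (hF : ∀ v, (F v).Nonempty) {i j : N} (hij : i ≠ j)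
    (f : G → G → ℝ) :
    (mu F hF).E (fun x => f (x i) (x j)) =
      (∑ y ∈ F i, ∑ z ∈ F j, f y z) / (((F i).card : ℝ) * (F j).card) := by
  rw [resample F hF j]
  simp only [Function.update_self, Function.update_of_ne hij]
  rw [mu_coord F hF i (fun y => (∑ z ∈ F j, f y z) / ((F j).card : ℝ)), ← sum_div, div_div,
    mul_comm]

/-- a pivot coordinate -/
lemma pivot (F : N → Finset G) (hF : ∀ v, (F v).Nonempty) (u : N) (q : (N → G) → Prop)
    (h : (N → G) → ℝ) (h0 : ∀ x, 0 ≤ h x) (hh : ∀ x b, h (Function.update x u b) = h x)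
    (hq : ∀ x a b, q (Function.update x u a) → q (Function.update x u b) → a = b) :
    (mu F hF).E (fun x => h x * ind (q x)) ≤ (mu F hF).E h / ((F u).card : ℝ) := by
  rw [resample F hF u, ← FP.E_div]
  refine FP.E_mono _ fun x => ?_
  simp only [hh]
  rw [← mul_sum]
  refine div_le_div_of_nonneg_right ?_ (by positivity)
  have : ∑ y ∈ F u, ind (q (Function.update x u y)) ≤ 1 := by
    rw [← cnt_cast]
    classical
    rw [cnt_eq]
    exact_mod_cast card_le_one.2 fun a ha b hb => hq x a b (mem_filter.1 ha).2 (mem_filter.1 hb).2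
  have := h0 x
  nlinarith

/-- the function splits as a product in the coordinates `v` and `u` -/
def Spl (v u : N) (H : (N → G) → ℝ) : Prop :=
  ∀ x, ∃ f g : G → ℝ, (∀ a, 0 ≤ f a ∧ f a ≤ 1) ∧ (∀ a, 0 ≤ g a ∧ g a ≤ 1) ∧
    ∀ a b, H (Function.update (Function.update x v a) u b) = f a * g b

omit [Fintype N] [Fintype G] in
lemma Spl.mul {v u : N} {H H' : (N → G) → ℝ} (h : Spl v u H) (h' : Spl v u H') :
    Spl v u (fun x => H x * H' x) := by
  intro x
  obtain ⟨f, g, a1, a2, a3⟩ := h x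
  obtain ⟨f', g', b1, b2, b3⟩ := h' x
  refine ⟨fun a => f a * f' a, fun a => g a * g' a, fun a => ?_, fun a => ?_, fun a b => ?_⟩
  · exact ⟨mul_nonneg (a1 a).1 (b1 a).1, mul_le_one₀ (a1 a).2 (b1 a).1 (b1 a).2⟩
  · exact ⟨mul_nonneg (a2 a).1 (b2 a).1, mul_le_one₀ (a2 a).2 (b2 a).1 (b2 a).2⟩
  · simp only [a3, b3]; ring

omit [Fintype N] [Fintype G] in
lemma Spl.left {v u : N} {H : (N → G) → ℝ} (h0 : ∀ x, 0 ≤ H x ∧ H x ≤ 1)
    (h : ∀ x b, H (Function.update x u b) = H x) : Spl v u H := fun x =>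
  ⟨fun a => H (Function.update x v a), fun _ => 1, fun _ => h0 _, fun _ => by norm_num,
    fun a b => by rw [h, mul_one]⟩

omit [Fintype N] [Fintype G] in
lemma Spl.right {v u : N} (hvu : v ≠ u) {H : (N → G) → ℝ} (h0 : ∀ x, 0 ≤ H x ∧ H x ≤ 1)
    (h : ∀ x b, H (Function.update x v b) = H x) : Spl v u H := fun x =>
  ⟨fun _ => 1, fun b => H (Function.update x u b), fun _ => by norm_num, fun _ => h0 _,
    fun a b => by rw [Function.update_comm hvu, h, one_mul]⟩

omit [Fintype N] [Fintype G] in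
lemma Spl.prod {v u : N} {ι : Type} (B : Finset ι) {H : ι → (N → G) → ℝ}
    (h : ∀ j ∈ B, Spl v u (H j)) : Spl v u (fun x => ∏ j ∈ B, H j x) := by
  classical
  induction B using Finset.induction_on with
  | empty => exact Spl.left (fun _ => by simp) (fun _ _ => by simp)
  | insert j B hj ih =>
    simp only [prod_insert hj]
    exact (h j (mem_insert_self _ _)).mul (ih fun i hi => h i (mem_insert_of_mem hi))

lemma edge_step [AddCommGroup G] (F : N → Finset G) (hF : ∀ v, (F v).Nonempty) {v u : N}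
    (hvu : v ≠ u) {H : (N → G) → ℝ} (hH : Spl v u H) {A : Finset G} {p lam ρ : ℝ}
    (hA : Unif A p lam) (s : G) (hρ : 0 < ρ) (hlam : 0 ≤ lam)
    (hv : ρ * Fintype.card G ≤ (F v).card) (hu : ρ * Fintype.card G ≤ (F u).card) :
    |(mu F hF).E (fun x => ind (x v + x u + s ∈ A) * H x) - p * (mu F hF).E H| ≤ lam / ρ ^ 2 := by
  rw [← FP.E_mul_left, ← FP.E_sub, resample F hF u, resample F hF v]
  have hm : (0 : ℝ) < Fintype.card G := by exact_mod_cast Fintype.card_pos
  have hv0 : (0 : ℝ) < (F v).card := lt_of_lt_of_le (by positivity) hv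
  have hu0 : (0 : ℝ) < (F u).card := lt_of_lt_of_le (by positivity) hu
  have key : ∀ x : N → G, |(∑ a ∈ F v, (∑ b ∈ F u,
      (ind ((Function.update (Function.update x v a) u b) v +
        (Function.update (Function.update x v a) u b) u + s ∈ A) *
        H (Function.update (Function.update x v a) u b) -
        p * H (Function.update (Function.update x v a) u b))) / ((F u).card : ℝ)) /
        ((F v).card : ℝ) - 0| ≤ lam / ρ ^ 2 := by
    intro x
    obtain ⟨f, g, a1, a2, a3⟩ := hH x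
    simp only [a3, Function.update_self, Function.update_of_ne hvu, sub_zero]
    have hb := hA (fun a => ind (a ∈ F v) * f a) (fun b => ind (b - s ∈ F u) * g (b - s))
      (fun a => ⟨mul_nonneg (ind_nonneg _) (a1 a).1, mul_le_one₀ (ind_le_one _) (a1 a).1 (a1 a).2⟩)
      (fun a => ⟨mul_nonneg (ind_nonneg _) (a2 _).1, mul_le_one₀ (ind_le_one _) (a2 _).1 (a2 _).2⟩)
    have e : ∑ a ∈ F v, ∑ b ∈ F u, (ind (a + b + s ∈ A) * (f a * g b) - p * (f a * g b)) =
        ∑ a, ∑ b, ind (a ∈ F v) * f a * (ind (b - s ∈ F u) * g (b - s)) * (ind (a + b ∈ A) - p) := by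
      rw [← sum_ind_mem]
      refine sum_congr rfl fun a _ => ?_
      rw [← sum_ind_mem, mul_sum, ← Equiv.sum_comp (Equiv.subRight s)]
      refine sum_congr rfl fun b _ => ?_
      simp only [Equiv.subRight_apply]
      have : a + (b - s) + s = a + b := by abel
      rw [this]; ring
    rw [← sum_div, div_div, e, abs_div, abs_of_pos (mul_pos hu0 hv0), div_le_div_iff₀ (by positivity) (by positivity)]
    calc _ ≤ lam * (Fintype.card G : ℝ) ^ 2 * ρ ^ 2 := by gcongr
      _ = lam * ((ρ * Fintype.card G) * (ρ * Fintype.card G)) := by ring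
      _ ≤ _ := by gcongr
  have := FP.abs_E_sub_le (mu F hF) key
  rw [FP.E_const, sub_zero] at this
  exact this

/-- the counting lemma -/
lemma count_edges [AddCommGroup G] (F : N → Finset G) (hF : ∀ v, (F v).Nonempty) {ι : Type}
    (v u : ι → N) (s : ι → G) (A : ι → Finset G) (p : ι → ℝ) {lam ρ : ℝ} (hρ : 0 < ρ)
    (hlam : 0 ≤ lam) (hF' : ∀ w, ρ * Fintype.card G ≤ (F w).card) {H : (N → G) → ℝ}
    (B : Finset ι) (hvu : ∀ j ∈ B, v j ≠ u j) (hA : ∀ j ∈ B, Unif (A j) (p j) lam)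
    (hp : ∀ j ∈ B, 0 ≤ p j ∧ p j ≤ 1) (hH : ∀ j ∈ B, Spl (v j) (u j) H)
    (hB : ∀ i ∈ B, ∀ j ∈ B, i ≠ j →
      Spl (v j) (u j) (fun x => ind (x (v i) + x (u i) + s i ∈ A i))) :
    |(mu F hF).E (fun x => (∏ j ∈ B, ind (x (v j) + x (u j) + s j ∈ A j)) * H x) -
      (∏ j ∈ B, p j) * (mu F hF).E H| ≤ B.card * (lam / ρ ^ 2) := by
  classical
  induction B using Finset.induction_on with
  | empty => simp
  | insert j B hj ih =>
    have ih' := ih (fun i hi => hvu i (mem_insert_of_mem hi)) (fun i hi => hA i (mem_insert_of_mem hi))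
      (fun i hi => hp i (mem_insert_of_mem hi)) (fun i hi => hH i (mem_insert_of_mem hi))
      (fun i hi k hk => hB i (mem_insert_of_mem hi) k (mem_insert_of_mem hk))
    have hs : Spl (v j) (u j) (fun x => (∏ i ∈ B, ind (x (v i) + x (u i) + s i ∈ A i)) * H x) :=
      (Spl.prod B fun i hi => hB i (mem_insert_of_mem hi) j (mem_insert_self _ _)
        (fun h => hj (h ▸ hi))).mul (hH j (mem_insert_self _ _))
    have st := edge_step F hF (hvu j (mem_insert_self _ _)) hs (hA j (mem_insert_self _ _)) (s j) hρ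
      hlam (hF' _) (hF' _)
    simp only [prod_insert hj, card_insert_of_notMem hj, mul_assoc]
    obtain ⟨p0, p1⟩ := hp j (mem_insert_self _ _)
    have h2 : |p j * (mu F hF).E (fun x => (∏ i ∈ B, ind (x (v i) + x (u i) + s i ∈ A i)) * H x) -
        p j * ((∏ j ∈ B, p j) * (mu F hF).E H)| ≤ B.card * (lam / ρ ^ 2) := by
      rw [← mul_sub, abs_mul, abs_of_nonneg p0]
      exact (mul_le_of_le_one_left (abs_nonneg _) p1).trans ih'
    have := abs_sub_le ((mu F hF).E fun x => ind (x (v j) + x (u j) + s j ∈ A j) *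
      ((∏ i ∈ B, ind (x (v i) + x (u i) + s i ∈ A i)) * H x))
      (p j * (mu F hF).E (fun x => (∏ i ∈ B, ind (x (v i) + x (u i) + s i ∈ A i)) * H x))
      (p j * ((∏ j ∈ B, p j) * (mu F hF).E H))
    push_cast
    linarith

end product

end

end Pool.Agent.Lib.MP_5cebc8_co
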