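import Pool.Agent.Lib.MP_5cebc8_co.Ctx

open Finset

namespace Pool.Agent.Lib.MP_5cebc8_co

set_option linter.unusedSectionVars false

namespace Zb

variable {V : Type} [Fintype V] [DecidableEq V] {P : Pre V} {dg : ℝ}

lemma card_coe (s : Finset V) (q : V → Prop) [DecidablePred q] :
    ∑ v : s, (if q v then 1 else 0) = (s.filter q).card := by
  rw [card_filter, sum_coe_sort s (fun v => if q v then 1 else 0)]

/-- counting slots by the three kinds -/
lemma card_J (Q : P.J → Prop) [DecidablePred Q] (q0 q1 q2 : V → Prop) [DecidablePred q0]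
    [DecidablePred q1] [DecidablePred q2] (h0 : ∀ v : P.N0, Q (.inl v) ↔ q0 v)
    (h1 : ∀ v : P.N1, Q (.inr (.inl v)) ↔ q1 v) (h2 : ∀ v : P.N2, Q (.inr (.inr v)) ↔ q2 v) :
    (univ.filter Q).card =
      (P.N0.filter q0).card + (P.N1.filter q1).card + (P.N2.filter q2).card := by
  rw [card_filter, Fintype.sum_sum_type, Fintype.sum_sum_type, ← card_coe, ← card_coe, ← card_coe,
    add_assoc]
  simp only [h0, h1, h2]

lemma cc_lab (τ : Cn P.Own) (h1 : τ ≠ .cc) (h2 : τ ≠ .dd) :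
    P.cc τ = (P.N0.filter (fun v => P.tau v = τ)).card := by
  unfold Pre.cc
  rw [card_J _ (fun v => P.tau v = τ) (fun _ => False) (fun _ => False) (fun v => Iff.rfl)
    (fun v => ⟨fun h => h1 h.symm, False.elim⟩) (fun v => ⟨fun h => ?_, False.elim⟩)]
  · simp
  · simp only [Pre.cls] at h
    split_ifs at h
    · exact h2 h.symm
    · exact h1 h.symm

lemma tau_cases (v : V) : (∃ hv : P.T.par v ∈ P.Hg,
    P.tau v = .own (⟨P.T.par v, hv⟩, decide (v ∈ P.Sp))) ∨
    (P.T.par v ∉ P.Hg ∧ v ∈ P.Sp ∧ P.tau v = .uu (P.T.sd v)) ∨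
    (P.T.par v ∉ P.Hg ∧ v ∉ P.Sp ∧ P.tau v = .lb (P.T.sd v)) := by
  by_cases hv : P.T.par v ∈ P.Hg
  · exact Or.inl ⟨hv, Pre.tau_of_mem hv⟩
  · by_cases hs : v ∈ P.Sp
    · exact Or.inr (Or.inl ⟨hv, hs, by rw [Pre.tau_of_not hv, if_pos hs]⟩)
    · exact Or.inr (Or.inr ⟨hv, hs, by rw [Pre.tau_of_not hv, if_neg hs]⟩)

lemma cc_zero (τ : Cn P.Own) (h1 : τ ≠ .cc) (h2 : τ ≠ .dd) (h3 : ∀ w, τ ≠ .own w)
    (h4 : ∀ s, τ ≠ .uu s) (h5 : ∀ s, τ ≠ .lb s) : P.cc τ = 0 := by
  rw [cc_lab τ h1 h2, card_eq_zero, filter_eq_empty_iff]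
  intro v _ e
  rcases tau_cases (P := P) v with ⟨_, a⟩ | ⟨_, _, a⟩ | ⟨_, _, a⟩
  · exact h3 _ (e.symm.trans a)
  · exact h4 _ (e.symm.trans a)
  · exact h5 _ (e.symm.trans a)

lemma cc_cc : P.cc .cc = P.N1.card + (P.N2.filter (fun v => v ∉ P.Vt)).card := by
  unfold Pre.cc
  rw [card_J _ (fun _ => False) (fun _ => True) (fun v => v ∉ P.Vt) (fun v => ⟨fun e => ?_, False.elim⟩)
    (fun v => ⟨fun _ => trivial, fun _ => rfl⟩) (fun v => ?_)]
  · simp
  · simp only [Pre.cls] at e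
    rcases tau_cases (P := P) v with ⟨_, a⟩ | ⟨_, _, a⟩ | ⟨_, _, a⟩ <;> rw [a] at e <;> cases e
  · simp only [Pre.cls]
    split_ifs with hv <;> simp [hv]

lemma cc_dd' : P.cc .dd = (P.N2.filter (fun v => v ∈ P.Vt)).card := by
  unfold Pre.cc
  rw [card_J _ (fun _ => False) (fun _ => False) (fun v => v ∈ P.Vt) (fun v => ⟨fun e => ?_, False.elim⟩)
    (fun v => ⟨fun e => ?_, False.elim⟩) (fun v => ?_)]
  · simp
  · simp only [Pre.cls] at e
    rcases tau_cases (P := P) v with ⟨_, a⟩ | ⟨_, _, a⟩ | ⟨_, _, a⟩ <;> rw [a] at e <;> cases e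
  · simp only [Pre.cls] at e
    cases e
  · simp only [Pre.cls]
    split_ifs with hv <;> simp [hv]

lemma Vt_eq (h : P.Ok dg) : P.N2.filter (fun v => v ∈ P.Vt) = P.Vt := by
  ext v
  simp only [mem_filter, Pre.mem_N2, Pre.mem_N0]
  refine ⟨fun a => a.2, fun a => ?_⟩
  obtain ⟨b, c, d, _⟩ := h.tie.vt v a
  exact ⟨⟨⟨b, c⟩, d⟩, a⟩

/-- a sum of fibres of the label class over a set of owner classes -/
lemma sum_own (W : Finset P.Own) :
    ∑ w ∈ W, P.cc (.own w) = (P.N0.filter (fun v => ∃ w ∈ W, P.tau v = .own w)).card := by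
  classical
  have : ∀ w ∈ W, P.cc (.own w) = (P.N0.filter (fun v => P.tau v = .own w)).card :=
    fun w _ => cc_lab _ (fun e => by cases e) (fun e => by cases e)
  rw [sum_congr rfl this, ← card_biUnion]
  · congr 1
    ext v
    simp only [mem_biUnion, mem_filter]
    exact ⟨fun ⟨w, a, b, c⟩ => ⟨b, w, a, c⟩, fun ⟨b, w, a, c⟩ => ⟨w, a, b, c⟩⟩
  · intro w _ w' _ hne
    refine disjoint_left.2 fun v a b => hne ?_
    have := (mem_filter.1 a).2.symm.trans (mem_filter.1 b).2
    cases this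
    rfl

/-- the number of children -/
def ch (P : Pre V) (r : V) : ℕ := (univ.filter (fun c => c ≠ P.T.root ∧ P.T.par c = r)).card

lemma fib_le (h : P.Ok dg) (r : V) : (P.N1.filter (fun v => P.an v = r)).card ≤ ch P r + 1 := by
  refine le_trans (card_le_card (t := insert (P.T.par r)
    (univ.filter (fun c => c ≠ P.T.root ∧ P.T.par c = r))) fun v hv => ?_) (card_insert_le _ _)
  obtain ⟨h1, e⟩ := mem_filter.1 hv
  have hR := (Pre.mem_N0.1 (Pre.mem_N1.1 h1).1).1
  obtain ⟨_, _, _, ⟨_, b⟩ | ⟨_, _, b⟩⟩ := h.an_spec h1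
  · exact mem_insert_of_mem (mem_filter.2 ⟨mem_univ _, h.ne_root hR, b ▸ e⟩)
  · rw [e] at b; rw [b]; exact mem_insert_self _ _

lemma an_count (h : P.Ok dg) (q : V → Prop) [DecidablePred q] :
    ((P.N1.filter (fun v => q (P.an v))).card : ℝ) ≤
      ∑ r ∈ (P.R \ P.Hg).filter q, ((ch P r : ℝ) + 1) := by
  have hm : ∀ v ∈ P.N1.filter (fun v => q (P.an v)), P.an v ∈ (P.R \ P.Hg).filter q := by
    intro v hv
    obtain ⟨h1, e⟩ := mem_filter.1 hv
    obtain ⟨a, b, _⟩ := h.an_spec h1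
    exact mem_filter.2 ⟨mem_sdiff.2 ⟨a, b⟩, e⟩
  rw [card_eq_sum_card_fiberwise hm]
  push_cast
  refine sum_le_sum fun r _ => ?_
  have h1 : ((P.N1.filter (fun v => q (P.an v))).filter (fun v => P.an v = r)).card ≤ ch P r + 1 :=
    le_trans (card_le_card fun v hv => mem_filter.2
      ⟨(mem_filter.1 (mem_filter.1 hv).1).1, (mem_filter.1 hv).2⟩) (fib_le h r)
  exact_mod_cast h1

lemma sum_ch (M : Finset V) : ∑ r ∈ M, ch P r ≤ Fintype.card V := by
  unfold ch
  rw [← card_biUnion]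
  · exact card_le_univ _
  · intro r _ r' _ hne
    refine disjoint_left.2 fun v a b => hne ?_
    exact (mem_filter.1 a).2.2.symm.trans (mem_filter.1 b).2.2

lemma card_small {m : ℕ} [NeZero m] {L0 : ℕ} (h : L0 ≤ m) :
    L0 ≤ (univ.filter (fun y : ZMod m => y.val < L0)).card := by
  have := card_le_card_of_injOn (s := range L0) (t := univ.filter (fun y : ZMod m => y.val < L0))
    (fun i : ℕ => (i : ZMod m)) (fun i hi => by
      have hi' : i < L0 := by simpa using hi
      simp only [coe_filter, mem_univ, true_and, Set.mem_ofPred_eq]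
      rw [ZMod.val_cast_of_lt (by omega)]; exact hi')
    (fun i hi j hj e => by
      have hi' : i < L0 := by simpa using hi
      have hj' : j < L0 := by simpa using hj
      have := congrArg ZMod.val e
      rwa [ZMod.val_cast_of_lt (by omega), ZMod.val_cast_of_lt (by omega)] at this)
  simpa using this

end Zb

namespace Pre

open Zb

variable {V : Type} [Fintype V] [DecidableEq V] {P : Pre V} {dg : ℝ}

theorem embedR (h : P.Ok dg) (hdg : 0 ≤ dg) {m : ℕ} [NeZero m] {L L0 : ℕ} (Ar : Finset (ZMod m))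
    {qr d2 : ℝ} (hL : 2 * L0 + 8 ≤ L) (hLm : L ≤ m) (hH : 5 * P.Hg.card < L0)
    (hfar : ∀ x ∈ Ar, far L x) (hlow : Low Ar qr) (hd2 : 0 < d2)
    (hc : 5 * (P.R.card : ℝ) + Fintype.card V / d2 * (4 * L ^ 2) < qr * m) :
    ∃ z : V → ZMod m, P.Zok L0 Ar z ∧
      (∀ a, ((P.N1.filter (fun v => z (P.an v) = a)).card : ℝ) ≤ 2 * (dg + 1)) ∧
      (∀ a, ((P.N1.filter (fun v => z (P.an v) - a ∈ Xn m L)).card : ℝ) ≤
        dg + 1 + 4 * L * (d2 + 1)) := by
  classical
  obtain ⟨ψ1, -, a2, a3, -, -⟩ := P.T.greedy (G := ZMod m) ∅ (fun _ => 0)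
    (fun _ => univ.filter (fun y : ZMod m => y.val < L0)) (fun _ => True) ∅ ∅ (by simp)
    P.Hg.card ⟨by simp, by simp⟩ (by simp) P.Hg (by simp) le_rfl (by simp) (by simp)
    (fun v _ p z => by
      have := card_small (m := m) (L0 := L0) (by omega)
      simp only [card_empty, mul_zero, add_zero, and_self, filter_true]
      omega)
  rw [empty_union] at a2
  have hv1 : ∀ v ∈ P.Hg, (ψ1 v).val < L0 := fun v hv => (mem_filter.1 (a3 v hv)).2
  let M : Finset V := univ.filter (fun r => d2 < (ch P r : ℝ))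
  let X2 : Finset (ZMod m) := (Xn m L ×ˢ Xn m L).image (fun ab => ab.1 - ab.2)
  have hX2 : (X2.card : ℝ) ≤ 4 * L ^ 2 := by
    have b1 : X2.card ≤ (Xn m L).card * (Xn m L).card := card_image_le.trans (card_product _ _).le
    have b2 := Xn_card (m := m) L
    have b3 : X2.card ≤ 4 * L ^ 2 := b1.trans ((Nat.mul_le_mul b2 b2).trans (le_of_eq (by ring)))
    exact_mod_cast b3
  have hM : (M.card : ℝ) ≤ Fintype.card V / d2 := by
    rw [le_div_iff₀ hd2]
    have b1 : (M.card : ℝ) * d2 ≤ ∑ r ∈ M, (ch P r : ℝ) := by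
      have := card_nsmul_le_sum M (fun r => (ch P r : ℝ)) d2 fun r hr => (mem_filter.1 hr).2.le
      simpa using this
    have b2 : ∑ r ∈ M, (ch P r : ℝ) ≤ Fintype.card V := by exact_mod_cast sum_ch (P := P) M
    linarith
  obtain ⟨z, e1, e2, e3, e4, e5⟩ := P.T.greedy (G := ZMod m) P.Hg ψ1 (fun _ => Ar)
    (fun c => c ∈ Ar) M X2 (fun x hx => by
      obtain ⟨⟨a, b⟩, hab, rfl⟩ := mem_image.1 hx
      obtain ⟨ha, hb⟩ := mem_product.1 hab
      exact mem_image.2 ⟨(b, a), mem_product.2 ⟨hb, ha⟩, by simp⟩)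
    P.R.card a2 (fun u hu _ hp hA => by
      have b1 := (hfar _ hA).1
      have b2 := ZMod.val_add_le (ψ1 u) (ψ1 (P.T.par u))
      have b3 := hv1 u hu
      have b4 := hv1 _ hp
      omega)
    (P.R \ P.Hg) sdiff_disjoint (card_le_card sdiff_subset)
    (fun v _ u hu _ hA => by
      have b1 := (hfar _ hA).1
      have b3 := hv1 u hu
      omega)
    (fun v hv => h.cut.one_child_Hg v (mem_sdiff.1 hv).2)
    (fun v _ p z => by
      have b1 := hlow p z
      have b2 : (M.card : ℝ) * X2.card ≤ Fintype.card V / d2 * (4 * L ^ 2) :=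
        mul_le_mul hM hX2 (by positivity) (by positivity)
      have b3 : ((5 * P.R.card + M.card * X2.card : ℕ) : ℝ) <
          ((Ar.filter (fun y => y + p ∈ Ar ∧ y + z ∈ Ar)).card : ℝ) := by
        push_cast
        refine lt_of_lt_of_le (by linarith : _ < qr * m) ?_
        convert b1
      exact_mod_cast b3)
  have hU : P.Hg ∪ (P.R \ P.Hg) = P.R := union_sdiff_of_subset h.cut.sub
  rw [hU] at e2 e4
  have hdeg : ∀ r ∈ P.R \ P.Hg, (ch P r : ℝ) ≤ dg := fun r hr => h.cut.deg r (mem_sdiff.1 hr).2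
  refine ⟨z, ⟨e2, fun v hv => ?_, fun v hv hH => e3 v (mem_sdiff.2 ⟨hv, hH⟩),
    fun v hv hr hp => ?_⟩, fun a => ?_, fun a => ?_⟩
  · rw [e1 v (fun hh => (mem_sdiff.1 hh).2 hv)]; exact hv1 v hv
  · by_cases b1 : v ∈ P.Hg
    · by_cases b2 : P.T.par v ∈ P.Hg
      · exact Or.inl ⟨b1, b2⟩
      · exact Or.inr (e4 v hv hr hp (Or.inr (mem_sdiff.2 ⟨hp, b2⟩)))
    · exact Or.inr (e4 v hv hr hp (Or.inl (mem_sdiff.2 ⟨hv, b1⟩)))
  · refine (an_count h (fun r => z r = a)).trans ?_
    have b1 : ((P.R \ P.Hg).filter (fun r => z r = a)).card ≤ (univ : Finset Bool).card :=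
      card_le_card_of_injOn P.T.sd (fun _ _ => by simp) (fun u hu v hv e => by
        obtain ⟨u1, u2⟩ := mem_filter.1 (mem_coe.1 hu)
        obtain ⟨v1, v2⟩ := mem_filter.1 (mem_coe.1 hv)
        exact e2.1 u (mem_sdiff.1 u1).1 v (mem_sdiff.1 v1).1 e (u2.trans v2.symm))
    have b2 : (((P.R \ P.Hg).filter (fun r => z r = a)).card : ℝ) ≤ 2 := by
      exact_mod_cast (by simpa using b1)
    have b3 := sum_le_card_nsmul ((P.R \ P.Hg).filter (fun r => z r = a))
      (fun r => (ch P r : ℝ) + 1) (dg + 1) fun r hr => by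
        have := hdeg r (mem_filter.1 hr).1
        linarith
    rw [nsmul_eq_mul] at b3
    exact b3.trans (mul_le_mul_of_nonneg_right b2 (by linarith))
  · refine (an_count h (fun r => z r - a ∈ Xn m L)).trans ?_
    set T := (P.R \ P.Hg).filter (fun r => z r - a ∈ Xn m L) with hT
    have b1 : T.card ≤ ((univ : Finset Bool) ×ˢ Xn m L).card :=
      card_le_card_of_injOn (fun r => (P.T.sd r, z r - a)) (fun r hr => by
        have := (mem_filter.1 (mem_coe.1 hr)).2
        simpa using this) (fun u hu v hv e => by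
        obtain ⟨u1, u2⟩ := mem_filter.1 (mem_coe.1 hu)
        obtain ⟨v1, v2⟩ := mem_filter.1 (mem_coe.1 hv)
        obtain ⟨f1, f2⟩ := Prod.mk.inj e
        exact e2.1 u (mem_sdiff.1 u1).1 v (mem_sdiff.1 v1).1 f1 (sub_left_injective f2))
    have b2 : (T.card : ℝ) ≤ 4 * L := by
      have c1 := Xn_card (m := m) L
      have c2 : T.card ≤ 4 * L := by
        rw [card_product] at b1
        simp only [card_univ, Fintype.card_bool] at b1
        omega
      exact_mod_cast c2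
    have b3 : (T.filter (fun r => r ∈ M)).card ≤ 1 := by
      refine card_le_one.2 fun u hu v hv => ?_
      by_contra hne
      obtain ⟨u1, u2⟩ := mem_filter.1 hu
      obtain ⟨v1, v2⟩ := mem_filter.1 hv
      obtain ⟨u3, u4⟩ := mem_filter.1 u1
      obtain ⟨v3, v4⟩ := mem_filter.1 v1
      exact e5 u u3 v v3 u2 v2 hne (mem_image.2 ⟨(z u - a, z v - a), mem_product.2 ⟨u4, v4⟩, by simp⟩)
    rw [← sum_filter_add_sum_filter_not T (fun r => r ∈ M)]
    have b4 := sum_le_card_nsmul (T.filter (fun r => r ∈ M))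
      (fun r => (ch P r : ℝ) + 1) (dg + 1) fun r hr => by
        have := hdeg r (mem_filter.1 (mem_filter.1 hr).1).1
        linarith
    have b5 := sum_le_card_nsmul (T.filter (fun r => ¬ r ∈ M))
      (fun r => (ch P r : ℝ) + 1) (d2 + 1) fun r hr => by
        have := (mem_filter.1 hr).2
        simp only [M, mem_filter, mem_univ, true_and, not_lt] at this
        linarith
    rw [nsmul_eq_mul] at b4 b5
    have b6 : ((T.filter (fun r => r ∈ M)).card : ℝ) ≤ 1 := by exact_mod_cast b3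
    have b7 : ((T.filter (fun r => ¬ r ∈ M)).card : ℝ) ≤ 4 * L :=
      le_trans (by exact_mod_cast card_filter_le _ _) b2
    have b8 := mul_le_mul_of_nonneg_right b6 (by linarith : 0 ≤ dg + 1)
    have b9 := mul_le_mul_of_nonneg_right b7 (by linarith : 0 ≤ d2 + 1)
    linarith

theorem cc_dd (h : P.Ok dg) : P.cc .dd = P.Vt.card := by rw [cc_dd', Vt_eq h]

theorem cc_total (h : P.Ok dg) :
    ∑ w, P.cc (.own w) + P.cc .cc + P.wd * P.cc .dd + 1 ≤ Fintype.card V := by
  classical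
  rw [sum_own, cc_cc, cc_dd h]
  have s1 := card_filter_add_card_filter_not (s := P.N1) (fun v => P.T.par v ∈ P.R)
  have s2 := card_filter_add_card_filter_not (s := P.N2) (fun v => v ∈ P.Vt)
  rw [Vt_eq h] at s2
  have s3 := card_filter_add_card_filter_not (s := P.N0) (fun v => P.T.par v ∈ P.R)
  have s4 := card_filter_add_card_filter_not (s := P.N0.filter (fun v => P.T.par v ∈ P.R))
    (fun v => P.T.par v ∈ P.Hg)
  have s5 := card_filter_add_card_filter_not (s := (univ : Finset V)) (fun v => v ∈ P.R)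
  have s6 := card_filter_add_card_filter_not (s := univ.filter (fun v => ¬ v ∈ P.R))
    (fun v => P.π v = v)
  have t0 : (univ.filter (fun v => v ∈ P.R)).card = P.R.card := by simp
  have t1 : ((univ.filter (fun v => ¬ v ∈ P.R)).filter (fun v => P.π v = v)).card = P.N0.card := by
    congr 1; ext v; simp [mem_N0]
  have t2 : (P.N0.filter (fun v => ¬ P.T.par v ∈ P.R)).card = P.N2.card := rfl
  have t3 : (P.N0.filter (fun v => ∃ w ∈ (univ : Finset P.Own), P.tau v = .own w)).card ≤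
      ((P.N0.filter (fun v => P.T.par v ∈ P.R)).filter (fun v => P.T.par v ∈ P.Hg)).card := by
    refine card_le_card fun v hv => ?_
    obtain ⟨a, w, _, e⟩ := mem_filter.1 hv
    rcases tau_cases (P := P) v with ⟨b, _⟩ | ⟨_, _, b⟩ | ⟨_, _, b⟩
    · exact mem_filter.2 ⟨mem_filter.2 ⟨a, h.cut.sub b⟩, b⟩
    · rw [b] at e; cases e
    · rw [b] at e; cases e
  have t4 : (P.N1.filter (fun v => P.T.par v ∈ P.R)).card ≤
      ((P.N0.filter (fun v => P.T.par v ∈ P.R)).filter (fun v => ¬ P.T.par v ∈ P.Hg)).card := by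
    refine card_le_card fun v hv => ?_
    obtain ⟨a, b⟩ := mem_filter.1 hv
    exact mem_filter.2 ⟨mem_filter.2 ⟨(mem_N1.1 a).1, b⟩, (h.an_spec a).2.2.1⟩
  have t5 : (P.N1.filter (fun v => ¬ P.T.par v ∈ P.R)).card ≤ (P.R.erase P.T.root).card := by
    have key : ∀ v ∈ P.N1.filter (fun v => ¬ P.T.par v ∈ P.R),
        P.an v ∈ P.R ∧ P.an v ≠ P.T.root ∧ P.T.par (P.an v) = v := by
      intro v hv
      obtain ⟨a, b⟩ := mem_filter.1 hv
      obtain ⟨c, _, _, ⟨d, _⟩ | ⟨_, d, e⟩⟩ := h.an_spec a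
      · exact absurd d b
      · exact ⟨c, d, e⟩
    refine card_le_card_of_injOn P.an (fun v hv => ?_) (fun u hu v hv e => ?_)
    · obtain ⟨a, b, _⟩ := key v (mem_coe.1 hv)
      exact mem_coe.2 (mem_erase.2 ⟨b, a⟩)
    · rw [← (key u (mem_coe.1 hu)).2.2, e, (key v (mem_coe.1 hv)).2.2]
  have t6 := card_erase_add_one h.cut.root_mem
  rw [card_univ] at s5
  rcases h.tie.wd12 with hw | hw
  · rw [hw]; omega
  · have t7 : P.Vt.card ≤
        ((univ.filter (fun v => ¬ v ∈ P.R)).filter (fun v => ¬ P.π v = v)).card := by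
      have := (h.tie.two hw).2
      choose! c c1 c2 c3 using this
      refine card_le_card_of_injOn c (fun v hv => ?_) (fun u hu v hv e => ?_)
      · have a := c3 v (mem_coe.1 hv)
        exact mem_coe.2 (mem_filter.2 ⟨mem_filter.2 ⟨mem_univ _, (h.tie.tied _ a).2.2.1⟩, a⟩)
      · rw [← c2 u (mem_coe.1 hu), e, c2 v (mem_coe.1 hv)]
    rw [hw]; omega

theorem cc_uu (s : Bool) : P.cc (.uu s) ≤ P.Sp.card := by
  rw [cc_lab _ (fun e => by cases e) (fun e => by cases e)]
  refine card_le_card fun v hv => ?_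
  have e := (mem_filter.1 hv).2
  rcases tau_cases (P := P) v with ⟨_, b⟩ | ⟨_, b, _⟩ | ⟨_, _, b⟩
  · rw [b] at e; cases e
  · exact b
  · rw [b] at e; cases e

theorem cc_side (h : P.Ok dg) (s : Bool) :
    P.cc (.lb s) + ∑ w ∈ univ.filter (fun w => P.ls w = s), P.cc (.own w) ≤
      (univ.filter (fun v => P.T.sd v = s)).card := by
  classical
  rw [sum_own, cc_lab _ (fun e => by cases e) (fun e => by cases e), ← card_union_of_disjoint]
  · refine card_le_card fun v hv => mem_filter.2 ⟨mem_univ _, ?_⟩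
    rcases mem_union.1 hv with a | a
    · have e := (mem_filter.1 a).2
      rcases tau_cases (P := P) v with ⟨_, b⟩ | ⟨_, _, b⟩ | ⟨_, _, b⟩
      · rw [b] at e; cases e
      · rw [b] at e; cases e
      · rw [b] at e; exact Cn.lb.inj e
    · obtain ⟨a1, w, hw, e⟩ := mem_filter.1 a
      have hs := (mem_filter.1 hw).2
      rcases tau_cases (P := P) v with ⟨_, b⟩ | ⟨_, _, b⟩ | ⟨_, _, b⟩
      · rw [b] at e
        rw [← Cn.own.inj e] at hs
        simp only [ls] at hs
        rw [P.T.sd_par_eq (h.ne_root (mem_N0.1 a1).1)] at hs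
        simpa using hs
      · rw [b] at e; cases e
      · rw [b] at e; cases e
  · refine disjoint_left.2 fun v a b => ?_
    obtain ⟨_, w, _, e⟩ := mem_filter.1 b
    rw [(mem_filter.1 a).2] at e
    cases e

theorem cc_sp (h : P.Ok dg) {v : V} (hv : v ∈ P.Sp) :
    P.cc (P.tau v) = (P.Sp.filter (fun u => P.tau u = P.tau v)).card := by
  have h1 : P.tau v ≠ .cc ∧ P.tau v ≠ .dd := by
    rcases tau_cases (P := P) v with ⟨_, b⟩ | ⟨_, _, b⟩ | ⟨_, _, b⟩ <;> rw [b] <;>
      exact ⟨fun e => (by cases e), fun e => (by cases e)⟩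
  rw [cc_lab _ h1.1 h1.2]
  congr 1
  ext u
  simp only [mem_filter]
  refine ⟨fun ⟨a, e⟩ => ⟨?_, e⟩, fun ⟨a, e⟩ =>
    ⟨mem_N0.2 ⟨(h.tie.sp u a).1, (h.tie.sp u a).2.2⟩, e⟩⟩
  rcases tau_cases (P := P) u with ⟨_, b⟩ | ⟨_, b, _⟩ | ⟨_, _, b⟩
  · rcases tau_cases (P := P) v with ⟨_, c⟩ | ⟨_, _, c⟩ | ⟨_, c, _⟩
    · rw [b, c] at e
      have := congrArg Prod.snd (Cn.own.inj e)
      simpa [hv] using this
    · rw [b, c] at e; cases e
    · exact absurd hv c
  · exact b
  · rcases tau_cases (P := P) v with ⟨_, c⟩ | ⟨_, _, c⟩ | ⟨_, c, _⟩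
    · rw [b, c] at e; cases e
    · rw [b, c] at e; cases e
    · exact absurd hv c

theorem cc_ww (s : Bool) : P.cc (.ww s) = 0 :=
  cc_zero _ (fun e => by cases e) (fun e => by cases e) (fun _ e => by cases e)
    (fun _ e => by cases e) (fun _ e => by cases e)
theorem cc_ar : P.cc .ar = 0 :=
  cc_zero _ (fun e => by cases e) (fun e => by cases e) (fun _ e => by cases e)
    (fun _ e => by cases e) (fun _ e => by cases e)
theorem cc_ad : P.cc .ad = 0 :=
  cc_zero _ (fun e => by cases e) (fun e => by cases e) (fun _ e => by cases e)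
    (fun _ e => by cases e) (fun _ e => by cases e)

theorem slots_card (h : P.Ok dg) (Q : V) :
    (univ.filter (fun j => P.cp' (P.own j) = Q)).card ≤ 3 * P.K + 1 := by
  have key : ∀ N : Finset V, N ⊆ P.N0 → (N.filter (fun v => P.cp' v = Q)).card ≤ P.K := by
    intro N hN
    refine le_trans (card_le_card fun v hv => ?_) (h.cut.cp_card Q)
    obtain ⟨a, b⟩ := mem_filter.1 hv
    have c := (mem_N0.1 (hN a)).1
    exact mem_filter.2 ⟨mem_univ _, c, by simpa [cp', c] using b⟩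
  rw [card_J _ (fun v => P.cp' v = Q) (fun v => P.cp' v = Q) (fun v => P.cp' v = Q)
    (fun _ => Iff.rfl) (fun _ => Iff.rfl) (fun _ => Iff.rfl)]
  have a0 := key P.N0 subset_rfl
  have a1 := key P.N1 fun v hv => (mem_N1.1 hv).1
  have a2 := key P.N2 fun v hv => (mem_N2.1 hv).1
  omega

theorem comp_card (h : P.Ok dg) (Q : V) :
    (univ.filter (fun v => P.cp' v = Q)).card ≤ 3 * P.K + 1 := by
  have a := h.cut.cp_card Q
  have b : (univ.filter (fun v => P.cp' v = Q)).card ≤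
      (insert Q (univ.filter (fun u => u ∉ P.R ∧ P.cp u = Q))).card := by
    refine card_le_card fun v hv => ?_
    have e := (mem_filter.1 hv).2
    by_cases c : v ∈ P.R
    · have : v = Q := by simpa [cp', c] using e
      rw [this]; exact mem_insert_self _ _
    · exact mem_insert_of_mem (mem_filter.2 ⟨mem_univ _, c, by simpa [cp', c] using e⟩)
  have c := card_insert_le Q (univ.filter (fun u => u ∉ P.R ∧ P.cp u = Q))
  omega

theorem sum_Cl {m : ℕ} [NeZero m] {L L0 : ℕ} {A : Cn P.Own → Finset (ZMod m)}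
    {tl : Bool → ZMod m → Fin 3 ⊕ P.Own} {tc : ZMod m → Fin 4 ⊕ P.Own}
    (st : Struct L L0 P.wd P.ls A tl tc) (z : V → ZMod m) :
    ∑ τ, (P.Cl A z τ).card ≤ 11 * m := by
  classical
  let g : Fin 10 ⊕ P.Own → ℕ := Sum.elim (fun _ => m) (fun o => (A (.own o)).card)
  have hm : ∀ B : Finset (ZMod m), B.card ≤ m := fun B => (card_le_univ B).trans (ZMod.card m).le
  have h1 : ∀ τ, (P.Cl A z τ).card ≤ g (Cl.code τ) := by
    rintro ((_ | _) | (_ | _) | (_ | _) | _ | _ | _ | _ | w)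
    iterate 10 exact hm _
    refine card_le_card_of_injOn (fun x => x + z w.1) (fun x hx => ?_)
      (fun x _ y _ e => add_right_cancel e)
    exact mem_coe.2 (mem_filter.1 (mem_coe.1 hx)).2
  have h2 : ∑ τ, g (Cl.code τ) ≤ ∑ c, g c := by
    rw [← sum_image (s := univ) (g := Cl.code) (f := g) (Cl.code_inj.injOn)]
    exact sum_le_sum_of_subset (subset_univ _)
  have h3 : ∑ o : P.Own, (A (.own o)).card ≤ m := by
    rw [← card_biUnion]
    · exact hm _
    · intro o _ o' _ hne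
      refine disjoint_left.2 fun x a b => hne ?_
      exact Sum.inr.inj ((st.tc_own o x a).symm.trans (st.tc_own o' x b))
  have h4 : ∑ c, g c = 10 * m + ∑ o : P.Own, (A (.own o)).card := by
    rw [Fintype.sum_sum_type]; simp [g]
  have h5 := sum_le_sum (s := univ) fun τ _ => h1 τ
  omega

theorem card_Cn : Fintype.card (Cn P.Own) ≤ 2 * P.Hg.card + 10 := by
  have := Fintype.card_le_of_injective _ (Cl.code_inj (Own := P.Own))
  simp only [Fintype.card_sum, Fintype.card_fin, Fintype.card_prod, Fintype.card_coe,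
    Fintype.card_bool] at this
  omega

end Pre

end Pool.Agent.Lib.MP_5cebc8_co
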